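import Pool.Agent.Q86.FIB.MainA

/-!
# Convexity and the Hessian bound
-/

set_option autoImplicit false
set_option linter.unusedSectionVars false

namespace Pool.Agent.Q86.FIB

open MeasureTheory Set Filter Topology
open scoped ContDiff

section Hess

variable {X : Type} [NormedAddCommGroup X] [NormedSpace ℝ X]

theorem pd_pd_eq {f : X → ℝ} (hf : ContDiff ℝ 2 f) (u v : X) (x : X) :
    pd u (pd v f) x = fderiv ℝ (fderiv ℝ f) x u v := by
  have h1 : DifferentiableAt ℝ (fderiv ℝ f) x :=
    (hf.fderiv_right (m := 1) (by norm_num)).differentiable one_ne_zero x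
  have h := (h1.hasFDerivAt.clm_apply (hasFDerivAt_const v x)).fderiv
  have h3 : (fun y => (fderiv ℝ f y) v) = pd v f := rfl
  rw [h3] at h
  have h4 : pd u (pd v f) x = (fderiv ℝ (pd v f) x) u := rfl
  rw [h4, h]
  simp

/-- The second derivatives of a convex function are nonnegative. -/
theorem hess_nonneg {W : X → ℝ} (hW : ContDiff ℝ 2 W) (hc : ConvexOn ℝ univ W) (v x : X) :
    0 ≤ pd v (pd v W) x := by
  set g : ℝ → ℝ := fun s => W (x + s • v) with hg
  have hgc : ConvexOn ℝ univ g := by
    refine ⟨convex_univ, fun s _ t _ a b ha hb hab => ?_⟩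
    have h := hc.2 (mem_univ (x + s • v)) (mem_univ (x + t • v)) ha hb hab
    have e : a • (x + s • v) + b • (x + t • v) = x + (a • s + b • t) • v := by
      rw [smul_add, smul_add, smul_smul, smul_smul, smul_eq_mul, smul_eq_mul, add_smul]
      have : a • x + b • x = x := by rw [← add_smul, hab, one_smul]
      calc a • x + (a * s) • v + (b • x + (b * t) • v) = (a • x + b • x) +
          ((a * s) • v + (b * t) • v) := by abel
        _ = _ := by rw [this]
    rw [e] at h
    exact h
  have hl : ∀ s : ℝ, HasDerivAt (fun s : ℝ => x + s • v) v s := by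
    intro s
    have := ((hasDerivAt_id s).smul_const v).const_add x
    simpa using this
  have hd : ∀ (F : X → ℝ), ContDiff ℝ 1 F → ∀ s : ℝ,
      HasDerivAt (fun s => F (x + s • v)) (pd v F (x + s • v)) s := by
    intro F hF s
    exact ((diff1 hF (x + s • v)).hasFDerivAt).comp_hasDerivAt s (hl s)
  have h1 : ∀ s, HasDerivAt g (pd v W (x + s • v)) s := hd W (hW.of_le (by norm_num))
  have h2 : deriv g = fun s => pd v W (x + s • v) := funext fun s => (h1 s).deriv
  have h3 : Monotone (deriv g) := by
    have h4 := hgc.monotoneOn_deriv fun s _ => (h1 s).differentiableAt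
    exact fun s t hst => h4 (mem_univ s) (mem_univ t) hst
  have h5 : HasDerivAt (deriv g) (pd v (pd v W) (x + (0 : ℝ) • v)) 0 := by
    rw [h2]
    exact hd (pd v W) (pd_one hW v) 0
  have h6 := h3.deriv_nonneg (x := (0 : ℝ))
  rw [h5.deriv] at h6
  simpa using h6

/-- The form of the Hessian of a convex function is nonnegative on differences. -/
theorem hess_form {W : X → ℝ} (hW : ContDiff ℝ 2 W) (hc : ConvexOn ℝ univ W) {ι κ : Type}
    [Fintype ι] [Fintype κ] (u : ι → X) (v : κ → X) (α : ι → ℝ) (β : κ → ℝ) (x : X) :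
    0 ≤ (∑ a, ∑ b, pd (u a) (pd (u b) W) x * α a * α b) -
      2 * (∑ i, ∑ a, pd (v i) (pd (u a) W) x * α a * β i) +
      ∑ i, ∑ j, pd (v i) (pd (v j) W) x * β i * β j := by
  set B := fderiv ℝ (fderiv ℝ W) x with hB
  have hsymm : ∀ p q : X, B p q = B q p := by
    intro p q
    rw [hB, ← pd_pd_eq hW, ← pd_pd_eq hW, pd_comm hW]
  set U : X := ∑ a, α a • u a with hU
  set V : X := ∑ i, β i • v i with hV
  have h1 : 0 ≤ B (U - V) (U - V) := by
    rw [hB, ← pd_pd_eq hW]
    exact hess_nonneg hW hc _ _
  have h2 : B (U - V) (U - V) = B U U - 2 * B V U + B V V := by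
    simp only [map_sub, sub_apply]
    rw [hsymm U V]
    ring
  have h3 : B U U = ∑ a, ∑ b, pd (u a) (pd (u b) W) x * α a * α b := by
    simp_rw [pd_pd_eq hW]
    rw [hU]
    simp only [map_sum, map_smul, sum_apply, smul_apply, smul_eq_mul]
    rw [Finset.sum_comm]
    refine Finset.sum_congr rfl fun a _ => ?_
    rw [Finset.mul_sum]
    exact Finset.sum_congr rfl fun b _ => by ring
  have h4 : B V V = ∑ i, ∑ j, pd (v i) (pd (v j) W) x * β i * β j := by
    simp_rw [pd_pd_eq hW]
    rw [hV]
    simp only [map_sum, map_smul, sum_apply, smul_apply, smul_eq_mul]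
    rw [Finset.sum_comm]
    refine Finset.sum_congr rfl fun a _ => ?_
    rw [Finset.mul_sum]
    exact Finset.sum_congr rfl fun b _ => by ring
  have h5 : B V U = ∑ i, ∑ a, pd (v i) (pd (u a) W) x * α a * β i := by
    simp_rw [pd_pd_eq hW]
    rw [hU, hV]
    simp only [map_sum, map_smul, sum_apply, smul_apply, smul_eq_mul, Finset.mul_sum]
    rw [Finset.sum_comm]
    exact Finset.sum_congr rfl fun a _ => Finset.sum_congr rfl fun b _ => by ring
  rw [h2, h3, h4, h5] at h1
  exact h1

end Hess

end Pool.Agent.Q86.FIB
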