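import Pool.Agent.Q86.FIB.Conv

/-!
# Polynomial growth, rapid decrease, and integrals over fibres
-/

set_option autoImplicit false
set_option linter.unusedSectionVars false

namespace Pool.Agent.Q86.FIB

open MeasureTheory Set Filter Topology
open scoped ContDiff

section PB

variable {X F G : Type} [NormedAddCommGroup X] [NormedSpace ℝ X] [NormedAddCommGroup F]
  [NormedSpace ℝ F] [NormedAddCommGroup G] [NormedSpace ℝ G]

/-- polynomially bounded functions -/
def PB (h : X → F) : Prop := ∃ (m : ℕ) (C : ℝ), ∀ x, ‖h x‖ ≤ C * (1 + ‖x‖) ^ m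

/-- rapidly decreasing functions -/
def RD (w : X → F) : Prop := ∀ N : ℕ, ∃ C : ℝ, ∀ x, ‖w x‖ * (1 + ‖x‖) ^ N ≤ C

theorem PB.nonneg_const {h : X → F} (hh : PB h) :
    ∃ (m : ℕ) (C : ℝ), 0 ≤ C ∧ ∀ x, ‖h x‖ ≤ C * (1 + ‖x‖) ^ m := by
  obtain ⟨m, C, hC⟩ := hh
  refine ⟨m, |C|, abs_nonneg _, fun x => (hC x).trans ?_⟩
  exact mul_le_mul_of_nonneg_right (le_abs_self _) (by positivity)

theorem PB.of_htg {h : X → F} (hh : Function.HasTemperateGrowth h) : PB h := by
  obtain ⟨m, C, hC⟩ := hh.2 0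
  exact ⟨m, C, fun x => by simpa using hC x⟩

theorem PB.mul {f g : X → ℝ} (hf : PB f) (hg : PB g) : PB (fun x => f x * g x) := by
  obtain ⟨m, C, hC0, hC⟩ := hf.nonneg_const
  obtain ⟨m', C', hC0', hC'⟩ := hg.nonneg_const
  refine ⟨m + m', C * C', fun x => ?_⟩
  rw [norm_mul]
  calc ‖f x‖ * ‖g x‖ ≤ (C * (1 + ‖x‖) ^ m) * (C' * (1 + ‖x‖) ^ m') :=
        mul_le_mul (hC x) (hC' x) (norm_nonneg _) (by positivity)
    _ = _ := by rw [pow_add]; ring

theorem PB.add {f g : X → ℝ} (hf : PB f) (hg : PB g) : PB (fun x => f x + g x) := by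
  obtain ⟨m, C, hC0, hC⟩ := hf.nonneg_const
  obtain ⟨m', C', hC0', hC'⟩ := hg.nonneg_const
  refine ⟨m + m', C + C', fun x => ?_⟩
  have h1 : (1 : ℝ) ≤ 1 + ‖x‖ := by linarith [norm_nonneg x]
  calc ‖f x + g x‖ ≤ ‖f x‖ + ‖g x‖ := norm_add_le _ _
    _ ≤ C * (1 + ‖x‖) ^ m + C' * (1 + ‖x‖) ^ m' := add_le_add (hC x) (hC' x)
    _ ≤ C * (1 + ‖x‖) ^ (m + m') + C' * (1 + ‖x‖) ^ (m + m') :=
        add_le_add (mul_le_mul_of_nonneg_left (pow_le_pow_right₀ h1 (by omega)) hC0)
          (mul_le_mul_of_nonneg_left (pow_le_pow_right₀ h1 (by omega)) hC0')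
    _ = _ := by ring

theorem PB.neg {f : X → ℝ} (hf : PB f) : PB (fun x => - f x) := by
  obtain ⟨m, C, hC⟩ := hf
  exact ⟨m, C, fun x => by rw [norm_neg]; exact hC x⟩

theorem PB.sub {f g : X → ℝ} (hf : PB f) (hg : PB g) : PB (fun x => f x - g x) := by
  simp_rw [sub_eq_add_neg]
  exact hf.add hg.neg

theorem PB.const (c : ℝ) : PB (fun _ : X => c) := ⟨0, ‖c‖, fun x => by simp⟩

theorem PB.pow {f : X → ℝ} (hf : PB f) (n : ℕ) : PB (fun x => f x ^ n) := by
  induction n with
  | zero => simpa using PB.const 1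
  | succ n ih =>
    simp_rw [pow_succ]
    exact ih.mul hf

theorem PB.sum {ι : Type} (s : Finset ι) {f : ι → X → ℝ} (hf : ∀ i ∈ s, PB (f i)) :
    PB (fun x => ∑ i ∈ s, f i x) := by
  classical
  induction s using Finset.induction_on with
  | empty => simpa using PB.const 0
  | insert a s ha ih =>
    simp_rw [Finset.sum_insert ha]
    exact (hf a (Finset.mem_insert_self a s)).add
      (ih fun i hi => hf i (Finset.mem_insert_of_mem hi))

theorem PB.of_bdd {f : X → ℝ} {C : ℝ} (h : ∀ x, |f x| ≤ C) : PB f :=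
  ⟨0, C, fun x => by simpa using h x⟩

theorem PB.of_supp {f : X → ℝ} (hf : Continuous f) (hs : HasCompactSupport f) : PB f := by
  obtain ⟨C, hC⟩ := hs.exists_bound_of_continuous hf
  exact PB.of_bdd (C := C) fun x => hC x

theorem RD.smul {w : X → ℝ} {h : X → F} (hw : RD w) (hh : PB h) : RD (fun x => w x • h x) := by
  obtain ⟨m, C, hC0, hC⟩ := hh.nonneg_const
  intro N
  obtain ⟨D, hD⟩ := hw (N + m)
  refine ⟨D * C, fun x => ?_⟩
  rw [norm_smul]
  calc ‖w x‖ * ‖h x‖ * (1 + ‖x‖) ^ N ≤ ‖w x‖ * (C * (1 + ‖x‖) ^ m) * (1 + ‖x‖) ^ N := by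
        gcongr
        exact hC x
    _ = (‖w x‖ * (1 + ‖x‖) ^ (N + m)) * C := by rw [pow_add]; ring
    _ ≤ D * C := mul_le_mul_of_nonneg_right (hD x) hC0

theorem RD.mul {w h : X → ℝ} (hw : RD w) (hh : PB h) : RD (fun x => h x * w x) := by
  have h2 : (fun x => h x * w x) = fun x => w x • h x := by
    funext x
    rw [smul_eq_mul, mul_comm]
  rw [h2]
  exact hw.smul hh

/-- The weight of a function with linear growth. -/
theorem RD.exp {W : X → ℝ} {c b : ℝ} (hc : 0 < c) (h : ∀ x, c * ‖x‖ - b ≤ W x) :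
    RD (fun x => Real.exp (-W x)) := by
  intro N
  refine ⟨Real.exp (b + c) * (N.factorial / c ^ N), fun x => ?_⟩
  rw [Real.norm_of_nonneg (Real.exp_pos _).le]
  have h1 : (c * (1 + ‖x‖)) ^ N / N.factorial ≤ Real.exp (c * (1 + ‖x‖)) :=
    Real.pow_div_factorial_le_exp _ (by positivity) N
  have h2 : (1 + ‖x‖) ^ N ≤ Real.exp (c * (1 + ‖x‖)) * (N.factorial / c ^ N) := by
    rw [mul_pow, div_le_iff₀ (by positivity)] at h1
    rw [mul_div_assoc', le_div_iff₀ (by positivity)]
    linarith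
  calc Real.exp (-W x) * (1 + ‖x‖) ^ N
      ≤ Real.exp (b - c * ‖x‖) * (Real.exp (c * (1 + ‖x‖)) * (N.factorial / c ^ N)) := by
        refine mul_le_mul (Real.exp_le_exp.2 (by linarith [h x])) h2 (by positivity)
          (Real.exp_pos _).le
    _ = _ := by
        rw [← mul_assoc, ← Real.exp_add]
        congr 2
        ring

variable [FiniteDimensional ℝ X] [MeasurableSpace X] [BorelSpace X] (μ : Measure X)
  [μ.IsAddHaarMeasure]

theorem RD.bound {w : X → F} (hw : RD w) : ∃ C : ℝ, 0 ≤ C ∧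
    ∀ x, ‖w x‖ ≤ C * (1 + ‖x‖) ^ (-((Module.finrank ℝ X : ℝ) + 1)) := by
  obtain ⟨C, hC⟩ := hw (Module.finrank ℝ X + 1)
  have hC0 : 0 ≤ C := le_trans (by positivity) (hC 0)
  refine ⟨C, hC0, fun x => ?_⟩
  have h0 : (0 : ℝ) < 1 + ‖x‖ := by positivity
  have h1 : (1 + ‖x‖) ^ (-((Module.finrank ℝ X : ℝ) + 1)) =
      ((1 + ‖x‖) ^ (Module.finrank ℝ X + 1))⁻¹ := by
    rw [Real.rpow_neg h0.le]
    congr 1
    exact_mod_cast Real.rpow_natCast (1 + ‖x‖) (Module.finrank ℝ X + 1)
  rw [h1, ← div_eq_mul_inv, le_div_iff₀ (by positivity)]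
  exact hC x

theorem jap_int : Integrable (fun x : X => (1 + ‖x‖) ^ (-((Module.finrank ℝ X : ℝ) + 1))) μ :=
  integrable_one_add_norm (by linarith)

theorem RD.integrable {w : X → F} (hw : RD w) (hc : Continuous w) : Integrable w μ := by
  obtain ⟨C, -, hC⟩ := hw.bound
  exact ((jap_int μ).const_mul C).mono' hc.aestronglyMeasurable (Eventually.of_forall hC)

end PB

section Partial

variable {T Z F : Type} [NormedAddCommGroup T] [NormedSpace ℝ T]
  [NormedAddCommGroup Z] [NormedSpace ℝ Z] [FiniteDimensional ℝ Z]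
  [MeasurableSpace Z] [BorelSpace Z] (ν : Measure Z) [ν.IsAddHaarMeasure]
  [NormedAddCommGroup F] [NormedSpace ℝ F]

theorem RD.bound_right {H : T × Z → F} (hH : RD H) : ∃ C : ℝ, 0 ≤ C ∧
    ∀ t z, ‖H (t, z)‖ ≤ C * (1 + ‖z‖) ^ (-((Module.finrank ℝ Z : ℝ) + 1)) := by
  obtain ⟨C, hC⟩ := hH (Module.finrank ℝ Z + 1)
  have hC0 : 0 ≤ C := le_trans (by positivity) (hC 0)
  refine ⟨C, hC0, fun t z => ?_⟩
  have h0 : (0 : ℝ) < 1 + ‖z‖ := by positivity
  have h1 : (1 + ‖z‖) ^ (-((Module.finrank ℝ Z : ℝ) + 1)) =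
      ((1 + ‖z‖) ^ (Module.finrank ℝ Z + 1))⁻¹ := by
    rw [Real.rpow_neg h0.le]
    congr 1
    exact_mod_cast Real.rpow_natCast (1 + ‖z‖) (Module.finrank ℝ Z + 1)
  rw [h1, ← div_eq_mul_inv, le_div_iff₀ (by positivity)]
  refine le_trans ?_ (hC (t, z))
  gcongr
  exact norm_snd_le (t, z)

theorem RD.slice {H : T × Z → F} (hH : RD H) (hc : Continuous H) (t : T) :
    Integrable (fun z => H (t, z)) ν := by
  obtain ⟨C, -, hC⟩ := hH.bound_right
  exact ((jap_int ν).const_mul C).mono' (hc.comp (Continuous.prodMk_right t)).aestronglyMeasurable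
    (Eventually.of_forall (hC t))

/-- Partial integrals of rapidly decreasing continuous functions are continuous. -/
theorem RD.cont {H : T × Z → F} (hH : RD H) (hc : Continuous H) :
    Continuous (fun t => ∫ z, H (t, z) ∂ν) := by
  obtain ⟨C, -, hC⟩ := hH.bound_right
  refine continuous_of_dominated (bound := fun z =>
    C * (1 + ‖z‖) ^ (-((Module.finrank ℝ Z : ℝ) + 1))) (fun t => ?_) (fun t => ?_)
    ((jap_int ν).const_mul C) (Eventually.of_forall fun z => ?_)
  · exact (hc.comp (Continuous.prodMk_right t)).aestronglyMeasurable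
  · exact Eventually.of_forall (hC t)
  · exact hc.comp (Continuous.prodMk_left z)

/-- Partial integrals are differentiable. -/
theorem RD.hasFDerivAt {H : T × Z → F} (hH : RD H) (hc : ContDiff ℝ 1 H)
    (hD : RD (fderiv ℝ H)) (t : T) :
    HasFDerivAt (fun t => ∫ z, H (t, z) ∂ν)
      (∫ z, (fderiv ℝ H (t, z)).comp (ContinuousLinearMap.inl ℝ T Z) ∂ν) t := by
  obtain ⟨C, -, hC⟩ := hD.bound_right
  have hDc : Continuous (fderiv ℝ H) := hc.continuous_fderiv one_ne_zero
  have hcl : Continuous (fun x : T × Z => (fderiv ℝ H x).comp (ContinuousLinearMap.inl ℝ T Z)) :=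
    hDc.clm_comp continuous_const
  refine hasFDerivAt_integral_of_dominated_of_fderiv_le (s := univ)
    (F' := fun t z => (fderiv ℝ H (t, z)).comp (ContinuousLinearMap.inl ℝ T Z))
    (bound := fun z => C * (1 + ‖z‖) ^ (-((Module.finrank ℝ Z : ℝ) + 1))) univ_mem
    (Eventually.of_forall fun t => ?_) (hH.slice ν hc.continuous t) ?_
    (Eventually.of_forall fun z t _ => ?_) ((jap_int ν).const_mul C)
    (Eventually.of_forall fun z t _ => ?_)
  · exact (hc.continuous.comp (Continuous.prodMk_right t)).aestronglyMeasurable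
  · exact (hcl.comp (Continuous.prodMk_right t)).aestronglyMeasurable
  · refine le_trans ?_ (hC t z)
    refine (ContinuousLinearMap.opNorm_comp_le _ _).trans ?_
    exact mul_le_of_le_one_right (norm_nonneg _) (ContinuousLinearMap.norm_inl_le_one ℝ T Z)
  · have h1 : HasFDerivAt (fun t : T => ((t, z) : T × Z)) (ContinuousLinearMap.inl ℝ T Z) t := by
      exact (hasFDerivAt_id t).prodMk (hasFDerivAt_const z t)
    exact ((hc.differentiable one_ne_zero (t, z)).hasFDerivAt).comp t h1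

end Partial

section Smooth

variable {T Z : Type} [NormedAddCommGroup T] [NormedSpace ℝ T]
  [NormedAddCommGroup Z] [NormedSpace ℝ Z] [FiniteDimensional ℝ Z]
  [MeasurableSpace Z] [BorelSpace Z] (ν : Measure Z) [ν.IsAddHaarMeasure]

theorem htg_fderiv {X F : Type} [NormedAddCommGroup X] [NormedSpace ℝ X] [NormedAddCommGroup F]
    [NormedSpace ℝ F] {f : X → F} (hf : Function.HasTemperateGrowth f) :
    Function.HasTemperateGrowth (fderiv ℝ f) := by
  refine ⟨hf.1.fderiv_right (m := ∞) (by simp), fun n => ?_⟩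
  obtain ⟨k, C, h⟩ := hf.2 (n + 1)
  refine ⟨k, C, fun x => ?_⟩
  rw [norm_iteratedFDeriv_fderiv]
  exact h x

/-- The derivative of `exp (-W) • h`. -/
noncomputable def dh {X F : Type} [NormedAddCommGroup X] [NormedSpace ℝ X] [NormedAddCommGroup F]
    [NormedSpace ℝ F] (W : X → ℝ) (h : X → F) (x : X) : X →L[ℝ] F :=
  fderiv ℝ h x - (fderiv ℝ W x).smulRight (h x)

theorem dh_htg {X F : Type} [NormedAddCommGroup X] [NormedSpace ℝ X] [NormedAddCommGroup F]
    [NormedSpace ℝ F] {W : X → ℝ} {h : X → F} (hW : Function.HasTemperateGrowth W)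
    (hh : Function.HasTemperateGrowth h) : Function.HasTemperateGrowth (dh W h) := by
  have h1 := htg_fderiv hh
  have h2 := (ContinuousLinearMap.smulRightL ℝ X F).bilinear_hasTemperateGrowth (htg_fderiv hW) hh
  exact h1.sub h2

theorem fderiv_wh {X F : Type} [NormedAddCommGroup X] [NormedSpace ℝ X] [NormedAddCommGroup F]
    [NormedSpace ℝ F] {W : X → ℝ} {h : X → F} (hW : Function.HasTemperateGrowth W)
    (hh : Function.HasTemperateGrowth h) :
    fderiv ℝ (fun x => Real.exp (-W x) • h x) = fun x => Real.exp (-W x) • dh W h x := by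
  funext x
  have h1 : HasFDerivAt (fun x => Real.exp (-W x)) (Real.exp (-W x) • (-(fderiv ℝ W x))) x := by
    have h2 : HasFDerivAt (fun x => -W x) (-(fderiv ℝ W x)) x :=
      ((hW.1.differentiable (by simp) x).hasFDerivAt).neg
    exact h2.exp
  have h3 : fderiv ℝ (fun x => Real.exp (-W x) • h x) x = _ :=
    (h1.smul ((hh.1.differentiable (by simp) x).hasFDerivAt)).fderiv
  rw [h3]
  ext v
  simp only [dh, add_apply, smul_apply, ContinuousLinearMap.smulRight_apply, sub_apply,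
    neg_apply, smul_eq_mul, smul_sub, smul_smul]
  rw [mul_neg, neg_smul]
  abel

theorem smooth_wh {X F : Type} [NormedAddCommGroup X] [NormedSpace ℝ X] [NormedAddCommGroup F]
    [NormedSpace ℝ F] {W : X → ℝ} {h : X → F} (hW : Function.HasTemperateGrowth W)
    (hh : Function.HasTemperateGrowth h) : ContDiff ℝ ∞ (fun x => Real.exp (-W x) • h x) :=
  (hW.1.neg.exp).smul hh.1

theorem parint_fderiv {F : Type} [NormedAddCommGroup F] [NormedSpace ℝ F] {W : T × Z → ℝ}
    {h : T × Z → F} (hW : Function.HasTemperateGrowth W) (hw : RD (fun x => Real.exp (-W x)))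
    (hh : Function.HasTemperateGrowth h) (t : T) :
    HasFDerivAt (fun t => ∫ z, Real.exp (-W (t, z)) • h (t, z) ∂ν)
      (∫ z, Real.exp (-W (t, z)) • (dh W h (t, z)).comp (ContinuousLinearMap.inl ℝ T Z) ∂ν) t := by
  have h1 : RD (fun x => Real.exp (-W x) • h x) := hw.smul (PB.of_htg hh)
  have h2 : RD (fderiv ℝ (fun x => Real.exp (-W x) • h x)) := by
    rw [fderiv_wh hW hh]
    exact hw.smul (PB.of_htg (dh_htg hW hh))
  have h3 := h1.hasFDerivAt ν ((smooth_wh hW hh).of_le (by simp)) h2 t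
  rw [fderiv_wh hW hh] at h3
  simp_rw [ContinuousLinearMap.smul_comp] at h3
  exact h3

/-- Partial integrals of `exp (-W) • h` are smooth. -/
theorem parint_smooth (n : ℕ) : ∀ {F : Type} [NormedAddCommGroup F] [NormedSpace ℝ F]
    {W : T × Z → ℝ} {h : T × Z → F}, Function.HasTemperateGrowth W →
    RD (fun x => Real.exp (-W x)) → Function.HasTemperateGrowth h →
    ContDiff ℝ n (fun t => ∫ z, Real.exp (-W (t, z)) • h (t, z) ∂ν) := by
  induction n with
  | zero =>
    intro F _ _ W h hW hw hh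
    rw [Nat.cast_zero, contDiff_zero]
    exact (hw.smul (PB.of_htg hh)).cont ν (smooth_wh hW hh).continuous
  | succ n ih =>
    intro F _ _ W h hW hw hh
    have h1 := parint_fderiv ν hW hw hh
    have h2 : Function.HasTemperateGrowth (fun x : T × Z =>
        (dh W h x).comp (ContinuousLinearMap.inl ℝ T Z)) := by
      have h3 := ((ContinuousLinearMap.compL ℝ T (T × Z) F).flip
        (ContinuousLinearMap.inl ℝ T Z)).hasTemperateGrowth
      exact h3.comp (dh_htg hW hh)
    rw [Nat.cast_succ, contDiff_succ_iff_fderiv]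
    refine ⟨fun t => (h1 t).differentiableAt, by simp, ?_⟩
    have h4 : fderiv ℝ (fun t => ∫ z, Real.exp (-W (t, z)) • h (t, z) ∂ν) = fun t =>
        ∫ z, Real.exp (-W (t, z)) • (dh W h (t, z)).comp (ContinuousLinearMap.inl ℝ T Z) ∂ν := by
      funext t
      exact (h1 t).fderiv
    rw [h4]
    exact ih hW hw h2

theorem parint_smooth_infty {F : Type} [NormedAddCommGroup F] [NormedSpace ℝ F]
    {W : T × Z → ℝ} {h : T × Z → F} (hW : Function.HasTemperateGrowth W)
    (hw : RD (fun x => Real.exp (-W x))) (hh : Function.HasTemperateGrowth h) :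
    ContDiff ℝ ∞ (fun t => ∫ z, Real.exp (-W (t, z)) • h (t, z) ∂ν) :=
  contDiff_infty.2 fun n => parint_smooth ν n hW hw hh

end Smooth

end Pool.Agent.Q86.FIB
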