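import Pool.Agent.Q86.FIB.DLb

/-!
# The density lemma
-/

set_option autoImplicit false
set_option linter.unusedSectionVars false

namespace Pool.Agent.Q86.FIB

open MeasureTheory Set Filter Topology
open scoped ContDiff

variable {E : Type} [NormedAddCommGroup E] [NormedSpace ℝ E] [FiniteDimensional ℝ E]
  [MeasurableSpace E] [BorelSpace E] (μ : Measure E) [μ.IsAddHaarMeasure]
variable {ι : Type} [Fintype ι] (e : ι → E)

/-- A family of cutoff functions. -/
theorem exists_cut : ∃ M : ℝ, 0 ≤ M ∧ ∀ r : ℝ, 1 ≤ r → ∃ χ : E → ℝ, ContDiff ℝ ∞ χ ∧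
    HasCompactSupport χ ∧ (∀ x, 0 ≤ χ x) ∧ (∀ x, χ x ≤ 1) ∧ (∀ x, ‖x‖ ≤ r → χ x = 1) ∧
    ∀ x, ∑ i, (pd (e i) χ x) ^ 2 ≤ M / r ^ 2 := by
  let b : ContDiffBump (0 : E) := ⟨1, 2, one_pos, one_lt_two⟩
  have hb : ContDiff ℝ ∞ b := b.contDiff
  have hbs : HasCompactSupport b := b.hasCompactSupport
  have hc : Continuous (fun x => ∑ i, (pd (e i) b x) ^ 2) :=
    continuous_finsetSum _ fun i _ => (pd_smooth hb _).continuous.pow 2
  have hcs : HasCompactSupport (fun x => ∑ i, (pd (e i) b x) ^ 2) := by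
    refine cs_sum _ fun i _ => ?_
    simp_rw [pow_two]
    exact (pd_supp hbs _).mul_right
  obtain ⟨M, hM⟩ := hcs.exists_bound_of_continuous hc
  have hM0 : 0 ≤ M := le_trans (norm_nonneg _) (hM 0)
  refine ⟨M, hM0, fun r hr => ?_⟩
  have hr0 : (0 : ℝ) < r := by linarith
  refine ⟨fun x => b (r⁻¹ • x), hb.comp (contDiff_const.smul contDiff_id), ?_,
    fun x => b.nonneg, fun x => b.le_one, ?_, ?_⟩
  · have h1 : (fun x : E => b (r⁻¹ • x)) = b ∘ (Homeomorph.smulOfNeZero r⁻¹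
      (inv_ne_zero hr0.ne')) := rfl
    rw [h1]
    exact hbs.comp_homeomorph _
  · intro x hx
    refine b.one_of_mem_closedBall ?_
    simp only [Metric.mem_closedBall, dist_zero_right, norm_smul, norm_inv]
    rw [Real.norm_of_nonneg hr0.le, inv_mul_le_iff₀ hr0]
    show ‖x‖ ≤ r * 1
    linarith
  · intro x
    have h1 : ∀ v : E, pd v (fun x => b (r⁻¹ • x)) x = r⁻¹ * pd v b (r⁻¹ • x) := by
      intro v
      have h2 : HasFDerivAt (fun x : E => r⁻¹ • x) (r⁻¹ • ContinuousLinearMap.id ℝ E) x :=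
        (hasFDerivAt_id (𝕜 := ℝ) x).const_smul r⁻¹
      have h3 := ((diff1 (sm1 hb) (r⁻¹ • x)).hasFDerivAt).comp x h2
      have h4 : (fun x => b (r⁻¹ • x)) = b ∘ (fun x : E => r⁻¹ • x) := rfl
      unfold pd
      rw [h4, h3.fderiv]
      simp
    simp_rw [h1, mul_pow]
    rw [← Finset.mul_sum, div_eq_inv_mul, inv_pow]
    refine mul_le_mul_of_nonneg_left ?_ (by positivity)
    have := hM (r⁻¹ • x)
    rw [Real.norm_eq_abs] at this
    exact (le_abs_self _).trans this

/-- Functions orthogonal to the range are orthogonal to `R`. -/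
theorem ortho_zero {W R k : E → ℝ} (hW : ContDiff ℝ ∞ W) (hR : Continuous R)
    (hR2 : Integrable (fun x => R x ^ 2 * Real.exp (-W x)) μ) {A : ℝ} (hA : 0 ≤ A)
    (hyp : ∀ φ : E → ℝ, ContDiff ℝ ∞ φ → HasCompactSupport φ →
      (∫ x, φ x * R x * Real.exp (-W x) ∂μ) ^ 2 ≤
        A * ∫ x, (∑ i, (pd (e i) φ x) ^ 2) * Real.exp (-W x) ∂μ)
    (hk : MemLp k 2 μ)
    (horth : ∀ Φ : E → ℝ, ContDiff ℝ ∞ Φ → HasCompactSupport Φ →
      ∫ x, k x * (Lop e W Φ x * Real.exp (-(1 / 2 * W x))) ∂μ = 0) :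
    ∫ x, k x * (R x * Real.exp (-(1 / 2 * W x))) ∂μ = 0 := by
  have hk2 : Integrable (fun x => k x ^ 2) μ := (memLp_two_iff_integrable_sq hk.1).1 hk
  have hkm := hk.1
  have hkl : LocallyIntegrable k μ := hk.locallyIntegrable (by norm_num)
  set K := ∫ x, k x ^ 2 ∂μ with hKdef
  have hK0 : 0 ≤ K := integral_nonneg fun x => sq_nonneg _
  set s : E → ℝ := fun x => Real.exp (-(1 / 2 * W x)) with hs_def
  have hsc : Continuous s := ((contDiff_const.mul hW).neg.exp).continuous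
  have hss : ∀ x, s x * s x = Real.exp (-W x) := by
    intro x
    rw [hs_def]
    simp only
    rw [← Real.exp_add]
    congr 1
    ring
  have hsp : ∀ x, Real.exp (1 / 2 * W x) * s x = 1 := by
    intro x
    rw [hs_def]
    simp only
    rw [← Real.exp_add, add_neg_cancel, Real.exp_zero]
  -- the estimate for one cutoff
  have step : ∀ χ : E → ℝ, ContDiff ℝ ∞ χ → HasCompactSupport χ → (∀ x, |χ x| ≤ 1) →
      ∀ M : ℝ, (∀ x, ∑ i, (pd (e i) χ x) ^ 2 ≤ M) →
      |∫ x, k x * (χ x * (R x * s x)) ∂μ| ≤ Real.sqrt (A * (M * K)) := by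
    intro χ hχ hχs hχ1 M hM
    have hM0 : 0 ≤ M := le_trans (Finset.sum_nonneg fun i _ => sq_nonneg _) (hM 0)
    have hjc : Continuous (fun x => χ x * (R x * s x)) := hχ.continuous.mul (hR.mul hsc)
    have hjs : HasCompactSupport (fun x => χ x * (R x * s x)) := hχs.mul_right
    have key : ∀ η : ℝ, 0 < η → |∫ x, k x * (χ x * (R x * s x)) ∂μ| ≤
        Real.sqrt (A * ((M + η) * K)) + η := by
      intro η hη
      obtain ⟨δ₁, hδ₁, hw⟩ := weak_lim μ hkl hjc hjs hη
      -- uniform continuity of the potential near the support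
      obtain ⟨δ₂, hδ₂, hU⟩ : ∃ δ₂ : ℝ, 0 < δ₂ ∧ ∀ x y, χ x ≠ 0 → ‖x - y‖ < δ₂ →
          |Uf e W x - Uf e W y| ≤ η := by
        have hcomp : IsCompact (Metric.cthickening 1 (tsupport χ)) := IsCompact.cthickening hχs
        have h1 := (hcomp.uniformContinuousOn_of_continuous (Uf_cont e hW).continuousOn)
        rw [Metric.uniformContinuousOn_iff] at h1
        obtain ⟨δ, hδ, h2⟩ := h1 η hη
        refine ⟨min δ 1, lt_min hδ one_pos, fun x y hx hxy => ?_⟩
        have h3 : x ∈ tsupport χ := subset_tsupport _ (Function.mem_support.2 hx)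
        have h4 : x ∈ Metric.cthickening 1 (tsupport χ) := Metric.self_subset_cthickening _ h3
        have h5 : y ∈ Metric.cthickening 1 (tsupport χ) := by
          refine Metric.mem_cthickening_of_dist_le y x 1 _ h3 ?_
          rw [dist_comm, dist_eq_norm]
          exact (hxy.le).trans (min_le_right _ _)
        have h6 := h2 x h4 y h5 (by
          rw [dist_eq_norm]
          exact lt_of_lt_of_le hxy (min_le_left _ _))
        rw [Real.dist_eq] at h6
        exact h6.le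
      obtain ⟨ρ, hρ⟩ := exists_moll μ (lt_min hδ₁ hδ₂)
      have hU' : ∀ x y, χ x ≠ 0 → ‖x - y‖ < min δ₁ δ₂ → |Uf e W x - Uf e W y| ≤ η :=
        fun x y hx hxy => hU x y hx (lt_of_lt_of_le hxy (min_le_right _ _))
      have hE := energy_bound μ e hW hk2 hkm horth hχ hχs hχ1 hM hη.le hU' hρ
      have hκ := cv_smooth μ hkl hρ.smooth hρ.supp
      have hφ : ContDiff ℝ ∞ (fun x => Real.exp (1 / 2 * W x) * (χ x * cv μ k ρ x)) :=
        (half_smooth hW).mul (hχ.mul hκ)
      have hφs : HasCompactSupport (fun x => Real.exp (1 / 2 * W x) * (χ x * cv μ k ρ x)) :=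
        hχs.mul_right.mul_left
      have h1 := hyp _ hφ hφs
      have h2 : ∀ x, Real.exp (1 / 2 * W x) * (χ x * cv μ k ρ x) * R x * Real.exp (-W x) =
          cv μ k ρ x * (χ x * (R x * s x)) := by
        intro x
        rw [← hss]
        calc _ = (Real.exp (1 / 2 * W x) * s x) * (cv μ k ρ x * (χ x * (R x * s x))) := by ring
          _ = _ := by rw [hsp, one_mul]
      have h3 : ∀ x, (∑ i, (pd (e i) (fun x => Real.exp (1 / 2 * W x) *
          (χ x * cv μ k ρ x)) x) ^ 2) * Real.exp (-W x) =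
          ∑ i, (pd (e i) (fun x => χ x * cv μ k ρ x) x +
            1 / 2 * pd (e i) W x * (χ x * cv μ k ρ x)) ^ 2 := by
        intro x
        rw [Finset.sum_mul]
        refine Finset.sum_congr rfl fun i _ => ?_
        rw [pd_mul (sm1 (half_smooth hW)) (sm1 (hχ.mul hκ)), pd_half hW, ← hss]
        calc _ = (Real.exp (1 / 2 * W x) * s x) ^ 2 * (pd (e i) (fun x => χ x * cv μ k ρ x) x +
            1 / 2 * pd (e i) W x * (χ x * cv μ k ρ x)) ^ 2 := by ring
          _ = _ := by rw [hsp]; ring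
      simp_rw [h2, h3] at h1
      have h4 : (∫ x, cv μ k ρ x * (χ x * (R x * s x)) ∂μ) ^ 2 ≤ A * ((M + η) * K) :=
        h1.trans (mul_le_mul_of_nonneg_left hE hA)
      have h5 := Real.abs_le_sqrt h4
      have h6 := hw _ ρ (min_le_left _ _) hρ
      have h7 : |∫ x, k x * (χ x * (R x * s x)) ∂μ| ≤
          |∫ x, cv μ k ρ x * (χ x * (R x * s x)) ∂μ| +
          |∫ x, cv μ k ρ x * (χ x * (R x * s x)) ∂μ - ∫ x, k x * (χ x * (R x * s x)) ∂μ| := by
        have h8 := abs_sub_abs_le_abs_sub (∫ x, k x * (χ x * (R x * s x)) ∂μ)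
          (∫ x, cv μ k ρ x * (χ x * (R x * s x)) ∂μ)
        rw [abs_sub_comm] at h8
        linarith
      linarith
    have hlim : Tendsto (fun η : ℝ => Real.sqrt (A * ((M + η) * K)) + η) (𝓝[>] 0)
        (𝓝 (Real.sqrt (A * ((M + 0) * K)) + 0)) := by
      refine Tendsto.mono_left ?_ nhdsWithin_le_nhds
      exact ((Real.continuous_sqrt.comp (continuous_const.mul ((continuous_const.add
        continuous_id).mul continuous_const))).add continuous_id).tendsto 0
    rw [add_zero, add_zero] at hlim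
    exact ge_of_tendsto hlim (eventually_nhdsWithin_of_forall fun η hη => key η hη)
  -- cutoffs
  obtain ⟨M, hM0, hcut⟩ := exists_cut (E := E) e
  choose! χ hχ hχs hχ0 hχ1 hχr hχM using hcut
  have hr2 : MemLp (fun x => R x * s x) 2 μ := by
    refine (memLp_two_iff_integrable_sq (hR.mul hsc).aestronglyMeasurable).2 ?_
    refine hR2.congr (Eventually.of_forall fun x => ?_)
    show R x ^ 2 * Real.exp (-W x) = (R x * s x) ^ 2
    rw [mul_pow, pow_two (s x), hss]
  have hki : Integrable (fun x => k x * (R x * s x)) μ := hk.integrable_mul hr2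
  have hlim1 : Tendsto (fun n : ℕ => ∫ x, k x * (χ ((n : ℝ) + 1) x * (R x * s x)) ∂μ) atTop
      (𝓝 (∫ x, k x * (R x * s x) ∂μ)) := by
    refine tendsto_integral_of_dominated_convergence (fun x => |k x * (R x * s x)|) (fun n => ?_)
      hki.abs (fun n => Eventually.of_forall fun x => ?_) (Eventually.of_forall fun x => ?_)
    · exact hkm.mul ((hχ _ (by linarith [(Nat.cast_nonneg n : (0:ℝ) ≤ n)])).continuous.mul
        (hR.mul hsc)).aestronglyMeasurable
    · have hn : (1 : ℝ) ≤ (n : ℝ) + 1 := by linarith [(Nat.cast_nonneg n : (0:ℝ) ≤ n)]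
      rw [Real.norm_eq_abs]
      have h1 : k x * (χ ((n : ℝ) + 1) x * (R x * s x)) =
          χ ((n : ℝ) + 1) x * (k x * (R x * s x)) := by ring
      rw [h1, abs_mul, abs_of_nonneg (hχ0 _ hn x)]
      exact mul_le_of_le_one_left (abs_nonneg _) (hχ1 _ hn x)
    · refine tendsto_const_nhds.congr' ?_
      filter_upwards [eventually_ge_atTop ⌈‖x‖⌉₊] with n hn
      have hn1 : (1 : ℝ) ≤ (n : ℝ) + 1 := by linarith [(Nat.cast_nonneg n : (0:ℝ) ≤ n)]
      have h1 : ‖x‖ ≤ (n : ℝ) + 1 := by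
        have h2 : ‖x‖ ≤ (⌈‖x‖⌉₊ : ℝ) := Nat.le_ceil _
        have h3 : (⌈‖x‖⌉₊ : ℝ) ≤ (n : ℝ) := by exact_mod_cast hn
        linarith
      rw [hχr _ hn1 x h1, one_mul]
  have hlim2 : Tendsto (fun n : ℕ => Real.sqrt (A * (M / ((n : ℝ) + 1) ^ 2 * K))) atTop
      (𝓝 0) := by
    have h1 : Tendsto (fun n : ℕ => (n : ℝ) + 1) atTop atTop :=
      tendsto_atTop_add_const_right _ _ tendsto_natCast_atTop_atTop
    have h2 : Tendsto (fun n : ℕ => M / ((n : ℝ) + 1) ^ 2) atTop (𝓝 0) :=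
      Tendsto.const_div_atTop ((tendsto_pow_atTop two_ne_zero).comp h1) M
    have h3 := ((h2.mul_const K).const_mul A)
    simp only [zero_mul, mul_zero] at h3
    have h4 := (Real.continuous_sqrt.tendsto 0).comp h3
    rw [Real.sqrt_zero] at h4
    exact h4
  have hfin : |∫ x, k x * (R x * s x) ∂μ| ≤ 0 := by
    refine le_of_tendsto_of_tendsto hlim1.abs hlim2 (Eventually.of_forall fun n => ?_)
    have hn : (1 : ℝ) ≤ (n : ℝ) + 1 := by linarith [(Nat.cast_nonneg n : (0:ℝ) ≤ n)]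
    exact step _ (hχ _ hn) (hχs _ hn) (fun x => by
      rw [abs_of_nonneg (hχ0 _ hn x)]
      exact hχ1 _ hn x) _ (hχM _ hn)
  exact abs_eq_zero.1 (le_antisymm hfin (abs_nonneg _))

/-- **Density lemma.** -/
theorem density {W R : E → ℝ} (hW : ContDiff ℝ ∞ W) (hR : Continuous R)
    (hR2 : Integrable (fun x => R x ^ 2 * Real.exp (-W x)) μ) {A : ℝ} (hA : 0 ≤ A)
    (hyp : ∀ φ : E → ℝ, ContDiff ℝ ∞ φ → HasCompactSupport φ →
      (∫ x, φ x * R x * Real.exp (-W x) ∂μ) ^ 2 ≤
        A * ∫ x, (∑ i, (pd (e i) φ x) ^ 2) * Real.exp (-W x) ∂μ)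
    {ε : ℝ} (hε : 0 < ε) :
    ∃ Φ : E → ℝ, ContDiff ℝ ∞ Φ ∧ HasCompactSupport Φ ∧
      ∫ x, (R x + Lop e W Φ x) ^ 2 * Real.exp (-W x) ∂μ < ε := by
  set s : E → ℝ := fun x => Real.exp (-(1 / 2 * W x)) with hs_def
  have hsc : Continuous s := ((contDiff_const.mul hW).neg.exp).continuous
  have hss : ∀ x, s x * s x = Real.exp (-W x) := by
    intro x
    rw [hs_def]
    simp only
    rw [← Real.exp_add]
    congr 1
    ring
  have hr2 : MemLp (fun x => R x * s x) 2 μ := by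
    refine (memLp_two_iff_integrable_sq (hR.mul hsc).aestronglyMeasurable).2 ?_
    refine hR2.congr (Eventually.of_forall fun x => ?_)
    show R x ^ 2 * Real.exp (-W x) = (R x * s x) ^ 2
    rw [mul_pow, pow_two (s x), hss]
  have hL2 : ∀ Φ : E → ℝ, ContDiff ℝ ∞ Φ → HasCompactSupport Φ →
      MemLp (fun x => Lop e W Φ x * s x) 2 μ := by
    intro Φ hΦ hΦs
    exact ((Lop_smooth e hW hΦ).continuous.mul hsc).memLp_of_hasCompactSupport
      (Lop_supp e hΦs).mul_right
  have Ladd : ∀ Φ Ψ : E → ℝ, ContDiff ℝ ∞ Φ → ContDiff ℝ ∞ Ψ → ∀ x,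
      Lop e W (fun x => Φ x + Ψ x) x = Lop e W Φ x + Lop e W Ψ x := by
    intro Φ Ψ h1 h2 x
    unfold Lop
    rw [← Finset.sum_add_distrib]
    refine Finset.sum_congr rfl fun i _ => ?_
    have h3 : pd (e i) (fun x => Φ x + Ψ x) = fun x => pd (e i) Φ x + pd (e i) Ψ x := by
      funext y
      exact pd_add (sm1 h1) (sm1 h2) _ _
    rw [h3, pd_add (sm1 (pd_smooth h1 _)) (sm1 (pd_smooth h2 _))]
    ring
  have Lsmul : ∀ (c : ℝ) (Φ : E → ℝ), ContDiff ℝ ∞ Φ → ∀ x,
      Lop e W (fun x => c * Φ x) x = c * Lop e W Φ x := by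
    intro c Φ h1 x
    unfold Lop
    rw [Finset.mul_sum]
    refine Finset.sum_congr rfl fun i _ => ?_
    have h3 : pd (e i) (fun x => c * Φ x) = fun x => c * pd (e i) Φ x := by
      funext y
      exact pd_const_mul (sm1 h1) _ _ _
    rw [h3, pd_const_mul (sm1 (pd_smooth h1 _))]
    ring
  -- the range as a submodule
  let S : Submodule ℝ (Lp ℝ 2 μ) :=
    { carrier := {h | ∃ Φ : E → ℝ, ContDiff ℝ ∞ Φ ∧ HasCompactSupport Φ ∧
        (h : E → ℝ) =ᵐ[μ] fun x => Lop e W Φ x * s x}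
      add_mem' := by
        rintro a b ⟨Φ, h1, h2, h3⟩ ⟨Ψ, h4, h5, h6⟩
        refine ⟨fun x => Φ x + Ψ x, h1.add h4, h2.add h5, ?_⟩
        filter_upwards [Lp.coeFn_add a b, h3, h6] with x g1 g2 g3
        rw [g1, Pi.add_apply, g2, g3, Ladd Φ Ψ h1 h4]
        ring
      zero_mem' := by
        refine ⟨fun _ => 0, contDiff_const, HasCompactSupport.zero, ?_⟩
        filter_upwards [Lp.coeFn_zero ℝ 2 μ] with x g1
        rw [g1]
        have h3 := Lsmul 0 (fun _ => (0 : ℝ)) contDiff_const x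
        simp only [zero_mul] at h3
        rw [h3, zero_mul]
        rfl
      smul_mem' := by
        rintro c a ⟨Φ, h1, h2, h3⟩
        refine ⟨fun x => c * Φ x, contDiff_const.mul h1, h2.mul_left, ?_⟩
        filter_upwards [Lp.coeFn_smul c a, h3] with x g1 g2
        rw [g1, Pi.smul_apply, g2, Lsmul c Φ h1, smul_eq_mul]
        ring }
  set r : Lp ℝ 2 μ := hr2.toLp _ with hr_def
  have hcomp : IsComplete (S.topologicalClosure : Set (Lp ℝ 2 μ)) :=
    S.isClosed_topologicalClosure.isComplete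
  have : CompleteSpace S.topologicalClosure := hcomp.completeSpace_coe
  set k : Lp ℝ 2 μ := r - S.topologicalClosure.starProjection r with hk_def
  have hkperp : k ∈ S.topologicalClosureᗮ := Submodule.sub_starProjection_mem_orthogonal r
  have hkmem : MemLp (k : E → ℝ) 2 μ := Lp.memLp k
  have horth : ∀ Φ : E → ℝ, ContDiff ℝ ∞ Φ → HasCompactSupport Φ →
      ∫ x, k x * (Lop e W Φ x * Real.exp (-(1 / 2 * W x))) ∂μ = 0 := by
    intro Φ h1 h2
    have h3 : (hL2 Φ h1 h2).toLp _ ∈ S := ⟨Φ, h1, h2, MemLp.coeFn_toLp _⟩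
    have h4 : (hL2 Φ h1 h2).toLp _ ∈ S.topologicalClosure := S.le_topologicalClosure h3
    have h5 := (Submodule.mem_orthogonal _ _).1 hkperp _ h4
    rw [L2.inner_def] at h5
    rw [← h5]
    refine integral_congr_ae ?_
    filter_upwards [MemLp.coeFn_toLp (hL2 Φ h1 h2)] with x g1
    rw [g1]
    simp only [RCLike.inner_apply, conj_trivial]
    rfl
  have hkr : ∫ x, k x * (R x * Real.exp (-(1 / 2 * W x))) ∂μ = 0 :=
    ortho_zero μ e hW hR hR2 hA hyp hkmem horth
  have hk0 : k = 0 := by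
    have h1 : inner ℝ r k = (0 : ℝ) := by
      rw [L2.inner_def, ← hkr]
      refine integral_congr_ae ?_
      filter_upwards [MemLp.coeFn_toLp hr2] with x g1
      rw [hr_def, g1]
      simp only [RCLike.inner_apply, conj_trivial]
      rfl
    have h2 : inner ℝ (S.topologicalClosure.starProjection r) k = (0 : ℝ) :=
      (Submodule.mem_orthogonal _ _).1 hkperp _
        (Submodule.starProjection_apply_mem _ _)
    have h3 : inner ℝ k k = (0 : ℝ) := by
      nth_rewrite 1 [hk_def]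
      rw [inner_sub_left, h1, h2, sub_zero]
    exact inner_self_eq_zero.1 h3
  have hrmem : r ∈ closure (S : Set (Lp ℝ 2 μ)) := by
    have h1 : r = S.topologicalClosure.starProjection r := by
      rw [hk_def] at hk0
      exact sub_eq_zero.1 hk0
    rw [← Submodule.topologicalClosure_coe, h1]
    exact Submodule.starProjection_apply_mem _ _
  obtain ⟨m, ⟨Φ, h1, h2, h3⟩, hm⟩ := Metric.mem_closure_iff.1 hrmem (Real.sqrt ε)
    (Real.sqrt_pos.2 hε)
  refine ⟨fun x => (-1) * Φ x, contDiff_const.mul h1, h2.mul_left, ?_⟩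
  have h4 : ∫ x, (R x + Lop e W (fun x => (-1) * Φ x) x) ^ 2 * Real.exp (-W x) ∂μ =
      inner ℝ (r - m) (r - m) := by
    rw [L2.inner_def]
    refine integral_congr_ae ?_
    filter_upwards [MemLp.coeFn_toLp hr2, h3, Lp.coeFn_sub r m] with x g1 g2 g3
    rw [g3, Pi.sub_apply, hr_def, g1, g2, Lsmul (-1) Φ h1, ← hss]
    simp only [RCLike.inner_apply, conj_trivial]
    ring
  rw [h4, real_inner_self_eq_norm_sq]
  rw [dist_eq_norm] at hm
  calc ‖r - m‖ ^ 2 < Real.sqrt ε ^ 2 := by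
        exact pow_lt_pow_left₀ hm (norm_nonneg _) two_ne_zero
    _ = ε := Real.sq_sqrt hε.le

end Pool.Agent.Q86.FIB
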