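import Pool.Agent.Q86.FIB.Ext2

/-!
# The weighted inequality over a line, for unbounded functions
-/

set_option autoImplicit false
set_option linter.unusedSectionVars false

namespace Pool.Agent.Q86.FIB

open MeasureTheory Set Filter Topology
open scoped ContDiff ENNReal

theorem abs_arctan (x : ℝ) : |Real.arctan x| ≤ |x| := by
  have h := (convex_univ (𝕜 := ℝ) (E := ℝ)).norm_image_sub_le_of_norm_hasDerivWithin_le
    (f := Real.arctan) (f' := fun x => 1 / (1 + x ^ 2)) (C := 1)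
    (fun x _ => (Real.hasDerivAt_arctan x).hasDerivWithinAt)
    (fun x _ => by
      rw [Real.norm_of_nonneg (by positivity), div_le_one (by positivity)]
      nlinarith [sq_nonneg x]) (mem_univ 0) (mem_univ x)
  simpa using h

theorem arctan_lim (u : ℝ) :
    Tendsto (fun j : ℕ => ((j : ℝ) + 1) * Real.arctan (u / ((j : ℝ) + 1))) atTop (𝓝 u) := by
  have h1 : HasDerivAt (fun h : ℝ => Real.arctan (h * u)) u 0 := by
    have h2 : HasDerivAt (fun h : ℝ => h * u) (1 * u) 0 := (hasDerivAt_id (0 : ℝ)).mul_const u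
    have h3 := h2.arctan
    simpa using h3
  have h2 := hasDerivAt_iff_tendsto_slope_zero.1 h1
  have h3 : Tendsto (fun j : ℕ => 1 / ((j : ℝ) + 1)) atTop (𝓝[≠] 0) := by
    refine tendsto_nhdsWithin_of_tendsto_nhds_of_eventually_within _
      tendsto_one_div_add_atTop_nhds_zero_nat (Eventually.of_forall fun j => ?_)
    have : (0 : ℝ) < 1 / ((j : ℝ) + 1) := by positivity
    exact this.ne'
  refine (h2.comp h3).congr fun j => ?_
  have : (0 : ℝ) < (j : ℝ) + 1 := by positivity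
  simp only [Function.comp, zero_add, zero_mul, Real.arctan_zero, sub_zero, smul_eq_mul]
  rw [one_div, inv_inv]
  congr 2
  rw [div_eq_inv_mul]

variable {n k : ℕ}

/-- The truncation. -/
noncomputable def trn (f : Sp k × Sp n → ℝ) (j : ℕ) (x : Sp k × Sp n) : ℝ :=
  ((j : ℝ) + 1) * Real.arctan (f x / ((j : ℝ) + 1))

theorem trn_abs (f : Sp k × Sp n → ℝ) (j : ℕ) (x : Sp k × Sp n) : |trn f j x| ≤ |f x| := by
  have h0 : (0 : ℝ) < (j : ℝ) + 1 := by positivity
  unfold trn
  rw [abs_mul, abs_of_pos h0]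
  have h2 := abs_arctan (f x / ((j : ℝ) + 1))
  rw [abs_div, abs_of_pos h0] at h2
  calc ((j : ℝ) + 1) * |Real.arctan (f x / ((j : ℝ) + 1))| ≤ ((j : ℝ) + 1) * (|f x| / ((j : ℝ) + 1)) :=
        mul_le_mul_of_nonneg_left h2 h0.le
    _ = |f x| := by field_simp

theorem trn_bdd (f : Sp k × Sp n → ℝ) (j : ℕ) (x : Sp k × Sp n) :
    |trn f j x| ≤ ((j : ℝ) + 1) * 2 := by
  have h0 : (0 : ℝ) < (j : ℝ) + 1 := by positivity
  unfold trn
  rw [abs_mul, abs_of_pos h0]
  refine mul_le_mul_of_nonneg_left ?_ h0.le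
  rw [abs_le]
  have h1 := Real.arctan_lt_pi_div_two (f x / ((j : ℝ) + 1))
  have h2 := Real.neg_pi_div_two_lt_arctan (f x / ((j : ℝ) + 1))
  have h3 := Real.pi_lt_four
  constructor <;> linarith

theorem trn_smooth {f : Sp k × Sp n → ℝ} (hf : ContDiff ℝ 1 f) (j : ℕ) :
    ContDiff ℝ 1 (trn f j) := by
  unfold trn
  exact contDiff_const.mul (Real.contDiff_arctan.comp (hf.div_const _))

theorem trn_pd {f : Sp k × Sp n → ℝ} (hf : ContDiff ℝ 1 f) (j : ℕ) (v : Sp k × Sp n)
    (x : Sp k × Sp n) : (pd v (trn f j) x) ^ 2 ≤ (pd v f x) ^ 2 := by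
  have h0 : (0 : ℝ) < (j : ℝ) + 1 := by positivity
  have h1 : HasFDerivAt (fun x => f x / ((j : ℝ) + 1)) ((((j : ℝ) + 1)⁻¹) • fderiv ℝ f x) x := by
    have := (diff1 hf x).hasFDerivAt.const_mul (((j : ℝ) + 1)⁻¹)
    simp_rw [div_eq_inv_mul]
    exact this
  have h2 := (h1.arctan).const_mul ((j : ℝ) + 1)
  have h3 : pd v (trn f j) x = (1 / (1 + (f x / ((j : ℝ) + 1)) ^ 2)) * pd v f x := by
    unfold pd
    have h4 : fderiv ℝ (trn f j) x = _ := h2.fderiv
    rw [h4]
    simp only [smul_apply, smul_eq_mul]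
    field_simp
  rw [h3, mul_pow]
  have h5 : (1 / (1 + (f x / ((j : ℝ) + 1)) ^ 2)) ^ 2 ≤ 1 := by
    refine pow_le_one₀ (by positivity) ?_
    rw [div_le_one (by positivity)]
    nlinarith [sq_nonneg (f x / ((j : ℝ) + 1))]
  nlinarith [sq_nonneg (pd v f x)]

theorem trn_gT {f : Sp k × Sp n → ℝ} (hf : ContDiff ℝ 1 f) (j : ℕ) (x : Sp k × Sp n) :
    gT (trn f j) x ≤ gT f x := Finset.sum_le_sum fun _ _ => trn_pd hf j _ x

theorem trn_gZ {f : Sp k × Sp n → ℝ} (hf : ContDiff ℝ 1 f) (j : ℕ) (x : Sp k × Sp n) :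
    gZ (trn f j) x ≤ gZ f x := Finset.sum_le_sum fun _ _ => trn_pd hf j _ x

/-- The derivative in terms of the derivatives along the axes. -/
theorem fderiv_eq (f : Sp k × Sp n → ℝ) (x v : Sp k × Sp n) :
    fderiv ℝ f x v = (∑ a, v.1 a * pd (tv n a) f x) + ∑ i, v.2 i * pd (zv k i) f x := by
  have h : v = (∑ a, v.1 a • tv n a) + ∑ i, v.2 i • zv k i := by
    ext b
    · simp [tv, zv, sv, Prod.fst_sum, Finset.sum_apply, Pi.single_apply]
    · simp [tv, zv, sv, Prod.snd_sum, Finset.sum_apply, Pi.single_apply]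
  conv_lhs => rw [h]
  rw [map_add, map_sum, map_sum]
  simp only [map_smul, smul_eq_mul]
  rfl

/-- Lipschitz functions have polynomial growth. -/
theorem pb_of_grad {f : Sp k × Sp n → ℝ} (hf : ContDiff ℝ 1 f)
    (h : ∀ x, gT f x + gZ f x ≤ 1) : PB f := by
  have hpT : ∀ x a, |pd (tv n a) f x| ≤ 1 := by
    intro x a
    rw [← sq_le_one_iff_abs_le_one]
    have h2 : (pd (tv n a) f x) ^ 2 ≤ gT f x :=
      Finset.single_le_sum (f := fun a => (pd (tv n a) f x) ^ 2) (fun _ _ => sq_nonneg _)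
        (Finset.mem_univ a)
    linarith [h x, gZ_nonneg f x]
  have hpZ : ∀ x i, |pd (zv k i) f x| ≤ 1 := by
    intro x i
    rw [← sq_le_one_iff_abs_le_one]
    have h2 : (pd (zv k i) f x) ^ 2 ≤ gZ f x :=
      Finset.single_le_sum (f := fun i => (pd (zv k i) f x) ^ 2) (fun _ _ => sq_nonneg _)
        (Finset.mem_univ i)
    linarith [h x, gT_nonneg f x]
  have hD : ∀ x, ‖fderiv ℝ f x‖ ≤ (k + n : ℝ) := by
    intro x
    refine ContinuousLinearMap.opNorm_le_bound _ (by positivity) fun v => ?_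
    rw [fderiv_eq, Real.norm_eq_abs]
    have a1 : |∑ a, v.1 a * pd (tv n a) f x| ≤ k * ‖v‖ := by
      refine (Finset.abs_sum_le_sum_abs _ _).trans ?_
      have : ∀ a ∈ Finset.univ, |v.1 a * pd (tv n a) f x| ≤ ‖v‖ := fun a _ => by
        rw [abs_mul]
        have b1 : |v.1 a| ≤ ‖v‖ := (norm_le_pi_norm v.1 a).trans (norm_fst_le v)
        calc |v.1 a| * |pd (tv n a) f x| ≤ ‖v‖ * 1 :=
              mul_le_mul b1 (hpT x a) (abs_nonneg _) (norm_nonneg _)
          _ = _ := mul_one _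
      have h3 := Finset.sum_le_sum this
      rw [Finset.sum_const, Finset.card_univ, Fintype.card_fin, nsmul_eq_mul] at h3
      exact h3
    have a2 : |∑ i, v.2 i * pd (zv k i) f x| ≤ n * ‖v‖ := by
      refine (Finset.abs_sum_le_sum_abs _ _).trans ?_
      have : ∀ i ∈ Finset.univ, |v.2 i * pd (zv k i) f x| ≤ ‖v‖ := fun i _ => by
        rw [abs_mul]
        have b1 : |v.2 i| ≤ ‖v‖ := (norm_le_pi_norm v.2 i).trans (norm_snd_le v)
        calc |v.2 i| * |pd (zv k i) f x| ≤ ‖v‖ * 1 :=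
              mul_le_mul b1 (hpZ x i) (abs_nonneg _) (norm_nonneg _)
          _ = _ := mul_one _
      have h3 := Finset.sum_le_sum this
      rw [Finset.sum_const, Finset.card_univ, Fintype.card_fin, nsmul_eq_mul] at h3
      exact h3
    calc |(∑ a, v.1 a * pd (tv n a) f x) + ∑ i, v.2 i * pd (zv k i) f x| ≤ _ := abs_add_le _ _
      _ ≤ k * ‖v‖ + n * ‖v‖ := add_le_add a1 a2
      _ = _ := by ring
  refine ⟨1, |f 0| + (k + n), fun x => ?_⟩
  have h2 := (convex_univ (𝕜 := ℝ) (E := Sp k × Sp n)).norm_image_sub_le_of_norm_fderiv_le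
    (f := f) (C := (k + n : ℝ)) (fun x _ => diff1 hf x) (fun x _ => hD x) (mem_univ 0) (mem_univ x)
  rw [sub_zero] at h2
  have h3 : ‖f x‖ ≤ ‖f x - f 0‖ + |f 0| := by
    have := norm_add_le (f x - f 0) (f 0)
    rw [sub_add_cancel] at this
    exact this
  have h4 := norm_nonneg x
  have h5 := abs_nonneg (f 0)
  have h6 : (0 : ℝ) ≤ k + n := by positivity
  rw [pow_one]
  nlinarith

namespace Std

variable {W : Sp 1 × Sp n → ℝ} (hW : Std W)
include hW

/-- **The weighted inequality.** -/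
theorem ext_gen (h1 : ∫ t, dens W t = 1) {D : ℝ} (hD : 0 ≤ D)
    (H : ∀ f : Sp 1 × Sp n → ℝ, ContDiff ℝ 1 f → HasCompactSupport f → WIneq W f D)
    {f : Sp 1 × Sp n → ℝ} (hf : ContDiff ℝ 1 f)
    (hf2 : Integrable (fun x => f x ^ 2 * Real.exp (-W x)) (vol 1 n))
    (hg : Integrable (fun x => om W (x.1 0) * (gT f x + gZ f x) * Real.exp (-W x)) (vol 1 n)) :
    WIneq W f D := by
  have hfc := hf.continuous
  have hWc := hW.smooth.continuous
  have c0 : Continuous (fun x : Sp 1 × Sp n => x.1 0) := by fun_prop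
  have com : Continuous (fun x : Sp 1 × Sp n => om W (x.1 0)) := (hW.om_cont h1).comp c0
  have hf1 := int_w hW.int hfc hWc hf2
  have hsm : ∀ j, ContDiff ℝ 1 (trn f j) := fun j => trn_smooth hf j
  have hle : ∀ j x, om W (x.1 0) * (gT (trn f j) x + gZ (trn f j) x) * Real.exp (-W x) ≤
      om W (x.1 0) * (gT f x + gZ f x) * Real.exp (-W x) := fun j x =>
    mul_le_mul_of_nonneg_right (mul_le_mul_of_nonneg_left (add_le_add (trn_gT hf j x)
      (trn_gZ hf j x)) (hW.om_nonneg h1 _)) (Real.exp_pos _).le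
  have hnn : ∀ j (x : Sp 1 × Sp n), 0 ≤ om W (x.1 0) * (gT (trn f j) x + gZ (trn f j) x) *
      Real.exp (-W x) := fun j x => mul_nonneg (mul_nonneg (hW.om_nonneg h1 _)
        (add_nonneg (gT_nonneg _ x) (gZ_nonneg _ x))) (Real.exp_pos _).le
  have hgj : ∀ j, Integrable (fun x => om W (x.1 0) * (gT (trn f j) x + gZ (trn f j) x) *
      Real.exp (-W x)) (vol 1 n) := fun j => by
    refine hg.mono' ((com.mul ((gT_cont (hsm j)).add (gZ_cont (hsm j)))).mul
      hWc.neg.rexp).aestronglyMeasurable (Eventually.of_forall fun x => ?_)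
    rw [Real.norm_of_nonneg (hnn j x)]
    exact hle j x
  have key : ∀ j : ℕ, (∫ x, trn f j x ^ 2 * Real.exp (-W x) ∂(vol 1 n)) -
      (∫ x, trn f j x * Real.exp (-W x) ∂(vol 1 n)) ^ 2 ≤
      D * ∫ x, om W (x.1 0) * (gT f x + gZ f x) * Real.exp (-W x) ∂(vol 1 n) := by
    intro j
    have h2 := hW.ext_bdd h1 hD H (hsm j) (trn_bdd f j) (hgj j)
    exact h2.trans (mul_le_mul_of_nonneg_left (integral_mono (hgj j) hg (hle j)) hD)
  have lA : Tendsto (fun j : ℕ => ∫ x, trn f j x ^ 2 * Real.exp (-W x) ∂(vol 1 n)) atTop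
      (𝓝 (∫ x, f x ^ 2 * Real.exp (-W x) ∂(vol 1 n))) := by
    refine tendsto_integral_of_dominated_convergence
      (fun x => f x ^ 2 * Real.exp (-W x)) (fun j => ?_) hf2 (fun j => ?_) ?_
    · exact (((hsm j).continuous.pow 2).mul hWc.neg.rexp).aestronglyMeasurable
    · refine Eventually.of_forall fun x => ?_
      rw [Real.norm_of_nonneg (mul_nonneg (sq_nonneg _) (Real.exp_pos _).le)]
      refine mul_le_mul_of_nonneg_right ?_ (Real.exp_pos _).le
      rw [← sq_abs, ← sq_abs (f x)]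
      exact pow_le_pow_left₀ (abs_nonneg _) (trn_abs f j x) 2
    · exact Eventually.of_forall fun x => ((arctan_lim (f x)).pow 2).mul_const _
  have lB : Tendsto (fun j : ℕ => ∫ x, trn f j x * Real.exp (-W x) ∂(vol 1 n)) atTop
      (𝓝 (∫ x, f x * Real.exp (-W x) ∂(vol 1 n))) := by
    refine tendsto_integral_of_dominated_convergence
      (fun x => ‖f x * Real.exp (-W x)‖) (fun j => ?_) hf1.norm (fun j => ?_) ?_
    · exact ((hsm j).continuous.mul hWc.neg.rexp).aestronglyMeasurable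
    · refine Eventually.of_forall fun x => ?_
      rw [norm_mul, norm_mul]
      exact mul_le_mul_of_nonneg_right (trn_abs f j x) (norm_nonneg _)
    · exact Eventually.of_forall fun x => (arctan_lim (f x)).mul_const _
  exact le_of_tendsto' (lA.sub (lB.pow 2)) key

/-- **Lipschitz functions.** -/
theorem ext_lip (h1 : ∫ t, dens W t = 1) {D : ℝ} (hD : 0 ≤ D)
    (H : ∀ f : Sp 1 × Sp n → ℝ, ContDiff ℝ 1 f → HasCompactSupport f → WIneq W f D)
    {f : Sp 1 × Sp n → ℝ} (hf : ContDiff ℝ 1 f) (hl : ∀ x, gT f x + gZ f x ≤ 1) :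
    Integrable (fun x => f x ^ 2 * Real.exp (-W x)) (vol 1 n) ∧
    (∫ x, f x ^ 2 * Real.exp (-W x) ∂(vol 1 n)) - (∫ x, f x * Real.exp (-W x) ∂(vol 1 n)) ^ 2 ≤
      8 / 3 * D := by
  have pf := pb_of_grad hf hl
  have hf2 := hW.integrable (pf.pow 2) (hf.continuous.pow 2)
  have c0 : Continuous (fun x : Sp 1 × Sp n => x.1 0) := by fun_prop
  have com : Continuous (fun x : Sp 1 × Sp n => om W (x.1 0)) := (hW.om_cont h1).comp c0
  obtain ⟨i1, j1⟩ := hW.om_w h1
  have hle : ∀ x : Sp 1 × Sp n, om W (x.1 0) * (gT f x + gZ f x) * Real.exp (-W x) ≤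
      om W (x.1 0) * Real.exp (-W x) := fun x => by
    refine mul_le_mul_of_nonneg_right ?_ (Real.exp_pos _).le
    exact mul_le_of_le_one_right (hW.om_nonneg h1 _) (hl x)
  have hg : Integrable (fun x => om W (x.1 0) * (gT f x + gZ f x) * Real.exp (-W x))
      (vol 1 n) := by
    refine i1.mono' ((com.mul ((gT_cont hf).add (gZ_cont hf))).mul
      hW.smooth.continuous.neg.rexp).aestronglyMeasurable (Eventually.of_forall fun x => ?_)
    rw [Real.norm_of_nonneg (mul_nonneg (mul_nonneg (hW.om_nonneg h1 _)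
      (add_nonneg (gT_nonneg _ x) (gZ_nonneg _ x))) (Real.exp_pos _).le)]
    exact hle x
  refine ⟨hf2, ?_⟩
  have h2 := hW.ext_gen h1 hD H hf hf2 hg
  have h3 := (integral_mono hg i1 hle).trans j1
  have h4 := mul_le_mul_of_nonneg_left h3 hD
  unfold WIneq at h2
  linarith

end Std

end Pool.Agent.Q86.FIB
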