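import Pool.Agent.Q86.FIB.Ext
import Pool.Agent.Q73.KL.Lim

/-!
# From Lipschitz functions to bounded functions
-/

set_option autoImplicit false
set_option linter.unusedSectionVars false

namespace Pool.Agent.Q86.FIB

open MeasureTheory Set Filter Topology
open scoped ContDiff ENNReal InnerProductSpace
open Pool.Agent.H212R2.KLS (mu)
open Pool.Agent.H888R2.KT (LC)

/-- Euclidean space -/
abbrev EK (k n : ℕ) : Type := EuclideanSpace ℝ (Fin k ⊕ Fin n)

/-- The linear equivalence of the product with Euclidean space. -/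
noncomputable def spl (k n : ℕ) : EK k n ≃L[ℝ] Sp k × Sp n :=
  (EuclideanSpace.equiv (Fin k ⊕ Fin n) ℝ).trans
    (ContinuousLinearEquiv.sumPiEquivProdPi ℝ (Fin k) (Fin n) (fun _ => ℝ))

variable {k n : ℕ}

theorem spl_single_inl (a : Fin k) :
    spl k n (EuclideanSpace.single (Sum.inl a) 1) = tv n a := by
  ext b
  · simp [spl, tv, sv, EuclideanSpace.equiv, ContinuousLinearEquiv.sumPiEquivProdPi,
      Pi.single_apply]
  · simp [spl, tv, sv, EuclideanSpace.equiv, ContinuousLinearEquiv.sumPiEquivProdPi,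
      Pi.single_apply]

theorem spl_single_inr (i : Fin n) :
    spl k n (EuclideanSpace.single (Sum.inr i) 1) = zv k i := by
  ext b
  · simp [spl, zv, sv, EuclideanSpace.equiv, ContinuousLinearEquiv.sumPiEquivProdPi,
      Pi.single_apply]
  · simp [spl, zv, sv, EuclideanSpace.equiv, ContinuousLinearEquiv.sumPiEquivProdPi,
      Pi.single_apply]

theorem dual_norm_sq' {ι : Type} [Fintype ι] [DecidableEq ι] (ℓ : EuclideanSpace ℝ ι →L[ℝ] ℝ) :
    ‖ℓ‖ ^ 2 = ∑ i, (ℓ (EuclideanSpace.single i 1)) ^ 2 := by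
  set v := (InnerProductSpace.toDual ℝ (EuclideanSpace ℝ ι)).symm ℓ with hv
  have h1 : ‖ℓ‖ = ‖v‖ := by rw [hv, LinearIsometryEquiv.norm_map]
  have h2 : ∀ i, ℓ (EuclideanSpace.single i 1) = v i := by
    intro i
    have h3 : ⟪v, EuclideanSpace.single i (1 : ℝ)⟫_ℝ = ℓ (EuclideanSpace.single i 1) := by
      rw [hv, InnerProductSpace.toDual_symm_apply]
    rw [← h3, EuclideanSpace.inner_single_right]
    simp
  rw [h1, EuclideanSpace.norm_sq_eq]
  exact Finset.sum_congr rfl fun i _ => by rw [h2, Real.norm_eq_abs, sq_abs]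

/-- The norm of the gradient of a function on Euclidean space. -/
theorem grad_spl {g : EK k n → ℝ} (hg : ContDiff ℝ 1 g) (x : Sp k × Sp n) :
    gT (fun x => g ((spl k n).symm x)) x + gZ (fun x => g ((spl k n).symm x)) x =
      ‖fderiv ℝ g ((spl k n).symm x)‖ ^ 2 := by
  have h1 : fderiv ℝ (fun x => g ((spl k n).symm x)) x =
      (fderiv ℝ g ((spl k n).symm x)).comp ((spl k n).symm : Sp k × Sp n →L[ℝ] EK k n) := by
    have h2 := ((hg.differentiable one_ne_zero ((spl k n).symm x)).hasFDerivAt).comp x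
      ((spl k n).symm.hasFDerivAt)
    exact h2.fderiv
  rw [dual_norm_sq', Fintype.sum_sum_type]
  unfold gT gZ pd
  rw [h1]
  congr 1
  · refine Finset.sum_congr rfl fun a _ => ?_
    rw [← spl_single_inl (n := n) a]
    simp
  · refine Finset.sum_congr rfl fun i _ => ?_
    rw [← spl_single_inr (k := k) i]
    simp

/-- The map to the product preserves Lebesgue measure. -/
theorem spl_mp (k n : ℕ) : MeasurePreserving (spl k n) (volume : Measure (EK k n)) (vol k n) := by
  have h1 := EuclideanSpace.volume_preserving_symm_measurableEquiv_toLp (Fin k ⊕ Fin n)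
  have h2 := volume_measurePreserving_sumPiEquivProdPi (fun _ : Fin k ⊕ Fin n => ℝ)
  exact h2.comp h1

theorem spl_int (F : Sp k × Sp n → ℝ) :
    ∫ x : EK k n, F (spl k n x) = ∫ x, F x ∂(vol k n) :=
  (spl_mp k n).integral_comp (spl k n).toHomeomorph.measurableEmbedding F

theorem spl_integrable {F : Sp k × Sp n → ℝ} (hF : Integrable F (vol k n)) :
    Integrable (fun x : EK k n => F (spl k n x)) :=
  ((spl_mp k n).integrable_comp_emb (spl k n).toHomeomorph.measurableEmbedding).2 hF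


/-- The density on Euclidean space. -/
noncomputable def dn (W : Sp k × Sp n → ℝ) (x : EK k n) : ℝ := Real.exp (-W (spl k n x))

/-- The restriction to balls. -/
noncomputable def dr (W : Sp k × Sp n → ℝ) (m : ℕ) : EK k n → ℝ :=
  (Metric.closedBall (0 : EK k n) m).indicator (dn W)

namespace Std

variable {W : Sp k × Sp n → ℝ} (hW : Std W)
include hW

theorem dn_cont : Continuous (dn W) := hW.wc.comp (spl k n).continuous

theorem dn_apx (hm : ∫ x, Real.exp (-W x) ∂(vol k n) = 1) :
    Pool.Agent.Q73.KL.Apx (dn W) (dr W) where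
  meas := hW.dn_cont.measurable
  mass := by
    have hi : Integrable (dn W) := spl_integrable hW.int
    have e : ∫ x, dn W x = 1 := by
      rw [← hm, ← spl_int (fun x => Real.exp (-W x))]
      rfl
    unfold mu
    rw [withDensity_apply _ MeasurableSet.univ, Measure.restrict_univ,
      ← ofReal_integral_eq_lintegral_ofReal hi
        (Eventually.of_forall fun x => (Real.exp_pos _).le), e]
    simp
  rmeas := fun m => hW.dn_cont.measurable.indicator Metric.isClosed_closedBall.measurableSet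
  rnn := fun m x => indicator_nonneg (fun x _ => (Real.exp_pos _).le) x
  le := fun m x => indicator_le_self' (fun x _ => (Real.exp_pos _).le) x
  lim := fun x => by
    refine tendsto_const_nhds.congr' ?_
    obtain ⟨N, hN⟩ := exists_nat_ge ‖x‖
    filter_upwards [eventually_ge_atTop N] with m hm
    have hm' : (N : ℝ) ≤ m := by exact_mod_cast hm
    unfold dr
    rw [indicator_of_mem]
    rw [mem_closedBall_zero_iff]
    linarith

theorem dn_lc (x y : EK k n) (t : ℝ) (h0 : 0 < t) (h1 : t < 1) :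
    dn W x ^ (1 - t) * dn W y ^ t ≤ dn W ((1 - t) • x + t • y) := by
  unfold dn
  rw [← Real.exp_mul, ← Real.exp_mul, ← Real.exp_add]
  refine Real.exp_le_exp.2 ?_
  have h2 := hW.conv.2 (mem_univ (spl k n x)) (mem_univ (spl k n y)) (sub_nonneg.2 h1.le) h0.le
    (by ring)
  rw [map_add, map_smul, map_smul]
  simp only [smul_eq_mul] at h2
  linarith

theorem dn_LC (hm : ∫ x, Real.exp (-W x) ∂(vol k n) = 1) {m : ℕ}
    (h : 0 < Pool.Agent.Q73.KL.Apx.M (dr W) m) : LC (Pool.Agent.Q73.KL.Apx.nr (dr W) m) where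
  nonneg := (hW.dn_apx hm).nr_nn m h
  meas := (hW.dn_apx hm).nr_meas m
  logc := by
    intro x y t h0 h1
    have h1t : 0 < 1 - t := by linarith
    have hc : 0 < (Pool.Agent.Q73.KL.Apx.M (dr W) m)⁻¹ := inv_pos.2 h
    obtain ⟨c, hcd⟩ : ∃ c, c = (Pool.Agent.Q73.KL.Apx.M (dr W) m)⁻¹ := ⟨_, rfl⟩
    unfold Pool.Agent.Q73.KL.Apx.nr
    rw [← hcd] at hc ⊢
    have hr0 : ∀ z, 0 ≤ dr W m z := fun z => (hW.dn_apx hm).rnn m z
    rw [Real.mul_rpow hc.le (hr0 x), Real.mul_rpow hc.le (hr0 y)]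
    have e1 : c ^ (1 - t) * dr W m x ^ (1 - t) * (c ^ t * dr W m y ^ t) =
        (c ^ (1 - t) * c ^ t) * (dr W m x ^ (1 - t) * dr W m y ^ t) := by ring
    have e2 : c ^ (1 - t) * c ^ t = c := by
      rw [← Real.rpow_add hc]
      norm_num
    rw [e1, e2]
    refine mul_le_mul_of_nonneg_left ?_ hc.le
    unfold dr
    by_cases hx : x ∈ Metric.closedBall (0 : EK k n) m
    · by_cases hy : y ∈ Metric.closedBall (0 : EK k n) m
      · have hxy : (1 - t) • x + t • y ∈ Metric.closedBall (0 : EK k n) m :=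
          (convex_closedBall (0 : EK k n) m) hx hy h1t.le h0.le (by ring)
        rw [indicator_of_mem hx, indicator_of_mem hy, indicator_of_mem hxy]
        exact hW.dn_lc x y t h0 h1
      · rw [indicator_of_notMem hy, Real.zero_rpow h0.ne', mul_zero]
        exact indicator_nonneg (fun x _ => (Real.exp_pos _).le) _
    · rw [indicator_of_notMem hx, Real.zero_rpow h1t.ne', zero_mul]
      exact indicator_nonneg (fun x _ => (Real.exp_pos _).le) _
  bdd := by
    refine ⟨m, fun x hx => ?_⟩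
    unfold Pool.Agent.Q73.KL.Apx.nr dr
    rw [indicator_of_notMem, mul_zero]
    rw [mem_closedBall_zero_iff]
    exact not_le.2 hx
  fin := by
    rw [(hW.dn_apx hm).nr_mass m h]
    exact ENNReal.one_ne_top
  ne := fun h0 => by
    have h2 := (hW.dn_apx hm).nr_mass m h
    rw [h0] at h2
    simp at h2

/-- **From Lipschitz functions to bounded functions.** -/
theorem nash (hm : ∫ x, Real.exp (-W x) ∂(vol k n) = 1) {D : ℝ} (hD : 0 < D)
    (H : ∀ f : Sp k × Sp n → ℝ, ContDiff ℝ 1 f → (∀ x, gT f x + gZ f x ≤ 1) →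
      Integrable (fun x => f x ^ 2 * Real.exp (-W x)) (vol k n) ∧
      (∫ x, f x ^ 2 * Real.exp (-W x) ∂(vol k n)) -
        (∫ x, f x * Real.exp (-W x) ∂(vol k n)) ^ 2 ≤ D)
    {u : Sp k × Sp n → ℝ} (hu : ContDiff ℝ 1 u) (hb : ∀ x, |u x| ≤ 1)
    (hi : Integrable (fun x => (gT u x + gZ u x) * Real.exp (-W x)) (vol k n)) :
    ((∫ x, u x ^ 2 * Real.exp (-W x) ∂(vol k n)) -
      (∫ x, u x * Real.exp (-W x) ∂(vol k n)) ^ 2) ^ 2 ≤
      8 * D * ∫ x, (gT u x + gZ u x) * Real.exp (-W x) ∂(vol k n) := by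
  have hA := hW.dn_apx hm
  have hprob := hA.prob
  have hmeas : Measurable (dn W) := hW.dn_cont.measurable
  have hdn0 : ∀ x, 0 ≤ dn W x := fun x => (Real.exp_pos _).le
  -- integrals against the measure on Euclidean space
  have hint : ∀ F : Sp k × Sp n → ℝ, ∫ x, F (spl k n x) ∂(mu (dn W)) =
      ∫ x, F x * Real.exp (-W x) ∂(vol k n) := by
    intro F
    rw [Pool.Agent.Q73.KL.int_mu hdn0 hmeas, ← spl_int]
    rfl
  have hinb : ∀ F : Sp k × Sp n → ℝ, Integrable (fun x => F x * Real.exp (-W x)) (vol k n) →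
      Integrable (fun x => F (spl k n x)) (mu (dn W)) := by
    intro F hF
    rw [Pool.Agent.Q73.KL.integrable_mu hdn0 hmeas]
    exact spl_integrable hF
  -- the hypothesis for the restrictions
  have hH : ∀ᶠ m in atTop, ∀ f : EK k n → ℝ, ContDiff ℝ 1 f → (∀ x, ‖fderiv ℝ f x‖ ≤ 1) →
      ∫ x, f x ^ 2 ∂(mu (Pool.Agent.Q73.KL.Apx.nr (dr W) m)) -
        (∫ x, f x ∂(mu (Pool.Agent.Q73.KL.Apx.nr (dr W) m))) ^ 2 ≤
      D * (Pool.Agent.Q73.KL.Apx.M (dr W) m)⁻¹ := by
    filter_upwards [hA.ev_pos] with m hmp f hf hf1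
    have hpm : IsProbabilityMeasure (mu (Pool.Agent.Q73.KL.Apx.nr (dr W) m)) :=
      ⟨hA.nr_mass m hmp⟩
    set g : Sp k × Sp n → ℝ := fun x => f ((spl k n).symm x) with hg
    have hgs : ContDiff ℝ 1 g := hf.comp (spl k n).symm.contDiff
    have hfg : ∀ x, f x = g (spl k n x) := fun x => by simp [hg]
    obtain ⟨h2, h3⟩ := H g hgs (fun x => by
      rw [grad_spl hf]
      exact pow_le_one₀ (norm_nonneg _) (hf1 _))
    have h1 := int_w hW.int hgs.continuous hW.smooth.continuous h2
    obtain ⟨a, ha⟩ : ∃ a, a = ∫ x, g x * Real.exp (-W x) ∂(vol k n) := ⟨_, rfl⟩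
    have i0 : Integrable (fun x => a ^ 2 * Real.exp (-W x)) (vol k n) := hW.int.const_mul _
    have i1 : Integrable (fun x => 2 * a * (g x * Real.exp (-W x))) (vol k n) := h1.const_mul _
    have i21 : Integrable (fun x => g x ^ 2 * Real.exp (-W x) -
      2 * a * (g x * Real.exp (-W x))) (vol k n) := h2.sub i1
    have i3 : Integrable (fun x => (g x - a) ^ 2 * Real.exp (-W x)) (vol k n) := by
      refine (i21.add i0).congr (Eventually.of_forall fun x => ?_)
      simp only [Pi.add_apply]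
      ring
    have h4 : ∫ x, (g x - a) ^ 2 * Real.exp (-W x) ∂(vol k n) ≤ D := by
      refine le_trans (le_of_eq ?_) h3
      have e : ∫ x, (g x - a) ^ 2 * Real.exp (-W x) ∂(vol k n) =
          (∫ x, g x ^ 2 * Real.exp (-W x) ∂(vol k n)) -
          (∫ x, 2 * a * (g x * Real.exp (-W x)) ∂(vol k n)) +
          ∫ x, a ^ 2 * Real.exp (-W x) ∂(vol k n) := by
        rw [← integral_sub h2 i1, ← integral_add i21 i0]
        refine integral_congr_ae (Eventually.of_forall fun x => ?_)
        simp only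
        ring
      rw [e, integral_const_mul, integral_const_mul, hm, ← ha]
      ring
    have hfm : Measurable f := hf.continuous.measurable
    refine (Pool.Agent.Q73.KL.var_of_lint hfm (a := a)
      (mul_nonneg hD.le (inv_pos.2 hmp).le) ?_).2
    refine (hA.nr_le m hmp (by fun_prop)).trans ?_
    rw [mul_comm D, ENNReal.ofReal_mul (inv_pos.2 hmp).le]
    refine mul_le_mul' le_rfl ?_
    have e5 : ∫⁻ x, ENNReal.ofReal ((f x - a) ^ 2) ∂(mu (dn W)) =
        ENNReal.ofReal (∫ x, (g x - a) ^ 2 * Real.exp (-W x) ∂(vol k n)) := by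
      rw [← hint (fun x => (g x - a) ^ 2), ofReal_integral_eq_lintegral_ofReal
        (hinb (fun x => (g x - a) ^ 2) i3) (Eventually.of_forall fun x => sq_nonneg _)]
      simp_rw [hfg]
    rw [e5]
    exact ENNReal.ofReal_le_ofReal h4
  have hLC : ∀ᶠ m in atTop, LC (Pool.Agent.Q73.KL.Apx.nr (dr W) m) := by
    filter_upwards [hA.ev_pos] with m hmp
    exact hW.dn_LC hm hmp
  -- the conclusion
  set v : EK k n → ℝ := fun x => u (spl k n x) with hv
  have hvs : ContDiff ℝ 1 v := hu.comp (spl k n).contDiff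
  have h5 := hA.bdd_lim hD hLC hH hvs (fun x => hb _)
  have hL : MemLp v 2 (mu (dn W)) :=
    MemLp.of_bound hvs.continuous.aestronglyMeasurable 1 (Eventually.of_forall fun x => by
      rw [Real.norm_eq_abs]; exact hb _)
  rw [ProbabilityTheory.variance_eq_sub hL] at h5
  have e1 : ∫ x, (v ^ 2) x ∂(mu (dn W)) = ∫ x, u x ^ 2 * Real.exp (-W x) ∂(vol k n) :=
    hint (fun x => u x ^ 2)
  have e2 : ∫ x, v x ∂(mu (dn W)) = ∫ x, u x * Real.exp (-W x) ∂(vol k n) := hint u
  have e3 : ∀ x : EK k n, ‖fderiv ℝ v x‖ ^ 2 = gT u (spl k n x) + gZ u (spl k n x) := by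
    intro x
    have h6 := grad_spl hvs (spl k n x)
    have h7 : (fun x => v ((spl k n).symm x)) = u := by
      funext x
      simp [hv]
    rw [h7, ContinuousLinearEquiv.symm_apply_apply] at h6
    exact h6.symm
  have e4 : ∫⁻ x, ENNReal.ofReal (‖fderiv ℝ v x‖ ^ 2) ∂(mu (dn W)) =
      ENNReal.ofReal (∫ x, (gT u x + gZ u x) * Real.exp (-W x) ∂(vol k n)) := by
    rw [← hint (fun x => gT u x + gZ u x), ofReal_integral_eq_lintegral_ofReal
      (hinb (fun x => gT u x + gZ u x) hi)
      (Eventually.of_forall fun x => add_nonneg (gT_nonneg _ _) (gZ_nonneg _ _))]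
    simp_rw [e3]
  rw [e1, e2, e4, ← ENNReal.ofReal_mul (by positivity)] at h5
  have hI0 : 0 ≤ ∫ x, (gT u x + gZ u x) * Real.exp (-W x) ∂(vol k n) :=
    integral_nonneg fun x => mul_nonneg (add_nonneg (gT_nonneg _ _) (gZ_nonneg _ _))
      (Real.exp_pos _).le
  exact (ENNReal.ofReal_le_ofReal_iff (by positivity)).1 h5

end Std

end Pool.Agent.Q86.FIB
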