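import Pool.Agent.Q86.FIB.Tran
import Pool.Agent.Q196.GT.PL
import Pool.Agent.H888R2.KT.V3

/-!
# The Poincaré inequality for the marginal
-/

set_option autoImplicit false
set_option linter.unusedSectionVars false

namespace Pool.Agent.Q86.FIB

open MeasureTheory Set Filter Topology
open scoped ContDiff ENNReal

variable {k n : ℕ}

namespace Std

variable {W : Sp k × Sp n → ℝ} (hW : Std W)
include hW

theorem exp_slice_int (t : Sp k) : Integrable (fun z => Real.exp (-W (t, z))) := by
  have := hW.slice (PB.const 1) continuous_const t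
  simpa using this

/-- The marginal is log-concave. -/
theorem dens_lc (a b : Sp k) {s : ℝ} (hs : 0 < s) (hs1 : s < 1) :
    dens W a ^ s * dens W b ^ (1 - s) ≤ dens W (s • a + (1 - s) • b) := by
  have hm : ∀ t : Sp k, Measurable (fun z => ENNReal.ofReal (Real.exp (-W (t, z)))) := fun t =>
    ((hW.wc.comp (Continuous.prodMk_right t)).measurable).ennreal_ofReal
  have he : ∀ t : Sp k, ∫⁻ z, ENNReal.ofReal (Real.exp (-W (t, z))) = ENNReal.ofReal (dens W t) :=
    fun t => (ofReal_integral_eq_lintegral_ofReal (hW.exp_slice_int t)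
      (Eventually.of_forall fun z => (Real.exp_pos _).le)).symm
  have h := Pool.Agent.Q196.GT.pl_n hs hs1 n (fun z => ENNReal.ofReal (Real.exp (-W (a, z))))
    (fun z => ENNReal.ofReal (Real.exp (-W (b, z))))
    (fun z => ENNReal.ofReal (Real.exp (-W (s • a + (1 - s) • b, z)))) (hm _) (hm _) (hm _)
    (fun x y => ?_)
  · rw [he, he, he, ENNReal.ofReal_rpow_of_pos (hW.dens_pos a),
      ENNReal.ofReal_rpow_of_pos (hW.dens_pos b), ← ENNReal.ofReal_mul
        (Real.rpow_nonneg (hW.dens_pos a).le _)] at h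
    exact (ENNReal.ofReal_le_ofReal_iff (hW.dens_pos _).le).1 h
  · rw [ENNReal.ofReal_rpow_of_pos (Real.exp_pos _), ENNReal.ofReal_rpow_of_pos (Real.exp_pos _),
      ← ENNReal.ofReal_mul (Real.rpow_nonneg (Real.exp_pos _).le _), ← Real.exp_mul,
      ← Real.exp_mul, ← Real.exp_add]
    refine ENNReal.ofReal_le_ofReal (Real.exp_le_exp.2 ?_)
    have h2 := hW.conv.2 (mem_univ (a, x)) (mem_univ (b, y)) hs.le (by linarith : 0 ≤ 1 - s)
      (by ring)
    have h3 : s • (a, x) + (1 - s) • (b, y) =
        (s • a + (1 - s) • b, fun i => s * x i + (1 - s) * y i) := by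
      ext i <;> simp
    rw [h3] at h2
    simp only [smul_eq_mul] at h2
    linarith

end Std

/-- **The Poincaré inequality for the marginal**, with the trace of the covariance matrix. -/
theorem base_crude : ∃ C : ℝ, 0 < C ∧ ∀ (k n : ℕ) (W : Sp k × Sp n → ℝ), Std W →
    ∫ t, dens W t = 1 → ∀ s : ℝ, 0 < s → ∀ c : Sp k,
    (∀ a, ∫ t, (t a - c a) ^ 2 * dens W t ≤ s) → BaseP W (C * (k + 1) * s) := by
  obtain ⟨C, hC, hcr⟩ := Pool.Agent.H888R2.KT.crude_all
  refine ⟨C, hC, ?_⟩
  intro k n W hW h1 s hs c hv φ hφ hφs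
  set σ : ℝ := Real.sqrt ((k + 1) * s) with hσ
  have hk : (0 : ℝ) < (k + 1) * s := by positivity
  have hσ0 : 0 < σ := Real.sqrt_pos.2 hk
  have hσ2 : σ ^ 2 = (k + 1) * s := Real.sq_sqrt hk.le
  -- the second moments
  have pa : ∀ a : Fin k, PB (fun x : Sp k × Sp n => (x.1 a - c a) ^ 2) := fun a => by
    have h : Function.HasTemperateGrowth (fun x : Sp k × Sp n => x.1 a) :=
      ((ContinuousLinearMap.proj (R := ℝ) (φ := fun _ : Fin k => ℝ) a).comp
        (ContinuousLinearMap.fst ℝ (Sp k) (Sp n))).hasTemperateGrowth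
    exact ((PB.of_htg h).sub (PB.const (c a))).pow 2
  have ca : ∀ a : Fin k, Continuous (fun x : Sp k × Sp n => (x.1 a - c a) ^ 2) := fun a => by
    fun_prop
  have ia : ∀ a : Fin k, Integrable (fun t : Sp k => (t a - c a) ^ 2 * dens W t) := by
    intro a
    have h := hW.fib_integrable (pa a) (ca a)
    refine h.congr (Eventually.of_forall fun t => ?_)
    have h2 : fib W (fun x => (x.1 a - c a) ^ 2) t =
        fib W (fun x => (x.1 a - c a) ^ 2 * (fun _ => (1 : ℝ)) x) t :=
      Std.fib_congr t fun z => by ring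
    rw [h2, Std.fib_base (fun t => (t a - c a) ^ 2), ← dens_eq]
  have isum : Integrable (fun t : Sp k => (∑ a, (t a - c a) ^ 2) * dens W t) := by
    simp_rw [Finset.sum_mul]
    exact integrable_finsetSum _ fun a _ => ia a
  have hsum : ∫ t : Sp k, (∑ a, (t a - c a) ^ 2) * dens W t ≤ (k + 1) * s := by
    simp_rw [Finset.sum_mul]
    rw [integral_finsetSum _ fun a _ => ia a]
    have h3 := Finset.sum_le_sum fun a (_ : a ∈ Finset.univ) => hv a
    rw [Finset.sum_const, Finset.card_univ, Fintype.card_fin, nsmul_eq_mul] at h3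
    linarith
  -- the functions on Euclidean space
  set Z : EuclideanSpace ℝ (Fin k) → ℝ := fun x => dens W (lp k x + c) with hZ
  set M : EuclideanSpace ℝ (Fin k) → ℝ := fun x => φ (lp k x + c) with hM
  have hZc : Continuous Z := hW.dens_smooth.continuous.comp ((lp k).continuous.add continuous_const)
  have e0 : ∀ x : EuclideanSpace ℝ (Fin k), ‖x‖ ^ 2 * Z x =
      (fun t : Sp k => (∑ a, (t a - c a) ^ 2) * dens W t) (lp k x + c) := by
    intro x
    simp only [hZ, lp_norm_sq, Pi.add_apply, add_sub_cancel_right]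
  have hG : ∀ x : EuclideanSpace ℝ (Fin k), ‖fderiv ℝ M x‖ ^ 2 * Z x =
      (fun t : Sp k => (∑ a, (pd (sv a) φ t) ^ 2) * dens W t) (lp k x + c) := by
    intro x
    simp only [hM, hZ]
    rw [norm_fderiv_sq hφ]
  have bG : BC (fun t : Sp k => ∑ a, (pd (sv a) φ t) ^ 2) :=
    BC.of_supp (continuous_finsetSum _ fun a _ => (pd_cont hφ _).pow 2)
      (cs_sum _ fun a _ => by
        simp_rw [pow_two]
        exact (pd_supp hφs _).mul_right)
  obtain ⟨c', hc'⟩ := hcr Z M (fun x => hW.dens_pos _) hZc (fun a b t ht0 ht1 => by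
      have h2 := hW.dens_lc (lp k a + c) (lp k b + c) (s := 1 - t) (by linarith) (by linarith)
      have h3 : (1 - t) • (lp k a + c) + (1 - (1 - t)) • (lp k b + c) =
          lp k ((1 - t) • a + t • b) + c := by
        rw [map_add, map_smul, map_smul]
        ext i
        simp only [Pi.add_apply, Pi.smul_apply, smul_eq_mul]
        ring
      rw [h3] at h2
      have h4 : 1 - (1 - t) = t := by ring
      rw [h4] at h2
      exact h2)
    (lp_integrable_c hW.dens_int c) σ hσ0 (by
      simp_rw [e0]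
      exact lp_integrable_c isum c) (by
      simp_rw [e0]
      have h4 : ∫ x, Z x = 1 := by
        rw [hZ, lp_int_c (fun t => dens W t) c, h1]
      rw [h4, mul_one, lp_int_c (fun t : Sp k => (∑ a, (t a - c a) ^ 2) * dens W t) c, hσ2]
      exact hsum) (comp_smooth hφ c) (by
      obtain ⟨B, hB⟩ := hφs.exists_bound_of_continuous hφ.continuous
      exact ⟨B, fun x => hB _⟩) (by
      simp_rw [hG]
      exact lp_integrable_c (hW.bc_int bG) c)
  simp_rw [hG] at hc'
  rw [lp_int_c (fun t : Sp k => (∑ a, (pd (sv a) φ t) ^ 2) * dens W t) c] at hc'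
  have e5 : ∫ x, (M x - c') ^ 2 * Z x = ∫ t, (φ t - c') ^ 2 * dens W t :=
    lp_int_c (fun t : Sp k => (φ t - c') ^ 2 * dens W t) c
  rw [e5, hσ2] at hc'
  -- the variance
  have bφ : BC φ := BC.of_supp hφ.continuous hφs
  have i1 := hW.bc_int bφ.pow2
  have i2 : Integrable (fun t => 2 * c' * (φ t * dens W t)) := (hW.bc_int bφ).const_mul _
  have i3 : Integrable (fun t => c' ^ 2 * dens W t) := hW.dens_int.const_mul _
  have i12 : Integrable (fun t => φ t ^ 2 * dens W t - 2 * c' * (φ t * dens W t)) := i1.sub i2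
  have h2 : ∫ t, (φ t - c') ^ 2 * dens W t = (∫ t, φ t ^ 2 * dens W t) -
      (∫ t, 2 * c' * (φ t * dens W t)) + ∫ t, c' ^ 2 * dens W t := by
    rw [← integral_sub i1 i2, ← integral_add i12 i3]
    refine integral_congr_ae (Eventually.of_forall fun t => ?_)
    simp only
    ring
  rw [h2, integral_const_mul, integral_const_mul, h1] at hc'
  have e6 : C * ((k + 1) * s) = C * (k + 1) * s := by ring
  rw [e6] at hc'
  nlinarith [sq_nonneg ((∫ t, φ t * dens W t) - c')]

end Pool.Agent.Q86.FIB
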