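import Mathlib

/-!
# Weighted integration by parts in a finite dimensional space

`pd v f` is the derivative of `f` in the direction `v`; the weight is `exp (-W)`.
-/

set_option autoImplicit false
set_option linter.unusedSectionVars false

namespace Pool.Agent.Q86.FIB

open MeasureTheory Set Filter Topology
open scoped ContDiff

section Calc

variable {E : Type} [NormedAddCommGroup E] [NormedSpace ℝ E]

/-- The derivative of `f` in the direction `v`. -/
noncomputable def pd (v : E) (f : E → ℝ) (x : E) : ℝ := fderiv ℝ f x v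

theorem pd_smooth {f : E → ℝ} (hf : ContDiff ℝ ∞ f) (v : E) : ContDiff ℝ ∞ (pd v f) :=
  (hf.fderiv_right (m := ∞) (by simp)).clm_apply contDiff_const

theorem pd_one {f : E → ℝ} (hf : ContDiff ℝ 2 f) (v : E) : ContDiff ℝ 1 (pd v f) :=
  (hf.fderiv_right (m := 1) (by norm_num)).clm_apply contDiff_const

theorem pd_cont {f : E → ℝ} (hf : ContDiff ℝ 1 f) (v : E) : Continuous (pd v f) :=
  (hf.continuous_fderiv one_ne_zero).clm_apply continuous_const

theorem diff1 {f : E → ℝ} (hf : ContDiff ℝ 1 f) (x : E) : DifferentiableAt ℝ f x :=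
  hf.differentiable one_ne_zero x

theorem sm1 {f : E → ℝ} (hf : ContDiff ℝ ∞ f) : ContDiff ℝ 1 f := hf.of_le (by simp)

theorem sm2 {f : E → ℝ} (hf : ContDiff ℝ ∞ f) : ContDiff ℝ 2 f :=
  hf.of_le (by norm_cast)

theorem pd_mul {f g : E → ℝ} (hf : ContDiff ℝ 1 f) (hg : ContDiff ℝ 1 g) (v : E) (x : E) :
    pd v (fun x => f x * g x) x = pd v f x * g x + f x * pd v g x := by
  unfold pd
  rw [fderiv_fun_mul (diff1 hf x) (diff1 hg x)]
  simp only [add_apply, smul_apply, smul_eq_mul]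
  ring

theorem pd_add {f g : E → ℝ} (hf : ContDiff ℝ 1 f) (hg : ContDiff ℝ 1 g) (v : E) (x : E) :
    pd v (fun x => f x + g x) x = pd v f x + pd v g x := by
  unfold pd
  rw [fderiv_fun_add (diff1 hf x) (diff1 hg x)]
  rfl

theorem pd_sub {f g : E → ℝ} (hf : ContDiff ℝ 1 f) (hg : ContDiff ℝ 1 g) (v : E) (x : E) :
    pd v (fun x => f x - g x) x = pd v f x - pd v g x := by
  unfold pd
  rw [fderiv_fun_sub (diff1 hf x) (diff1 hg x)]
  rfl

theorem pd_neg {f : E → ℝ} (v : E) (x : E) : pd v (fun x => - f x) x = - pd v f x := by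
  unfold pd
  rw [fderiv_fun_neg]
  rfl

theorem pd_const_mul {f : E → ℝ} (hf : ContDiff ℝ 1 f) (c : ℝ) (v : E) (x : E) :
    pd v (fun x => c * f x) x = c * pd v f x := by
  unfold pd
  rw [fderiv_const_mul (diff1 hf x)]
  rfl

theorem pd_const (c : ℝ) (v : E) (x : E) : pd v (fun _ : E => c) x = 0 := by
  unfold pd
  simp

theorem pd_sum {ι : Type} (s : Finset ι) {f : ι → E → ℝ} (hf : ∀ i ∈ s, ContDiff ℝ 1 (f i)) (v : E)
    (x : E) : pd v (fun x => ∑ i ∈ s, f i x) x = ∑ i ∈ s, pd v (f i) x := by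
  unfold pd
  rw [fderiv_fun_sum fun i hi => diff1 (hf i hi) x]
  simp only [sum_apply]

theorem pd_exp {f : E → ℝ} (hf : ContDiff ℝ 1 f) (v : E) (x : E) :
    pd v (fun x => Real.exp (f x)) x = Real.exp (f x) * pd v f x := by
  unfold pd
  rw [fderiv_exp (diff1 hf x)]
  rfl

theorem pd_comm {f : E → ℝ} (hf : ContDiff ℝ 2 f) (u v : E) (x : E) :
    pd u (pd v f) x = pd v (pd u f) x := by
  have h1 : DifferentiableAt ℝ (fderiv ℝ f) x :=
    (hf.fderiv_right (m := 1) (by norm_num)).differentiable one_ne_zero x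
  have h2 : ∀ v : E, fderiv ℝ (pd v f) x = (fderiv ℝ (fderiv ℝ f) x).flip v := by
    intro v
    have h := (h1.hasFDerivAt.clm_apply (hasFDerivAt_const v x)).fderiv
    have h3 : (fun y => (fderiv ℝ f y) v) = pd v f := rfl
    rw [h3] at h
    rw [h]
    ext w
    simp
  have h4 := (hf.contDiffAt (x := x)).isSymmSndFDerivAt (by simp)
  unfold pd at h2 ⊢
  rw [h2, h2]
  exact h4 u v

theorem pd_supp {f : E → ℝ} (hf : HasCompactSupport f) (v : E) : HasCompactSupport (pd v f) :=
  hf.fderiv_apply (𝕜 := ℝ) v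

omit [NormedSpace ℝ E] in
theorem cs_sum {ι : Type} (s : Finset ι) {f : ι → E → ℝ}
    (hf : ∀ i ∈ s, HasCompactSupport (f i)) : HasCompactSupport (fun x => ∑ i ∈ s, f i x) := by
  classical
  induction s using Finset.induction_on with
  | empty =>
    simp only [Finset.sum_empty]
    exact HasCompactSupport.zero
  | insert a s ha ih =>
    simp_rw [Finset.sum_insert ha]
    exact (hf a (Finset.mem_insert_self a s)).add
      (ih fun i hi => hf i (Finset.mem_insert_of_mem hi))

end Calc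

section Int

variable {E : Type} [NormedAddCommGroup E] [NormedSpace ℝ E] [FiniteDimensional ℝ E]
  [MeasurableSpace E] [BorelSpace E] (μ : Measure E) [μ.IsAddHaarMeasure]

omit [NormedSpace ℝ E] [FiniteDimensional ℝ E] in
theorem cc_int {f : E → ℝ} (hf : Continuous f) (hs : HasCompactSupport f) : Integrable f μ :=
  hf.integrable_of_hasCompactSupport hs

/-- The integral of a derivative of a compactly supported function is zero. -/
theorem int_pd {F : E → ℝ} (hF : ContDiff ℝ 1 F) (hs : HasCompactSupport F) (v : E) :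
    ∫ x, pd v F x ∂μ = 0 := by
  have h := integral_mul_fderiv_eq_neg_fderiv_mul_of_integrable (μ := μ) (f := fun _ : E => (1 : ℝ))
    (g := F) (v := v) (by simp) (by
      simp only [one_mul]
      exact cc_int μ (pd_cont hF v) (pd_supp hs v))
    (by simpa using cc_int μ hF.continuous hs) (fun x _ => differentiableAt_const _)
    (fun x _ => diff1 hF x)
  simpa [pd] using h

/-- Weighted form. -/
theorem int_pd_w {F W : E → ℝ} (hF : ContDiff ℝ 1 F) (hW : ContDiff ℝ 1 W)
    (hs : HasCompactSupport F) (v : E) :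
    ∫ x, pd v F x * Real.exp (-W x) ∂μ = ∫ x, F x * pd v W x * Real.exp (-W x) ∂μ := by
  have hw : ContDiff ℝ 1 (fun x => Real.exp (-W x)) := hW.neg.exp
  have h := int_pd μ (hF.mul hw) hs.mul_right v
  have h2 : ∀ x, pd v (fun x => F x * Real.exp (-W x)) x =
      pd v F x * Real.exp (-W x) - F x * pd v W x * Real.exp (-W x) := by
    intro x
    rw [pd_mul hF hw, pd_exp hW.neg, pd_neg]
    ring
  simp_rw [h2] at h
  rw [integral_sub] at h
  · linarith
  · exact cc_int μ ((pd_cont hF v).mul hw.continuous) (pd_supp hs v).mul_right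
  · exact cc_int μ ((hF.continuous.mul (pd_cont hW v)).mul hw.continuous) hs.mul_right.mul_right

variable {ι : Type} [Fintype ι] (e : ι → E)

/-- The operator `∑ (∂_i ∂_i Φ - ∂_i W ∂_i Φ)`. -/
noncomputable def Lop (W Φ : E → ℝ) (x : E) : ℝ :=
  ∑ i, (pd (e i) (pd (e i) Φ) x - pd (e i) W x * pd (e i) Φ x)

omit [FiniteDimensional ℝ E] [MeasurableSpace E] [BorelSpace E] in
theorem Lop_cont {W Φ : E → ℝ} (hW : ContDiff ℝ 1 W) (hΦ : ContDiff ℝ 2 Φ) :
    Continuous (Lop e W Φ) := by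
  unfold Lop
  exact continuous_finsetSum _ fun i _ => (pd_cont (pd_one hΦ _) _).sub
    ((pd_cont hW _).mul (pd_one hΦ _).continuous)

omit [FiniteDimensional ℝ E] [MeasurableSpace E] [BorelSpace E] in
theorem Lop_smooth {W Φ : E → ℝ} (hW : ContDiff ℝ ∞ W) (hΦ : ContDiff ℝ ∞ Φ) :
    ContDiff ℝ ∞ (Lop e W Φ) := by
  unfold Lop
  exact ContDiff.sum fun i _ => (pd_smooth (pd_smooth hΦ _) _).sub
    ((pd_smooth hW _).mul (pd_smooth hΦ _))

omit [FiniteDimensional ℝ E] [MeasurableSpace E] [BorelSpace E] in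
theorem Lop_supp {W Φ : E → ℝ} (hs : HasCompactSupport Φ) : HasCompactSupport (Lop e W Φ) := by
  have h : ∀ x ∉ tsupport Φ, Lop e W Φ x = 0 := by
    intro x hx
    unfold Lop
    refine Finset.sum_eq_zero fun i _ => ?_
    have h1 : ∀ v : E, tsupport (pd v Φ) ⊆ tsupport Φ := fun v => tsupport_fderiv_apply_subset ℝ v
    rw [image_eq_zero_of_notMem_tsupport (fun h => hx (h1 _ h)), mul_zero, sub_zero]
    have h2 : tsupport (pd (e i) (pd (e i) Φ)) ⊆ tsupport (pd (e i) Φ) :=
      tsupport_fderiv_apply_subset ℝ (e i)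
    exact image_eq_zero_of_notMem_tsupport (fun h => hx (h1 _ (h2 h)))
  exact hs.of_isClosed_subset (isClosed_tsupport _)
    (closure_minimal (fun x hx => by
      by_contra h3
      exact hx (h x h3)) (isClosed_tsupport _))

/-- Integration by parts for `Lop`. -/
theorem ibpL {W Φ f : E → ℝ} (hW : ContDiff ℝ 1 W) (hΦ : ContDiff ℝ 2 Φ) (hf : ContDiff ℝ 1 f)
    (hs : HasCompactSupport Φ ∨ HasCompactSupport f) :
    ∫ x, f x * Lop e W Φ x * Real.exp (-W x) ∂μ =
      - ∫ x, (∑ i, pd (e i) f x * pd (e i) Φ x) * Real.exp (-W x) ∂μ := by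
  have hw : Continuous (fun x => Real.exp (-W x)) := (hW.neg.exp).continuous
  have hsup : ∀ i, HasCompactSupport (fun x => f x * pd (e i) Φ x) := fun i => by
    rcases hs with h | h
    · exact (pd_supp h _).mul_left
    · exact h.mul_right
  have h1 : ∀ i, ∫ x, (pd (e i) f x * pd (e i) Φ x + f x * pd (e i) (pd (e i) Φ) x) *
      Real.exp (-W x) ∂μ = ∫ x, (f x * pd (e i) Φ x) * pd (e i) W x * Real.exp (-W x) ∂μ := by
    intro i
    have h := int_pd_w μ (hf.mul (pd_one hΦ (e i))) hW (hsup i) (e i)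
    simp_rw [pd_mul hf (pd_one hΦ (e i))] at h
    exact h
  have hsup2 : ∀ i, HasCompactSupport (fun x => pd (e i) f x * pd (e i) Φ x) := fun i => by
    rcases hs with h | h
    · exact (pd_supp h _).mul_left
    · exact (pd_supp h _).mul_right
  have hsup3 : ∀ i, HasCompactSupport (fun x => f x * pd (e i) (pd (e i) Φ) x) := fun i => by
    rcases hs with h | h
    · exact (pd_supp (pd_supp h _) _).mul_left
    · exact h.mul_right
  have c1 : ∀ i, Integrable (fun x => pd (e i) f x * pd (e i) Φ x * Real.exp (-W x)) μ := fun i =>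
    cc_int μ (((pd_cont hf _).mul (pd_one hΦ _).continuous).mul hw) (hsup2 i).mul_right
  have c2 : ∀ i, Integrable (fun x => f x * pd (e i) (pd (e i) Φ) x * Real.exp (-W x)) μ := fun i =>
    cc_int μ ((hf.continuous.mul (pd_cont (pd_one hΦ _) _)).mul hw) (hsup3 i).mul_right
  have c3 : ∀ i, Integrable (fun x => (f x * pd (e i) Φ x) * pd (e i) W x * Real.exp (-W x)) μ :=
    fun i => cc_int μ (((hf.continuous.mul (pd_one hΦ _).continuous).mul (pd_cont hW _)).mul hw)
      (hsup i).mul_right.mul_right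
  have h2 : ∀ i, ∫ x, (f x * (pd (e i) (pd (e i) Φ) x - pd (e i) W x * pd (e i) Φ x)) *
      Real.exp (-W x) ∂μ = - ∫ x, pd (e i) f x * pd (e i) Φ x * Real.exp (-W x) ∂μ := by
    intro i
    have h := h1 i
    simp_rw [add_mul] at h
    rw [integral_add (c1 i) (c2 i)] at h
    have h3 : ∫ x, (f x * (pd (e i) (pd (e i) Φ) x - pd (e i) W x * pd (e i) Φ x)) *
        Real.exp (-W x) ∂μ = (∫ x, f x * pd (e i) (pd (e i) Φ) x * Real.exp (-W x) ∂μ) -
          ∫ x, (f x * pd (e i) Φ x) * pd (e i) W x * Real.exp (-W x) ∂μ := by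
      rw [← integral_sub (c2 i) (c3 i)]
      refine integral_congr_ae (Eventually.of_forall fun x => ?_)
      simp only
      ring
    rw [h3]
    linarith
  have h4 : ∀ x, f x * Lop e W Φ x * Real.exp (-W x) =
      ∑ i, (f x * (pd (e i) (pd (e i) Φ) x - pd (e i) W x * pd (e i) Φ x)) * Real.exp (-W x) := by
    intro x
    unfold Lop
    rw [Finset.mul_sum, Finset.sum_mul]
  simp_rw [h4, Finset.sum_mul]
  rw [integral_finsetSum _ fun i _ => ?_, integral_finsetSum _ fun i _ => c1 i]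
  · simp_rw [h2]
    rw [Finset.sum_neg_distrib]
  · have h5 : (fun x => (f x * (pd (e i) (pd (e i) Φ) x - pd (e i) W x * pd (e i) Φ x)) *
        Real.exp (-W x)) = fun x => f x * pd (e i) (pd (e i) Φ) x * Real.exp (-W x) -
          (f x * pd (e i) Φ x) * pd (e i) W x * Real.exp (-W x) := by
      funext x
      ring
    rw [h5]
    exact (c2 i).sub (c3 i)

/-- **Bochner's formula** for compactly supported functions. -/
theorem bochner {W Φ : E → ℝ} (hW : ContDiff ℝ ∞ W) (hΦ : ContDiff ℝ ∞ Φ)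
    (hs : HasCompactSupport Φ) :
    ∫ x, (Lop e W Φ x) ^ 2 * Real.exp (-W x) ∂μ =
      (∫ x, (∑ i, ∑ j, (pd (e j) (pd (e i) Φ) x) ^ 2) * Real.exp (-W x) ∂μ) +
      ∫ x, (∑ i, ∑ j, pd (e i) (pd (e j) W) x * pd (e i) Φ x * pd (e j) Φ x) *
        Real.exp (-W x) ∂μ := by
  have hL := Lop_smooth e hW hΦ
  have hw : Continuous (fun x => Real.exp (-W x)) := (hW.neg.exp).continuous
  have key : ∀ (i : ι) (x : E), pd (e i) (Lop e W Φ) x =
      Lop e W (pd (e i) Φ) x - ∑ j, pd (e i) (pd (e j) W) x * pd (e j) Φ x := by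
    intro i x
    have h1 : pd (e i) (Lop e W Φ) x = ∑ j, pd (e i) (fun x =>
        pd (e j) (pd (e j) Φ) x - pd (e j) W x * pd (e j) Φ x) x := by
      have := pd_sum Finset.univ (f := fun j x =>
        pd (e j) (pd (e j) Φ) x - pd (e j) W x * pd (e j) Φ x)
        (fun j _ => sm1 ((pd_smooth (pd_smooth hΦ _) _).sub ((pd_smooth hW _).mul (pd_smooth hΦ _))))
        (e i) x
      exact this
    rw [h1]
    unfold Lop
    rw [← Finset.sum_sub_distrib]
    refine Finset.sum_congr rfl fun j _ => ?_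
    rw [pd_sub (sm1 (pd_smooth (pd_smooth hΦ _) _)) (sm1 ((pd_smooth hW _).mul (pd_smooth hΦ _))),
      pd_mul (sm1 (pd_smooth hW _)) (sm1 (pd_smooth hΦ _)),
      pd_comm (sm2 (pd_smooth hΦ (e j))) (e i) (e j)]
    have h2 : pd (e i) (pd (e j) Φ) = pd (e j) (pd (e i) Φ) := by
      funext y
      exact pd_comm (sm2 hΦ) _ _ y
    rw [h2]
    ring
  have h1 := ibpL μ e (sm1 hW) (sm2 hΦ) (sm1 hL) (Or.inl hs)
  have h2 : ∀ x, Lop e W Φ x ^ 2 * Real.exp (-W x) =
      Lop e W Φ x * Lop e W Φ x * Real.exp (-W x) := fun x => by ring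
  simp_rw [h2]
  rw [h1]
  simp_rw [key]
  have h3 : ∀ i, ∫ x, pd (e i) Φ x * Lop e W (pd (e i) Φ) x * Real.exp (-W x) ∂μ =
      - ∫ x, (∑ j, pd (e j) (pd (e i) Φ) x * pd (e j) (pd (e i) Φ) x) * Real.exp (-W x) ∂μ :=
    fun i => ibpL μ e (sm1 hW) (sm2 (pd_smooth hΦ _)) (sm1 (pd_smooth hΦ _))
      (Or.inl (pd_supp hs _))
  have c1 : ∀ i, Integrable (fun x => pd (e i) Φ x * Lop e W (pd (e i) Φ) x *
      Real.exp (-W x)) μ := fun i => cc_int μ
    (((pd_smooth hΦ _).continuous.mul (Lop_smooth e hW (pd_smooth hΦ _)).continuous).mul hw)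
    (pd_supp hs _).mul_right.mul_right
  have c2 : ∀ i, Integrable (fun x => (∑ j, pd (e j) (pd (e i) Φ) x * pd (e j) (pd (e i) Φ) x) *
      Real.exp (-W x)) μ := fun i => by
    refine cc_int μ ((continuous_finsetSum _ fun j _ =>
      ((pd_smooth (pd_smooth hΦ _) _).continuous.mul
        (pd_smooth (pd_smooth hΦ _) _).continuous)).mul hw) (HasCompactSupport.mul_right ?_)
    exact cs_sum _ fun j _ => (pd_supp (pd_supp hs _) _).mul_right
  have c3 : ∀ i, Integrable (fun x => (∑ j, pd (e i) (pd (e j) W) x * pd (e i) Φ x *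
      pd (e j) Φ x) * Real.exp (-W x)) μ := fun i => by
    refine cc_int μ ((continuous_finsetSum _ fun j _ =>
      (((pd_smooth (pd_smooth hW _) _).continuous.mul
        (pd_smooth hΦ _).continuous).mul (pd_smooth hΦ _).continuous)).mul hw)
      (HasCompactSupport.mul_right ?_)
    exact cs_sum _ fun j _ => (pd_supp hs _).mul_left
  have h5 : ∀ x, (∑ i, (Lop e W (pd (e i) Φ) x - ∑ j, pd (e i) (pd (e j) W) x * pd (e j) Φ x) *
      pd (e i) Φ x) * Real.exp (-W x) =
      (∑ i, pd (e i) Φ x * Lop e W (pd (e i) Φ) x * Real.exp (-W x)) -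
      ∑ i, (∑ j, pd (e i) (pd (e j) W) x * pd (e i) Φ x * pd (e j) Φ x) * Real.exp (-W x) := by
    intro x
    rw [← Finset.sum_sub_distrib, Finset.sum_mul]
    refine Finset.sum_congr rfl fun i _ => ?_
    rw [sub_mul, sub_mul, Finset.sum_mul]
    congr 1
    · ring
    · congr 1
      exact Finset.sum_congr rfl fun j _ => by ring
  simp_rw [h5]
  rw [integral_sub (integrable_finsetSum _ fun i _ => c1 i)
      (integrable_finsetSum _ fun i _ => c3 i), integral_finsetSum _ fun i _ => c1 i,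
    integral_finsetSum _ fun i _ => c3 i]
  simp_rw [h3]
  have h6 : ∀ x, (∑ i, ∑ j, (pd (e j) (pd (e i) Φ) x) ^ 2) * Real.exp (-W x) =
      ∑ i, (∑ j, pd (e j) (pd (e i) Φ) x * pd (e j) (pd (e i) Φ) x) * Real.exp (-W x) := by
    intro x
    rw [Finset.sum_mul]
    refine Finset.sum_congr rfl fun i _ => ?_
    congr 1
    exact Finset.sum_congr rfl fun j _ => by ring
  have h7 : ∀ x, (∑ i, ∑ j, pd (e i) (pd (e j) W) x * pd (e i) Φ x * pd (e j) Φ x) *
      Real.exp (-W x) = ∑ i, (∑ j, pd (e i) (pd (e j) W) x * pd (e i) Φ x * pd (e j) Φ x) *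
        Real.exp (-W x) := fun x => by rw [Finset.sum_mul]
  simp_rw [h6, h7]
  rw [integral_finsetSum _ fun i _ => c2 i, integral_finsetSum _ fun i _ => c3 i,
    Finset.sum_neg_distrib]
  ring

end Int

end Pool.Agent.Q86.FIB
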