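import Pool.Agent.Q86.FIB.Basic

/-!
# Convolution of square integrable functions with smooth kernels
-/

set_option autoImplicit false
set_option linter.unusedSectionVars false

namespace Pool.Agent.Q86.FIB

open MeasureTheory Set Filter Topology
open scoped ContDiff

section CS

variable {α : Type} [MeasurableSpace α] {ν : Measure α}

/-- The Cauchy-Schwarz inequality. -/
theorem cs_ineq {f g : α → ℝ} (hf : Integrable (fun x => f x ^ 2) ν)
    (hg : Integrable (fun x => g x ^ 2) ν) (hfg : Integrable (fun x => f x * g x) ν) :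
    (∫ x, f x * g x ∂ν) ^ 2 ≤ (∫ x, f x ^ 2 ∂ν) * ∫ x, g x ^ 2 ∂ν := by
  have h : ∀ t : ℝ, 0 ≤ (∫ x, g x ^ 2 ∂ν) * (t * t) + (-2 * ∫ x, f x * g x ∂ν) * t +
      ∫ x, f x ^ 2 ∂ν := by
    intro t
    have h1 : 0 ≤ ∫ x, (f x - t * g x) ^ 2 ∂ν := integral_nonneg fun x => sq_nonneg _
    have h2 : ∫ x, (f x - t * g x) ^ 2 ∂ν = (∫ x, f x ^ 2 ∂ν) - 2 * t * (∫ x, f x * g x ∂ν) +
        t ^ 2 * ∫ x, g x ^ 2 ∂ν := by
      have h3 : ∀ x, (f x - t * g x) ^ 2 = (f x ^ 2 - 2 * t * (f x * g x)) + t ^ 2 * g x ^ 2 :=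
        fun x => by ring
      simp_rw [h3]
      have i1 : Integrable (fun x => 2 * t * (f x * g x)) ν := hfg.const_mul _
      have i2 : Integrable (fun x => f x ^ 2 - 2 * t * (f x * g x)) ν := hf.sub i1
      rw [integral_add i2 (hg.const_mul _),
        integral_sub hf i1, integral_const_mul, integral_const_mul]
    rw [h2] at h1
    nlinarith [h1]
  have h4 := discrim_le_zero h
  unfold discrim at h4
  nlinarith [h4]

/-- The Cauchy-Schwarz inequality with square roots. -/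
theorem cs_abs {f g : α → ℝ} (hf : Integrable (fun x => f x ^ 2) ν)
    (hg : Integrable (fun x => g x ^ 2) ν) (hfg : Integrable (fun x => f x * g x) ν) :
    |∫ x, f x * g x ∂ν| ≤ Real.sqrt (∫ x, f x ^ 2 ∂ν) * Real.sqrt (∫ x, g x ^ 2 ∂ν) := by
  rw [← Real.sqrt_mul (integral_nonneg fun x => sq_nonneg _)]
  exact Real.abs_le_sqrt (cs_ineq hf hg hfg)

end CS

variable {E : Type} [NormedAddCommGroup E] [NormedSpace ℝ E] [FiniteDimensional ℝ E]
  [MeasurableSpace E] [BorelSpace E] (μ : Measure E) [μ.IsAddHaarMeasure]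

/-- The convolution of `k` and `ρ`. -/
noncomputable def cv (k ρ : E → ℝ) (x : E) : ℝ := ∫ y, k y * ρ (x - y) ∂μ

theorem cv_eq (k ρ : E → ℝ) : cv μ k ρ = convolution k ρ (ContinuousLinearMap.mul ℝ ℝ) μ := rfl

theorem shift_supp {ρ : E → ℝ} (hs : HasCompactSupport ρ) (x : E) :
    HasCompactSupport (fun y => ρ (x - y)) :=
  hs.comp_homeomorph (Homeomorph.subLeft x)

theorem cv_smooth {k ρ : E → ℝ} (hk : LocallyIntegrable k μ) (hρ : ContDiff ℝ ∞ ρ)
    (hs : HasCompactSupport ρ) : ContDiff ℝ ∞ (cv μ k ρ) := by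
  rw [cv_eq]
  exact hs.contDiff_convolution_right (n := ⊤) _ hk hρ

theorem cv_int {k ρ : E → ℝ} (hk : LocallyIntegrable k μ) (hρ : Continuous ρ)
    (hs : HasCompactSupport ρ) (x : E) : Integrable (fun y => k y * ρ (x - y)) μ :=
  hs.convolutionExists_right (ContinuousLinearMap.mul ℝ ℝ) hk hρ x

theorem pd_cv {k ρ : E → ℝ} (hk : LocallyIntegrable k μ) (hρ : ContDiff ℝ ∞ ρ)
    (hs : HasCompactSupport ρ) (v : E) : pd v (cv μ k ρ) = cv μ k (pd v ρ) := by
  funext x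
  have h := (hs.hasFDerivAt_convolution_right (ContinuousLinearMap.mul ℝ ℝ) hk (sm1 hρ) x).fderiv
  have h2 : Integrable (fun t => ((ContinuousLinearMap.mul ℝ ℝ).precompR E) (k t)
      (fderiv ℝ ρ (x - t))) μ := by
    exact (hs.fderiv (𝕜 := ℝ)).convolutionExists_right
      ((ContinuousLinearMap.mul ℝ ℝ).precompR E) hk
      ((sm1 hρ).continuous_fderiv one_ne_zero) x
  unfold pd
  rw [cv_eq, h]
  unfold convolution
  rw [ContinuousLinearMap.integral_apply h2]
  rfl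

theorem cv_sq_le {k ρ : E → ℝ} (hk : Integrable (fun x => k x ^ 2) μ)
    (hkm : AEStronglyMeasurable k μ) (hρ : Continuous ρ)
    (hs : HasCompactSupport ρ) (h0 : ∀ x, 0 ≤ ρ x) (h1 : ∫ x, ρ x ∂μ = 1) (x : E) :
    (cv μ k ρ x) ^ 2 ≤ cv μ (fun y => k y ^ 2) ρ x := by
  have hkl : LocallyIntegrable k μ := by
    have : MemLp k 2 μ := (memLp_two_iff_integrable_sq hkm).2 hk
    exact this.locallyIntegrable (by norm_num)
  have h2 : ∀ y, k y * ρ (x - y) = (k y * Real.sqrt (ρ (x - y))) * Real.sqrt (ρ (x - y)) := by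
    intro y
    rw [mul_assoc, Real.mul_self_sqrt (h0 _)]
  have h3 : ∀ y, (k y * Real.sqrt (ρ (x - y))) ^ 2 = k y ^ 2 * ρ (x - y) := by
    intro y
    rw [mul_pow, Real.sq_sqrt (h0 _)]
  have h4 : ∀ y, Real.sqrt (ρ (x - y)) ^ 2 = ρ (x - y) := fun y => Real.sq_sqrt (h0 _)
  have i1 := cv_int μ hk.locallyIntegrable hρ hs x
  have i2 := cv_int μ hkl hρ hs x
  have j1 : Integrable (fun y => (k y * Real.sqrt (ρ (x - y))) ^ 2) μ := by
    simp_rw [h3]
    exact i1
  have j2 : Integrable (fun y => Real.sqrt (ρ (x - y)) ^ 2) μ := by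
    simp_rw [h4]
    exact cc_int μ (hρ.comp (continuous_const.sub continuous_id)) (shift_supp hs x)
  have j3 : Integrable (fun y => (k y * Real.sqrt (ρ (x - y))) * Real.sqrt (ρ (x - y))) μ := by
    simp_rw [← h2]
    exact i2
  have h5 := cs_ineq (ν := μ) j1 j2 j3
  simp_rw [← h2, h3, h4] at h5
  rw [integral_sub_left_eq_self (fun y => ρ y) μ x, h1, mul_one] at h5
  exact h5

theorem cv_sq_int {k ρ : E → ℝ} (hk : Integrable (fun x => k x ^ 2) μ)
    (hkm : AEStronglyMeasurable k μ) (hρ : ContDiff ℝ ∞ ρ)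
    (hs : HasCompactSupport ρ) (h0 : ∀ x, 0 ≤ ρ x) (h1 : ∫ x, ρ x ∂μ = 1) :
    Integrable (fun x => (cv μ k ρ x) ^ 2) μ ∧ ∫ x, (cv μ k ρ x) ^ 2 ∂μ ≤ ∫ x, k x ^ 2 ∂μ := by
  have hkl : LocallyIntegrable k μ := by
    have : MemLp k 2 μ := (memLp_two_iff_integrable_sq hkm).2 hk
    exact this.locallyIntegrable (by norm_num)
  have hρi : Integrable ρ μ := cc_int μ hρ.continuous hs
  have i1 : Integrable (cv μ (fun y => k y ^ 2) ρ) μ := by
    rw [cv_eq]
    exact hk.integrable_convolution _ hρi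
  have h2 : ∫ x, cv μ (fun y => k y ^ 2) ρ x ∂μ = ∫ x, k x ^ 2 ∂μ := by
    rw [cv_eq, integral_convolution _ hk hρi]
    show (∫ x, k x ^ 2 ∂μ) * (∫ x, ρ x ∂μ) = _
    rw [h1, mul_one]
  have i2 : Integrable (fun x => (cv μ k ρ x) ^ 2) μ :=
    i1.mono' ((cv_smooth μ hkl hρ hs).continuous.pow 2).aestronglyMeasurable
      (Eventually.of_forall fun x => by
        rw [Real.norm_of_nonneg (sq_nonneg _)]
        exact cv_sq_le μ hk hkm hρ.continuous hs h0 h1 x)
  refine ⟨i2, ?_⟩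
  rw [← h2]
  exact integral_mono i2 i1 fun x => cv_sq_le μ hk hkm hρ.continuous hs h0 h1 x

end Pool.Agent.Q86.FIB
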