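import Pool.Agent.Q86.FIB.Growth

/-!
# Integrable log-concave functions decay exponentially
-/

set_option autoImplicit false
set_option linter.unusedSectionVars false

namespace Pool.Agent.Q86.FIB

open MeasureTheory Set Filter Topology
open scoped ContDiff

variable {X : Type} [NormedAddCommGroup X] [NormedSpace ℝ X] [FiniteDimensional ℝ X]
  [MeasurableSpace X] [BorelSpace X] (μ : Measure X) [μ.IsAddHaarMeasure]

theorem far_large {W : X → ℝ} (hW : ConvexOn ℝ univ W) (hc : Continuous W)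
    (hi : Integrable (fun x => Real.exp (-W x)) μ) :
    ∃ r : ℝ, 0 < r ∧ ∀ x, r ≤ ‖x‖ → W 0 + 1 ≤ W x := by
  by_contra hcon
  push Not at hcon
  -- a ball on which `W` is small
  obtain ⟨δ, hδ, hball⟩ : ∃ δ : ℝ, 0 < δ ∧ ∀ u, ‖u‖ < δ → W u ≤ W 0 + 1 := by
    obtain ⟨δ, hδ, h⟩ := Metric.continuous_iff.1 hc 0 1 one_pos
    refine ⟨δ, hδ, fun u hu => ?_⟩
    have h1 := h u (by simpa using hu)
    rw [Real.dist_eq] at h1
    linarith [(abs_lt.1 h1).2]
  set v : ℝ := μ.real (Metric.ball (0 : X) (δ / 2)) with hv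
  have hv0 : 0 < v := by
    rw [hv, measureReal_def]
    exact ENNReal.toReal_pos (Metric.measure_ball_pos μ _ (by linarith)).ne'
      (measure_ball_lt_top).ne
  set I : ℝ := ∫ x, Real.exp (-W x) ∂μ with hI
  obtain ⟨N, hN⟩ := exists_nat_gt (I / (v * Real.exp (-(W 0 + 1))))
  have hN0 : 0 < v * Real.exp (-(W 0 + 1)) := by positivity
  rw [div_lt_iff₀ hN0] at hN
  obtain ⟨x, hx1, hx2⟩ := hcon (2 * δ * (N + 1)) (by positivity)
  have hx0 : 0 < ‖x‖ := lt_of_lt_of_le (by positivity) hx1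
  -- the centres
  set s : ℕ → ℝ := fun j => j * δ / ‖x‖ with hs
  have hs1 : ∀ j < N, s j ≤ 1 / 2 := by
    intro j hj
    rw [hs]
    simp only
    rw [div_le_div_iff₀ hx0 two_pos]
    have : (j : ℝ) ≤ N := by exact_mod_cast hj.le
    nlinarith
  have hs0 : ∀ j, 0 ≤ s j := fun j => by positivity
  have hsmall : ∀ j < N, ∀ y, y ∈ Metric.ball (s j • x) (δ / 2) → W y ≤ W 0 + 1 := by
    intro j hj y hy
    have h1 := hs1 j hj
    have h2 : 0 < 1 - s j := by linarith
    set u : X := (1 - s j)⁻¹ • (y - s j • x) with hu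
    have h3 : y = (1 - s j) • u + s j • x := by
      rw [hu, smul_smul, mul_inv_cancel₀ h2.ne', one_smul, sub_add_cancel]
    have h4 : ‖u‖ < δ := by
      rw [hu, norm_smul, norm_inv, Real.norm_of_nonneg h2.le, inv_mul_lt_iff₀ h2]
      rw [Metric.mem_ball, dist_eq_norm] at hy
      nlinarith
    have h5 := hW.2 (mem_univ u) (mem_univ x) h2.le (hs0 j) (by ring)
    rw [← h3, smul_eq_mul, smul_eq_mul] at h5
    have h6 := hball u h4
    have h7 := hs0 j
    nlinarith
  have hdisj : ∀ i j, i ≠ j → ∀ y, y ∈ Metric.ball (s i • x) (δ / 2) →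
      y ∉ Metric.ball (s j • x) (δ / 2) := by
    intro i j hij y h1 h2
    rw [Metric.mem_ball] at h1 h2
    have h3 : dist (s i • x) (s j • x) < δ := by
      calc _ ≤ dist (s i • x) y + dist y (s j • x) := dist_triangle _ _ _
        _ < δ / 2 + δ / 2 := by
          rw [dist_comm (s i • x) y]
          linarith
        _ = δ := by ring
    rw [dist_eq_norm, ← sub_smul, norm_smul, Real.norm_eq_abs] at h3
    have h4 : s i - s j = ((i : ℝ) - j) * δ / ‖x‖ := by
      rw [hs]
      simp only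
      ring
    rw [h4, abs_div, abs_mul, abs_of_pos hδ, abs_of_pos hx0, div_mul_cancel₀ _ hx0.ne'] at h3
    have h5 : (1 : ℝ) ≤ |(i : ℝ) - j| := by
      have h6 : ((i : ℤ) - j) ≠ 0 := sub_ne_zero.2 (by exact_mod_cast hij)
      have h7 := Int.one_le_abs h6
      exact_mod_cast h7
    nlinarith
  have hind : ∀ j, Integrable ((Metric.ball (s j • x) (δ / 2)).indicator
      fun _ => Real.exp (-(W 0 + 1))) μ := fun j =>
    (integrable_indicator_iff measurableSet_ball).2
      (integrableOn_const (measure_ball_lt_top).ne)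
  have hpt : ∀ y, ∑ j ∈ Finset.range N, (Metric.ball (s j • x) (δ / 2)).indicator
      (fun _ => Real.exp (-(W 0 + 1))) y ≤ Real.exp (-W y) := by
    intro y
    by_cases hy : ∃ j ∈ Finset.range N, y ∈ Metric.ball (s j • x) (δ / 2)
    · obtain ⟨j, hj, hyj⟩ := hy
      rw [Finset.sum_eq_single_of_mem j hj (fun i _ hij =>
        indicator_of_notMem (hdisj j i (Ne.symm hij) y hyj) _), indicator_of_mem hyj]
      exact Real.exp_le_exp.2 (by linarith [hsmall j (Finset.mem_range.1 hj) y hyj])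
    · push Not at hy
      rw [Finset.sum_eq_zero fun j hj => indicator_of_notMem (hy j hj) _]
      exact (Real.exp_pos _).le
  have h1 : ∫ y, ∑ j ∈ Finset.range N, (Metric.ball (s j • x) (δ / 2)).indicator
      (fun _ => Real.exp (-(W 0 + 1))) y ∂μ ≤ I :=
    integral_mono (integrable_finsetSum _ fun j _ => hind j) hi hpt
  rw [integral_finsetSum _ fun j _ => hind j] at h1
  have h2 : ∀ j, ∫ y, (Metric.ball (s j • x) (δ / 2)).indicator
      (fun _ => Real.exp (-(W 0 + 1))) y ∂μ = v * Real.exp (-(W 0 + 1)) := by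
    intro j
    rw [integral_indicator measurableSet_ball, setIntegral_const, smul_eq_mul, hv]
    congr 1
    rw [measureReal_def, measureReal_def, Measure.addHaar_ball_center]
  simp_rw [h2] at h1
  rw [Finset.sum_const, Finset.card_range, nsmul_eq_mul] at h1
  linarith

/-- **Linear growth.** -/
theorem linear_growth {W : X → ℝ} (hW : ConvexOn ℝ univ W) (hc : Continuous W)
    (hi : Integrable (fun x => Real.exp (-W x)) μ) :
    ∃ c b : ℝ, 0 < c ∧ ∀ x, c * ‖x‖ - b ≤ W x := by
  obtain ⟨r, hr, hfar⟩ := far_large μ hW hc hi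
  obtain ⟨x₀, -, hx₀⟩ := (isCompact_closedBall (0 : X) r).exists_isMinOn
    ⟨0, by simp [hr.le]⟩ hc.continuousOn
  refine ⟨1 / r, |W 0| + |W x₀| + 1, by positivity, fun x => ?_⟩
  rcases le_or_gt r ‖x‖ with h | h
  · have hx0 : 0 < ‖x‖ := lt_of_lt_of_le hr h
    have h1 := hfar ((r / ‖x‖) • x) (by
      rw [norm_smul, norm_div, Real.norm_of_nonneg hr.le, norm_norm, div_mul_cancel₀ _ hx0.ne'])
    have hθ : r / ‖x‖ ≤ 1 := (div_le_one hx0).2 h
    have h2 := hW.2 (mem_univ (0 : X)) (mem_univ x) (sub_nonneg.2 hθ) (by positivity : 0 ≤ r / ‖x‖)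
      (by ring)
    rw [smul_zero, zero_add, smul_eq_mul, smul_eq_mul] at h2
    have h3 : 1 ≤ r / ‖x‖ * (W x - W 0) := by nlinarith
    have h4 : ‖x‖ / r ≤ W x - W 0 := by
      rw [div_mul_eq_mul_div, le_div_iff₀ hx0] at h3
      rw [div_le_iff₀ hr]
      linarith
    have h5 : 1 / r * ‖x‖ = ‖x‖ / r := by ring
    rw [h5]
    have h6 := neg_abs_le (W 0)
    have h7 := abs_nonneg (W x₀)
    linarith
  · have h1 : W x₀ ≤ W x := hx₀ (by simpa using h.le)
    have h2 : 1 / r * ‖x‖ ≤ 1 := by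
      rw [one_div, inv_mul_le_iff₀ hr]
      linarith
    have h3 := neg_abs_le (W x₀)
    have h4 := abs_nonneg (W 0)
    linarith

end Pool.Agent.Q86.FIB
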