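import Pool.Agent.Q86.FIB.Conv

/-!
# The ground state transformation and regularised solutions
-/

set_option autoImplicit false
set_option linter.unusedSectionVars false

namespace Pool.Agent.Q86.FIB

open MeasureTheory Set Filter Topology
open scoped ContDiff

variable {E : Type} [NormedAddCommGroup E] [NormedSpace ℝ E]
variable {ι : Type} [Fintype ι] (e : ι → E)

/-- The potential `∑ (∂_i W)² / 4 - ∂_i ∂_i W / 2`. -/
noncomputable def Uf (W : E → ℝ) (x : E) : ℝ :=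
  ∑ i, (1 / 4 * (pd (e i) W x) ^ 2 - 1 / 2 * pd (e i) (pd (e i) W) x)

theorem Uf_cont {W : E → ℝ} (hW : ContDiff ℝ ∞ W) : Continuous (Uf e W) := by
  unfold Uf
  exact continuous_finsetSum _ fun i _ => (continuous_const.mul
    ((pd_smooth hW _).continuous.pow 2)).sub
    (continuous_const.mul (pd_smooth (pd_smooth hW _) _).continuous)

theorem half_smooth {W : E → ℝ} (hW : ContDiff ℝ ∞ W) :
    ContDiff ℝ ∞ (fun x => Real.exp (1 / 2 * W x)) := (contDiff_const.mul hW).exp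

theorem pd_half {W : E → ℝ} (hW : ContDiff ℝ ∞ W) (v : E) (x : E) :
    pd v (fun x => Real.exp (1 / 2 * W x)) x = Real.exp (1 / 2 * W x) * (1 / 2 * pd v W x) := by
  rw [pd_exp (sm1 (contDiff_const.mul hW)), pd_const_mul (sm1 hW)]

/-- The ground state transformation. -/
theorem ground {W ψ : E → ℝ} (hW : ContDiff ℝ ∞ W) (hψ : ContDiff ℝ ∞ ψ) (x : E) :
    Lop e W (fun x => Real.exp (1 / 2 * W x) * ψ x) x =
      Real.exp (1 / 2 * W x) * ((∑ i, pd (e i) (pd (e i) ψ) x) - Uf e W x * ψ x) := by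
  have hh := half_smooth hW
  have h1 : ∀ v : E, pd v (fun x => Real.exp (1 / 2 * W x) * ψ x) =
      fun x => Real.exp (1 / 2 * W x) * (1 / 2 * pd v W x * ψ x + pd v ψ x) := by
    intro v
    funext y
    rw [pd_mul (sm1 hh) (sm1 hψ), pd_half hW]
    ring
  have h2 : ∀ v : E, pd v (fun x => Real.exp (1 / 2 * W x) *
      (1 / 2 * pd v W x * ψ x + pd v ψ x)) x = Real.exp (1 / 2 * W x) *
      (1 / 4 * (pd v W x) ^ 2 * ψ x + pd v W x * pd v ψ x + 1 / 2 * pd v (pd v W) x * ψ x +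
        pd v (pd v ψ) x) := by
    intro v
    have s1 := pd_smooth hW v
    have s2 : ContDiff ℝ ∞ (fun x => 1 / 2 * pd v W x * ψ x) := (contDiff_const.mul s1).mul hψ
    rw [pd_mul (sm1 hh) (sm1 (s2.add (pd_smooth hψ v))), pd_half hW,
      pd_add (sm1 s2) (sm1 (pd_smooth hψ v)), pd_mul (sm1 (contDiff_const.mul s1)) (sm1 hψ),
      pd_const_mul (sm1 s1)]
    ring
  unfold Lop Uf
  simp_rw [h1, h2]
  rw [Finset.sum_mul, ← Finset.sum_sub_distrib, Finset.mul_sum]
  refine Finset.sum_congr rfl fun i _ => ?_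
  ring

theorem pd_shift {ρ : E → ℝ} (hρ : ContDiff ℝ ∞ ρ) (x : E) (v : E) :
    pd v (fun y => ρ (x - y)) = fun y => -(pd v ρ (x - y)) := by
  funext y
  have h1 : HasFDerivAt (fun y => ρ (x - y)) ((fderiv ℝ ρ (x - y)).comp
      (-(ContinuousLinearMap.id ℝ E))) y := by
    have h2 : HasFDerivAt (fun y : E => x - y) (-(ContinuousLinearMap.id ℝ E)) y := by
      simpa using (hasFDerivAt_id (𝕜 := ℝ) y).const_sub x
    exact ((diff1 (sm1 hρ) (x - y)).hasFDerivAt).comp y h2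
  unfold pd
  rw [h1.fderiv]
  simp

theorem pd_pd_shift {ρ : E → ℝ} (hρ : ContDiff ℝ ∞ ρ) (x : E) (v : E) :
    pd v (pd v (fun y => ρ (x - y))) = fun y => pd v (pd v ρ) (x - y) := by
  rw [pd_shift hρ]
  funext y
  rw [pd_neg]
  have := congrFun (pd_shift (pd_smooth hρ v) x v) y
  rw [this, neg_neg]

variable [FiniteDimensional ℝ E]
  [MeasurableSpace E] [BorelSpace E] (μ : Measure E) [μ.IsAddHaarMeasure]

/-- A function orthogonal to the range of the operator, regularised by convolution. -/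
theorem eq_kappa {W k ρ : E → ℝ} (hW : ContDiff ℝ ∞ W) (hk : LocallyIntegrable k μ)
    (horth : ∀ Φ : E → ℝ, ContDiff ℝ ∞ Φ → HasCompactSupport Φ →
      ∫ x, k x * (Lop e W Φ x * Real.exp (-(1 / 2 * W x))) ∂μ = 0)
    (hρ : ContDiff ℝ ∞ ρ) (hs : HasCompactSupport ρ) (x : E) :
    (∑ i, pd (e i) (pd (e i) (cv μ k ρ)) x) = ∫ y, k y * (Uf e W y * ρ (x - y)) ∂μ := by
  have hψ : ContDiff ℝ ∞ (fun y => ρ (x - y)) := hρ.comp (contDiff_const.sub contDiff_id)
  have h1 := horth (fun y => Real.exp (1 / 2 * W y) * ρ (x - y))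
    ((half_smooth hW).mul hψ) (shift_supp hs x).mul_left
  have h2 : ∀ y, k y * (Lop e W (fun y => Real.exp (1 / 2 * W y) * ρ (x - y)) y *
      Real.exp (-(1 / 2 * W y))) =
      (∑ i, k y * pd (e i) (pd (e i) ρ) (x - y)) - k y * (Uf e W y * ρ (x - y)) := by
    intro y
    rw [ground e hW hψ]
    simp_rw [pd_pd_shift hρ]
    have h3 : Real.exp (1 / 2 * W y) * Real.exp (-(1 / 2 * W y)) = 1 := by
      rw [← Real.exp_add, add_neg_cancel, Real.exp_zero]
    rw [← Finset.mul_sum]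
    calc _ = k y * (((∑ i, pd (e i) (pd (e i) ρ) (x - y)) - Uf e W y * ρ (x - y)) *
          (Real.exp (1 / 2 * W y) * Real.exp (-(1 / 2 * W y)))) := by ring
      _ = _ := by rw [h3]; ring
  simp_rw [h2] at h1
  have i1 : ∀ i, Integrable (fun y => k y * pd (e i) (pd (e i) ρ) (x - y)) μ := fun i =>
    cv_int μ hk (pd_smooth (pd_smooth hρ _) _).continuous (pd_supp (pd_supp hs _) _) x
  have i2 : Integrable (fun y => k y * (Uf e W y * ρ (x - y))) μ := by
    have h4 : HasCompactSupport (fun y => Uf e W y * ρ (x - y)) := (shift_supp hs x).mul_left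
    have h5 : Continuous (fun y => Uf e W y * ρ (x - y)) := (Uf_cont e hW).mul hψ.continuous
    have := hk.integrable_smul_right_of_hasCompactSupport h5 h4
    simpa [smul_eq_mul] using this
  rw [integral_sub (integrable_finsetSum _ fun i _ => i1 i) i2,
    integral_finsetSum _ fun i _ => i1 i] at h1
  have h6 : ∀ i, pd (e i) (pd (e i) (cv μ k ρ)) x =
      ∫ y, k y * pd (e i) (pd (e i) ρ) (x - y) ∂μ := by
    intro i
    rw [pd_cv μ hk hρ hs, pd_cv μ hk (pd_smooth hρ _) (pd_supp hs _)]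
    rfl
  simp_rw [h6]
  linarith

/-- The identity behind the energy estimate. -/
theorem energy_id {W κ χ : E → ℝ} (hW : ContDiff ℝ ∞ W) (hκ : ContDiff ℝ ∞ κ)
    (hχ : ContDiff ℝ ∞ χ) (hs : HasCompactSupport χ) :
    ∫ x, ∑ i, (pd (e i) (fun x => χ x * κ x) x + 1 / 2 * pd (e i) W x * (χ x * κ x)) ^ 2 ∂μ =
      (∫ x, κ x ^ 2 * ∑ i, (pd (e i) χ x) ^ 2 ∂μ) +
      ∫ x, χ x ^ 2 * κ x * (Uf e W x * κ x - ∑ i, pd (e i) (pd (e i) κ) x) ∂μ := by
  have hY : ∀ i, ContDiff ℝ ∞ (fun x => (χ x * χ x) * (κ x * pd (e i) κ x +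
      1 / 2 * pd (e i) W x * (κ x * κ x))) := fun i =>
    (hχ.mul hχ).mul ((hκ.mul (pd_smooth hκ _)).add
      ((contDiff_const.mul (pd_smooth hW _)).mul (hκ.mul hκ)))
  have hYs : ∀ i, HasCompactSupport (fun x => (χ x * χ x) * (κ x * pd (e i) κ x +
      1 / 2 * pd (e i) W x * (κ x * κ x))) := fun i => hs.mul_right.mul_right
  have hpt : ∀ x, (∑ i, (pd (e i) (fun x => χ x * κ x) x +
      1 / 2 * pd (e i) W x * (χ x * κ x)) ^ 2) =
      (κ x ^ 2 * ∑ i, (pd (e i) χ x) ^ 2) +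
      χ x ^ 2 * κ x * (Uf e W x * κ x - ∑ i, pd (e i) (pd (e i) κ) x) +
      ∑ i, pd (e i) (fun x => (χ x * χ x) * (κ x * pd (e i) κ x +
      1 / 2 * pd (e i) W x * (κ x * κ x))) x := by
    intro x
    unfold Uf
    rw [Finset.sum_mul, ← Finset.sum_sub_distrib, Finset.mul_sum, Finset.mul_sum,
      ← Finset.sum_add_distrib, ← Finset.sum_add_distrib]
    refine Finset.sum_congr rfl fun i _ => ?_
    have s1 := pd_smooth hW (e i)
    have s2 : ContDiff ℝ ∞ (fun x => 1 / 2 * pd (e i) W x) := contDiff_const.mul s1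
    rw [pd_mul (sm1 hχ) (sm1 hκ),
      pd_mul (sm1 (hχ.mul hχ)) (sm1 ((hκ.mul (pd_smooth hκ _)).add (s2.mul (hκ.mul hκ)))),
      pd_mul (sm1 hχ) (sm1 hχ), pd_add (sm1 (hκ.mul (pd_smooth hκ _))) (sm1 (s2.mul (hκ.mul hκ))),
      pd_mul (sm1 hκ) (sm1 (pd_smooth hκ _)), pd_mul (sm1 s2) (sm1 (hκ.mul hκ)),
      pd_const_mul (sm1 s1), pd_mul (sm1 hκ) (sm1 hκ)]
    ring
  simp_rw [hpt]
  have c1 : Continuous (fun x => κ x ^ 2 * ∑ i, (pd (e i) χ x) ^ 2) :=
    (hκ.continuous.pow 2).mul (continuous_finsetSum _ fun i _ => (pd_smooth hχ _).continuous.pow 2)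
  have d1 : HasCompactSupport (fun x => κ x ^ 2 * ∑ i, (pd (e i) χ x) ^ 2) := by
    refine HasCompactSupport.mul_left ?_
    refine cs_sum _ fun i _ => ?_
    simp_rw [pow_two]
    exact (pd_supp hs _).mul_right
  have c2 : Continuous (fun x => χ x ^ 2 * κ x *
      (Uf e W x * κ x - ∑ i, pd (e i) (pd (e i) κ) x)) :=
    ((hχ.continuous.pow 2).mul hκ.continuous).mul (((Uf_cont e hW).mul hκ.continuous).sub
      (continuous_finsetSum _ fun i _ => (pd_smooth (pd_smooth hκ _) _).continuous))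
  have d2 : HasCompactSupport (fun x => χ x ^ 2 * κ x *
      (Uf e W x * κ x - ∑ i, pd (e i) (pd (e i) κ) x)) := by
    refine HasCompactSupport.mul_right (HasCompactSupport.mul_right ?_)
    simp_rw [pow_two]
    exact hs.mul_right
  have j1 := cc_int μ c1 d1
  have j2 := cc_int μ c2 d2
  have j12 : Integrable (fun x => (κ x ^ 2 * ∑ i, (pd (e i) χ x) ^ 2) +
      χ x ^ 2 * κ x * (Uf e W x * κ x - ∑ i, pd (e i) (pd (e i) κ) x)) μ := j1.add j2
  have j3 : ∀ i, Integrable (pd (e i) (fun x => (χ x * χ x) * (κ x * pd (e i) κ x +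
      1 / 2 * pd (e i) W x * (κ x * κ x)))) μ := fun i =>
    cc_int μ (pd_smooth (hY i) _).continuous (pd_supp (hYs i) _)
  rw [integral_add j12 (integrable_finsetSum _ fun i _ => j3 i), integral_add j1 j2,
    integral_finsetSum _ fun i _ => j3 i]
  have h0 : ∀ i, ∫ x, pd (e i) (fun x => (χ x * χ x) * (κ x * pd (e i) κ x +
      1 / 2 * pd (e i) W x * (κ x * κ x))) x ∂μ = 0 := fun i => int_pd μ (sm1 (hY i)) (hYs i) _
  simp_rw [h0]
  simp

end Pool.Agent.Q86.FIB
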