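import Pool.Agent.Q86.FIB.DLa

/-!
# The energy estimate
-/

set_option autoImplicit false
set_option linter.unusedSectionVars false

namespace Pool.Agent.Q86.FIB

open MeasureTheory Set Filter Topology
open scoped ContDiff

variable {E : Type} [NormedAddCommGroup E] [NormedSpace ℝ E] [FiniteDimensional ℝ E]
  [MeasurableSpace E] [BorelSpace E] (μ : Measure E) [μ.IsAddHaarMeasure]

/-- A mollifier with support in the ball of radius `δ`. -/
structure Moll (δ : ℝ) (ρ : E → ℝ) : Prop where
  smooth : ContDiff ℝ ∞ ρ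
  supp : HasCompactSupport ρ
  small : ∀ x, ρ x ≠ 0 → ‖x‖ < δ
  nonneg : ∀ x, 0 ≤ ρ x
  one : ∫ x, ρ x ∂μ = 1

theorem exists_moll {δ : ℝ} (hδ : 0 < δ) : ∃ ρ : E → ℝ, Moll μ δ ρ := by
  let φ : ContDiffBump (0 : E) := ⟨δ / 2, δ, by linarith, by linarith⟩
  refine ⟨φ.normed μ, φ.contDiff_normed (n := ⊤), φ.hasCompactSupport_normed, ?_,
    fun x => φ.nonneg_normed x, φ.integral_normed⟩
  intro x hx
  have h : x ∈ Function.support (φ.normed μ) := hx
  rw [φ.support_normed_eq] at h
  simpa using h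

theorem moll_shift {δ : ℝ} {ρ : E → ℝ} (hρ : Moll μ δ ρ) (y : E) :
    ∫ x, ρ (x - y) ∂μ = 1 := by
  rw [integral_sub_right_eq_self (fun x => ρ x) y]
  exact hρ.one

/-- Weak convergence of the convolutions. -/
theorem weak_lim {k j : E → ℝ} (hk : LocallyIntegrable k μ) (hj : Continuous j)
    (hjs : HasCompactSupport j) {ε : ℝ} (hε : 0 < ε) :
    ∃ δ₀ : ℝ, 0 < δ₀ ∧ ∀ δ ρ, δ ≤ δ₀ → Moll μ δ ρ →
      |∫ x, cv μ k ρ x * j x ∂μ - ∫ x, k x * j x ∂μ| ≤ ε := by
  set K : Set E := Metric.cthickening 1 (tsupport j) with hK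
  have hKc : IsCompact K := IsCompact.cthickening hjs
  have hKi : IntegrableOn k K μ := hk.integrableOn_isCompact hKc
  set I : ℝ := ∫ x in K, |k x| ∂μ with hI
  have hI0 : 0 ≤ I := integral_nonneg fun x => abs_nonneg _
  obtain ⟨δ₁, hδ₁, hu⟩ := Metric.uniformContinuous_iff.1
    (hjs.uniformContinuous_of_continuous hj) (ε / (I + 1)) (by positivity)
  refine ⟨min δ₁ 1, lt_min hδ₁ one_pos, ?_⟩
  intro δ ρ hδ hρ
  have hρc := hρ.smooth.continuous
  -- points outside `K`
  have hout : ∀ x y, y ∉ K → ρ (x - y) * j x = 0 := by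
    intro x y hy
    by_contra h
    have h1 : ρ (x - y) ≠ 0 := left_ne_zero_of_mul h
    have h2 : j x ≠ 0 := right_ne_zero_of_mul h
    apply hy
    have h3 := hρ.small _ h1
    refine Metric.mem_cthickening_of_dist_le y x 1 (tsupport j)
      (subset_tsupport _ (Function.mem_support.2 h2)) ?_
    rw [dist_comm, dist_eq_norm]
    exact le_trans h3.le (hδ.trans (min_le_right _ _))
  -- the swap
  set k₁ : E → ℝ := K.indicator k with hk₁
  have hk₁i : Integrable k₁ μ := (integrable_indicator_iff hKc.measurableSet).2 hKi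
  have hint : Integrable (Function.uncurry fun x y => k y * ρ (x - y) * j x) (μ.prod μ) := by
    have h1 : Integrable (fun z : E × E => j z.1 * k₁ z.2) (μ.prod μ) :=
      (cc_int μ hj hjs).mul_prod hk₁i
    obtain ⟨C, hC⟩ := hρ.supp.exists_bound_of_continuous hρc
    have h2 : Integrable (fun z : E × E => ρ (z.1 - z.2) * (j z.1 * k₁ z.2)) (μ.prod μ) :=
      h1.bdd_mul (c := C) (hρc.comp (continuous_fst.sub continuous_snd)).aestronglyMeasurable
        (Eventually.of_forall fun z => hC _)
    refine h2.congr (Eventually.of_forall fun z => ?_)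
    obtain ⟨x, y⟩ := z
    simp only [Function.uncurry_apply_pair]
    by_cases hy : y ∈ K
    · rw [hk₁, indicator_of_mem hy]
      ring
    · have := hout x y hy
      calc ρ (x - y) * (j x * k₁ y) = (ρ (x - y) * j x) * k₁ y := by ring
        _ = k y * (ρ (x - y) * j x) := by rw [this]; ring
        _ = _ := by ring
  have hswap : ∫ x, cv μ k ρ x * j x ∂μ = ∫ y, k y * ∫ x, ρ (x - y) * j x ∂μ ∂μ := by
    have h1 := integral_integral_swap hint
    have h2 : ∀ x, ∫ y, k y * ρ (x - y) * j x ∂μ = cv μ k ρ x * j x := by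
      intro x
      rw [integral_mul_const]
      rfl
    simp_rw [h2] at h1
    rw [h1]
    refine integral_congr_ae (Eventually.of_forall fun y => ?_)
    simp only
    rw [← integral_const_mul]
    refine integral_congr_ae (Eventually.of_forall fun x => ?_)
    simp only
    ring
  rw [hswap]
  -- the difference
  have hJ : ∀ y, |(∫ x, ρ (x - y) * j x ∂μ) - j y| ≤ ε / (I + 1) := by
    intro y
    have h1 : j y = ∫ x, ρ (x - y) * j y ∂μ := by
      rw [integral_mul_const, moll_shift μ hρ, one_mul]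
    have c1 : Integrable (fun x => ρ (x - y) * j x) μ :=
      cc_int μ ((hρc.comp (continuous_id.sub continuous_const)).mul hj) hjs.mul_left
    have hsh : HasCompactSupport (fun x => ρ (x - y)) := by
      exact hρ.supp.comp_homeomorph (Homeomorph.subRight y)
    have c2 : Integrable (fun x => ρ (x - y) * j y) μ :=
      cc_int μ ((hρc.comp (continuous_id.sub continuous_const)).mul continuous_const)
        hsh.mul_right
    have c3 : Integrable (fun x => ρ (x - y) * (ε / (I + 1))) μ :=
      cc_int μ ((hρc.comp (continuous_id.sub continuous_const)).mul continuous_const)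
        hsh.mul_right
    have h2 : (∫ x, ρ (x - y) * j x ∂μ) - j y = ∫ x, (ρ (x - y) * j x - ρ (x - y) * j y) ∂μ := by
      rw [integral_sub c1 c2, ← h1]
    rw [h2]
    have h3 : ‖∫ x, (ρ (x - y) * j x - ρ (x - y) * j y) ∂μ‖ ≤
        ∫ x, ρ (x - y) * (ε / (I + 1)) ∂μ := by
      refine norm_integral_le_of_norm_le c3 (Eventually.of_forall fun x => ?_)
      rw [← mul_sub, norm_mul, Real.norm_of_nonneg (hρ.nonneg _)]
      by_cases hx : ρ (x - y) = 0
      · rw [hx, zero_mul, zero_mul]
      · refine mul_le_mul_of_nonneg_left ?_ (hρ.nonneg _)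
        have h4 := hρ.small _ hx
        have h5 : dist x y < δ₁ := by
          rw [dist_eq_norm]
          exact lt_of_lt_of_le h4 (hδ.trans (min_le_left _ _))
        have h6 := hu h5
        rw [Real.dist_eq] at h6
        exact h6.le
    rw [integral_mul_const, moll_shift μ hρ, one_mul] at h3
    exact h3
  have hJ0 : ∀ y, y ∉ K → (∫ x, ρ (x - y) * j x ∂μ) - j y = 0 := by
    intro y hy
    have h1 : j y = 0 := by
      by_contra h
      exact hy (Metric.self_subset_cthickening _ (subset_tsupport _ (Function.mem_support.2 h)))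
    rw [h1, sub_zero]
    simp_rw [hout _ y hy]
    simp
  have hcj : Integrable (fun y => k y * j y) μ := by
    have := hk.integrable_smul_right_of_hasCompactSupport hj hjs
    simpa [smul_eq_mul] using this
  have hJi : Integrable (fun y => k y * ∫ x, ρ (x - y) * j x ∂μ) μ := by
    have := hint.integral_prod_right
    refine this.congr (Eventually.of_forall fun y => ?_)
    simp only [Function.uncurry_apply_pair]
    rw [← integral_const_mul]
    refine integral_congr_ae (Eventually.of_forall fun x => ?_)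
    simp only
    ring
  rw [← integral_sub hJi hcj]
  have h5 : ‖∫ y, (k y * (∫ x, ρ (x - y) * j x ∂μ) - k y * j y) ∂μ‖ ≤
      ∫ y, |k₁ y| * (ε / (I + 1)) ∂μ := by
    refine norm_integral_le_of_norm_le (hk₁i.abs.mul_const _) (Eventually.of_forall fun y => ?_)
    rw [← mul_sub, norm_mul, Real.norm_eq_abs, Real.norm_eq_abs]
    by_cases hy : y ∈ K
    · rw [hk₁, indicator_of_mem hy]
      exact mul_le_mul_of_nonneg_left (hJ y) (abs_nonneg _)
    · rw [hJ0 y hy, abs_zero, mul_zero]
      positivity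
  rw [integral_mul_const] at h5
  have h6 : ∫ y, |k₁ y| ∂μ = I := by
    rw [hI, ← integral_indicator hKc.measurableSet]
    refine integral_congr_ae (Eventually.of_forall fun y => ?_)
    simp only [hk₁]
    by_cases hy : y ∈ K
    · rw [indicator_of_mem hy, indicator_of_mem hy]
    · rw [indicator_of_notMem hy, indicator_of_notMem hy, abs_zero]
  rw [h6, Real.norm_eq_abs] at h5
  refine h5.trans ?_
  rw [mul_div_assoc', div_le_iff₀ (by positivity)]
  nlinarith

variable {ι : Type} [Fintype ι] (e : ι → E)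

/-- The energy estimate. -/
theorem energy_bound {W k ρ χ : E → ℝ} (hW : ContDiff ℝ ∞ W)
    (hk2 : Integrable (fun x => k x ^ 2) μ) (hkm : AEStronglyMeasurable k μ)
    (horth : ∀ Φ : E → ℝ, ContDiff ℝ ∞ Φ → HasCompactSupport Φ →
      ∫ x, k x * (Lop e W Φ x * Real.exp (-(1 / 2 * W x))) ∂μ = 0)
    (hχ : ContDiff ℝ ∞ χ) (hs : HasCompactSupport χ) (hχ1 : ∀ x, |χ x| ≤ 1)
    {M η δ : ℝ} (hM : ∀ x, ∑ i, (pd (e i) χ x) ^ 2 ≤ M) (hη : 0 ≤ η)
    (hU : ∀ x y, χ x ≠ 0 → ‖x - y‖ < δ → |Uf e W x - Uf e W y| ≤ η) (hρ : Moll μ δ ρ) :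
    ∫ x, ∑ i, (pd (e i) (fun x => χ x * cv μ k ρ x) x +
      1 / 2 * pd (e i) W x * (χ x * cv μ k ρ x)) ^ 2 ∂μ ≤ (M + η) * ∫ x, k x ^ 2 ∂μ := by
  have hk : MemLp k 2 μ := (memLp_two_iff_integrable_sq hkm).2 hk2
  have hkl : LocallyIntegrable k μ := hk.locallyIntegrable (by norm_num)
  have hal : LocallyIntegrable (fun x => |k x|) μ := by
    have : MemLp (fun x => |k x|) 2 μ := hk.abs
    exact this.locallyIntegrable (by norm_num)
  have ha2 : Integrable (fun x => |k x| ^ 2) μ := by simpa [sq_abs] using hk2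
  have ham : AEStronglyMeasurable (fun x => |k x|) μ := hk.abs.aestronglyMeasurable
  have hκ := cv_smooth μ hkl hρ.smooth hρ.supp
  rw [energy_id e μ hW hκ hχ hs]
  obtain ⟨i1, i2⟩ := cv_sq_int μ hk2 hkm hρ.smooth hρ.supp hρ.nonneg hρ.one
  obtain ⟨i3, i4⟩ := cv_sq_int μ ha2 ham hρ.smooth hρ.supp hρ.nonneg hρ.one
  simp_rw [sq_abs] at i4
  have hM0 : 0 ≤ M := le_trans (Finset.sum_nonneg fun i _ => sq_nonneg _) (hM 0)
  have hle : ∀ x, |cv μ k ρ x| ≤ cv μ (fun x => |k x|) ρ x := by
    intro x
    unfold cv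
    refine (abs_integral_le_integral_abs).trans (le_of_eq ?_)
    refine integral_congr_ae (Eventually.of_forall fun y => ?_)
    simp only
    rw [abs_mul, abs_of_nonneg (hρ.nonneg _)]
  -- first term
  have t1 : ∫ x, cv μ k ρ x ^ 2 * ∑ i, (pd (e i) χ x) ^ 2 ∂μ ≤ M * ∫ x, k x ^ 2 ∂μ := by
    have h1 : ∫ x, cv μ k ρ x ^ 2 * ∑ i, (pd (e i) χ x) ^ 2 ∂μ ≤
        ∫ x, M * cv μ k ρ x ^ 2 ∂μ := by
      refine integral_mono_of_nonneg (Eventually.of_forall fun x => ?_) (i1.const_mul M)
        (Eventually.of_forall fun x => ?_)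
      · exact mul_nonneg (sq_nonneg _) (Finset.sum_nonneg fun i _ => sq_nonneg _)
      · simp only
        rw [mul_comm M]
        exact mul_le_mul_of_nonneg_left (hM x) (sq_nonneg _)
    rw [integral_const_mul] at h1
    exact h1.trans (mul_le_mul_of_nonneg_left i2 hM0)
  -- second term
  have t2 : ∫ x, χ x ^ 2 * cv μ k ρ x * (Uf e W x * cv μ k ρ x -
      ∑ i, pd (e i) (pd (e i) (cv μ k ρ)) x) ∂μ ≤ η * ∫ x, k x ^ 2 ∂μ := by
    have hpt : ∀ x, ‖χ x ^ 2 * cv μ k ρ x * (Uf e W x * cv μ k ρ x -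
        ∑ i, pd (e i) (pd (e i) (cv μ k ρ)) x)‖ ≤ η * cv μ (fun x => |k x|) ρ x ^ 2 := by
      intro x
      by_cases hx : χ x = 0
      · rw [hx]
        simp only [ne_eq, OfNat.ofNat_ne_zero, not_false_eq_true, zero_pow, zero_mul, norm_zero]
        positivity
      rw [eq_kappa e μ hW hkl horth hρ.smooth hρ.supp x]
      have c1 : Integrable (fun y => Uf e W x * (k y * ρ (x - y))) μ :=
        (cv_int μ hkl hρ.smooth.continuous hρ.supp x).const_mul _
      have c2 : Integrable (fun y => k y * (Uf e W y * ρ (x - y))) μ := by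
        have h4 : HasCompactSupport (fun y => Uf e W y * ρ (x - y)) :=
          (shift_supp hρ.supp x).mul_left
        have h5 : Continuous (fun y => Uf e W y * ρ (x - y)) := (Uf_cont e hW).mul
          (hρ.smooth.continuous.comp (continuous_const.sub continuous_id))
        have := hkl.integrable_smul_right_of_hasCompactSupport h5 h4
        simpa [smul_eq_mul] using this
      have h1 : Uf e W x * cv μ k ρ x - ∫ y, k y * (Uf e W y * ρ (x - y)) ∂μ =
          ∫ y, (Uf e W x - Uf e W y) * (k y * ρ (x - y)) ∂μ := by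
        unfold cv
        rw [← integral_const_mul, ← integral_sub c1 c2]
        refine integral_congr_ae (Eventually.of_forall fun y => ?_)
        simp only
        ring
      have h2 : ‖∫ y, (Uf e W x - Uf e W y) * (k y * ρ (x - y)) ∂μ‖ ≤
          ∫ y, η * (|k y| * ρ (x - y)) ∂μ := by
        refine norm_integral_le_of_norm_le
          ((cv_int μ hal hρ.smooth.continuous hρ.supp x).const_mul η)
          (Eventually.of_forall fun y => ?_)
        rw [norm_mul, norm_mul, Real.norm_of_nonneg (hρ.nonneg _), Real.norm_eq_abs,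
          Real.norm_eq_abs]
        by_cases hy : ρ (x - y) = 0
        · rw [hy, mul_zero, mul_zero, mul_zero]
        · exact mul_le_mul_of_nonneg_right (hU x y hx (hρ.small _ hy))
            (mul_nonneg (abs_nonneg _) (hρ.nonneg _))
      rw [integral_const_mul] at h2
      rw [h1, norm_mul, norm_mul, norm_pow, Real.norm_eq_abs, Real.norm_eq_abs]
      have h3 : |χ x| ^ 2 ≤ 1 := by
        have := hχ1 x
        have h0 := abs_nonneg (χ x)
        nlinarith
      have h4 := hle x
      have h5 : 0 ≤ cv μ (fun x => |k x|) ρ x := le_trans (abs_nonneg _) h4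
      calc |χ x| ^ 2 * |cv μ k ρ x| * ‖∫ y, (Uf e W x - Uf e W y) * (k y * ρ (x - y)) ∂μ‖
          ≤ 1 * cv μ (fun x => |k x|) ρ x * (η * cv μ (fun x => |k x|) ρ x) := by
            refine mul_le_mul (mul_le_mul h3 h4 (abs_nonneg _) zero_le_one) h2 (norm_nonneg _) ?_
            positivity
        _ = _ := by ring
    refine (le_abs_self _).trans ?_
    have h1 := norm_integral_le_of_norm_le (i3.const_mul η) (Eventually.of_forall hpt)
    rw [integral_const_mul, Real.norm_eq_abs] at h1
    exact h1.trans (mul_le_mul_of_nonneg_left i4 hη)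
  rw [add_mul]
  exact add_le_add t1 t2

end Pool.Agent.Q86.FIB
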