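import Pool.Agent.Q86.FIB.LemB

/-!
# The derivative of the conditional mean over a line
-/

set_option autoImplicit false
set_option linter.unusedSectionVars false

namespace Pool.Agent.Q86.FIB

open MeasureTheory Set Filter Topology
open scoped ContDiff ENNReal

variable {n : ℕ}

theorem oo_deriv (τ : ℝ) : HasDerivAt oo (sv 0) τ := by
  rw [hasDerivAt_pi]
  intro i
  have : (sv 0 : Sp 1) i = 1 := by
    rw [Subsingleton.elim i 0]
    simp [sv]
  rw [this]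
  exact hasDerivAt_id τ

/-- The derivative along the line. -/
theorem deriv_line {F : Sp 1 × Sp n → ℝ} (hF : ContDiff ℝ 1 F) (z : Sp n) (τ : ℝ) :
    HasDerivAt (fun τ => F (oo τ, z)) (pd (tv n 0) F (oo τ, z)) τ := by
  have h1 : HasDerivAt (fun τ => ((oo τ, z) : Sp 1 × Sp n)) (tv n 0) τ :=
    (oo_deriv τ).prodMk (hasDerivAt_const τ z)
  exact ((diff1 hF (oo τ, z)).hasFDerivAt).comp_hasDerivAt τ h1

theorem deriv_base {q : Sp 1 → ℝ} (hq : ContDiff ℝ 1 q) (τ : ℝ) :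
    HasDerivAt (fun τ => q (oo τ)) (pd (sv 0) q (oo τ)) τ :=
  ((diff1 hq (oo τ)).hasFDerivAt).comp_hasDerivAt τ (oo_deriv τ)

namespace Std

variable {W : Sp 1 × Sp n → ℝ} (hW : Std W)
include hW

/-- The derivative of a fibre integral of a function of `z`. -/
theorem fib_deriv {g : Sp n → ℝ} (hg : Continuous g) (hp : PB (fun x : Sp 1 × Sp n => g x.2))
    (τ : ℝ) : HasDerivAt (fun τ => fib W (fun x => g x.2) (oo τ))
      (-fib W (fun x => g x.2 * pd (tv n 0) W x) (oo τ)) τ := by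
  have cW := hW.cW (tv n 0)
  have pW := hW.pbW (tv n 0)
  have cg : Continuous (fun x : Sp 1 × Sp n => g x.2) := hg.comp continuous_snd
  have hr : RD (fun x : Sp 1 × Sp n => (g x.2 * pd (tv n 0) W x) * Real.exp (-W x)) :=
    hW.rdm (hp.mul pW)
  obtain ⟨C, -, hC⟩ := hr.bound_right
  have h := hasDerivAt_integral_of_dominated_loc_of_deriv_le (μ := (volume : Measure (Sp n)))
    (F := fun τ z => g z * Real.exp (-W (oo τ, z)))
    (F' := fun τ z => -((g z * pd (tv n 0) W (oo τ, z)) * Real.exp (-W (oo τ, z))))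
    (x₀ := τ) (s := univ) (bound := fun z =>
      C * (1 + ‖z‖) ^ (-((Module.finrank ℝ (Sp n) : ℝ) + 1))) univ_mem
    (Eventually.of_forall fun τ => ?_) (hW.slice hp cg (oo τ)) ?_
    (Eventually.of_forall fun z τ _ => ?_) ((jap_int volume).const_mul C)
    (Eventually.of_forall fun z τ _ => ?_)
  · have h2 := h.2
    unfold fib
    rw [integral_neg] at h2
    exact h2
  · exact ((cg.mul hW.wc).comp (Continuous.prodMk_right (oo τ))).aestronglyMeasurable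
  · exact ((((cg.mul cW).mul hW.wc).comp (Continuous.prodMk_right (oo τ))).neg).aestronglyMeasurable
  · rw [norm_neg]
    exact hC (oo τ) z
  · have h0 : HasDerivAt (fun τ => -W (oo τ, z)) (-pd (tv n 0) W (oo τ, z)) τ :=
      (deriv_line (sm1 hW.smooth) z τ).neg
    have h1 : HasDerivAt (fun τ => g z * Real.exp (-W (oo τ, z)))
        (g z * (Real.exp (-W (oo τ, z)) * -pd (tv n 0) W (oo τ, z))) τ := h0.exp.const_mul (g z)
    have h2 : g z * (Real.exp (-W (oo τ, z)) * -pd (tv n 0) W (oo τ, z)) =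
        -((g z * pd (tv n 0) W (oo τ, z)) * Real.exp (-W (oo τ, z))) := by ring
    rw [h2] at h1
    exact h1

/-- The moments are differentiable. -/
theorem Hp_deriv (θ : Sp n) (c : ℝ) : Differentiable ℝ (fun τ => Hp W θ c 1 (oo τ) 0) := by
  intro τ
  have hc : Continuous (fun z : Sp n => (max (lin θ c z + 0) 0) ^ 1) := by
    unfold lin
    fun_prop
  exact (hW.fib_deriv (g := fun z => (max (lin θ c z + 0) 0) ^ 1) hc
    (pw_pb θ c 1 0) τ).differentiableAt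

end Std

/-- a one sided bound of difference quotients bounds the derivative -/
theorem deriv_ge {F q : ℝ → ℝ} {F' τ e A : ℝ} (hF : HasDerivAt F F' τ) (hq : ContinuousAt q τ)
    (h : ∀ h : ℝ, 0 < h → h < 1 → F τ - h * A * q (τ + h * e) ≤ F (τ + h * e)) :
    -(A * q τ) ≤ F' * e := by
  have hl : HasDerivAt (fun h : ℝ => τ + h * e) e 0 := by
    have := ((hasDerivAt_id (0 : ℝ)).mul_const e).const_add τ
    simpa using this
  have hF0 : HasDerivAt F F' (τ + 0 * e) := by simpa using hF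
  have h1 : HasDerivAt (fun h : ℝ => F (τ + h * e)) (F' * e) 0 := HasDerivAt.comp (0 : ℝ) hF0 hl
  have h2 := (hasDerivAt_iff_tendsto_slope_zero.1 h1)
  have h3 : Tendsto (fun t : ℝ => t⁻¹ • (F (τ + (0 + t) * e) - F (τ + 0 * e))) (𝓝[>] 0)
      (𝓝 (F' * e)) := h2.mono_left (nhdsWithin_mono _ fun x hx => ne_of_gt hx)
  have h4 : Tendsto (fun t : ℝ => -(A * q (τ + t * e))) (𝓝[>] 0) (𝓝 (-(A * q τ))) := by
    have h5 : Tendsto (fun t : ℝ => τ + t * e) (𝓝[>] 0) (𝓝 τ) := by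
      have h6 : Tendsto (fun t : ℝ => τ + t * e) (𝓝 0) (𝓝 (τ + 0 * e)) :=
        (hl.continuousAt).tendsto
      rw [zero_mul, add_zero] at h6
      exact h6.mono_left nhdsWithin_le_nhds
    exact ((hq.tendsto.comp h5).const_mul A).neg
  refine le_of_tendsto_of_tendsto h4 h3 ?_
  have h7 : ∀ᶠ t : ℝ in 𝓝[>] 0, t < 1 := (eventually_lt_nhds one_pos).filter_mono
    nhdsWithin_le_nhds
  filter_upwards [self_mem_nhdsWithin, h7] with t ht ht1
  have ht0 : 0 < t := ht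
  have h8 := h t ht0 ht1
  simp only [zero_add, zero_mul, add_zero, smul_eq_mul]
  rw [← div_eq_inv_mul, le_div_iff₀ ht0]
  linarith

namespace Std

variable {W : Sp 1 × Sp n → ℝ} (hW : Std W)
include hW

/-- The derivative of the part above the mean. -/
theorem F_deriv (h1 : ∫ t, dens W t = 1) {s : ℝ} (hs : 0 < s) (θ : Sp n) (c : ℝ)
    (hv : ∫ x, lin θ c x.2 ^ 2 * Real.exp (-W x) ∂(vol 1 n) ≤ s) (τ : ℝ) :
    |deriv (fun τ' => Hp W θ (mt W θ (oo τ)) 1 (oo τ') 0) τ| ≤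
      10 * Real.sqrt (BB W s τ) * dd W τ ^ 2 / (LD.G (dd W) τ * LD.K (dd W) τ) := by
  have hl := hW.ld h1
  have hd := hl.pos τ
  have hG := hl.G_pos τ
  have hK := hl.K_pos τ
  obtain ⟨b, hb⟩ : ∃ b, b = Real.sqrt (BB W s τ) := ⟨_, rfl⟩
  have hb0 : 0 ≤ b := by
    rw [hb]
    exact Real.sqrt_nonneg _
  have hF := (hW.Hp_deriv θ (mt W θ (oo τ)) τ).hasDerivAt
  have hq : ContinuousAt (dd W) τ := hl.cont.continuousAt
  obtain ⟨t1, ht1, hs1, hd1, hG1, hK1⟩ := hl.step_right τ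
  obtain ⟨t2, ht2, hs2, hd2, hG2, hK2⟩ := hl.step_left τ
  have a1 := deriv_ge hF hq (A := 5 * Real.sqrt (BB W s τ)) (e := t1 - τ) fun h h0 hh =>
    hW.F_step h1 hs θ c hv hd1 (by linarith) hK1 h0 hh
  have a2 := deriv_ge hF hq (A := 5 * Real.sqrt (BB W s τ)) (e := t2 - τ) fun h h0 hh =>
    hW.F_step h1 hs θ c hv hd2 hG2 (by linarith) h0 hh
  rw [← hb] at a1 a2 ⊢
  obtain ⟨D, hD⟩ : ∃ D, D = deriv (fun τ' => Hp W θ (mt W θ (oo τ)) 1 (oo τ') 0) τ := ⟨_, rfl⟩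
  rw [← hD] at a1 a2 ⊢
  obtain ⟨g, hg⟩ : ∃ g, g = LD.G (dd W) τ * LD.K (dd W) τ := ⟨_, rfl⟩
  have hg0 : 0 < g := by
    rw [hg]
    positivity
  rw [← hg] at hs1 hs2 ⊢
  rw [abs_le, ← neg_div, div_le_iff₀ hg0, le_div_iff₀ hg0]
  rw [div_le_iff₀ (by positivity)] at hs1 hs2
  constructor
  · by_contra hcon
    push Not at hcon
    have h5 : D < 0 := by
      by_contra h6
      push Not at h6
      have h7 : 0 ≤ 10 * b * dd W τ ^ 2 := by positivity
      nlinarith [mul_nonneg h6 hg0.le]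
    have h6 : D * ((t1 - τ) * (2 * dd W τ)) ≤ D * g := mul_le_mul_of_nonpos_left hs1 h5.le
    have h7 := mul_le_mul_of_nonneg_right a1 (by positivity : 0 ≤ 2 * dd W τ)
    nlinarith
  · by_contra hcon
    push Not at hcon
    have h5 : 0 < D := by
      by_contra h6
      push Not at h6
      have h7 : 0 ≤ 10 * b * dd W τ ^ 2 := by positivity
      nlinarith [mul_nonneg (neg_nonneg.2 h6) hg0.le]
    have h6 : D * g ≤ D * ((τ - t2) * (2 * dd W τ)) := mul_le_mul_of_nonneg_left hs2 h5.le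
    have h7 := mul_le_mul_of_nonneg_right a2 (by positivity : 0 ≤ 2 * dd W τ)
    nlinarith

/-- The derivative of the conditional mean of `⟨θ, z⟩`. -/
theorem mt_deriv (h1 : ∫ t, dens W t = 1) {s : ℝ} (hs : 0 < s) (θ : Sp n) (c : ℝ)
    (hv : ∫ x, lin θ c x.2 ^ 2 * Real.exp (-W x) ∂(vol 1 n) ≤ s) (τ : ℝ) :
    |∑ i, θ i * pd (sv 0) (mz W i) (oo τ)| ≤
      20 * Real.sqrt (BB W s τ) * dd W τ / (LD.G (dd W) τ * LD.K (dd W) τ) := by
  have hl := hW.ld h1
  have hd := hl.pos τ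
  have hG := hl.G_pos τ
  have hK := hl.K_pos τ
  obtain ⟨m, hm⟩ : ∃ m, m = mt W θ (oo τ) := ⟨_, rfl⟩
  have f1 := hW.F_deriv h1 hs θ c hv τ
  have hv' : ∫ x, lin (fun i => - θ i) (-c) x.2 ^ 2 * Real.exp (-W x) ∂(vol 1 n) ≤ s := by
    refine le_trans (le_of_eq ?_) hv
    refine integral_congr_ae (Eventually.of_forall fun x => ?_)
    simp only [lin_neg]
    ring
  have f2 := hW.F_deriv h1 hs (fun i => - θ i) (-c) hv' τ
  have hmn : mt W (fun i => - θ i) (oo τ) = - m := by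
    rw [hm]
    unfold mt
    simp only [neg_mul, Finset.sum_neg_distrib]
  rw [hmn] at f2
  rw [← hm] at f1
  -- the derivative of the mean
  have hmd : HasDerivAt (fun τ => mt W θ (oo τ)) (∑ i, θ i * pd (sv 0) (mz W i) (oo τ)) τ := by
    unfold mt
    refine HasDerivAt.fun_sum fun i _ => ?_
    exact (deriv_base (sm1 (hW.mz_smooth i)) τ).const_mul (θ i)
  have hdd : HasDerivAt (dd W) (pd (sv 0) (dens W) (oo τ)) τ :=
    deriv_base (sm1 hW.dens_smooth) τ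
  have hprod := hdd.mul (hmd.sub_const m)
  rw [← hm, sub_self, mul_zero, zero_add] at hprod
  have hF1 := (hW.Hp_deriv θ m τ).hasDerivAt
  have hF2 := (hW.Hp_deriv (fun i => - θ i) (-m) τ).hasDerivAt
  have hsub := hF1.sub hF2
  have heq : ((fun τ => Hp W θ m 1 (oo τ) 0) - fun τ => Hp W (fun i => - θ i) (-m) 1 (oo τ) 0) =
      (dd W * fun τ => mt W θ (oo τ) - m) := by
    funext τ'
    have e1 := hW.H1_sub θ m (oo τ')
    rw [hW.fib_lin] at e1
    exact e1.symm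
  rw [heq] at hsub
  have huniq := hprod.unique hsub
  obtain ⟨D1, hD1⟩ : ∃ D, D = deriv (fun τ' => Hp W θ m 1 (oo τ') 0) τ := ⟨_, rfl⟩
  obtain ⟨D2, hD2⟩ : ∃ D, D = deriv (fun τ' => Hp W (fun i => - θ i) (-m) 1 (oo τ') 0) τ :=
    ⟨_, rfl⟩
  rw [← hD1, ← hD2] at huniq
  rw [← hD1] at f1
  rw [← hD2] at f2
  obtain ⟨b, hb⟩ : ∃ b, b = Real.sqrt (BB W s τ) := ⟨_, rfl⟩
  rw [← hb] at f1 f2 ⊢
  obtain ⟨g, hg⟩ : ∃ g, g = LD.G (dd W) τ * LD.K (dd W) τ := ⟨_, rfl⟩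
  have hg0 : 0 < g := by
    rw [hg]
    positivity
  rw [← hg] at f1 f2 ⊢
  obtain ⟨M, hM⟩ : ∃ M, M = ∑ i, θ i * pd (sv 0) (mz W i) (oo τ) := ⟨_, rfl⟩
  rw [← hM] at huniq ⊢
  have h5 : |dd W τ * M| ≤ dd W τ * (20 * b * dd W τ / g) := by
    rw [huniq]
    refine (abs_sub _ _).trans ?_
    have e2 : dd W τ * (20 * b * dd W τ / g) = 10 * b * dd W τ ^ 2 / g +
        10 * b * dd W τ ^ 2 / g := by
      field_simp
      ring
    rw [e2]
    exact add_le_add f1 f2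
  rw [abs_mul, abs_of_pos hd] at h5
  exact le_of_mul_le_mul_left h5 hd

/-- **The derivative of the conditional mean.** -/
theorem mz_deriv (h1 : ∫ t, dens W t = 1) {s : ℝ} (hs : 0 < s)
    (hv : ∀ θ : Sp n, ∑ i, θ i ^ 2 = 1 →
      ∃ c, ∫ x, lin θ c x.2 ^ 2 * Real.exp (-W x) ∂(vol 1 n) ≤ s) (τ : ℝ) :
    Real.sqrt (∑ i, (pd (sv 0) (mz W i) (oo τ)) ^ 2) ≤
      20 * Real.sqrt (BB W s τ) * dd W τ / (LD.G (dd W) τ * LD.K (dd W) τ) := by
  have hl := hW.ld h1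
  have hd := hl.pos τ
  have hG := hl.G_pos τ
  have hK := hl.K_pos τ
  obtain ⟨R, hR⟩ : ∃ R, R = Real.sqrt (∑ i, (pd (sv 0) (mz W i) (oo τ)) ^ 2) := ⟨_, rfl⟩
  have hR0 : 0 ≤ R := by
    rw [hR]
    exact Real.sqrt_nonneg _
  have hR2 : R ^ 2 = ∑ i, (pd (sv 0) (mz W i) (oo τ)) ^ 2 := by
    rw [hR]
    exact Real.sq_sqrt (Finset.sum_nonneg fun i _ => sq_nonneg _)
  rw [← hR]
  rcases hR0.eq_or_lt with h0 | h0
  · rw [← h0]
    positivity
  · obtain ⟨c, hc⟩ := hv (fun i => pd (sv 0) (mz W i) (oo τ) / R) (by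
      simp_rw [div_pow]
      rw [← Finset.sum_div, ← hR2, div_self (by positivity)])
    have h2 := hW.mt_deriv h1 hs _ c hc τ
    have h3 : ∑ i, pd (sv 0) (mz W i) (oo τ) / R * pd (sv 0) (mz W i) (oo τ) = R := by
      have h4 : ∀ i, pd (sv 0) (mz W i) (oo τ) / R * pd (sv 0) (mz W i) (oo τ) =
          (pd (sv 0) (mz W i) (oo τ)) ^ 2 / R := fun i => by ring
      simp_rw [h4]
      rw [← Finset.sum_div, ← hR2]
      field_simp
    rw [h3, abs_of_nonneg hR0] at h2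
    exact h2

end Std

end Pool.Agent.Q86.FIB
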