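import Pool.Agent.Q86.FIB.MainB7

/-!
# Functions without compact support
-/

set_option autoImplicit false
set_option linter.unusedSectionVars false

namespace Pool.Agent.Q86.FIB

open MeasureTheory Set Filter Topology
open scoped ContDiff

variable {k n : ℕ}

theorem sq_split {a b r : ℝ} (hr : 0 < r) : (a + b) ^ 2 ≤ (1 + r) * a ^ 2 + (1 + 1 / r) * b ^ 2 := by
  have h : 0 ≤ (r * a - b) ^ 2 / r := by positivity
  have h2 : (r * a - b) ^ 2 / r = r * a ^ 2 - 2 * a * b + 1 / r * b ^ 2 := by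
    field_simp
    ring
  rw [h2] at h
  nlinarith

/-- The square of the gradient of a product with a cutoff. -/
theorem grad_mul {ι : Type} [Fintype ι] (e : ι → Sp k × Sp n) {χ f : Sp k × Sp n → ℝ}
    (hχ : ContDiff ℝ 1 χ) (hf : ContDiff ℝ 1 f) {r M : ℝ} (hr : 1 ≤ r) (hM : 0 ≤ M)
    (x : Sp k × Sp n) (h0 : 0 ≤ χ x) (h1 : χ x ≤ 1)
    (hg : ∑ i, (pd (e i) χ x) ^ 2 ≤ M / r ^ 2) :
    ∑ i, (pd (e i) (fun x => χ x * f x) x) ^ 2 ≤
      (1 + 1 / r) * (∑ i, (pd (e i) f x) ^ 2) + 2 * M / r * f x ^ 2 := by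
  have hr0 : 0 < r := by linarith
  have h2 : ∀ i, (pd (e i) (fun x => χ x * f x) x) ^ 2 ≤
      (1 + r) * (pd (e i) χ x ^ 2 * f x ^ 2) + (1 + 1 / r) * (pd (e i) f x) ^ 2 := by
    intro i
    rw [pd_mul hχ hf]
    have h3 := sq_split (a := pd (e i) χ x * f x) (b := χ x * pd (e i) f x) hr0
    have h4 : (χ x * pd (e i) f x) ^ 2 ≤ (pd (e i) f x) ^ 2 := by
      rw [mul_pow]
      have : χ x ^ 2 ≤ 1 := pow_le_one₀ h0 h1
      nlinarith [sq_nonneg (pd (e i) f x)]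
    have h5 : (1 + 1 / r) * (χ x * pd (e i) f x) ^ 2 ≤ (1 + 1 / r) * (pd (e i) f x) ^ 2 :=
      mul_le_mul_of_nonneg_left h4 (by positivity)
    have h6 : (pd (e i) χ x * f x) ^ 2 = pd (e i) χ x ^ 2 * f x ^ 2 := mul_pow _ _ _
    rw [h6] at h3
    linarith
  refine (Finset.sum_le_sum fun i _ => h2 i).trans ?_
  rw [Finset.sum_add_distrib, ← Finset.mul_sum, ← Finset.mul_sum, ← Finset.sum_mul]
  have h7 : (1 + r) * ((∑ i, pd (e i) χ x ^ 2) * f x ^ 2) ≤ 2 * M / r * f x ^ 2 := by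
    have h8 : (∑ i, pd (e i) χ x ^ 2) * f x ^ 2 ≤ M / r ^ 2 * f x ^ 2 :=
      mul_le_mul_of_nonneg_right hg (sq_nonneg _)
    have h9 : (1 + r) * (M / r ^ 2 * f x ^ 2) ≤ (2 * r) * (M / r ^ 2 * f x ^ 2) :=
      mul_le_mul_of_nonneg_right (by linarith) (by positivity)
    have h10 : (2 * r) * (M / r ^ 2 * f x ^ 2) = 2 * M / r * f x ^ 2 := by
      field_simp
    have h11 := mul_le_mul_of_nonneg_left h8 (by linarith : (0 : ℝ) ≤ 1 + r)
    linarith
  linarith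

theorem int_w {W f : Sp k × Sp n → ℝ} (hw : Integrable (fun x => Real.exp (-W x)) (vol k n))
    (hfc : Continuous f) (hWc : Continuous W)
    (h2 : Integrable (fun x => f x ^ 2 * Real.exp (-W x)) (vol k n)) :
    Integrable (fun x => f x * Real.exp (-W x)) (vol k n) := by
  refine (hw.add h2).mono' (hfc.mul hWc.neg.rexp).aestronglyMeasurable
    (Eventually.of_forall fun x => ?_)
  rw [norm_mul, Real.norm_of_nonneg (Real.exp_pos _).le, Real.norm_eq_abs]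
  have h3 : |f x| ≤ 1 + f x ^ 2 := by
    rw [← sq_abs]
    nlinarith [sq_nonneg (|f x| - 1 / 2), abs_nonneg (f x)]
  have h4 := mul_le_mul_of_nonneg_right h3 (Real.exp_pos (-W x)).le
  simp only [Pi.add_apply]
  linarith

/-- Cutoffs. -/
theorem cuts (k n : ℕ) : ∃ M : ℝ, 0 ≤ M ∧ ∀ j : ℕ, ∃ χ : Sp k × Sp n → ℝ, ContDiff ℝ ∞ χ ∧
    HasCompactSupport χ ∧ (∀ x, 0 ≤ χ x) ∧ (∀ x, χ x ≤ 1) ∧ (∀ x, ‖x‖ ≤ j + 1 → χ x = 1) ∧
    (∀ x, gT χ x ≤ M / ((j : ℝ) + 1) ^ 2) ∧ ∀ x, gZ χ x ≤ M / ((j : ℝ) + 1) ^ 2 := by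
  obtain ⟨M, hM, h⟩ := exists_cut (E := Sp k × Sp n)
    (Sum.elim (fun a : Fin k => tv n a) (fun i : Fin n => zv k i))
  refine ⟨M, hM, fun j => ?_⟩
  obtain ⟨χ, h1, h2, h3, h4, h5, h6⟩ := h ((j : ℝ) + 1) (by
    have : (0 : ℝ) ≤ j := Nat.cast_nonneg j
    linarith)
  refine ⟨χ, h1, h2, h3, h4, h5, fun x => ?_, fun x => ?_⟩
  · have h7 := h6 x
    rw [Fintype.sum_sum_type] at h7
    simp only [Sum.elim_inl, Sum.elim_inr] at h7
    have h8 := gZ_nonneg χ x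
    unfold gZ at h8
    unfold gT
    linarith
  · have h7 := h6 x
    rw [Fintype.sum_sum_type] at h7
    simp only [Sum.elim_inl, Sum.elim_inr] at h7
    have h8 := gT_nonneg χ x
    unfold gT at h8
    unfold gZ
    linarith

theorem Std.tot_dens {W : Sp k × Sp n → ℝ} (hW : Std W) :
    ∫ t, dens W t = ∫ x, Real.exp (-W x) ∂(vol k n) := by
  have h := hW.fib_integral (PB.const 1) continuous_const
  simp_rw [one_mul] at h
  rw [h]
  exact integral_congr_ae (Eventually.of_forall fun t => dens_eq W t)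

/-- **The two-scale inequality.** -/
theorem Std.main_ext {W : Sp k × Sp n → ℝ} (hW : Std W) {p : ℝ} (hp : 0 ≤ p)
    (hP : FibreP W (fun _ => p))
    {L : ℝ} (hL0 : 0 ≤ L) (hL : MeanLip W L) {C₀ : ℝ} (hC : 0 ≤ C₀) (hB : BaseP W C₀)
    (h1 : ∫ x, Real.exp (-W x) ∂(vol k n) = 1) {f : Sp k × Sp n → ℝ} (hf : ContDiff ℝ 1 f)
    (hf2 : Integrable (fun x => f x ^ 2 * Real.exp (-W x)) (vol k n))
    (hT : Integrable (fun x => gT f x * Real.exp (-W x)) (vol k n))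
    (hZ : Integrable (fun x => gZ f x * Real.exp (-W x)) (vol k n)) :
    (∫ x, f x ^ 2 * Real.exp (-W x) ∂(vol k n)) - (∫ x, f x * Real.exp (-W x) ∂(vol k n)) ^ 2 ≤
      (Real.sqrt C₀ * (Real.sqrt (∫ x, gT f x * Real.exp (-W x) ∂(vol k n)) +
        L * Real.sqrt (∫ x, gZ f x * Real.exp (-W x) ∂(vol k n))) +
        Real.sqrt (p * ∫ x, gZ f x * Real.exp (-W x) ∂(vol k n))) ^ 2 +
        p * ∫ x, gZ f x * Real.exp (-W x) ∂(vol k n) := by
  obtain ⟨M, hM, hcut⟩ := cuts k n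
  choose χ hχ hχs hχ0 hχ1 hχr hχT hχZ using hcut
  have h1' : ∫ t, dens W t = 1 := by rw [hW.tot_dens, h1]
  have hfc := hf.continuous
  have hWc := hW.smooth.continuous
  have hf1 := int_w hW.int hfc hWc hf2
  set T : ℝ := ∫ x, gT f x * Real.exp (-W x) ∂(vol k n) with hTd
  set Z : ℝ := ∫ x, gZ f x * Real.exp (-W x) ∂(vol k n) with hZd
  set S : ℝ := ∫ x, f x ^ 2 * Real.exp (-W x) ∂(vol k n) with hSd
  set B : ℝ := ∫ x, f x * Real.exp (-W x) ∂(vol k n) with hBd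
  have hlim0 : Tendsto (fun j : ℕ => 1 / ((j : ℝ) + 1)) atTop (𝓝 0) :=
    tendsto_one_div_add_atTop_nhds_zero_nat
  -- the limits of the left side
  have lA : Tendsto (fun j : ℕ => ∫ x, (χ j x * f x) ^ 2 * Real.exp (-W x) ∂(vol k n)) atTop
      (𝓝 S) := by
    refine tendsto_integral_of_dominated_convergence
      (fun x => f x ^ 2 * Real.exp (-W x)) (fun j => ?_) hf2 (fun j => ?_) ?_
    · exact ((((hχ j).continuous.mul hfc).pow 2).mul hWc.neg.rexp).aestronglyMeasurable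
    · refine Eventually.of_forall fun x => ?_
      rw [Real.norm_of_nonneg (mul_nonneg (sq_nonneg _) (Real.exp_pos _).le), mul_pow]
      refine mul_le_mul_of_nonneg_right ?_ (Real.exp_pos _).le
      have : χ j x ^ 2 ≤ 1 := pow_le_one₀ (hχ0 j x) (hχ1 j x)
      nlinarith [sq_nonneg (f x)]
    · refine Eventually.of_forall fun x => ?_
      refine tendsto_const_nhds.congr' ?_
      obtain ⟨N, hN⟩ := exists_nat_ge ‖x‖
      filter_upwards [eventually_ge_atTop N] with j hj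
      have hj' : (N : ℝ) ≤ j := by exact_mod_cast hj
      rw [hχr j x (by linarith), one_mul]
  have lB : Tendsto (fun j : ℕ => ∫ x, (χ j x * f x) * Real.exp (-W x) ∂(vol k n)) atTop
      (𝓝 B) := by
    refine tendsto_integral_of_dominated_convergence
      (fun x => ‖f x * Real.exp (-W x)‖) (fun j => ?_) hf1.norm (fun j => ?_) ?_
    · exact (((hχ j).continuous.mul hfc).mul hWc.neg.rexp).aestronglyMeasurable
    · refine Eventually.of_forall fun x => ?_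
      rw [mul_assoc, norm_mul, Real.norm_of_nonneg (hχ0 j x)]
      nlinarith [norm_nonneg (f x * Real.exp (-W x)), hχ1 j x]
    · refine Eventually.of_forall fun x => ?_
      refine tendsto_const_nhds.congr' ?_
      obtain ⟨N, hN⟩ := exists_nat_ge ‖x‖
      filter_upwards [eventually_ge_atTop N] with j hj
      have hj' : (N : ℝ) ≤ j := by exact_mod_cast hj
      rw [hχr j x (by linarith), one_mul]
  -- the bounds of the gradients
  have hle : ∀ (g : (Sp k × Sp n → ℝ) → Sp k × Sp n → ℝ) (G : ℝ),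
      Integrable (fun x => g f x * Real.exp (-W x)) (vol k n) →
      G = ∫ x, g f x * Real.exp (-W x) ∂(vol k n) →
      (∀ j x, 0 ≤ g (fun x => χ j x * f x) x) →
      (∀ j x, g (fun x => χ j x * f x) x ≤ (1 + 1 / ((j : ℝ) + 1)) * g f x +
        2 * M / ((j : ℝ) + 1) * f x ^ 2) → ∀ j : ℕ,
      ∫ x, g (fun x => χ j x * f x) x * Real.exp (-W x) ∂(vol k n) ≤
        (1 + 1 / ((j : ℝ) + 1)) * G + 2 * M * (1 / ((j : ℝ) + 1)) * S := by
    intro g G hg hG hg0 hgl j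
    have i1 : Integrable (fun x => (1 + 1 / ((j : ℝ) + 1)) * (g f x * Real.exp (-W x)))
        (vol k n) := hg.const_mul _
    have i2 : Integrable (fun x => 2 * M * (1 / ((j : ℝ) + 1)) * (f x ^ 2 * Real.exp (-W x)))
        (vol k n) := hf2.const_mul _
    have e : (1 + 1 / ((j : ℝ) + 1)) * G + 2 * M * (1 / ((j : ℝ) + 1)) * S =
        ∫ x, ((1 + 1 / ((j : ℝ) + 1)) * (g f x * Real.exp (-W x)) +
          2 * M * (1 / ((j : ℝ) + 1)) * (f x ^ 2 * Real.exp (-W x))) ∂(vol k n) := by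
      rw [integral_add i1 i2, integral_const_mul, integral_const_mul, hG]
    rw [e]
    refine integral_mono_of_nonneg (Eventually.of_forall fun x =>
      mul_nonneg (hg0 j x) (Real.exp_pos _).le) (i1.add i2) (Eventually.of_forall fun x => ?_)
    have h3 := mul_le_mul_of_nonneg_right (hgl j x) (Real.exp_pos (-W x)).le
    have h4 : ((1 + 1 / ((j : ℝ) + 1)) * g f x + 2 * M / ((j : ℝ) + 1) * f x ^ 2) *
        Real.exp (-W x) = (1 + 1 / ((j : ℝ) + 1)) * (g f x * Real.exp (-W x)) +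
        2 * M * (1 / ((j : ℝ) + 1)) * (f x ^ 2 * Real.exp (-W x)) := by ring
    rw [h4] at h3
    exact h3
  have hj1 : ∀ j : ℕ, (1 : ℝ) ≤ (j : ℝ) + 1 := fun j => by
    have : (0 : ℝ) ≤ j := Nat.cast_nonneg j
    linarith
  have hTj := hle gT T hT rfl (fun j x => gT_nonneg _ x) (fun j x =>
    grad_mul (fun a : Fin k => tv n a) (sm1 (hχ j)) hf (hj1 j) hM x (hχ0 j x) (hχ1 j x)
      (hχT j x))
  have hZj := hle gZ Z hZ rfl (fun j x => gZ_nonneg _ x) (fun j x =>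
    grad_mul (fun i : Fin n => zv k i) (sm1 (hχ j)) hf (hj1 j) hM x (hχ0 j x) (hχ1 j x)
      (hχZ j x))
  -- the inequality for the truncations
  have key : ∀ j : ℕ, (∫ x, (χ j x * f x) ^ 2 * Real.exp (-W x) ∂(vol k n)) -
      (∫ x, (χ j x * f x) * Real.exp (-W x) ∂(vol k n)) ^ 2 ≤
      (Real.sqrt C₀ * (Real.sqrt ((1 + 1 / ((j : ℝ) + 1)) * T +
        2 * M * (1 / ((j : ℝ) + 1)) * S) +
        L * Real.sqrt ((1 + 1 / ((j : ℝ) + 1)) * Z + 2 * M * (1 / ((j : ℝ) + 1)) * S)) +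
        Real.sqrt (p * ((1 + 1 / ((j : ℝ) + 1)) * Z + 2 * M * (1 / ((j : ℝ) + 1)) * S))) ^ 2 +
        p * ((1 + 1 / ((j : ℝ) + 1)) * Z + 2 * M * (1 / ((j : ℝ) + 1)) * S) := by
    intro j
    have h2 := hW.main_cs hP (fun _ => hp) continuous_const hL0 hL hC hB h1'
      ((sm1 (hχ j)).mul hf) (hχs j).mul_right
    have h3 : ∫ x, p * gZ (fun x => χ j x * f x) x * Real.exp (-W x) ∂(vol k n) =
        p * ∫ x, gZ (fun x => χ j x * f x) x * Real.exp (-W x) ∂(vol k n) := by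
      rw [← integral_const_mul]
      exact integral_congr_ae (Eventually.of_forall fun x => by ring)
    rw [h3] at h2
    refine h2.trans ?_
    have h4 := hTj j
    have h5 := hZj j
    have h6 : 0 ≤ ∫ x, gZ (fun x => χ j x * f x) x * Real.exp (-W x) ∂(vol k n) :=
      integral_nonneg fun x => mul_nonneg (gZ_nonneg _ x) (Real.exp_pos _).le
    gcongr
  have lX : Tendsto (fun j : ℕ => (1 + 1 / ((j : ℝ) + 1)) * T +
      2 * M * (1 / ((j : ℝ) + 1)) * S) atTop (𝓝 ((1 + 0) * T + 2 * M * 0 * S)) :=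
    ((tendsto_const_nhds.add hlim0).mul_const T).add ((hlim0.const_mul (2 * M)).mul_const S)
  have lY : Tendsto (fun j : ℕ => (1 + 1 / ((j : ℝ) + 1)) * Z +
      2 * M * (1 / ((j : ℝ) + 1)) * S) atTop (𝓝 ((1 + 0) * Z + 2 * M * 0 * S)) :=
    ((tendsto_const_nhds.add hlim0).mul_const Z).add ((hlim0.const_mul (2 * M)).mul_const S)
  have e1 : (1 + 0) * T + 2 * M * 0 * S = T := by ring
  have e2 : (1 + 0) * Z + 2 * M * 0 * S = Z := by ring
  rw [e1] at lX
  rw [e2] at lY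
  have lR : Tendsto (fun j : ℕ => (Real.sqrt C₀ * (Real.sqrt ((1 + 1 / ((j : ℝ) + 1)) * T +
        2 * M * (1 / ((j : ℝ) + 1)) * S) +
        L * Real.sqrt ((1 + 1 / ((j : ℝ) + 1)) * Z + 2 * M * (1 / ((j : ℝ) + 1)) * S)) +
        Real.sqrt (p * ((1 + 1 / ((j : ℝ) + 1)) * Z + 2 * M * (1 / ((j : ℝ) + 1)) * S))) ^ 2 +
        p * ((1 + 1 / ((j : ℝ) + 1)) * Z + 2 * M * (1 / ((j : ℝ) + 1)) * S)) atTop
      (𝓝 ((Real.sqrt C₀ * (Real.sqrt T + L * Real.sqrt Z) + Real.sqrt (p * Z)) ^ 2 + p * Z)) :=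
    ((((lX.sqrt.add (lY.sqrt.const_mul L)).const_mul _).add
      ((lY.const_mul p).sqrt)).pow 2).add (lY.const_mul p)
  exact le_of_tendsto_of_tendsto' (lA.sub (lB.pow 2)) lR key

end Pool.Agent.Q86.FIB
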