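import Pool.Agent.Q86.FIB.Main2
import Pool.Agent.Q86.FIB.Ext

/-!
# The weighted inequality over a line, for general functions
-/

set_option autoImplicit false
set_option linter.unusedSectionVars false

namespace Pool.Agent.Q86.FIB

open MeasureTheory Set Filter Topology
open scoped ContDiff ENNReal

/-- The integral of `A^(-1/4) d` where `A` is a primitive of `± d`. -/
theorem int_rpow {d A : ℝ → ℝ} {ε : ℝ} (hε : ε = 1 ∨ ε = -1) (hd : Continuous d)
    (hd0 : ∀ t, 0 < d t) (hA0 : ∀ t, 0 < A t) (hA1 : ∀ t, A t ≤ 1)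
    (hA : ∀ t, HasDerivAt A (ε * d t) t) :
    Integrable (fun t => A t ^ (-(1 / 4) : ℝ) * d t) ∧
      ∫ t, A t ^ (-(1 / 4) : ℝ) * d t ≤ 4 / 3 := by
  have cA : Continuous A := continuous_iff_continuousAt.2 fun t => (hA t).continuousAt
  have cF : Continuous (fun t => A t ^ (-(1 / 4) : ℝ) * d t) :=
    (cA.rpow_const fun t => Or.inl (hA0 t).ne').mul hd
  have hF0 : ∀ t, 0 ≤ A t ^ (-(1 / 4) : ℝ) * d t := fun t =>
    mul_nonneg (Real.rpow_nonneg (hA0 t).le _) (hd0 t).le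
  have hder : ∀ t, HasDerivAt (fun t => ε * (4 / 3 * A t ^ (3 / 4 : ℝ)))
      (A t ^ (-(1 / 4) : ℝ) * d t) t := by
    intro t
    have h1 := (((hA t).rpow_const (p := (3 / 4 : ℝ)) (Or.inl (hA0 t).ne')).const_mul
      (4 / 3 : ℝ)).const_mul ε
    refine h1.congr_deriv ?_
    have e1 : (3 / 4 : ℝ) - 1 = -(1 / 4) := by norm_num
    rw [e1]
    have e2 : ε * ε = 1 := by
      rcases hε with h | h <;> rw [h] <;> norm_num
    calc ε * (4 / 3 * (ε * d t * (3 / 4) * A t ^ (-(1 / 4) : ℝ))) =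
        (ε * ε) * (A t ^ (-(1 / 4) : ℝ) * d t) := by ring
      _ = _ := by rw [e2, one_mul]
  have hbd : ∀ a b : ℝ, ∫ t in a..b, A t ^ (-(1 / 4) : ℝ) * d t ≤ 4 / 3 := by
    intro a b
    rw [intervalIntegral.integral_eq_sub_of_hasDerivAt (fun t _ => hder t)
      (cF.intervalIntegrable _ _)]
    have q1 : ∀ t, 0 ≤ A t ^ (3 / 4 : ℝ) ∧ A t ^ (3 / 4 : ℝ) ≤ 1 := fun t =>
      ⟨Real.rpow_nonneg (hA0 t).le _, Real.rpow_le_one (hA0 t).le (hA1 t) (by norm_num)⟩
    have qa := q1 a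
    have qb := q1 b
    rcases hε with h | h <;> rw [h] <;> linarith [qa.1, qa.2, qb.1, qb.2]
  have hn1 : Tendsto (fun j : ℕ => -(j : ℝ)) atTop atBot :=
    tendsto_neg_atTop_atBot.comp tendsto_natCast_atTop_atTop
  have hn2 : Tendsto (fun j : ℕ => (j : ℝ)) atTop atTop := tendsto_natCast_atTop_atTop
  have hint : Integrable (fun t => A t ^ (-(1 / 4) : ℝ) * d t) := by
    refine integrable_of_intervalIntegral_norm_bounded (4 / 3) (fun j => ?_) hn1 hn2
      (Eventually.of_forall fun j => ?_)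
    · exact (cF.continuousOn).integrableOn_Icc.mono_set Ioc_subset_Icc_self
    · have e : ∀ t, ‖A t ^ (-(1 / 4) : ℝ) * d t‖ = A t ^ (-(1 / 4) : ℝ) * d t := fun t =>
        Real.norm_of_nonneg (hF0 t)
      simp_rw [e]
      exact hbd _ _
  exact ⟨hint, le_of_tendsto' (intervalIntegral_tendsto_integral hint hn1 hn2) fun j => hbd _ _⟩

variable {n : ℕ}

namespace Std

variable {W : Sp 1 × Sp n → ℝ} (hW : Std W)
include hW

theorem om_nonneg (h1 : ∫ t, dens W t = 1) (τ : ℝ) : 0 ≤ om W τ :=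
  zero_le_one.trans (hW.om_ge h1 τ)

/-- The mean of the weight. -/
theorem om_int (h1 : ∫ t, dens W t = 1) :
    Integrable (fun τ => om W τ * dd W τ) ∧ ∫ τ, om W τ * dd W τ ≤ 8 / 3 := by
  have hl := hW.ld h1
  obtain ⟨i1, j1⟩ := int_rpow (ε := 1) (Or.inl rfl) hl.cont hl.pos hl.G_pos
    (fun t => (hl.G_lt t).le) (fun t => by simpa using hl.G_deriv t)
  obtain ⟨i2, j2⟩ := int_rpow (ε := -1) (Or.inr rfl) hl.cont hl.pos hl.K_pos
    (fun t => (hl.K_lt t).le) (fun t => by simpa using hl.K_deriv t)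
  have hle : ∀ τ, om W τ * dd W τ ≤ LD.G (dd W) τ ^ (-(1 / 4) : ℝ) * dd W τ +
      LD.K (dd W) τ ^ (-(1 / 4) : ℝ) * dd W τ := by
    intro τ
    rw [← add_mul]
    refine mul_le_mul_of_nonneg_right ?_ (hl.pos τ).le
    have a1 := Real.rpow_nonneg (hl.G_pos τ).le (-(1 / 4) : ℝ)
    have a2 := Real.rpow_nonneg (hl.K_pos τ).le (-(1 / 4) : ℝ)
    unfold om mn
    rcases le_total (LD.G (dd W) τ) (LD.K (dd W) τ) with h | h
    · rw [min_eq_left h]
      linarith
    · rw [min_eq_right h]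
      linarith
  have i0 : Integrable (fun τ => om W τ * dd W τ) := by
    refine (i1.add i2).mono' ((hW.om_cont h1).mul hl.cont).aestronglyMeasurable
      (Eventually.of_forall fun τ => ?_)
    rw [Real.norm_of_nonneg (mul_nonneg (hW.om_nonneg h1 τ) (hl.pos τ).le)]
    exact hle τ
  refine ⟨i0, ?_⟩
  have h2 := integral_mono i0 (i1.add i2) hle
  have h3 : ∫ τ, (LD.G (dd W) τ ^ (-(1 / 4) : ℝ) * dd W τ + LD.K (dd W) τ ^ (-(1 / 4) : ℝ) *
      dd W τ) = (∫ τ, LD.G (dd W) τ ^ (-(1 / 4) : ℝ) * dd W τ) +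
      ∫ τ, LD.K (dd W) τ ^ (-(1 / 4) : ℝ) * dd W τ := integral_add i1 i2
  have h4 : ∫ τ, om W τ * dd W τ ≤ ∫ τ, (LD.G (dd W) τ ^ (-(1 / 4) : ℝ) * dd W τ +
      LD.K (dd W) τ ^ (-(1 / 4) : ℝ) * dd W τ) := h2
  rw [h3] at h4
  linarith

theorem om_w (h1 : ∫ t, dens W t = 1) :
    Integrable (fun x => om W (x.1 0) * Real.exp (-W x)) (vol 1 n) ∧
      ∫ x, om W (x.1 0) * Real.exp (-W x) ∂(vol 1 n) ≤ 8 / 3 := by
  obtain ⟨i1, j1⟩ := hW.om_int h1
  have c0 : Continuous (fun x : Sp 1 × Sp n => x.1 0) := by fun_prop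
  have hc : Continuous (fun x : Sp 1 × Sp n => om W (x.1 0) * Real.exp (-W x)) :=
    ((hW.om_cont h1).comp c0).mul hW.wc
  have hfi : ∀ t : Sp 1, ∫ z, om W (t 0) * Real.exp (-W (t, z)) = om W (t 0) * dens W t := by
    intro t
    rw [integral_const_mul]
    rfl
  have hti : Integrable (fun t : Sp 1 => om W (t 0) * dens W t) := by
    have h := ((volume_preserving_funUnique (Fin 1) ℝ).symm _).integrable_comp_emb
      (MeasurableEquiv.funUnique (Fin 1) ℝ).symm.measurableEmbedding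
      (g := fun t : Sp 1 => om W (t 0) * dens W t)
    exact h.1 i1
  have hint : Integrable (fun x => om W (x.1 0) * Real.exp (-W x)) (vol 1 n) := by
    rw [integrable_prod_iff hc.aestronglyMeasurable]
    refine ⟨Eventually.of_forall fun t => ?_, ?_⟩
    · exact (hW.exp_slice_int t).const_mul (om W (t 0))
    · refine hti.congr (Eventually.of_forall fun t => ?_)
      simp only
      rw [← hfi]
      refine integral_congr_ae (Eventually.of_forall fun z => ?_)
      simp only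
      rw [Real.norm_of_nonneg (mul_nonneg (hW.om_nonneg h1 _) (Real.exp_pos _).le)]
  refine ⟨hint, ?_⟩
  rw [integral_prod _ hint]
  simp only
  simp_rw [hfi]
  rw [oo_int (fun t : Sp 1 => om W (t 0) * dens W t)]
  exact j1

/-- The weighted inequality. -/
def _root_.Pool.Agent.Q86.FIB.WIneq (W f : Sp 1 × Sp n → ℝ) (D : ℝ) : Prop :=
  (∫ x, f x ^ 2 * Real.exp (-W x) ∂(vol 1 n)) - (∫ x, f x * Real.exp (-W x) ∂(vol 1 n)) ^ 2 ≤
    D * ∫ x, om W (x.1 0) * (gT f x + gZ f x) * Real.exp (-W x) ∂(vol 1 n)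

/-- The weighted inequality for bounded functions. -/
theorem ext_bdd (h1 : ∫ t, dens W t = 1) {D : ℝ} (hD : 0 ≤ D)
    (H : ∀ f : Sp 1 × Sp n → ℝ, ContDiff ℝ 1 f → HasCompactSupport f → WIneq W f D)
    {f : Sp 1 × Sp n → ℝ} (hf : ContDiff ℝ 1 f) {B : ℝ} (hB : ∀ x, |f x| ≤ B)
    (hg : Integrable (fun x => om W (x.1 0) * (gT f x + gZ f x) * Real.exp (-W x)) (vol 1 n)) :
    WIneq W f D := by
  obtain ⟨M, hM, hcut⟩ := cuts 1 n
  choose χ hχ hχs hχ0 hχ1 hχr hχT hχZ using hcut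
  have hfc := hf.continuous
  have hWc := hW.smooth.continuous
  have c0 : Continuous (fun x : Sp 1 × Sp n => x.1 0) := by fun_prop
  have com : Continuous (fun x : Sp 1 × Sp n => om W (x.1 0)) := (hW.om_cont h1).comp c0
  have pf : PB f := PB.of_bdd hB
  have hf2 := hW.integrable (pf.pow 2) (hfc.pow 2)
  have hf1 := hW.integrable pf hfc
  obtain ⟨G, hG⟩ : ∃ G, G = ∫ x, om W (x.1 0) * (gT f x + gZ f x) * Real.exp (-W x) ∂(vol 1 n) :=
    ⟨_, rfl⟩
  have hof : Integrable (fun x => om W (x.1 0) * f x ^ 2 * Real.exp (-W x)) (vol 1 n) := by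
    refine (((hW.om_w h1).1).const_mul (B ^ 2)).mono'
      ((com.mul (hfc.pow 2)).mul hWc.neg.rexp).aestronglyMeasurable (Eventually.of_forall fun x => ?_)
    have h2 := hW.om_nonneg h1 (x.1 0)
    have h3 := (Real.exp_pos (-W x)).le
    rw [Real.norm_of_nonneg (mul_nonneg (mul_nonneg h2 (sq_nonneg _)) h3)]
    have h4 : f x ^ 2 ≤ B ^ 2 := by
      rw [← sq_abs]
      exact pow_le_pow_left₀ (abs_nonneg _) (hB x) 2
    have h5 := mul_le_mul_of_nonneg_right (mul_le_mul_of_nonneg_left h4 h2) h3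
    linarith
  obtain ⟨S, hS⟩ : ∃ S, S = ∫ x, om W (x.1 0) * f x ^ 2 * Real.exp (-W x) ∂(vol 1 n) := ⟨_, rfl⟩
  have hlim0 : Tendsto (fun j : ℕ => 1 / ((j : ℝ) + 1)) atTop (𝓝 0) :=
    tendsto_one_div_add_atTop_nhds_zero_nat
  have lA : Tendsto (fun j : ℕ => ∫ x, (χ j x * f x) ^ 2 * Real.exp (-W x) ∂(vol 1 n)) atTop
      (𝓝 (∫ x, f x ^ 2 * Real.exp (-W x) ∂(vol 1 n))) := by
    refine tendsto_integral_of_dominated_convergence
      (fun x => f x ^ 2 * Real.exp (-W x)) (fun j => ?_) hf2 (fun j => ?_) ?_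
    · exact ((((hχ j).continuous.mul hfc).pow 2).mul hWc.neg.rexp).aestronglyMeasurable
    · refine Eventually.of_forall fun x => ?_
      rw [Real.norm_of_nonneg (mul_nonneg (sq_nonneg _) (Real.exp_pos _).le), mul_pow]
      refine mul_le_mul_of_nonneg_right ?_ (Real.exp_pos _).le
      have : χ j x ^ 2 ≤ 1 := pow_le_one₀ (hχ0 j x) (hχ1 j x)
      nlinarith [sq_nonneg (f x)]
    · refine Eventually.of_forall fun x => ?_
      refine tendsto_const_nhds.congr' ?_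
      obtain ⟨N, hN⟩ := exists_nat_ge ‖x‖
      filter_upwards [eventually_ge_atTop N] with j hj
      have hj' : (N : ℝ) ≤ j := by exact_mod_cast hj
      rw [hχr j x (by linarith), one_mul]
  have lB : Tendsto (fun j : ℕ => ∫ x, (χ j x * f x) * Real.exp (-W x) ∂(vol 1 n)) atTop
      (𝓝 (∫ x, f x * Real.exp (-W x) ∂(vol 1 n))) := by
    refine tendsto_integral_of_dominated_convergence
      (fun x => ‖f x * Real.exp (-W x)‖) (fun j => ?_) hf1.norm (fun j => ?_) ?_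
    · exact (((hχ j).continuous.mul hfc).mul hWc.neg.rexp).aestronglyMeasurable
    · refine Eventually.of_forall fun x => ?_
      rw [mul_assoc, norm_mul, Real.norm_of_nonneg (hχ0 j x)]
      nlinarith [norm_nonneg (f x * Real.exp (-W x)), hχ1 j x]
    · refine Eventually.of_forall fun x => ?_
      refine tendsto_const_nhds.congr' ?_
      obtain ⟨N, hN⟩ := exists_nat_ge ‖x‖
      filter_upwards [eventually_ge_atTop N] with j hj
      have hj' : (N : ℝ) ≤ j := by exact_mod_cast hj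
      rw [hχr j x (by linarith), one_mul]
  have hj1 : ∀ j : ℕ, (1 : ℝ) ≤ (j : ℝ) + 1 := fun j => by
    have : (0 : ℝ) ≤ j := Nat.cast_nonneg j
    linarith
  have key : ∀ j : ℕ, (∫ x, (χ j x * f x) ^ 2 * Real.exp (-W x) ∂(vol 1 n)) -
      (∫ x, (χ j x * f x) * Real.exp (-W x) ∂(vol 1 n)) ^ 2 ≤
      D * ((1 + 1 / ((j : ℝ) + 1)) * G + 4 * M * (1 / ((j : ℝ) + 1)) * S) := by
    intro j
    have h2 := H (fun x => χ j x * f x) ((sm1 (hχ j)).mul hf) (hχs j).mul_right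
    refine h2.trans (mul_le_mul_of_nonneg_left ?_ hD)
    have i1 : Integrable (fun x => (1 + 1 / ((j : ℝ) + 1)) *
        (om W (x.1 0) * (gT f x + gZ f x) * Real.exp (-W x))) (vol 1 n) := hg.const_mul _
    have i2 : Integrable (fun x => 4 * M * (1 / ((j : ℝ) + 1)) *
        (om W (x.1 0) * f x ^ 2 * Real.exp (-W x))) (vol 1 n) := hof.const_mul _
    have e : (1 + 1 / ((j : ℝ) + 1)) * G + 4 * M * (1 / ((j : ℝ) + 1)) * S =
        ∫ x, ((1 + 1 / ((j : ℝ) + 1)) * (om W (x.1 0) * (gT f x + gZ f x) * Real.exp (-W x)) +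
          4 * M * (1 / ((j : ℝ) + 1)) * (om W (x.1 0) * f x ^ 2 * Real.exp (-W x)))
            ∂(vol 1 n) := by
      rw [integral_add i1 i2, integral_const_mul, integral_const_mul, hG, hS]
    rw [e]
    refine integral_mono_of_nonneg (Eventually.of_forall fun x =>
      mul_nonneg (mul_nonneg (hW.om_nonneg h1 _) (add_nonneg (gT_nonneg _ x) (gZ_nonneg _ x)))
        (Real.exp_pos _).le) (i1.add i2) (Eventually.of_forall fun x => ?_)
    have hT := grad_mul (fun a : Fin 1 => tv n a) (sm1 (hχ j)) hf (hj1 j) hM x (hχ0 j x)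
      (hχ1 j x) (hχT j x)
    have hZ := grad_mul (fun i : Fin n => zv 1 i) (sm1 (hχ j)) hf (hj1 j) hM x (hχ0 j x)
      (hχ1 j x) (hχZ j x)
    have hsum : gT (fun x => χ j x * f x) x + gZ (fun x => χ j x * f x) x ≤
        (1 + 1 / ((j : ℝ) + 1)) * (gT f x + gZ f x) + 4 * M * (1 / ((j : ℝ) + 1)) * f x ^ 2 := by
      have hT' : gT (fun x => χ j x * f x) x ≤ (1 + 1 / ((j : ℝ) + 1)) * gT f x +
        2 * M / ((j : ℝ) + 1) * f x ^ 2 := hT
      have hZ' : gZ (fun x => χ j x * f x) x ≤ (1 + 1 / ((j : ℝ) + 1)) * gZ f x +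
        2 * M / ((j : ℝ) + 1) * f x ^ 2 := hZ
      have e3 : 4 * M * (1 / ((j : ℝ) + 1)) * f x ^ 2 = 2 * M / ((j : ℝ) + 1) * f x ^ 2 +
        2 * M / ((j : ℝ) + 1) * f x ^ 2 := by ring
      rw [e3, mul_add]
      linarith
    have h3 := mul_le_mul_of_nonneg_right (mul_le_mul_of_nonneg_left hsum
      (hW.om_nonneg h1 (x.1 0))) (Real.exp_pos (-W x)).le
    refine h3.trans (le_of_eq ?_)
    simp only
    ring
  have lR : Tendsto (fun j : ℕ => D * ((1 + 1 / ((j : ℝ) + 1)) * G +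
      4 * M * (1 / ((j : ℝ) + 1)) * S)) atTop (𝓝 (D * ((1 + 0) * G + 4 * M * 0 * S))) :=
    ((((tendsto_const_nhds.add hlim0).mul_const G).add
      ((hlim0.const_mul (4 * M)).mul_const S))).const_mul D
  have e1 : D * ((1 + 0) * G + 4 * M * 0 * S) = D * G := by ring
  rw [e1] at lR
  unfold WIneq
  rw [← hG]
  exact le_of_tendsto_of_tendsto' (lA.sub (lB.pow 2)) lR key

end Std

end Pool.Agent.Q86.FIB
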