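import Pool.Agent.Q86.FIB.Convex
import Pool.Agent.Q86.FIB.DLc

/-!
# Fibre integrals
-/

set_option autoImplicit false
set_option linter.unusedSectionVars false

namespace Pool.Agent.Q86.FIB

open MeasureTheory Set Filter Topology
open scoped ContDiff

/-- the space `ℝ ^ k` -/
abbrev Sp (k : ℕ) : Type := Fin k → ℝ

/-- Lebesgue measure on `ℝ ^ k × ℝ ^ n` -/
noncomputable abbrev vol (k n : ℕ) : Measure (Sp k × Sp n) :=
  (volume : Measure (Sp k)).prod (volume : Measure (Sp n))

instance vol_haar (k n : ℕ) : (vol k n).IsAddHaarMeasure := Measure.prod.instIsAddHaarMeasure _ _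

/-- basis vector -/
def sv {k : ℕ} (a : Fin k) : Sp k := Pi.single a 1

/-- basis vector of the first factor -/
def tv {k : ℕ} (n : ℕ) (a : Fin k) : Sp k × Sp n := (sv a, 0)

/-- basis vector of the second factor -/
def zv (k : ℕ) {n : ℕ} (i : Fin n) : Sp k × Sp n := (0, sv i)

variable {k n : ℕ}

/-- `∫ H(t, z) exp (-W(t, z)) dz` -/
noncomputable def fib (W H : Sp k × Sp n → ℝ) (t : Sp k) : ℝ :=
  ∫ z, H (t, z) * Real.exp (-W (t, z))

/-- The standing assumptions: `W` is smooth with derivatives of polynomial growth, convex, and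
`exp (-W)` is integrable. -/
structure Std (W : Sp k × Sp n → ℝ) : Prop where
  htg : Function.HasTemperateGrowth W
  conv : ConvexOn ℝ univ W
  int : Integrable (fun x => Real.exp (-W x)) (vol k n)

namespace Std

variable {W : Sp k × Sp n → ℝ} (hW : Std W)
include hW

theorem smooth : ContDiff ℝ ∞ W := hW.htg.1

theorem wc : Continuous (fun x => Real.exp (-W x)) := (hW.smooth.neg.exp).continuous

theorem rd : RD (fun x => Real.exp (-W x)) := by
  obtain ⟨c, b, hc, h⟩ := linear_growth (vol k n) hW.conv hW.smooth.continuous hW.int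
  exact RD.exp hc h

theorem rdm {H : Sp k × Sp n → ℝ} (hH : PB H) : RD (fun x => H x * Real.exp (-W x)) :=
  hW.rd.mul hH

theorem integrable {H : Sp k × Sp n → ℝ} (hH : PB H) (hc : Continuous H) :
    Integrable (fun x => H x * Real.exp (-W x)) (vol k n) :=
  (hW.rdm hH).integrable (vol k n) (hc.mul hW.wc)

theorem slice {H : Sp k × Sp n → ℝ} (hH : PB H) (hc : Continuous H) (t : Sp k) :
    Integrable (fun z => H (t, z) * Real.exp (-W (t, z))) :=
  (hW.rdm hH).slice volume (hc.mul hW.wc) t

theorem fib_cont {H : Sp k × Sp n → ℝ} (hH : PB H) (hc : Continuous H) :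
    Continuous (fib W H) :=
  (hW.rdm hH).cont volume (hc.mul hW.wc)

theorem fib_integral {H : Sp k × Sp n → ℝ} (hH : PB H) (hc : Continuous H) :
    ∫ x, H x * Real.exp (-W x) ∂(vol k n) = ∫ t, fib W H t := by
  rw [integral_prod _ (hW.integrable hH hc)]
  rfl

theorem fib_integrable {H : Sp k × Sp n → ℝ} (hH : PB H) (hc : Continuous H) :
    Integrable (fib W H) :=
  (hW.integrable hH hc).integral_prod_left

omit hW in
theorem fib_base (c : Sp k → ℝ) (H : Sp k × Sp n → ℝ) (t : Sp k) :
    fib W (fun x => c x.1 * H x) t = c t * fib W H t := by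
  unfold fib
  rw [← integral_const_mul]
  refine integral_congr_ae (Eventually.of_forall fun z => ?_)
  simp only
  ring

theorem fib_add {H H' : Sp k × Sp n → ℝ} (hH : PB H) (hc : Continuous H) (hH' : PB H')
    (hc' : Continuous H') (t : Sp k) :
    fib W (fun x => H x + H' x) t = fib W H t + fib W H' t := by
  unfold fib
  rw [← integral_add (hW.slice hH hc t) (hW.slice hH' hc' t)]
  refine integral_congr_ae (Eventually.of_forall fun z => ?_)
  simp only
  ring

theorem fib_sub {H H' : Sp k × Sp n → ℝ} (hH : PB H) (hc : Continuous H) (hH' : PB H')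
    (hc' : Continuous H') (t : Sp k) :
    fib W (fun x => H x - H' x) t = fib W H t - fib W H' t := by
  unfold fib
  rw [← integral_sub (hW.slice hH hc t) (hW.slice hH' hc' t)]
  refine integral_congr_ae (Eventually.of_forall fun z => ?_)
  simp only
  ring

theorem fib_sum {ι : Type} (s : Finset ι) {H : ι → Sp k × Sp n → ℝ} (hH : ∀ i ∈ s, PB (H i))
    (hc : ∀ i ∈ s, Continuous (H i)) (t : Sp k) :
    fib W (fun x => ∑ i ∈ s, H i x) t = ∑ i ∈ s, fib W (H i) t := by
  unfold fib
  rw [← integral_finsetSum _ fun i hi => hW.slice (hH i hi) (hc i hi) t]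
  refine integral_congr_ae (Eventually.of_forall fun z => ?_)
  simp only
  rw [Finset.sum_mul]

omit hW in
theorem fib_nonneg {H : Sp k × Sp n → ℝ} (hH : ∀ x, 0 ≤ H x) (t : Sp k) : 0 ≤ fib W H t :=
  integral_nonneg fun z => mul_nonneg (hH _) (Real.exp_pos _).le

omit hW in
theorem fib_congr {H H' : Sp k × Sp n → ℝ} (t : Sp k) (h : ∀ z, H (t, z) = H' (t, z)) :
    fib W H t = fib W H' t := by
  unfold fib
  simp_rw [h]

end Std

/-- The marginal density. -/
noncomputable def dens (W : Sp k × Sp n → ℝ) (t : Sp k) : ℝ := ∫ z, Real.exp (-W (t, z))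

theorem dens_eq (W : Sp k × Sp n → ℝ) (t : Sp k) : dens W t = fib W (fun _ => 1) t := by
  unfold dens fib
  simp_rw [one_mul]

theorem htg_one {X : Type} [NormedAddCommGroup X] [NormedSpace ℝ X] (c : ℝ) :
    Function.HasTemperateGrowth (fun _ : X => c) := Function.HasTemperateGrowth.const c

theorem htg_pd {X : Type} [NormedAddCommGroup X] [NormedSpace ℝ X] {f : X → ℝ}
    (hf : Function.HasTemperateGrowth f) (v : X) : Function.HasTemperateGrowth (pd v f) := by
  have h := (ContinuousLinearMap.apply ℝ ℝ v).hasTemperateGrowth.comp (htg_fderiv hf)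
  exact h

namespace Std

variable {W : Sp k × Sp n → ℝ} (hW : Std W)
include hW

theorem dens_pos (t : Sp k) : 0 < dens W t := by
  unfold dens
  have h1 : Integrable (fun z => Real.exp (-W (t, z))) := by
    have := hW.slice (PB.const 1) continuous_const t
    simpa using this
  rw [integral_pos_iff_support_of_nonneg (fun z => (Real.exp_pos _).le) h1]
  have h2 : Function.support (fun z => Real.exp (-W (t, z))) = univ := by
    ext z
    simp [(Real.exp_pos _).ne']
  rw [h2]
  exact isOpen_univ.measure_pos _ ⟨0, mem_univ _⟩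

theorem fib_smooth {H : Sp k × Sp n → ℝ} (hH : Function.HasTemperateGrowth H) :
    ContDiff ℝ ∞ (fib W H) := by
  have h := parint_smooth_infty (volume : Measure (Sp n)) hW.htg hW.rd hH
  have h2 : (fun t => ∫ z, Real.exp (-W (t, z)) • H (t, z)) = fib W H := by
    funext t
    unfold fib
    refine integral_congr_ae (Eventually.of_forall fun z => ?_)
    simp only [smul_eq_mul]
    ring
  rw [h2] at h
  exact h

/-- The derivative of a fibre integral. -/
theorem pd_fib {H : Sp k × Sp n → ℝ} (hH : Function.HasTemperateGrowth H) (a : Fin k) (t : Sp k) :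
    pd (sv a) (fib W H) t = fib W (fun x => pd (tv n a) H x - H x * pd (tv n a) W x) t := by
  have h := (parint_fderiv (volume : Measure (Sp n)) hW.htg hW.rd hH t).fderiv
  have h2 : (fun t => ∫ z, Real.exp (-W (t, z)) • H (t, z)) = fib W H := by
    funext t
    unfold fib
    refine integral_congr_ae (Eventually.of_forall fun z => ?_)
    simp only [smul_eq_mul]
    ring
  rw [h2] at h
  unfold pd
  rw [h, ContinuousLinearMap.integral_apply]
  · unfold fib
    refine integral_congr_ae (Eventually.of_forall fun z => ?_)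
    simp only [smul_apply, ContinuousLinearMap.comp_apply, ContinuousLinearMap.inl_apply,
      smul_eq_mul, dh, sub_apply, ContinuousLinearMap.smulRight_apply, tv]
    ring
  · have h3 : Function.HasTemperateGrowth (fun x : Sp k × Sp n =>
        (dh W H x).comp (ContinuousLinearMap.inl ℝ (Sp k) (Sp n))) := by
      have h4 := ((ContinuousLinearMap.compL ℝ (Sp k) (Sp k × Sp n) ℝ).flip
        (ContinuousLinearMap.inl ℝ (Sp k) (Sp n))).hasTemperateGrowth
      exact h4.comp (dh_htg hW.htg hH)
    exact (hW.rd.smul (PB.of_htg h3)).slice volume (smooth_wh hW.htg h3).continuous t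

theorem dens_smooth : ContDiff ℝ ∞ (dens W) := by
  have h : dens W = fib W (fun _ => 1) := funext (dens_eq W)
  rw [h]
  exact hW.fib_smooth (htg_one 1)

/-- The potential of the marginal. -/
theorem exists_V : ContDiff ℝ ∞ (fun t => -Real.log (dens W t)) :=
  (hW.dens_smooth.log fun t => (hW.dens_pos t).ne').neg

omit hW in
theorem exp_V (hW : Std W) (t : Sp k) : Real.exp (-(-Real.log (dens W t))) = dens W t := by
  rw [neg_neg, Real.exp_log (hW.dens_pos t)]

end Std

/-- The potential of the marginal. -/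
noncomputable def Vp (W : Sp k × Sp n → ℝ) (t : Sp k) : ℝ := -Real.log (dens W t)

/-- The conditional mean of `∂_a W`. -/
noncomputable def bb (W : Sp k × Sp n → ℝ) (a : Fin k) (t : Sp k) : ℝ :=
  fib W (pd (tv n a) W) t / dens W t

namespace Std

variable {W : Sp k × Sp n → ℝ} (hW : Std W)
include hW

theorem Vp_smooth : ContDiff ℝ ∞ (Vp W) := hW.exists_V

theorem exp_Vp (t : Sp k) : Real.exp (-Vp W t) = dens W t := exp_V hW t

theorem pd_dens (a : Fin k) (t : Sp k) :
    pd (sv a) (dens W) t = - fib W (pd (tv n a) W) t := by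
  have h : dens W = fib W (fun _ => 1) := funext (dens_eq W)
  rw [h, hW.pd_fib (htg_one 1)]
  unfold fib
  rw [← integral_neg]
  refine integral_congr_ae (Eventually.of_forall fun z => ?_)
  simp only [pd_const]
  ring

theorem bb_smooth (a : Fin k) : ContDiff ℝ ∞ (bb W a) :=
  (hW.fib_smooth (htg_pd hW.htg _)).div hW.dens_smooth fun t => (hW.dens_pos t).ne'

theorem bb_mul (a : Fin k) (t : Sp k) : bb W a t * dens W t = fib W (pd (tv n a) W) t :=
  div_mul_cancel₀ _ (hW.dens_pos t).ne'

theorem pd_Vp (a : Fin k) : pd (sv a) (Vp W) = bb W a := by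
  funext t
  have h1 : ContDiff ℝ ∞ (fun t => Real.exp (-Vp W t)) := hW.Vp_smooth.neg.exp
  have h2 : pd (sv a) (fun t => Real.exp (-Vp W t)) t = Real.exp (-Vp W t) *
      (-pd (sv a) (Vp W) t) := by
    rw [pd_exp (sm1 hW.Vp_smooth.neg), pd_neg]
  have h3 : (fun t => Real.exp (-Vp W t)) = dens W := funext hW.exp_Vp
  rw [h3, hW.exp_Vp, hW.pd_dens] at h2
  have h4 := hW.dens_pos t
  unfold bb
  rw [eq_div_iff h4.ne']
  linarith

/-- The Hessian of the potential of the marginal. -/
theorem pd_bb (a b : Fin k) (t : Sp k) : pd (sv a) (bb W b) t * dens W t =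
    fib W (pd (tv n a) (pd (tv n b) W)) t - fib W (fun x => pd (tv n b) W x * pd (tv n a) W x) t +
      bb W a t * bb W b t * dens W t := by
  have h1 := hW.bb_mul b
  have h2 : (fun t => bb W b t * dens W t) = fib W (pd (tv n b) W) := funext h1
  have h3 : pd (sv a) (fun t => bb W b t * dens W t) t =
      pd (sv a) (bb W b) t * dens W t + bb W b t * pd (sv a) (dens W) t :=
    pd_mul (sm1 (hW.bb_smooth b)) (sm1 hW.dens_smooth) _ _
  have hb := htg_pd hW.htg (tv n b)
  rw [h2, hW.pd_fib hb, hW.pd_dens, ← hW.bb_mul a t] at h3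
  have h4 := hW.fib_sub (t := t) (PB.of_htg (htg_pd hb (tv n a))) (htg_pd hb (tv n a)).1.continuous
    ((PB.of_htg hb).mul (PB.of_htg (htg_pd hW.htg (tv n a))))
    (hb.1.continuous.mul (htg_pd hW.htg (tv n a)).1.continuous)
  rw [h4] at h3
  linarith

end Std

end Pool.Agent.Q86.FIB
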