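import Mathlib

/-!
# Log-concave densities on the line
-/

set_option autoImplicit false
set_option linter.unusedSectionVars false

namespace Pool.Agent.Q86.FIB

open MeasureTheory Set Filter Topology

/-- positive continuous log-concave probability densities -/
structure LD (d : ℝ → ℝ) : Prop where
  cont : Continuous d
  pos : ∀ t, 0 < d t
  int : Integrable d
  one : ∫ t, d t = 1
  lc : ∀ a b s : ℝ, 0 < s → s < 1 → d a ^ s * d b ^ (1 - s) ≤ d (s * a + (1 - s) * b)

namespace LD

/-- the distribution function -/
noncomputable def G (d : ℝ → ℝ) (t : ℝ) : ℝ := ∫ u in Iic t, d u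

/-- the tail -/
noncomputable def K (d : ℝ → ℝ) (t : ℝ) : ℝ := ∫ u in Ioi t, d u

variable {d : ℝ → ℝ} (h : LD d)
include h

theorem GK (t : ℝ) : G d t + K d t = 1 := by
  have h1 := integral_add_compl (measurableSet_Iic (a := t)) h.int
  rw [compl_Iic, h.one] at h1
  exact h1

theorem four {x y u : ℝ} (hxy : x ≤ y) (hu : 0 ≤ u) : d x * d (y + u) ≤ d y * d (x + u) := by
  rcases eq_or_lt_of_le hu with hu | hu
  · rw [← hu, add_zero, add_zero, mul_comm]
  rcases eq_or_lt_of_le hxy with hxy | hxy
  · rw [hxy]
  have hp : 0 < y - x + u := by linarith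
  set s := u / (y - x + u) with hs
  have hs0 : 0 < s := div_pos hu hp
  have hs1 : s < 1 := by
    rw [hs, div_lt_one hp]
    linarith
  have hsu : s * (y - x + u) = u := div_mul_cancel₀ _ hp.ne'
  have h1 := h.lc x (y + u) s hs0 hs1
  have h2 := h.lc (y + u) x s hs0 hs1
  have e1 : s * x + (1 - s) * (y + u) = y := by linarith
  have e2 : s * (y + u) + (1 - s) * x = x + u := by linarith
  rw [e1] at h1
  rw [e2] at h2
  have h3 : d x * d (y + u) = (d x ^ s * d (y + u) ^ (1 - s)) * (d (y + u) ^ s * d x ^ (1 - s)) := by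
    have h4 : d x = d x ^ s * d x ^ (1 - s) := by
      rw [← Real.rpow_add (h.pos x)]
      norm_num
    have h5 : d (y + u) = d (y + u) ^ s * d (y + u) ^ (1 - s) := by
      rw [← Real.rpow_add (h.pos _)]
      norm_num
    calc d x * d (y + u) = (d x ^ s * d x ^ (1 - s)) *
        (d (y + u) ^ s * d (y + u) ^ (1 - s)) := by rw [← h4, ← h5]
      _ = _ := by ring
  rw [h3]
  exact mul_le_mul h1 h2 (mul_nonneg (Real.rpow_nonneg (h.pos _).le _)
    (Real.rpow_nonneg (h.pos _).le _)) (h.pos _).le

theorem K_eq (t : ℝ) : K d t = ∫ u in Ioi (0 : ℝ), d (t + u) := by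
  unfold K
  have h1 := (measurePreserving_add_left (volume : Measure ℝ) t).setIntegral_preimage_emb
    (measurableEmbedding_addLeft t) d (Ioi t)
  have h2 : (fun x => t + x) ⁻¹' (Ioi t) = Ioi (0 : ℝ) := by
    ext x
    simp
  rw [h2] at h1
  exact h1.symm

theorem G_eq (t : ℝ) : G d t = ∫ u in Ioi (0 : ℝ), d (t - u) := by
  unfold G
  have h1 := (Measure.measurePreserving_sub_left (volume : Measure ℝ) t).setIntegral_preimage_emb
    (measurableEmbedding_subLeft t) d (Iio t)
  have h2 : (fun x => t - x) ⁻¹' (Iio t) = Ioi (0 : ℝ) := by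
    ext x
    simp
  rw [h2] at h1
  rw [integral_Iic_eq_integral_Iio]
  exact h1.symm

theorem int_add (t : ℝ) : Integrable (fun u => d (t + u)) := h.int.comp_add_left t

theorem int_sub (t : ℝ) : Integrable (fun u => d (t - u)) := h.int.comp_sub_left t

/-- The hazard rate is increasing. -/
theorem hazard {x y : ℝ} (hxy : x ≤ y) : d x * K d y ≤ d y * K d x := by
  rw [h.K_eq, h.K_eq, ← integral_const_mul, ← integral_const_mul]
  refine setIntegral_mono_on ((h.int_add y).integrableOn.const_mul _)
    ((h.int_add x).integrableOn.const_mul _) measurableSet_Ioi fun u hu => ?_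
  exact h.four hxy (le_of_lt hu)

theorem hazard' {x y : ℝ} (hxy : x ≤ y) : d y * G d x ≤ d x * G d y := by
  rw [h.G_eq, h.G_eq, ← integral_const_mul, ← integral_const_mul]
  refine setIntegral_mono_on ((h.int_sub x).integrableOn.const_mul _)
    ((h.int_sub y).integrableOn.const_mul _) measurableSet_Ioi fun u hu => ?_
  have hu' : (0 : ℝ) < u := hu
  have h1 := h.four (x := x - u) (y := y - u) (u := u) (by linarith) hu'.le
  rw [sub_add_cancel, sub_add_cancel] at h1
  linarith

theorem K_pos (t : ℝ) : 0 < K d t := by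
  unfold K
  rw [setIntegral_pos_iff_support_of_nonneg_ae (Eventually.of_forall fun u => (h.pos u).le)
    h.int.integrableOn]
  have h1 : Function.support d = univ := by
    ext u
    simp [(h.pos u).ne']
  rw [h1, univ_inter]
  simp

theorem G_pos (t : ℝ) : 0 < G d t := by
  unfold G
  rw [setIntegral_pos_iff_support_of_nonneg_ae (Eventually.of_forall fun u => (h.pos u).le)
    h.int.integrableOn]
  have h1 : Function.support d = univ := by
    ext u
    simp [(h.pos u).ne']
  rw [h1, univ_inter]
  simp

theorem G_lt (t : ℝ) : G d t < 1 := by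
  have := h.GK t
  have := h.K_pos t
  linarith

theorem K_lt (t : ℝ) : K d t < 1 := by
  have := h.GK t
  have := h.G_pos t
  linarith

theorem G_sub (x y : ℝ) : G d y - G d x = ∫ u in x..y, d u :=
  intervalIntegral.integral_Iic_sub_Iic h.int.integrableOn h.int.integrableOn

theorem G_deriv (t : ℝ) : HasDerivAt (G d) (d t) t := by
  have h1 : G d = fun y => G d 0 + ∫ u in (0 : ℝ)..y, d u := by
    funext y
    rw [← h.G_sub]
    ring
  rw [h1]
  exact (intervalIntegral.integral_hasDerivAt_right (h.cont.intervalIntegrable _ _)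
    (h.cont.stronglyMeasurableAtFilter _ _) h.cont.continuousAt).const_add _

theorem K_fun : K d = fun t => 1 - G d t := by
  funext t
  have := h.GK t
  linarith

theorem K_deriv (t : ℝ) : HasDerivAt (K d) (-d t) t := by
  rw [h.K_fun]
  exact (h.G_deriv t).const_sub 1

theorem G_cont : Continuous (G d) := continuous_iff_continuousAt.2 fun t => (h.G_deriv t).continuousAt

theorem K_cont : Continuous (K d) := continuous_iff_continuousAt.2 fun t => (h.K_deriv t).continuousAt

theorem G_mono : StrictMono (G d) := by
  intro x y hxy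
  have h1 := h.G_sub x y
  have h2 : 0 < ∫ u in x..y, d u :=
    intervalIntegral.intervalIntegral_pos_of_pos (h.cont.intervalIntegrable _ _) h.pos hxy
  linarith

theorem G_top : Tendsto (G d) atTop (𝓝 1) := by
  have h1 := (aecover_Iic (μ := (volume : Measure ℝ)) (tendsto_id (α := ℝ) (x := atTop))
    ).integral_tendsto_of_countably_generated h.int
  rw [h.one] at h1
  exact h1

theorem K_bot : Tendsto (K d) atBot (𝓝 1) := by
  have h1 := (aecover_Ioi (μ := (volume : Measure ℝ)) (tendsto_id (α := ℝ) (x := atBot))
    ).integral_tendsto_of_countably_generated h.int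
  rw [h.one] at h1
  exact h1

theorem G_bot : Tendsto (G d) atBot (𝓝 0) := by
  have h1 : G d = fun t => 1 - K d t := by
    funext t
    have := h.GK t
    linarith
  rw [h1]
  simpa using h.K_bot.const_sub 1

theorem quant {v : ℝ} (h0 : 0 < v) (h1 : v < 1) : ∃ t, G d t = v := by
  obtain ⟨a, ha⟩ := (h.G_bot.eventually (gt_mem_nhds h0)).exists
  obtain ⟨b, hb⟩ := (h.G_top.eventually (lt_mem_nhds h1)).exists
  exact mem_range_of_exists_le_of_exists_ge h.G_cont ⟨a, ha.le⟩ ⟨b, hb.le⟩

/-- The density at `t` in terms of the density at `t'`. -/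
theorem dens_ge (t t' : ℝ) : d t' * min (G d t) (K d t) ≤ d t := by
  rcases le_total t' t with ht | ht
  · have h1 := h.hazard ht
    have h2 : d t * K d t' ≤ d t * 1 := mul_le_mul_of_nonneg_left (h.K_lt t').le (h.pos t).le
    have h3 : d t' * min (G d t) (K d t) ≤ d t' * K d t :=
      mul_le_mul_of_nonneg_left (min_le_right _ _) (h.pos t').le
    linarith
  · have h1 := h.hazard' ht
    have h2 : d t * G d t' ≤ d t * 1 := mul_le_mul_of_nonneg_left (h.G_lt t').le (h.pos t).le
    have h3 : d t' * min (G d t) (K d t) ≤ d t' * G d t :=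
      mul_le_mul_of_nonneg_left (min_le_left _ _) (h.pos t').le
    linarith

/-- A step to the right. -/
theorem step_right (t : ℝ) : ∃ t', t < t' ∧ G d t * K d t / (2 * d t) ≤ t' - t ∧
    d t / 2 ≤ d t' ∧ G d t ≤ G d t' ∧ K d t / 2 ≤ K d t' := by
  have hK := h.K_pos t
  have hG := h.G_pos t
  have hGK := h.GK t
  obtain ⟨t', ht'⟩ := h.quant (v := 1 - K d t / 2) (by linarith) (by linarith)
  have hGK' := h.GK t'
  have hKt' : K d t' = K d t / 2 := by linarith
  have hlt : t < t' := by
    rw [← h.G_mono.lt_iff_lt, ht']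
    linarith
  have hd := h.pos t
  refine ⟨t', hlt, ?_, ?_, by linarith, hKt'.ge⟩
  · have h1 : ∫ u in t..t', d u = K d t / 2 := by
      rw [← h.G_sub, ht']
      linarith
    have h2 : ∫ u in t..t', d u ≤ ∫ u in t..t', d t / G d t := by
      refine intervalIntegral.integral_mono_on hlt.le (h.cont.intervalIntegrable _ _)
        (continuous_const.intervalIntegrable _ _) fun u hu => ?_
      rw [le_div_iff₀ hG]
      have h3 := h.hazard' hu.1
      have h4 : d t * G d u ≤ d t * 1 := mul_le_mul_of_nonneg_left (h.G_lt u).le hd.le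
      linarith
    rw [h1, intervalIntegral.integral_const, smul_eq_mul] at h2
    rw [div_le_iff₀ (by positivity)]
    have h5 : (t' - t) * (d t / G d t) * G d t = (t' - t) * d t := by
      field_simp
    have h6 := mul_le_mul_of_nonneg_right h2 hG.le
    rw [h5] at h6
    linarith
  · have h1 := h.hazard hlt.le
    rw [hKt'] at h1
    have h2 : d t / 2 * K d t ≤ d t' * K d t := by linarith
    exact le_of_mul_le_mul_right h2 hK

/-- A step to the left. -/
theorem step_left (t : ℝ) : ∃ t', t' < t ∧ G d t * K d t / (2 * d t) ≤ t - t' ∧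
    d t / 2 ≤ d t' ∧ G d t / 2 ≤ G d t' ∧ K d t ≤ K d t' := by
  have hK := h.K_pos t
  have hG := h.G_pos t
  have hGK := h.GK t
  obtain ⟨t', ht'⟩ := h.quant (v := G d t / 2) (by linarith) (by linarith)
  have hGK' := h.GK t'
  have hlt : t' < t := by
    rw [← h.G_mono.lt_iff_lt, ht']
    linarith
  have hd := h.pos t
  refine ⟨t', hlt, ?_, ?_, ht'.ge, by linarith⟩
  · have h1 : ∫ u in t'..t, d u = G d t / 2 := by
      rw [← h.G_sub, ht']
      linarith
    have h2 : ∫ u in t'..t, d u ≤ ∫ u in t'..t, d t / K d t := by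
      refine intervalIntegral.integral_mono_on hlt.le (h.cont.intervalIntegrable _ _)
        (continuous_const.intervalIntegrable _ _) fun u hu => ?_
      rw [le_div_iff₀ hK]
      have h3 := h.hazard hu.2
      have h4 : d t * K d u ≤ d t * 1 := mul_le_mul_of_nonneg_left (h.K_lt u).le hd.le
      linarith
    rw [h1, intervalIntegral.integral_const, smul_eq_mul] at h2
    rw [div_le_iff₀ (by positivity)]
    have h5 : (t - t') * (d t / K d t) * K d t = (t - t') * d t := by
      field_simp
    have h6 := mul_le_mul_of_nonneg_right h2 hK.le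
    rw [h5] at h6
    linarith
  · have h1 := h.hazard' hlt.le
    rw [ht'] at h1
    have h2 : d t / 2 * G d t ≤ d t' * G d t := by linarith
    exact le_of_mul_le_mul_right h2 hG

/-- An interval of mass `1 / 8` which is far from `t`. -/
theorem far (t : ℝ) : ∃ a b, a < b ∧ ∫ u in a..b, d u = 1 / 8 ∧
    ∀ u, a ≤ u → u ≤ b → 1 / 16 ≤ |t - u| * d u := by
  obtain ⟨m, hm⟩ := h.quant (v := 1 / 2) (by norm_num) (by norm_num)
  rcases le_total m t with ht | ht
  · obtain ⟨a, ha⟩ := h.quant (v := 1 / 8) (by norm_num) (by norm_num)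
    obtain ⟨b, hb⟩ := h.quant (v := 1 / 4) (by norm_num) (by norm_num)
    have hab : a < b := by
      rw [← h.G_mono.lt_iff_lt, ha, hb]
      norm_num
    have hbm : b < m := by
      rw [← h.G_mono.lt_iff_lt, hb, hm]
      norm_num
    refine ⟨a, b, hab, ?_, fun u hu1 hu2 => ?_⟩
    · rw [← h.G_sub, ha, hb]
      norm_num
    · have hdu := h.pos u
      have hGu : 1 / 8 ≤ G d u := by
        rw [← ha]
        exact h.G_mono.monotone hu1
      have h1 : ∫ y in b..m, d y = 1 / 4 := by
        rw [← h.G_sub, hb, hm]
        norm_num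
      have h2 : ∫ y in b..m, d y ≤ ∫ y in b..m, 4 * d u := by
        refine intervalIntegral.integral_mono_on hbm.le (h.cont.intervalIntegrable _ _)
          (continuous_const.intervalIntegrable _ _) fun y hy => ?_
        have h3 := h.hazard' (x := u) (y := y) (hu2.trans hy.1)
        have h4 : G d y ≤ 1 / 2 := by
          rw [← hm]
          exact h.G_mono.monotone hy.2
        have h5 : d y * (1 / 8) ≤ d y * G d u := mul_le_mul_of_nonneg_left hGu (h.pos y).le
        have h6 : d u * G d y ≤ d u * (1 / 2) := mul_le_mul_of_nonneg_left h4 hdu.le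
        linarith
      rw [h1, intervalIntegral.integral_const, smul_eq_mul] at h2
      have h7 : m - b ≤ |t - u| := by
        rw [abs_of_nonneg (by linarith)]
        linarith
      have h8 := mul_le_mul_of_nonneg_right h7 hdu.le
      linarith
  · obtain ⟨a, ha⟩ := h.quant (v := 3 / 4) (by norm_num) (by norm_num)
    obtain ⟨b, hb⟩ := h.quant (v := 7 / 8) (by norm_num) (by norm_num)
    have hab : a < b := by
      rw [← h.G_mono.lt_iff_lt, ha, hb]
      norm_num
    have hma : m < a := by
      rw [← h.G_mono.lt_iff_lt, ha, hm]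
      norm_num
    refine ⟨a, b, hab, ?_, fun u hu1 hu2 => ?_⟩
    · rw [← h.G_sub, ha, hb]
      norm_num
    · have hdu := h.pos u
      have hKu : 1 / 8 ≤ K d u := by
        have h1 := h.GK u
        have h2 : G d u ≤ 7 / 8 := by
          rw [← hb]
          exact h.G_mono.monotone hu2
        linarith
      have h1 : ∫ y in m..a, d y = 1 / 4 := by
        rw [← h.G_sub, ha, hm]
        norm_num
      have h2 : ∫ y in m..a, d y ≤ ∫ y in m..a, 4 * d u := by
        refine intervalIntegral.integral_mono_on hma.le (h.cont.intervalIntegrable _ _)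
          (continuous_const.intervalIntegrable _ _) fun y hy => ?_
        have h3 := h.hazard (x := y) (y := u) (hy.2.trans hu1)
        have h4 : K d y ≤ 1 / 2 := by
          have h5 := h.GK y
          have h6 : 1 / 2 ≤ G d y := by
            rw [← hm]
            exact h.G_mono.monotone hy.1
          linarith
        have h5 : d y * (1 / 8) ≤ d y * K d u := mul_le_mul_of_nonneg_left hKu (h.pos y).le
        have h6 : d u * K d y ≤ d u * (1 / 2) := mul_le_mul_of_nonneg_left h4 hdu.le
        linarith
      rw [h1, intervalIntegral.integral_const, smul_eq_mul] at h2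
      have h7 : a - m ≤ |t - u| := by
        rw [abs_sub_comm, abs_of_nonneg (by linarith)]
        linarith
      have h8 := mul_le_mul_of_nonneg_right h7 hdu.le
      linarith

end LD

end Pool.Agent.Q86.FIB
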