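import Pool.Agent.Q86.FIB.BaseC
import Pool.Agent.Q86.FIB.OneD

/-!
# Positive parts of linear functions in the fibres
-/

set_option autoImplicit false
set_option linter.unusedSectionVars false

namespace Pool.Agent.Q86.FIB

open MeasureTheory Set Filter Topology
open scoped ContDiff ENNReal

variable {k n : ℕ}

theorem PB.pos {X : Type} [NormedAddCommGroup X] {f : X → ℝ} (hf : PB f) :
    PB (fun x => max (f x) 0) := by
  obtain ⟨C, N, h⟩ := hf
  refine ⟨C, N, fun x => le_trans ?_ (h x)⟩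
  rw [Real.norm_eq_abs, Real.norm_eq_abs, abs_of_nonneg (le_max_right _ _)]
  exact max_le (le_abs_self _) (abs_nonneg _)

/-- `⟨θ, z⟩ - c` -/
def lin (θ : Sp n) (c : ℝ) (z : Sp n) : ℝ := ∑ i, θ i * z i - c

theorem lin_htg (k : ℕ) (θ : Sp n) (c : ℝ) :
    Function.HasTemperateGrowth (fun x : Sp k × Sp n => lin θ c x.2) := by
  unfold lin
  refine Function.HasTemperateGrowth.sub ?_ (Function.HasTemperateGrowth.const c)
  refine Function.HasTemperateGrowth.sum fun i _ => ?_
  exact (Function.HasTemperateGrowth.const (θ i)).mul (zc_htg (k := k) i)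

/-- the positive part of `⟨θ, z⟩ - c + r`, raised to the power `p` -/
noncomputable def pw (k : ℕ) (θ : Sp n) (c : ℝ) (p : ℕ) (r : ℝ) (x : Sp k × Sp n) : ℝ :=
  (max (lin θ c x.2 + r) 0) ^ p

theorem pw_pb (θ : Sp n) (c : ℝ) (p : ℕ) (r : ℝ) : PB (pw k θ c p r) :=
  (((PB.of_htg (lin_htg k θ c)).add (PB.const r)).pos).pow p

theorem pw_cont (θ : Sp n) (c : ℝ) (p : ℕ) (r : ℝ) : Continuous (pw k θ c p r) :=
  (((lin_htg k θ c).1.continuous.add continuous_const).max continuous_const).pow p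

theorem pw_nonneg (θ : Sp n) (c : ℝ) (p : ℕ) (r : ℝ) (x : Sp k × Sp n) : 0 ≤ pw k θ c p r x :=
  pow_nonneg (le_max_right _ _) _

/-- The moments. -/
noncomputable def Hp (W : Sp k × Sp n → ℝ) (θ : Sp n) (c : ℝ) (p : ℕ) (t : Sp k) (r : ℝ) : ℝ :=
  fib W (pw k θ c p r) t

theorem lin_comb (θ : Sp n) (c r r' s : ℝ) (x y : Sp n) :
    lin θ c (fun i => s * x i + (1 - s) * y i) + (s * r + (1 - s) * r') =
      s * (lin θ c x + r) + (1 - s) * (lin θ c y + r') := by
  unfold lin
  have h : ∑ i, θ i * (s * x i + (1 - s) * y i) = s * (∑ i, θ i * x i) +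
      (1 - s) * ∑ i, θ i * y i := by
    rw [Finset.mul_sum, Finset.mul_sum, ← Finset.sum_add_distrib]
    exact Finset.sum_congr rfl fun i _ => by ring
  rw [h]
  ring

namespace Std

variable {W : Sp k × Sp n → ℝ} (hW : Std W)
include hW

/-- **Log-concavity of the moments.** -/
theorem Hp_lc (θ : Sp n) (c : ℝ) {p : ℕ} (hp : p ≠ 0) (t t' : Sp k) (r r' : ℝ) {s : ℝ}
    (hs : 0 < s) (hs1 : s < 1) :
    Hp W θ c p t r ^ s * Hp W θ c p t' r' ^ (1 - s) ≤
      Hp W θ c p (s • t + (1 - s) • t') (s * r + (1 - s) * r') := by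
  have hH0 : ∀ t r, 0 ≤ Hp W θ c p t r := fun t r => Std.fib_nonneg (pw_nonneg θ c p r) t
  have h1s : 0 < 1 - s := by linarith
  have hc : ∀ (t : Sp k) (r : ℝ), Continuous (fun z => pw k θ c p r (t, z) *
      Real.exp (-W (t, z))) := fun t r =>
    ((pw_cont θ c p r).mul hW.wc).comp (Continuous.prodMk_right t)
  have hm : ∀ (t : Sp k) (r : ℝ), Measurable (fun z => ENNReal.ofReal (pw k θ c p r (t, z) *
      Real.exp (-W (t, z)))) := fun t r => (hc t r).measurable.ennreal_ofReal
  have hnn : ∀ (t : Sp k) (r : ℝ) (z : Sp n), 0 ≤ pw k θ c p r (t, z) * Real.exp (-W (t, z)) :=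
    fun t r z => mul_nonneg (pw_nonneg _ _ _ _ _) (Real.exp_pos _).le
  have he : ∀ (t : Sp k) (r : ℝ), ∫⁻ z, ENNReal.ofReal (pw k θ c p r (t, z) *
      Real.exp (-W (t, z))) = ENNReal.ofReal (Hp W θ c p t r) := fun t r =>
    (ofReal_integral_eq_lintegral_ofReal (hW.slice (pw_pb θ c p r) (pw_cont θ c p r) t)
      (Eventually.of_forall fun z => hnn t r z)).symm
  have h := Pool.Agent.Q196.GT.pl_n hs hs1 n
    (fun z => ENNReal.ofReal (pw k θ c p r (t, z) * Real.exp (-W (t, z))))
    (fun z => ENNReal.ofReal (pw k θ c p r' (t', z) * Real.exp (-W (t', z))))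
    (fun z => ENNReal.ofReal (pw k θ c p (s * r + (1 - s) * r') (s • t + (1 - s) • t', z) *
      Real.exp (-W (s • t + (1 - s) • t', z)))) (hm _ _) (hm _ _) (hm _ _) (fun x y => ?_)
  · rw [he, he, he, ENNReal.ofReal_rpow_of_nonneg (hH0 _ _) hs.le,
      ENNReal.ofReal_rpow_of_nonneg (hH0 _ _) h1s.le, ← ENNReal.ofReal_mul
        (Real.rpow_nonneg (hH0 _ _) _)] at h
    exact (ENNReal.ofReal_le_ofReal_iff (hH0 _ _)).1 h
  · rw [ENNReal.ofReal_rpow_of_nonneg (hnn _ _ _) hs.le,
      ENNReal.ofReal_rpow_of_nonneg (hnn _ _ _) h1s.le,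
      ← ENNReal.ofReal_mul (Real.rpow_nonneg (hnn _ _ _) _)]
    refine ENNReal.ofReal_le_ofReal ?_
    have hA0 : 0 ≤ max (lin θ c x + r) 0 := le_max_right _ _
    have hB0 : 0 ≤ max (lin θ c y + r') 0 := le_max_right _ _
    rw [Real.mul_rpow (pw_nonneg _ _ _ _ _) (Real.exp_pos _).le,
      Real.mul_rpow (pw_nonneg _ _ _ _ _) (Real.exp_pos _).le]
    have h2 : Real.exp (-W (t, x)) ^ s * Real.exp (-W (t', y)) ^ (1 - s) ≤
        Real.exp (-W (s • t + (1 - s) • t', fun i => s * x i + (1 - s) * y i)) := by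
      rw [← Real.exp_mul, ← Real.exp_mul, ← Real.exp_add]
      refine Real.exp_le_exp.2 ?_
      have h2 := hW.conv.2 (mem_univ (t, x)) (mem_univ (t', y)) hs.le h1s.le (by ring)
      have h3 : s • (t, x) + (1 - s) • (t', y) =
          (s • t + (1 - s) • t', fun i => s * x i + (1 - s) * y i) := by
        ext i <;> simp
      rw [h3] at h2
      simp only [smul_eq_mul] at h2
      linarith
    have h3 : pw k θ c p r (t, x) ^ s * pw k θ c p r' (t', y) ^ (1 - s) ≤
        pw k θ c p (s * r + (1 - s) * r')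
          (s • t + (1 - s) • t', fun i => s * x i + (1 - s) * y i) := by
      unfold pw
      simp only
      rw [lin_comb]
      have e1 : (max (lin θ c x + r) 0 ^ p) ^ s = (max (lin θ c x + r) 0 ^ s) ^ p := by
        rw [← Real.rpow_natCast, ← Real.rpow_natCast, ← Real.rpow_mul hA0,
          ← Real.rpow_mul hA0, mul_comm]
      have e2 : (max (lin θ c y + r') 0 ^ p) ^ (1 - s) =
          (max (lin θ c y + r') 0 ^ (1 - s)) ^ p := by
        rw [← Real.rpow_natCast, ← Real.rpow_natCast, ← Real.rpow_mul hB0,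
          ← Real.rpow_mul hB0, mul_comm]
      rw [e1, e2, ← mul_pow]
      refine pow_le_pow_left₀ (mul_nonneg (Real.rpow_nonneg hA0 _) (Real.rpow_nonneg hB0 _)) ?_ p
      rcases le_or_gt (lin θ c x + r) 0 with hx | hx
      · rw [max_eq_right hx, Real.zero_rpow hs.ne', zero_mul]
        exact le_max_right _ _
      · rcases le_or_gt (lin θ c y + r') 0 with hy | hy
        · rw [max_eq_right hy, Real.zero_rpow h1s.ne', mul_zero]
          exact le_max_right _ _
        · rw [max_eq_left hx.le, max_eq_left hy.le]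
          exact (Real.geom_mean_le_arith_mean2_weighted hs.le h1s.le hx.le hy.le
            (by ring)).trans (le_max_left _ _)
    have h4 : pw k θ c p r (t, x) ^ s * Real.exp (-W (t, x)) ^ s *
        (pw k θ c p r' (t', y) ^ (1 - s) * Real.exp (-W (t', y)) ^ (1 - s)) =
        (pw k θ c p r (t, x) ^ s * pw k θ c p r' (t', y) ^ (1 - s)) *
        (Real.exp (-W (t, x)) ^ s * Real.exp (-W (t', y)) ^ (1 - s)) := by ring
    rw [h4]
    exact mul_le_mul h3 h2 (mul_nonneg (Real.rpow_nonneg (Real.exp_pos _).le _)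
      (Real.rpow_nonneg (Real.exp_pos _).le _)) (pw_nonneg _ _ _ _ _)

omit hW in
theorem Hp_nonneg (θ : Sp n) (c : ℝ) (p : ℕ) (t : Sp k) (r : ℝ) : 0 ≤ Hp W θ c p t r :=
  Std.fib_nonneg (pw_nonneg θ c p r) t

theorem fib_mono {H H' : Sp k × Sp n → ℝ} (hH : PB H) (hc : Continuous H) (hH' : PB H')
    (hc' : Continuous H') (t : Sp k) (h : ∀ z, H (t, z) ≤ H' (t, z)) : fib W H t ≤ fib W H' t :=
  integral_mono (hW.slice hH hc t) (hW.slice hH' hc' t)
    fun z => mul_le_mul_of_nonneg_right (h z) (Real.exp_pos _).le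

/-- The conditional mean of `⟨θ, z⟩`. -/
noncomputable def mt (W : Sp k × Sp n → ℝ) (θ : Sp n) (t : Sp k) : ℝ := ∑ i, θ i * mz W i t

theorem fib_lin (θ : Sp n) (c : ℝ) (t : Sp k) :
    fib W (fun x => lin θ c x.2) t = dens W t * (mt W θ t - c) := by
  have pz : ∀ i : Fin n, PB (fun x : Sp k × Sp n => θ i * zc k i x) := fun i =>
    (PB.const _).mul (PB.of_htg (zc_htg i))
  have cz : ∀ i : Fin n, Continuous (fun x : Sp k × Sp n => θ i * zc k i x) := fun i =>
    continuous_const.mul (zc_htg (k := k) i).1.continuous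
  have h1 : fib W (fun x => lin θ c x.2) t =
      fib W (fun x => (∑ i, θ i * zc k i x) - c * 1) t := by
    refine fib_congr t fun z => ?_
    unfold lin zc
    ring
  rw [h1, hW.fib_sub (PB.sum _ fun i _ => pz i) (continuous_finsetSum _ fun i _ => cz i)
    ((PB.const c).mul (PB.const 1)) (continuous_const.mul continuous_const), fib_const,
    ← dens_eq, hW.fib_sum _ (fun i _ => pz i) (fun i _ => cz i)]
  unfold mt
  rw [mul_sub, Finset.mul_sum]
  have h2 : ∀ i, fib W (fun x => θ i * zc k i x) t = dens W t * (θ i * mz W i t) := by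
    intro i
    rw [fib_const, ← hW.mz_mul]
    ring
  simp_rw [h2]
  ring

/-- Lower bound of the first moment. -/
theorem H1_ge (θ : Sp n) (c : ℝ) (t : Sp k) (r : ℝ) :
    dens W t * (mt W θ t - c + r) ≤ Hp W θ c 1 t r := by
  have h1 : dens W t * (mt W θ t - c + r) = fib W (fun x => lin θ c x.2 + r * 1) t := by
    rw [hW.fib_add (PB.of_htg (lin_htg k θ c)) (lin_htg k θ c).1.continuous
      ((PB.const r).mul (PB.const 1)) (continuous_const.mul continuous_const), hW.fib_lin,
      fib_const, ← dens_eq]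
    ring
  rw [h1]
  refine hW.fib_mono ((PB.of_htg (lin_htg k θ c)).add ((PB.const r).mul (PB.const 1)))
    ((lin_htg k θ c).1.continuous.add (continuous_const.mul continuous_const))
    (pw_pb θ c 1 r) (pw_cont θ c 1 r) t fun z => ?_
  unfold pw
  rw [pow_one, mul_one]
  exact le_max_left _ _

/-- Upper bound of the shifted first moment. -/
theorem H1_le (θ : Sp n) (c : ℝ) (t : Sp k) {r : ℝ} (hr : 0 ≤ r) :
    Hp W θ c 1 t r ≤ Hp W θ c 1 t 0 + r * dens W t := by
  have h1 : Hp W θ c 1 t 0 + r * dens W t = fib W (fun x => pw k θ c 1 0 x + r * 1) t := by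
    rw [hW.fib_add (pw_pb θ c 1 0) (pw_cont θ c 1 0)
      ((PB.const r).mul (PB.const 1)) (continuous_const.mul continuous_const),
      fib_const, ← dens_eq]
    rfl
  rw [h1]
  refine hW.fib_mono (pw_pb θ c 1 r) (pw_cont θ c 1 r)
    ((pw_pb θ c 1 0).add ((PB.const r).mul (PB.const 1)))
    ((pw_cont θ c 1 0).add (continuous_const.mul continuous_const)) t fun z => ?_
  unfold pw
  rw [pow_one, pow_one, mul_one, add_zero]
  have := le_max_left (lin θ c z) 0
  have := le_max_right (lin θ c z) 0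
  refine max_le ?_ ?_ <;> linarith

/-- The square of the first moment. -/
theorem H1_sq (θ : Sp n) (c : ℝ) (t : Sp k) (r : ℝ) :
    Hp W θ c 1 t r ^ 2 ≤ Hp W θ c 2 t r * dens W t := by
  have h := hW.fib_cs (pw_pb θ c 1 r) (pw_cont θ c 1 r) (PB.const 1) continuous_const t
  have e1 : fib W (fun x => pw k θ c 1 r x * 1) t = Hp W θ c 1 t r :=
    fib_congr t fun z => mul_one _
  have e2 : fib W (fun x => pw k θ c 1 r x ^ 2) t = Hp W θ c 2 t r := by
    refine fib_congr t fun z => ?_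
    unfold pw
    rw [pow_one]
  have e3 : fib W (fun _ => (1 : ℝ) ^ 2) t = dens W t := by
    rw [dens_eq]
    exact fib_congr t fun z => one_pow 2
  rw [e1, e2, e3] at h
  exact h

/-- Lower bound of the second moment. -/
theorem H2_ge (θ : Sp n) (c : ℝ) (t : Sp k) (r : ℝ) (h0 : 0 ≤ mt W θ t - c + r) :
    dens W t * (mt W θ t - c + r) ^ 2 ≤ Hp W θ c 2 t r := by
  have hd := hW.dens_pos t
  have h1 := hW.H1_ge θ c t r
  have h2 := hW.H1_sq θ c t r
  have h3 := pow_le_pow_left₀ (mul_nonneg hd.le h0) h1 2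
  have h4 : (dens W t * (mt W θ t - c + r) ^ 2) * dens W t ≤ Hp W θ c 2 t r * dens W t := by
    have : (dens W t * (mt W θ t - c + r)) ^ 2 =
      (dens W t * (mt W θ t - c + r) ^ 2) * dens W t := by ring
    linarith
  exact le_of_mul_le_mul_right h4 hd

/-- The moments are monotone in the shift. -/
theorem Hp_mono (θ : Sp n) (c : ℝ) (p : ℕ) (t : Sp k) {r r' : ℝ} (h : r ≤ r') :
    Hp W θ c p t r ≤ Hp W θ c p t r' := by
  refine hW.fib_mono (pw_pb θ c p r) (pw_cont θ c p r) (pw_pb θ c p r') (pw_cont θ c p r') t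
    fun z => ?_
  unfold pw
  exact pow_le_pow_left₀ (le_max_right _ _) (max_le_max (by linarith) le_rfl) p

/-- The second moment of the part which is larger than half the norm. -/
theorem H2_half (θ : Sp n) (c : ℝ) (t : Sp k) {b : ℝ} (hb : 0 ≤ b)
    (h : Hp W θ c 2 t 0 = dens W t * b ^ 2) :
    dens W t * (b ^ 2 / 4) ≤ Hp W θ c 2 t (-(b / 2)) := by
  have h1 : Hp W θ c 2 t 0 ≤ 2 * Hp W θ c 2 t (-(b / 2)) + b ^ 2 / 2 * dens W t := by
    have e1 : 2 * Hp W θ c 2 t (-(b / 2)) + b ^ 2 / 2 * dens W t =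
        fib W (fun x => 2 * pw k θ c 2 (-(b / 2)) x + b ^ 2 / 2 * 1) t := by
      rw [hW.fib_add ((PB.const 2).mul (pw_pb θ c 2 _)) (continuous_const.mul (pw_cont θ c 2 _))
        ((PB.const _).mul (PB.const 1)) (continuous_const.mul continuous_const),
        fib_const, fib_const, ← dens_eq]
      rfl
    rw [e1]
    refine hW.fib_mono (pw_pb θ c 2 0) (pw_cont θ c 2 0)
      (((PB.const 2).mul (pw_pb θ c 2 _)).add ((PB.const _).mul (PB.const 1)))
      ((continuous_const.mul (pw_cont θ c 2 _)).add (continuous_const.mul continuous_const)) t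
      fun z => ?_
    unfold pw
    simp only [add_zero, mul_one]
    have g1 : max (lin θ c z) 0 ≤ max (lin θ c z + -(b / 2)) 0 + b / 2 := by
      have := le_max_left (lin θ c z + -(b / 2)) 0
      have := le_max_right (lin θ c z + -(b / 2)) 0
      refine max_le ?_ ?_ <;> linarith
    have g2 := pow_le_pow_left₀ (le_max_right _ _) g1 2
    nlinarith [sq_nonneg (max (lin θ c z + -(b / 2)) 0 - b / 2)]
  rw [h] at h1
  linarith

end Std

end Pool.Agent.Q86.FIB
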