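import Pool.Agent.Q86.FIB.OneD

/-!
# Hardy inequalities for a log-concave density on the line
-/

set_option autoImplicit false
set_option linter.unusedSectionVars false

namespace Pool.Agent.Q86.FIB

open MeasureTheory Set Filter Topology

theorem cc1 {f : ℝ → ℝ} (hf : Continuous f) (hs : HasCompactSupport f) : Integrable f :=
  hf.integrable_of_hasCompactSupport hs

/-- One half of the Hardy inequality: `A` is a primitive of `d` up to a sign. -/
theorem hardy_half {d A h h' : ℝ → ℝ} {ε : ℝ} (hε : ε ^ 2 = 1) (hd : Continuous d)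
    (hd0 : ∀ t, 0 < d t) (hA0 : ∀ t, 0 < A t) (hA : ∀ t, HasDerivAt A (ε * d t) t)
    (hh : ∀ t, HasDerivAt h (h' t) t) (hh' : Continuous h') (hs : HasCompactSupport h)
    (hs' : HasCompactSupport h') :
    ∫ t, h t ^ 2 * d t / A t ^ 2 ≤ 4 * ∫ t, h' t ^ 2 / d t := by
  have cA : Continuous A := continuous_iff_continuousAt.2 fun t => (hA t).continuousAt
  have ch : Continuous h := continuous_iff_continuousAt.2 fun t => (hh t).continuousAt
  have hAne : ∀ t, A t ≠ 0 := fun t => (hA0 t).ne'
  have hdne : ∀ t, d t ≠ 0 := fun t => (hd0 t).ne'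
  have s2 : HasCompactSupport (fun t => h t ^ 2) := by
    simp_rw [pow_two]
    exact hs.mul_right
  have s2' : HasCompactSupport (fun t => h' t ^ 2) := by
    simp_rw [pow_two]
    exact hs'.mul_right
  have i1 : Integrable (fun t => h t ^ 2 * d t / A t ^ 2) := by
    refine cc1 (((ch.pow 2).mul hd).div (cA.pow 2) fun t => pow_ne_zero 2 (hAne t)) ?_
    simp_rw [mul_div_assoc]
    exact s2.mul_right
  have i2 : Integrable (fun t => h' t ^ 2 / d t) := by
    refine cc1 ((hh'.pow 2).div hd hdne) ?_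
    simp_rw [div_eq_mul_inv]
    exact s2'.mul_right
  have i3 : Integrable (fun t => 2 * h t * h' t / A t) := by
    refine cc1 (((continuous_const.mul ch).mul hh').div cA hAne) ?_
    simp_rw [div_eq_mul_inv]
    exact (hs.mul_left (f := fun _ => (2 : ℝ))).mul_right.mul_right
  -- the integral of the derivative
  have hder : ∀ t, HasDerivAt (fun t => h t ^ 2 / A t)
      (2 * h t * h' t / A t - ε * (h t ^ 2 * d t / A t ^ 2)) t := by
    intro t
    have h2 : HasDerivAt (fun t => h t * h t) (h' t * h t + h t * h' t) t := (hh t).mul (hh t)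
    have h1 : HasDerivAt (fun t => h t * h t / A t)
        (((h' t * h t + h t * h' t) * A t - h t * h t * (ε * d t)) / A t ^ 2) t :=
      h2.div (hA t) (hAne t)
    have h3 : (fun t => h t ^ 2 / A t) = fun t => h t * h t / A t := by
      funext t
      rw [pow_two]
    rw [h3]
    refine h1.congr_deriv ?_
    have h4 := hAne t
    field_simp
    ring
  have i0 : Integrable (fun t => h t ^ 2 / A t) := by
    refine cc1 ((ch.pow 2).div cA hAne) ?_
    simp_rw [div_eq_mul_inv]
    exact s2.mul_right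
  have h0 : ∫ t, (2 * h t * h' t / A t - ε * (h t ^ 2 * d t / A t ^ 2)) = 0 :=
    integral_eq_zero_of_hasDerivAt_of_integrable hder (i3.sub (i1.const_mul ε)) i0
  rw [integral_sub i3 (i1.const_mul ε), integral_const_mul] at h0
  obtain ⟨X, hX⟩ : ∃ X, X = ∫ t, h t ^ 2 * d t / A t ^ 2 := ⟨_, rfl⟩
  obtain ⟨Y, hY⟩ : ∃ Y, Y = ∫ t, h' t ^ 2 / d t := ⟨_, rfl⟩
  have h4 : X = ε * ∫ t, 2 * h t * h' t / A t := by
    rw [← hX] at h0
    have : ε * (∫ t, 2 * h t * h' t / A t) = ε ^ 2 * X := by
      have h5 : ∫ t, 2 * h t * h' t / A t = ε * X := by linarith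
      rw [h5]
      ring
    rw [this, hε, one_mul]
  have h5 : ε * ∫ t, 2 * h t * h' t / A t ≤ 1 / 2 * X + 2 * Y := by
    rw [hX, hY, ← integral_const_mul, ← integral_const_mul, ← integral_const_mul,
      ← integral_add (i1.const_mul _) (i2.const_mul _)]
    refine integral_mono (i3.const_mul ε) ((i1.const_mul _).add (i2.const_mul _)) fun t => ?_
    have hd1 := hd0 t
    have hA1 := hA0 t
    have e : 1 / 2 * (h t ^ 2 * d t / A t ^ 2) + 2 * (h' t ^ 2 / d t) -
        ε * (2 * h t * h' t / A t) = (h t * d t / A t - ε * (2 * h' t)) ^ 2 / (2 * d t) := by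
      field_simp
      have e2 : ε ^ 2 * h' t ^ 2 = h' t ^ 2 := by rw [hε, one_mul]
      ring_nf
      ring_nf at e2
      rw [hε]
      ring
    have e3 : 0 ≤ (h t * d t / A t - ε * (2 * h' t)) ^ 2 / (2 * d t) := by positivity
    linarith
  rw [← hX, ← hY]
  linarith

/-- **The Hardy inequality.** -/
theorem LD.hardy {d : ℝ → ℝ} (H : LD d) {h h' : ℝ → ℝ}
    (hh : ∀ t, HasDerivAt h (h' t) t) (hh' : Continuous h') (hs : HasCompactSupport h)
    (hs' : HasCompactSupport h') :
    ∫ t, h t ^ 2 * d t / (LD.G d t * LD.K d t) ^ 2 ≤ 16 * ∫ t, h' t ^ 2 / d t := by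
  have a1 := hardy_half (ε := 1) (by norm_num) H.cont H.pos H.G_pos (A := LD.G d)
    (fun t => by simpa using H.G_deriv t) hh hh' hs hs'
  have a2 := hardy_half (ε := -1) (by norm_num) H.cont H.pos H.K_pos (A := LD.K d)
    (fun t => by simpa using H.K_deriv t) hh hh' hs hs'
  have ch : Continuous h := continuous_iff_continuousAt.2 fun t => (hh t).continuousAt
  have s2 : HasCompactSupport (fun t => h t ^ 2) := by
    simp_rw [pow_two]
    exact hs.mul_right
  have i1 : Integrable (fun t => h t ^ 2 * d t / LD.G d t ^ 2) := by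
    refine cc1 (((ch.pow 2).mul H.cont).div (H.G_cont.pow 2) fun t =>
      pow_ne_zero 2 (H.G_pos t).ne') ?_
    simp_rw [mul_div_assoc]
    exact s2.mul_right
  have i2 : Integrable (fun t => h t ^ 2 * d t / LD.K d t ^ 2) := by
    refine cc1 (((ch.pow 2).mul H.cont).div (H.K_cont.pow 2) fun t =>
      pow_ne_zero 2 (H.K_pos t).ne') ?_
    simp_rw [mul_div_assoc]
    exact s2.mul_right
  have h3 : ∫ t, h t ^ 2 * d t / (LD.G d t * LD.K d t) ^ 2 ≤
      ∫ t, (2 * (h t ^ 2 * d t / LD.G d t ^ 2) + 2 * (h t ^ 2 * d t / LD.K d t ^ 2)) := by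
    refine integral_mono_of_nonneg (Eventually.of_forall fun t => ?_)
      ((i1.const_mul 2).add (i2.const_mul 2)) (Eventually.of_forall fun t => ?_)
    · have := H.pos t
      have := H.G_pos t
      have := H.K_pos t
      simp only [Pi.zero_apply]
      positivity
    · have hd := H.pos t
      have hG := H.G_pos t
      have hK := H.K_pos t
      have hGK := H.GK t
      simp only
      have e : 2 * (h t ^ 2 * d t / LD.G d t ^ 2) + 2 * (h t ^ 2 * d t / LD.K d t ^ 2) =
          h t ^ 2 * d t * (2 * (LD.K d t ^ 2 + LD.G d t ^ 2)) / (LD.G d t * LD.K d t) ^ 2 := by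
        field_simp
      rw [e]
      refine div_le_div_of_nonneg_right ?_ (by positivity)
      have e2 : 1 ≤ 2 * (LD.K d t ^ 2 + LD.G d t ^ 2) := by
        nlinarith [sq_nonneg (LD.G d t - LD.K d t)]
      exact le_mul_of_one_le_right (by positivity) e2
  rw [integral_add (i1.const_mul 2) (i2.const_mul 2), integral_const_mul,
    integral_const_mul] at h3
  linarith

end Pool.Agent.Q86.FIB
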