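import Pool.Agent.Q86.FIB.MainB7

/-!
# The inequality with an abstract bound of the term with the conditional mean
-/

set_option autoImplicit false
set_option linter.unusedSectionVars false

namespace Pool.Agent.Q86.FIB

open MeasureTheory Set Filter Topology
open scoped ContDiff

variable {k n : ℕ}

/-- The bound of the term with the conditional mean. -/
def Third (W f : Sp k × Sp n → ℝ) (N : ℝ) : Prop :=
  ∀ Q : Sp k → ℝ, ContDiff ℝ ∞ Q → HasCompactSupport Q →
    |∫ t, (∑ i, cm W (pd (zv k i) f) t *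
      (∑ a, pd (sv a) Q t * pd (sv a) (mz W i) t)) * dens W t| ≤
      N * Real.sqrt (∫ t, (Lop sv (Vp W) Q t) ^ 2 * dens W t)

namespace Std

section first

variable {W : Sp k × Sp n → ℝ} (hW : Std W) {Q : Sp k → ℝ} (hQ : ContDiff ℝ ∞ Q)
  (hQs : HasCompactSupport Q) {f : Sp k × Sp n → ℝ} (hf : ContDiff ℝ 1 f)
  (hfs : HasCompactSupport f) {Φ : Sp k × Sp n → ℝ} (hΦ : ContDiff ℝ ∞ Φ)
  (hΦs : HasCompactSupport Φ)

include hW hf hfs hΦ hΦs

include hQ hQs

/-- **The pairing with the corrector.** -/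
theorem pair_Phi' {P : Sp k → ℝ} (hP : FibreP W P) (hP0 : ∀ t, 0 ≤ P t) (hPc : Continuous P) :
    |∫ x, (∑ i, pd (zv k i) f x * pd (zv k i) Φ x) * Real.exp (-W x) ∂(vol k n)| ≤
      Real.sqrt (∫ t, P t * fib W (gZ f) t) *
        Real.sqrt (∫ x, (∑ i, gZ (pd (zv k i) Φ) x) * Real.exp (-W x) ∂(vol k n)) +
      Real.sqrt (∫ x, (∑ i, cm W (pd (zv k i) f) x.1 * zc k i x) ^ 2 *
        Real.exp (-W x) ∂(vol k n)) *
        Real.sqrt (∫ x, (RR W Q x + Lop (zv k) W Φ x) ^ 2 * Real.exp (-W x) ∂(vol k n)) +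
      |∫ t, (∑ i, cm W (pd (zv k i) f) t *
        (∑ a, pd (sv a) Q t * pd (sv a) (mz W i) t)) * dens W t| := by
  have cf : ∀ i : Fin n, Continuous (pd (zv k i) f) := fun i => pd_cont hf _
  have pf : ∀ i : Fin n, PB (pd (zv k i) f) := fun i => PB.of_supp (cf i) (pd_supp hfs _)
  have ccf : ∀ i : Fin n, Continuous (cm W (pd (zv k i) f)) := fun i => hW.cm_cont (pf i) (cf i)
  have pcf : ∀ i : Fin n, PB (fun x : Sp k × Sp n => cm W (pd (zv k i) f) x.1) := fun i =>
    hW.cm_pb (cf i) (pd_supp hfs _)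
  have sΦ : ∀ i : Fin n, ContDiff ℝ ∞ (pd (zv k i) Φ) := fun i => pd_smooth hΦ _
  have uΦ : ∀ i : Fin n, HasCompactSupport (pd (zv k i) Φ) := fun i => pd_supp hΦs _
  have pΦ : ∀ i : Fin n, PB (pd (zv k i) Φ) := fun i => PB.of_supp (sΦ i).continuous (uΦ i)
  have cg : ∀ i : Fin n, Continuous (fun x : Sp k × Sp n => pd (zv k i) Φ x -
      cm W (pd (zv k i) Φ) x.1) := fun i => (sΦ i).continuous.sub
    ((hW.cm_cont (pΦ i) (sΦ i).continuous).comp continuous_fst)
  have pg : ∀ i : Fin n, PB (fun x : Sp k × Sp n => pd (zv k i) Φ x -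
      cm W (pd (zv k i) Φ) x.1) := fun i => (pΦ i).sub (hW.cm_pb (sΦ i).continuous (uΦ i))
  have pz : ∀ i : Fin n, PB (zc k i) := fun i => PB.of_htg (zc_htg i)
  have cz : ∀ i : Fin n, Continuous (zc k i) := fun i => (zc_htg (k := k) i).1.continuous
  have hRc := (hW.RR_smooth hQ).continuous
  have hRp := hW.RR_pb hQ hQs
  have hLc := (Lop_smooth (zv k) hW.smooth hΦ).continuous
  have hLp : PB (Lop (zv k) W Φ) := PB.of_supp hLc (Lop_supp (zv k) hΦs)
  set ρ : Sp k × Sp n → ℝ := fun x => RR W Q x + Lop (zv k) W Φ x with hρ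
  have cρ : Continuous ρ := hRc.add hLc
  have pρ : PB ρ := hRp.add hLp
  set H1 : Sp k × Sp n → ℝ := fun x => ∑ i, pd (zv k i) f x * (pd (zv k i) Φ x -
    cm W (pd (zv k i) Φ) x.1) with hH1
  have pH1 : PB H1 := PB.sum _ fun i _ => (pf i).mul (pg i)
  have cH1 : Continuous H1 := continuous_finsetSum _ fun i _ => (cf i).mul (cg i)
  set H2 : Sp k × Sp n → ℝ := fun x => (∑ i, cm W (pd (zv k i) f) x.1 * zc k i x) with hH2
  have pH2 : PB H2 := PB.sum _ fun i _ => (pcf i).mul (pz i)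
  have cH2 : Continuous H2 := continuous_finsetSum _ fun i _ =>
    ((ccf i).comp continuous_fst).mul (cz i)
  set g3 : Sp k → ℝ := fun t => (∑ i, cm W (pd (zv k i) f) t *
    (∑ a, pd (sv a) Q t * pd (sv a) (mz W i) t)) with hg3
  have bcm : ∀ i : Fin n, BC (cm W (pd (zv k i) f)) := fun i => by
    obtain ⟨C, hC⟩ := (pd_supp hfs (zv k i)).exists_bound_of_continuous (cf i)
    exact ⟨ccf i, C, fun t => hW.cm_bdd (cf i) hC t⟩
  have bQm : ∀ i : Fin n, BC (fun t => ∑ a, pd (sv a) Q t * pd (sv a) (mz W i) t) := fun i =>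
    BC.of_supp (continuous_finsetSum _ fun a _ => (pd_smooth hQ _).continuous.mul
      (pd_smooth (hW.mz_smooth i) _).continuous) (cs_sum _ fun a _ => (pd_supp hQs _).mul_right)
  have bg3 : BC g3 := by
    rw [hg3]
    refine ⟨continuous_finsetSum _ fun i _ => ((bcm i).mul (bQm i)).1, ?_⟩
    have h := fun i => ((bcm i).mul (bQm i)).2
    choose C hC using h
    refine ⟨∑ i, C i, fun t => (Finset.abs_sum_le_sum_abs _ _).trans
      (Finset.sum_le_sum fun i _ => hC i t)⟩
  -- the fibre identity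
  have hid : ∀ t, fib W (fun x => ∑ i, pd (zv k i) f x * pd (zv k i) Φ x) t =
      fib W H1 t - fib W (fun x => H2 x * ρ x) t - g3 t * dens W t := by
    intro t
    have e1 : fib W (fun x => ∑ i, pd (zv k i) f x * pd (zv k i) Φ x) t =
        ∑ i, fib W (fun x => pd (zv k i) f x * pd (zv k i) Φ x) t :=
      hW.fib_sum _ (fun i _ => (pf i).mul (pΦ i)) (fun i _ => (cf i).mul (sΦ i).continuous) t
    have e2 : fib W H1 t = ∑ i, fib W (fun x => pd (zv k i) f x * (pd (zv k i) Φ x -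
        cm W (pd (zv k i) Φ) x.1)) t :=
      hW.fib_sum _ (fun i _ => (pf i).mul (pg i)) (fun i _ => (cf i).mul (cg i)) t
    have e3 : fib W (fun x => H2 x * ρ x) t = ∑ i, cm W (pd (zv k i) f) t *
        fib W (fun x => zc k i x * ρ x) t := by
      have e4 : fib W (fun x => H2 x * ρ x) t = fib W (fun x => ∑ i, cm W (pd (zv k i) f) x.1 *
          (zc k i x * ρ x)) t := by
        refine fib_congr t fun z => ?_
        rw [hH2]
        simp only
        rw [Finset.sum_mul]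
        exact Finset.sum_congr rfl fun i _ => by ring
      rw [e4, hW.fib_sum _ (fun i _ => (pcf i).mul ((pz i).mul pρ))
        (fun i _ => ((ccf i).comp continuous_fst).mul ((cz i).mul cρ))]
      exact Finset.sum_congr rfl fun i _ => fib_base _ _ _
    rw [e1, e2, e3, hg3]
    simp only
    rw [Finset.sum_mul, ← Finset.sum_sub_distrib, ← Finset.sum_sub_distrib]
    refine Finset.sum_congr rfl fun i _ => ?_
    have e5 : fib W (fun x => pd (zv k i) f x * (pd (zv k i) Φ x -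
        cm W (pd (zv k i) Φ) x.1)) t = fib W (fun x => pd (zv k i) f x * pd (zv k i) Φ x) t -
        cm W (pd (zv k i) Φ) t * fib W (pd (zv k i) f) t := by
      rw [← fib_base (fun t => cm W (pd (zv k i) Φ) t) (pd (zv k i) f) t,
        ← hW.fib_sub ((pf i).mul (pΦ i)) ((cf i).mul (sΦ i).continuous)
          ((hW.cm_pb (sΦ i).continuous (uΦ i)).mul (pf i))
          (((hW.cm_cont (pΦ i) (sΦ i).continuous).comp continuous_fst).mul (cf i))]
      exact fib_congr t fun z => by ring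
    have e6 := hW.fib_pdPhi hQ hQs hΦ hΦs i t
    have e7 := hW.cm_mul (pd (zv k i) Φ) t
    have e8 := hW.cm_mul (pd (zv k i) f) t
    rw [e5, ← e8]
    have e9 : cm W (pd (zv k i) Φ) t * (cm W (pd (zv k i) f) t * dens W t) =
        cm W (pd (zv k i) f) t * (cm W (pd (zv k i) Φ) t * dens W t) := by ring
    rw [e9, e7, e6]
    ring
  have i1 := hW.fib_integrable pH1 cH1
  have i2 := hW.fib_integrable (pH2.mul pρ) (cH2.mul cρ)
  have i3 := hW.bc_int bg3
  have i12 : Integrable (fun t => fib W H1 t - fib W (fun x => H2 x * ρ x) t) := i1.sub i2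
  have htot : ∫ x, (∑ i, pd (zv k i) f x * pd (zv k i) Φ x) * Real.exp (-W x) ∂(vol k n) =
      (∫ t, fib W H1 t) - (∫ x, H2 x * ρ x * Real.exp (-W x) ∂(vol k n)) -
        ∫ t, g3 t * dens W t := by
    rw [hW.fib_integral (H := fun x => ∑ i, pd (zv k i) f x * pd (zv k i) Φ x)
      (PB.sum _ fun i _ => (pf i).mul (pΦ i))
      (continuous_finsetSum _ fun i _ => (cf i).mul (sΦ i).continuous),
      hW.fib_integral (pH2.mul pρ) (cH2.mul cρ), ← integral_sub i1 i2, ← integral_sub i12 i3]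
    exact integral_congr_ae (Eventually.of_forall hid)
  -- the bounds
  have cgZ := gZ_cont hf
  have pgZ := gZ_pb hf hfs
  have cD : Continuous (fun x : Sp k × Sp n => ∑ i, gZ (pd (zv k i) Φ) x) :=
    continuous_finsetSum _ fun i _ => gZ_cont (sm1 (sΦ i))
  have pD : PB (fun x : Sp k × Sp n => ∑ i, gZ (pd (zv k i) Φ) x) :=
    PB.sum _ fun i _ => gZ_pb (sm1 (sΦ i)) (uΦ i)
  have cfib := hW.fib_cont pgZ cgZ
  have b1 : |∫ t, fib W H1 t| ≤ Real.sqrt (∫ t, P t * fib W (gZ f) t) *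
      Real.sqrt (∫ x, (∑ i, gZ (pd (zv k i) Φ) x) * Real.exp (-W x) ∂(vol k n)) := by
    rw [hW.fib_integral pD cD]
    refine int_sqrt_le (hPc.mul cfib) (hW.fib_cont pD cD) ?_ (hW.fib_integrable pD cD) ?_ ?_ ?_
    · exact cc_int _ (hPc.mul cfib) (hW.fib_gZ_supp hf hfs).mul_left
    · exact fun t => mul_nonneg (hP0 t) (fib_nonneg (fun x => gZ_nonneg _ x) t)
    · exact fib_nonneg (fun x => Finset.sum_nonneg fun i _ => gZ_nonneg _ x)
    · intro t
      have e2 : fib W H1 t = ∑ i, fib W (fun x => pd (zv k i) f x * (pd (zv k i) Φ x -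
          cm W (pd (zv k i) Φ) x.1)) t :=
        hW.fib_sum _ (fun i _ => (pf i).mul (pg i)) (fun i _ => (cf i).mul (cg i)) t
      rw [e2]
      exact hW.part_one hf hfs hΦ hΦs hP hP0 t
  have b2 := hW.tot_cs pH2 cH2 pρ cρ
  rw [htot]
  have t1 := abs_sub ((∫ t, fib W H1 t) - (∫ x, H2 x * ρ x * Real.exp (-W x) ∂(vol k n)))
    (∫ t, g3 t * dens W t)
  have t2 := abs_sub (∫ t, fib W H1 t) (∫ x, H2 x * ρ x * Real.exp (-W x) ∂(vol k n))
  have t3 : (∫ t, (∑ i, cm W (pd (zv k i) f) t *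
      (∑ a, pd (sv a) Q t * pd (sv a) (mz W i) t)) * dens W t) = ∫ t, g3 t * dens W t := rfl
  rw [t3]
  linarith

end first

variable {W : Sp k × Sp n → ℝ} (hW : Std W)
include hW

section

variable {Q : Sp k → ℝ} (hQ : ContDiff ℝ ∞ Q)
  (hQs : HasCompactSupport Q) {f : Sp k × Sp n → ℝ} (hf : ContDiff ℝ 1 f)
  (hfs : HasCompactSupport f)

include hQ hQs hf hfs

/-- **The key estimate.** -/
theorem key' {P : Sp k → ℝ} (hP : FibreP W P) (hP0 : ∀ t, 0 ≤ P t) (hPc : Continuous P)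
    {N : ℝ} (hN0 : 0 ≤ N) (hN : Third W f N) {C₀ : ℝ} (hC : 0 ≤ C₀) (hB : BaseP W C₀)
    (h1 : ∫ t, dens W t = 1) :
    |∫ x, f x * Lop sv (Vp W) Q x.1 * Real.exp (-W x) ∂(vol k n)| ≤
      (Real.sqrt C₀ * Real.sqrt (∫ x, gT f x * Real.exp (-W x) ∂(vol k n)) +
        Real.sqrt (∫ t, P t * fib W (gZ f) t) + N) *
      Real.sqrt (∫ t, (Lop sv (Vp W) Q t) ^ 2 * dens W t) := by
  set Tf : ℝ := ∫ x, gT f x * Real.exp (-W x) ∂(vol k n) with hTf
  set PZ : ℝ := ∫ t, P t * fib W (gZ f) t with hPZ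
  set S : ℝ := ∫ t, (Lop sv (Vp W) Q t) ^ 2 * dens W t with hS
  have hS0 : 0 ≤ S := integral_nonneg fun t => mul_nonneg (sq_nonneg _) (hW.dens_pos t).le
  set G2 : ℝ := ∫ t, (∑ a, pd (sv a) Q t ^ 2) * dens W t with hG2
  have hG : Real.sqrt G2 ≤ Real.sqrt C₀ * Real.sqrt S := by
    rw [← Real.sqrt_mul hC]
    exact Real.sqrt_le_sqrt (hW.base_grad hQ hQs hC hB h1)
  set K1 : ℝ := Real.sqrt (∫ x, (∑ i, cm W (pd (zv k i) f) x.1 * zc k i x) ^ 2 *
    Real.exp (-W x) ∂(vol k n)) with hK1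
  set K2 : ℝ := Real.sqrt (∫ x, f x ^ 2 * Real.exp (-W x) ∂(vol k n)) with hK2
  have hf0 : PB f := PB.of_supp hf.continuous hfs
  refine le_of_forall_pos_le_add fun η hη => ?_
  set d : ℝ := η / (Real.sqrt PZ + K1 + K2 + 1) with hd
  have hden : 0 < Real.sqrt PZ + K1 + K2 + 1 := by positivity
  have hd0 : 0 < d := div_pos hη hden
  have hd1 : d * (Real.sqrt PZ + K1 + K2 + 1) = η := div_mul_cancel₀ _ hden.ne'
  obtain ⟨Φ, hΦ, hΦs, hε⟩ := hW.corrector hQ hQs hP hPc (pow_pos hd0 2)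
  have hRc := (hW.RR_smooth hQ).continuous
  have hRp := hW.RR_pb hQ hQs
  have hLc := (Lop_smooth (zv k) hW.smooth hΦ).continuous
  have hLp : PB (Lop (zv k) W Φ) := PB.of_supp hLc (Lop_supp (zv k) hΦs)
  -- the decomposition
  have e1 := hW.pair_base hQ hf hfs
  have e2 : ∫ x, f x * RR W Q x * Real.exp (-W x) ∂(vol k n) =
      (∫ x, f x * (RR W Q x + Lop (zv k) W Φ x) * Real.exp (-W x) ∂(vol k n)) -
        ∫ x, f x * Lop (zv k) W Φ x * Real.exp (-W x) ∂(vol k n) := by
    have j1 := hW.integrable (hf0.mul (hRp.add hLp)) (hf.continuous.mul (hRc.add hLc))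
    have j2 := hW.integrable (hf0.mul hLp) (hf.continuous.mul hLc)
    rw [← integral_sub j1 j2]
    refine integral_congr_ae (Eventually.of_forall fun x => ?_)
    simp only
    ring
  have e3 := ibpL (vol k n) (zv k) (sm1 hW.smooth) (sm2 hΦ) hf (Or.inl hΦs)
  -- the bounds
  set ρ2 : ℝ := ∫ x, (RR W Q x + Lop (zv k) W Φ x) ^ 2 * Real.exp (-W x) ∂(vol k n) with hρ2
  have hρd : Real.sqrt ρ2 ≤ d := by
    rw [Real.sqrt_le_left hd0.le]
    exact hε.le
  have b1 := hW.pair_T hQ hQs hf hfs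
  have b2 := hW.tot_cs hf0 hf.continuous (hRp.add hLp) (hRc.add hLc)
  have b3 := hW.pair_Phi' hQ hQs hf hfs hΦ hΦs hP hP0 hPc
  have b3' := hN Q hQ hQs
  rw [← hS] at b3'
  have b4 := hW.hess_le hQ hQs hΦ hΦs
  rw [← hρ2, ← hS] at b4
  have b5 : Real.sqrt (∫ x, (∑ i, gZ (pd (zv k i) Φ) x) * Real.exp (-W x) ∂(vol k n)) ≤
      d + Real.sqrt S := by
    refine (Real.sqrt_le_sqrt b4).trans ?_
    rw [Real.sqrt_le_left (by positivity)]
    have h3 : Real.sqrt S ^ 2 = S := Real.sq_sqrt hS0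
    nlinarith [hε.le, Real.sqrt_nonneg S]
  rw [e1, e2, e3]
  rw [← hTf] at b1
  rw [← hK2] at b2
  rw [← hPZ, ← hK1] at b3
  have c1 : |-∫ x, (∑ a, pd (tv n a) f x * pd (sv a) Q x.1) * Real.exp (-W x) ∂(vol k n)| ≤
      Real.sqrt Tf * (Real.sqrt C₀ * Real.sqrt S) := by
    rw [abs_neg]
    exact b1.trans (mul_le_mul_of_nonneg_left hG (Real.sqrt_nonneg _))
  have c2 : |∫ x, f x * (RR W Q x + Lop (zv k) W Φ x) * Real.exp (-W x) ∂(vol k n)| ≤ K2 * d :=
    b2.trans (mul_le_mul_of_nonneg_left hρd (Real.sqrt_nonneg _))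
  have c3 : |∫ x, (∑ i, pd (zv k i) f x * pd (zv k i) Φ x) * Real.exp (-W x) ∂(vol k n)| ≤
      Real.sqrt PZ * (d + Real.sqrt S) + K1 * d + N * Real.sqrt S := by
    refine b3.trans ?_
    have f1 := mul_le_mul_of_nonneg_left b5 (Real.sqrt_nonneg PZ)
    have f2 := mul_le_mul_of_nonneg_left hρd (Real.sqrt_nonneg (∫ x, (∑ i,
      cm W (pd (zv k i) f) x.1 * zc k i x) ^ 2 * Real.exp (-W x) ∂(vol k n)))
    linarith
  set J1 := ∫ x, (∑ a, pd (tv n a) f x * pd (sv a) Q x.1) * Real.exp (-W x) ∂(vol k n) with hJ1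
  set J2 := ∫ x, f x * (RR W Q x + Lop (zv k) W Φ x) * Real.exp (-W x) ∂(vol k n) with hJ2
  set J3 := ∫ x, (∑ i, pd (zv k i) f x * pd (zv k i) Φ x) * Real.exp (-W x) ∂(vol k n) with hJ3
  have t1 : |-J1 + (J2 - -J3)| ≤ |-J1| + |J2| + |J3| := by
    have h5 : -J1 + (J2 - -J3) = (-J1 + J2) + J3 := by ring
    rw [h5]
    exact (abs_add_le _ _).trans (add_le_add (abs_add_le _ _) le_rfl)
  have hfin : (Real.sqrt C₀ * Real.sqrt Tf + Real.sqrt PZ + N) * Real.sqrt S + η =
      Real.sqrt Tf * (Real.sqrt C₀ * Real.sqrt S) + K2 * d +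
      (Real.sqrt PZ * (d + Real.sqrt S) + K1 * d + N * Real.sqrt S)
      + d := by
    rw [← hd1]
    ring
  rw [hfin]
  linarith

end

/-- **The two-scale inequality** for functions of compact support. -/
theorem main_cs' {P : Sp k → ℝ} (hP : FibreP W P) (hP0 : ∀ t, 0 ≤ P t) (hPc : Continuous P)
    {C₀ : ℝ} (hC : 0 ≤ C₀) (hB : BaseP W C₀)
    (h1 : ∫ t, dens W t = 1) {f : Sp k × Sp n → ℝ} (hf : ContDiff ℝ 1 f)
    (hfs : HasCompactSupport f) {N : ℝ} (hN0 : 0 ≤ N) (hN : Third W f N) :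
    (∫ x, f x ^ 2 * Real.exp (-W x) ∂(vol k n)) - (∫ x, f x * Real.exp (-W x) ∂(vol k n)) ^ 2 ≤
      (Real.sqrt C₀ * Real.sqrt (∫ x, gT f x * Real.exp (-W x) ∂(vol k n)) +
        Real.sqrt (∫ x, P x.1 * gZ f x * Real.exp (-W x) ∂(vol k n)) + N) ^ 2 +
        ∫ x, P x.1 * gZ f x * Real.exp (-W x) ∂(vol k n) := by
  have hf0 : PB f := PB.of_supp hf.continuous hfs
  have hcm : PB (fun x : Sp k × Sp n => cm W f x.1) := hW.cm_pb hf.continuous hfs
  have ccm : Continuous (cm W f) := hW.cm_cont hf0 hf.continuous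
  have bcm : BC (cm W f) := by
    obtain ⟨C, hC⟩ := hfs.exists_bound_of_continuous hf.continuous
    exact ⟨ccm, C, fun t => hW.cm_bdd hf.continuous hC t⟩
  have cgZ := gZ_cont hf
  have pgZ := gZ_pb hf hfs
  have cfib := hW.fib_cont pgZ cgZ
  -- the term with `P`
  have hPZ : ∫ x, P x.1 * gZ f x * Real.exp (-W x) ∂(vol k n) = ∫ t, P t * fib W (gZ f) t := by
    have cP : Continuous (fun x : Sp k × Sp n => P x.1) := hPc.comp continuous_fst
    have sg : HasCompactSupport (gZ f) := cs_sum _ fun i _ => by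
      simp_rw [pow_two]
      exact (pd_supp hfs _).mul_right
    have pP : PB (fun x : Sp k × Sp n => P x.1 * gZ f x) :=
      PB.of_supp (cP.mul cgZ) sg.mul_left
    rw [hW.fib_integral pP (cP.mul cgZ)]
    exact integral_congr_ae (Eventually.of_forall fun t => fib_base _ _ _)
  rw [hPZ]
  set PZ : ℝ := ∫ t, P t * fib W (gZ f) t with hPZd
  set m : ℝ := ∫ x, f x * Real.exp (-W x) ∂(vol k n) with hm
  have hm2 : m = ∫ t, cm W f t * dens W t := by
    rw [hm, hW.fib_integral hf0 hf.continuous]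
    exact integral_congr_ae (Eventually.of_forall fun t => (hW.cm_mul f t).symm)
  -- the decomposition of the variance
  have hdec : (∫ x, f x ^ 2 * Real.exp (-W x) ∂(vol k n)) =
      (∫ t, fib W (fun x => (f x - cm W f x.1) ^ 2) t) + ∫ t, cm W f t ^ 2 * dens W t := by
    rw [hW.fib_integral (hf0.pow 2) (hf.continuous.pow 2)]
    have i1 := hW.fib_integrable ((hf0.sub hcm).pow 2)
      ((hf.continuous.sub (ccm.comp continuous_fst)).pow 2)
    rw [← integral_add i1 (hW.bc_int bcm.pow2)]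
    refine integral_congr_ae (Eventually.of_forall fun t => ?_)
    simp only
    have h2 := hW.fib_var hf.continuous hfs t
    have hd := hW.dens_pos t
    have h3 : fib W (fun x => f x ^ 2) t * dens W t =
        (fib W (fun x => (f x - cm W f x.1) ^ 2) t + cm W f t ^ 2 * dens W t) * dens W t := by
      have h4 := hW.cm_mul f t
      have h5 : fib W f t ^ 2 = (cm W f t * dens W t) ^ 2 := by rw [h4]
      rw [h5] at h2
      linarith
    exact mul_right_cancel₀ hd.ne' h3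
  have hV1 : ∫ t, fib W (fun x => (f x - cm W f x.1) ^ 2) t ≤ PZ := by
    refine integral_mono (hW.fib_integrable ((hf0.sub hcm).pow 2)
      ((hf.continuous.sub (ccm.comp continuous_fst)).pow 2)) ?_ fun t => ?_
    · exact cc_int _ (hPc.mul cfib) (hW.fib_gZ_supp hf hfs).mul_left
    · exact hW.fib_poincare hP hf hfs t
  -- the base part
  have hV2 : (∫ t, cm W f t ^ 2 * dens W t) - m ^ 2 ≤
      (Real.sqrt C₀ * Real.sqrt (∫ x, gT f x * Real.exp (-W x) ∂(vol k n)) +
        Real.sqrt PZ + N) ^ 2 := by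
    have bG : BC (fun t => cm W f t - m) := bcm.sub (BC.const m)
    have h2 := hW.base_var h1 bcm
    rw [← hm2] at h2
    rw [← h2]
    refine hW.base_norm hC hB h1 bG ?_ (by positivity) ?_
    · have i2 : Integrable (fun t => m * dens W t) := hW.dens_int.const_mul m
      have e1 : ∫ t, (cm W f t - m) * dens W t = (∫ t, cm W f t * dens W t) -
          m * ∫ t, dens W t := by
        rw [← integral_const_mul, ← integral_sub (hW.bc_int bcm) i2]
        refine integral_congr_ae (Eventually.of_forall fun t => ?_)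
        simp only
        ring
      rw [e1, h1, ← hm2]
      ring
    · intro Q hQ hQs
      have h3 := hW.key' hQ hQs hf hfs hP hP0 hPc hN0 hN hC hB h1
      have bL := hW.bcL hQ hQs
      have cL : Continuous (fun x : Sp k × Sp n => Lop sv (Vp W) Q x.1) :=
        bL.1.comp continuous_fst
      have pL : PB (fun x : Sp k × Sp n => Lop sv (Vp W) Q x.1) :=
        fst_pb bL.1 (Lop_supp sv hQs)
      have e2 : ∫ t, (cm W f t - m) * Lop sv (Vp W) Q t * dens W t =
          ∫ x, f x * Lop sv (Vp W) Q x.1 * Real.exp (-W x) ∂(vol k n) := by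
        rw [hW.fib_integral (hf0.mul pL) (hf.continuous.mul cL)]
        have i1 := hW.bc_int (bcm.mul bL)
        have i2 := (hW.bc_int bL).const_mul m
        have e3 : ∫ t, (cm W f t - m) * Lop sv (Vp W) Q t * dens W t =
            (∫ t, cm W f t * Lop sv (Vp W) Q t * dens W t) -
              m * ∫ t, Lop sv (Vp W) Q t * dens W t := by
          rw [← integral_const_mul, ← integral_sub i1 i2]
          refine integral_congr_ae (Eventually.of_forall fun t => ?_)
          simp only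
          ring
        rw [e3, hW.int_L hQ hQs, mul_zero, sub_zero]
        refine integral_congr_ae (Eventually.of_forall fun t => ?_)
        simp only
        have e4 : fib W (fun x => f x * Lop sv (Vp W) Q x.1) t = Lop sv (Vp W) Q t * fib W f t := by
          rw [← fib_base (fun t => Lop sv (Vp W) Q t) f t]
          exact fib_congr t fun z => by ring
        rw [e4, ← hW.cm_mul]
        ring
      rw [e2]
      exact h3
  rw [hdec]
  linarith

end Std

end Pool.Agent.Q86.FIB
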