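import Pool.Agent.Q86.FIB.HPL

/-!
# The conditional second moments over a line
-/

set_option autoImplicit false
set_option linter.unusedSectionVars false

namespace Pool.Agent.Q86.FIB

open MeasureTheory Set Filter Topology
open scoped ContDiff ENNReal

variable {n : ℕ}

/-- the point of the line -/
def oo (τ : ℝ) : Sp 1 := fun _ => τ

theorem oo_int (g : Sp 1 → ℝ) : ∫ t : Sp 1, g t = ∫ τ : ℝ, g (oo τ) := by
  have h := ((volume_preserving_funUnique (Fin 1) ℝ).symm _).integral_comp' (g := g)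
  exact h.symm

theorem oo_integrable {g : Sp 1 → ℝ} (hg : Integrable g) : Integrable (fun τ : ℝ => g (oo τ)) := by
  have h := ((volume_preserving_funUnique (Fin 1) ℝ).symm _).integrable_comp_emb
    (MeasurableEquiv.funUnique (Fin 1) ℝ).symm.measurableEmbedding (g := g)
  exact h.2 hg

theorem oo_cont : Continuous oo := continuous_pi fun _ => continuous_id

theorem oo_zero (t : Sp 1) : oo (t 0) = t := by
  funext i
  rw [Subsingleton.elim i 0]
  rfl

theorem oo_comb (s a b : ℝ) : s • oo a + (1 - s) • oo b = oo (s * a + (1 - s) * b) := by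
  funext i
  simp [oo]

/-- The density of the marginal. -/
noncomputable def dd (W : Sp 1 × Sp n → ℝ) (τ : ℝ) : ℝ := dens W (oo τ)

theorem Std.ld {W : Sp 1 × Sp n → ℝ} (hW : Std W) (h1 : ∫ t, dens W t = 1) : LD (dd W) where
  cont := hW.dens_smooth.continuous.comp oo_cont
  pos := fun t => hW.dens_pos _
  int := oo_integrable hW.dens_int
  one := by
    rw [← h1, oo_int (dens W)]
    rfl
  lc := fun a b s hs hs1 => by
    have h := hW.dens_lc (oo a) (oo b) hs hs1
    rw [oo_comb] at h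
    exact h

/-- `min (G, 1 - G)` -/
noncomputable def mn (W : Sp 1 × Sp n → ℝ) (τ : ℝ) : ℝ := min (LD.G (dd W) τ) (LD.K (dd W) τ)

theorem mn_pos {W : Sp 1 × Sp n → ℝ} (h : LD (dd W)) (τ : ℝ) : 0 < mn W τ :=
  lt_min (h.G_pos τ) (h.K_pos τ)

theorem mn_le {W : Sp 1 × Sp n → ℝ} (h : LD (dd W)) (τ : ℝ) : mn W τ ≤ 1 :=
  (min_le_left _ _).trans (h.G_lt τ).le

namespace Std

variable {W : Sp 1 × Sp n → ℝ} (hW : Std W)
include hW

theorem lin2_pb (θ : Sp n) (c : ℝ) : PB (fun x : Sp 1 × Sp n => lin θ c x.2 ^ 2) :=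
  (PB.of_htg (lin_htg 1 θ c)).pow 2

omit hW in
theorem lin2_cont (θ : Sp n) (c : ℝ) : Continuous (fun x : Sp 1 × Sp n => lin θ c x.2 ^ 2) :=
  (lin_htg 1 θ c).1.continuous.pow 2

/-- The square of the conditional mean. -/
theorem mt_sq (θ : Sp n) (c : ℝ) (t : Sp 1) :
    (mt W θ t - c) ^ 2 * dens W t ≤ fib W (fun x => lin θ c x.2 ^ 2) t := by
  have hd := hW.dens_pos t
  have h := hW.fib_cs (PB.of_htg (lin_htg 1 θ c)) (lin_htg 1 θ c).1.continuous (PB.const 1)
    continuous_const t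
  have e1 : fib W (fun x => lin θ c x.2 * 1) t = dens W t * (mt W θ t - c) := by
    rw [← hW.fib_lin]
    exact fib_congr t fun z => mul_one _
  have e3 : fib W (fun _ => (1 : ℝ) ^ 2) t = dens W t := by
    rw [dens_eq]
    exact fib_congr t fun z => one_pow 2
  rw [e1, e3] at h
  have h2 : ((mt W θ t - c) ^ 2 * dens W t) * dens W t ≤
      fib W (fun x => lin θ c x.2 ^ 2) t * dens W t := by
    have : (dens W t * (mt W θ t - c)) ^ 2 = ((mt W θ t - c) ^ 2 * dens W t) * dens W t := by ring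
    linarith
  exact le_of_mul_le_mul_right h2 hd

theorem H2_le (θ : Sp n) (c : ℝ) (t : Sp 1) :
    Hp W θ c 2 t 0 ≤ fib W (fun x => lin θ c x.2 ^ 2) t := by
  refine hW.fib_mono (pw_pb θ c 2 0) (pw_cont θ c 2 0) (hW.lin2_pb θ c) (lin2_cont θ c) t
    fun z => ?_
  unfold pw
  rw [add_zero]
  rcases le_total (lin θ c z) 0 with h | h
  · rw [max_eq_right h]
    simpa using sq_nonneg (lin θ c z)
  · rw [max_eq_left h]

/-- The integral over an interval is at most the integral. -/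
theorem int_le {s : ℝ} {θ : Sp n} {c : ℝ}
    (hv : ∫ x, lin θ c x.2 ^ 2 * Real.exp (-W x) ∂(vol 1 n) ≤ s) {J : Set ℝ}
    (hJ : MeasurableSet J) {g : ℝ → ℝ} {C : ℝ} (hC : ∀ u ∈ J, C ≤ g u)
    (hg : ∀ u, g u ≤ fib W (fun x => lin θ c x.2 ^ 2) (oo u)) (hfin : volume J ≠ ⊤) :
    (volume J).toReal * C ≤ s := by
  rw [hW.fib_integral (hW.lin2_pb θ c) (lin2_cont θ c), oo_int] at hv
  have hi : Integrable (fun u => fib W (fun x => lin θ c x.2 ^ 2) (oo u)) :=
    oo_integrable (hW.fib_integrable (hW.lin2_pb θ c) (lin2_cont θ c))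
  refine le_trans ?_ hv
  have h1 : ∫ u in J, fib W (fun x => lin θ c x.2 ^ 2) (oo u) ≤
      ∫ u, fib W (fun x => lin θ c x.2 ^ 2) (oo u) :=
    setIntegral_le_integral hi (Eventually.of_forall fun u => fib_nonneg (fun x => sq_nonneg _) _)
  refine le_trans ?_ h1
  have h2 : ∫ u in J, C ≤ ∫ u in J, fib W (fun x => lin θ c x.2 ^ 2) (oo u) :=
    setIntegral_mono_on (integrableOn_const hfin) hi.integrableOn hJ
      fun u hu => (hC u hu).trans (hg u)
  rw [setIntegral_const, smul_eq_mul] at h2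
  exact h2

/-- **The conditional second moments.** -/
theorem second (h1 : ∫ t, dens W t = 1) {s : ℝ} (hs : 0 < s) (θ : Sp n) (c : ℝ)
    (hv : ∫ x, lin θ c x.2 ^ 2 * Real.exp (-W x) ∂(vol 1 n) ≤ s) (τ : ℝ) :
    Hp W θ c 2 (oo τ) 0 ≤ 2 ^ 18 * s * mn W τ ^ (-(1 / 4) : ℝ) * dd W τ := by
  have hd := hW.ld h1
  have hdt : 0 < dd W τ := hd.pos τ
  have hmn := mn_pos hd τ
  have hmn1 := mn_le hd τ
  have hH0 := Hp_nonneg (W := W) θ c 2 (oo τ) 0
  obtain ⟨b, hb⟩ : ∃ b, b = Real.sqrt (Hp W θ c 2 (oo τ) 0 / dd W τ) := ⟨_, rfl⟩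
  have hb0 : 0 ≤ b := by
    rw [hb]
    exact Real.sqrt_nonneg _
  have hb2 : b ^ 2 = Hp W θ c 2 (oo τ) 0 / dd W τ := by
    rw [hb]
    exact Real.sq_sqrt (div_nonneg hH0 hdt.le)
  have hHb : Hp W θ c 2 (oo τ) 0 = dens W (oo τ) * b ^ 2 := by
    rw [hb2]
    have : dens W (oo τ) = dd W τ := rfl
    rw [this]
    field_simp
  have hpow1 : 1 ≤ mn W τ ^ (-(1 / 4) : ℝ) :=
    Real.one_le_rpow_of_pos_of_le_one_of_nonpos hmn hmn1 (by norm_num)
  suffices hmain : b ^ 2 ≤ 2 ^ 18 * s * mn W τ ^ (-(1 / 4) : ℝ) by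
    rw [hHb]
    have h2 := mul_le_mul_of_nonneg_right hmain hdt.le
    have : dens W (oo τ) = dd W τ := rfl
    rw [this]
    linarith
  rcases lt_or_ge b (96 * Real.sqrt s) with hbs | hbs
  · have h2 : b ^ 2 ≤ (96 * Real.sqrt s) ^ 2 := pow_le_pow_left₀ hb0 hbs.le 2
    rw [mul_pow, Real.sq_sqrt hs.le] at h2
    have h3 : 2 ^ 18 * s * 1 ≤ 2 ^ 18 * s * mn W τ ^ (-(1 / 4) : ℝ) :=
      mul_le_mul_of_nonneg_left hpow1 (by positivity)
    linarith
  -- a good point
  obtain ⟨a, a', haa, hI, hfar⟩ := hd.far τ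
  have hgood : ∃ u, a ≤ u ∧ u ≤ a' ∧ (mt W θ (oo u) - c) ^ 2 ≤ 9 * s := by
    by_contra hcon
    push Not at hcon
    have h2 : ∫ u in a..a', 9 * s * dd W u ≤ ∫ u in a..a', fib W (fun x => lin θ c x.2 ^ 2) (oo u) := by
      have hi : Integrable (fun u => fib W (fun x => lin θ c x.2 ^ 2) (oo u)) :=
        oo_integrable (hW.fib_integrable (hW.lin2_pb θ c) (lin2_cont θ c))
      refine intervalIntegral.integral_mono_on haa.le ((hd.int.const_mul _).intervalIntegrable)
        hi.intervalIntegrable fun u hu => ?_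
      refine le_trans ?_ (hW.mt_sq θ c (oo u))
      exact mul_le_mul_of_nonneg_right (hcon u hu.1 hu.2).le (hd.pos u).le
    rw [intervalIntegral.integral_const_mul, hI, intervalIntegral.integral_of_le haa.le] at h2
    have hi : Integrable (fun u => fib W (fun x => lin θ c x.2 ^ 2) (oo u)) :=
      oo_integrable (hW.fib_integrable (hW.lin2_pb θ c) (lin2_cont θ c))
    have h3 : ∫ u in Ioc a a', fib W (fun x => lin θ c x.2 ^ 2) (oo u) ≤
        ∫ u, fib W (fun x => lin θ c x.2 ^ 2) (oo u) :=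
      setIntegral_le_integral hi (Eventually.of_forall fun u =>
        fib_nonneg (fun x => sq_nonneg _) _)
    rw [hW.fib_integral (hW.lin2_pb θ c) (lin2_cont θ c), oo_int] at hv
    linarith
  obtain ⟨u, hau, hua, hu9⟩ := hgood
  have hfu := hfar u hau hua
  have hdu := hd.pos u
  have hne : τ ≠ u := by
    rintro rfl
    rw [sub_self, abs_zero, zero_mul] at hfu
    linarith
  have hm3 : |mt W θ (oo u) - c| ≤ b / 32 := by
    have h2 : |mt W θ (oo u) - c| ≤ 3 * Real.sqrt s := by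
      have h3 := Real.abs_le_sqrt hu9
      have h4 : Real.sqrt (9 * s) = 3 * Real.sqrt s := by
        rw [Real.sqrt_mul (by norm_num)]
        congr 1
        rw [show (9 : ℝ) = 3 ^ 2 by norm_num]
        exact Real.sqrt_sq (by norm_num)
      rw [h4] at h3
      exact h3
    linarith
  have hbpos : 0 < b := lt_of_lt_of_le (by positivity) hbs
  have hm4 := (abs_le.1 hm3).1
  -- the two lower bounds
  have hA : dd W u * (b / 32) ^ 2 ≤ Hp W θ c 2 (oo u) (b / 16) := by
    refine le_trans ?_ (hW.H2_ge θ c (oo u) (b / 16) (by linarith))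
    refine mul_le_mul_of_nonneg_left ?_ hdu.le
    exact pow_le_pow_left₀ (by positivity) (by linarith) 2
  have hB : dd W τ * (b / 32) ^ 2 ≤ Hp W θ c 2 (oo τ) (-(b / 2)) := by
    refine le_trans ?_ (hW.H2_half θ c (oo τ) hb0 hHb)
    refine mul_le_mul_of_nonneg_left ?_ hdt.le
    nlinarith [sq_nonneg b]
  have hdm : dd W u * mn W τ ≤ dd W τ := hd.dens_ge τ u
  set β : ℝ := (b / 32) ^ 2 with hβ
  have hβ0 : 0 < β := by positivity
  -- the lower bound between `u` and `τ`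
  have key : ∀ l : ℝ, 1 / 8 ≤ l → l ≤ 1 / 4 →
      β * dd W u * mn W τ ^ (1 / 4 : ℝ) ≤ Hp W θ c 2 (oo ((1 - l) * u + l * τ)) 0 := by
    intro l hl1 hl2
    have h2 := hW.Hp_lc θ c (p := 2) (by norm_num) (oo u) (oo τ) (b / 16) (-(b / 2))
      (s := 1 - l) (by linarith) (by linarith)
    rw [oo_comb] at h2
    have e1 : 1 - (1 - l) = l := by ring
    rw [e1] at h2
    have h3 : Hp W θ c 2 (oo ((1 - l) * u + l * τ)) ((1 - l) * (b / 16) + l * -(b / 2)) ≤
        Hp W θ c 2 (oo ((1 - l) * u + l * τ)) 0 := by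
      refine hW.Hp_mono θ c 2 _ ?_
      nlinarith
    refine le_trans ?_ (h2.trans h3)
    have h4 : (dd W u * β) ^ (1 - l) * ((dd W u * mn W τ) * β) ^ l ≤
        Hp W θ c 2 (oo u) (b / 16) ^ (1 - l) * Hp W θ c 2 (oo τ) (-(b / 2)) ^ l := by
      refine mul_le_mul (Real.rpow_le_rpow (by positivity) hA (by linarith))
        (Real.rpow_le_rpow (by positivity) ?_ (by linarith)) (Real.rpow_nonneg (by positivity) _)
        (Real.rpow_nonneg (Hp_nonneg θ c 2 _ _) _)
      exact (mul_le_mul_of_nonneg_right hdm hβ0.le).trans hB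
    refine le_trans ?_ h4
    have h5 : ((dd W u * mn W τ) * β) ^ l = (dd W u * β) ^ l * mn W τ ^ l := by
      rw [← Real.mul_rpow (by positivity) hmn.le]
      congr 1
      ring
    have h6 : (dd W u * β) ^ (1 - l) * (dd W u * β) ^ l = dd W u * β := by
      rw [← Real.rpow_add (by positivity)]
      norm_num
    have h7 : mn W τ ^ (1 / 4 : ℝ) ≤ mn W τ ^ l :=
      Real.rpow_le_rpow_of_exponent_ge hmn hmn1 hl2
    calc β * dd W u * mn W τ ^ (1 / 4 : ℝ) = (dd W u * β) * mn W τ ^ (1 / 4 : ℝ) := by ring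
      _ ≤ (dd W u * β) * mn W τ ^ l := mul_le_mul_of_nonneg_left h7 (by positivity)
      _ = (dd W u * β) ^ (1 - l) * ((dd W u * mn W τ) * β) ^ l := by
        rw [h5, ← mul_assoc, h6]
  -- integration
  have hJ := hW.int_le hv (J := uIcc (u + (τ - u) / 8) (u + (τ - u) / 4)) measurableSet_uIcc
    (g := fun y => Hp W θ c 2 (oo y) 0) (C := β * dd W u * mn W τ ^ (1 / 4 : ℝ)) ?_
    (fun y => hW.H2_le θ c (oo y)) (by rw [Real.volume_interval]; exact ENNReal.ofReal_ne_top)
  · rw [Real.volume_interval, ENNReal.toReal_ofReal (abs_nonneg _)] at hJ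
    have e1 : |u + (τ - u) / 4 - (u + (τ - u) / 8)| = |τ - u| / 8 := by
      have : u + (τ - u) / 4 - (u + (τ - u) / 8) = (τ - u) / 8 := by ring
      rw [this, abs_div, abs_of_pos (by norm_num : (0 : ℝ) < 8)]
    rw [e1] at hJ
    have hp4 : 0 < mn W τ ^ (1 / 4 : ℝ) := Real.rpow_pos_of_pos hmn _
    have h8 : 1 / 128 * (β * mn W τ ^ (1 / 4 : ℝ)) ≤ s := by
      refine le_trans ?_ hJ
      have h9 : |τ - u| / 8 * (β * dd W u * mn W τ ^ (1 / 4 : ℝ)) =
          (|τ - u| * dd W u) / 8 * (β * mn W τ ^ (1 / 4 : ℝ)) := by ring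
      rw [h9]
      refine mul_le_mul_of_nonneg_right ?_ (by positivity)
      linarith
    have h10 : mn W τ ^ (-(1 / 4) : ℝ) = (mn W τ ^ (1 / 4 : ℝ))⁻¹ := Real.rpow_neg hmn.le _
    rw [h10, ← div_eq_mul_inv, le_div_iff₀ hp4]
    rw [hβ] at h8
    nlinarith
  · intro y hy
    have hl : ∃ l : ℝ, 1 / 8 ≤ l ∧ l ≤ 1 / 4 ∧ y = (1 - l) * u + l * τ := by
      rcases lt_or_gt_of_ne hne with hlt | hlt
      · have h2 : τ - u < 0 := by linarith
        rw [uIcc_of_ge (by linarith)] at hy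
        refine ⟨(y - u) / (τ - u), ?_, ?_, ?_⟩
        · rw [le_div_iff_of_neg h2]
          linarith [hy.2]
        · rw [div_le_iff_of_neg h2]
          linarith [hy.1]
        · have h3 : (y - u) / (τ - u) * (τ - u) = y - u := div_mul_cancel₀ _ h2.ne
          linarith
      · have h2 : 0 < τ - u := by linarith
        rw [uIcc_of_le (by linarith)] at hy
        refine ⟨(y - u) / (τ - u), ?_, ?_, ?_⟩
        · rw [le_div_iff₀ h2]
          linarith [hy.1]
        · rw [div_le_iff₀ h2]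
          linarith [hy.2]
        · have h3 : (y - u) / (τ - u) * (τ - u) = y - u := div_mul_cancel₀ _ h2.ne'
          linarith
    obtain ⟨l, hl1, hl2, rfl⟩ := hl
    exact key l hl1 hl2

end Std

end Pool.Agent.Q86.FIB
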