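import Pool.Agent.Q86.FIB.LemA

/-!
# The conditional means over a line
-/

set_option autoImplicit false
set_option linter.unusedSectionVars false

namespace Pool.Agent.Q86.FIB

open MeasureTheory Set Filter Topology
open scoped ContDiff ENNReal

variable {n : ℕ}

/-- The bound of the conditional second moments. -/
noncomputable def BB (W : Sp 1 × Sp n → ℝ) (s : ℝ) (τ : ℝ) : ℝ :=
  2 ^ 19 * s * mn W τ ^ (-(1 / 4) : ℝ)

theorem lin_neg (θ : Sp n) (c : ℝ) (z : Sp n) : lin (fun i => - θ i) (-c) z = - lin θ c z := by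
  unfold lin
  simp only [neg_mul, Finset.sum_neg_distrib]
  ring

namespace Std

variable {W : Sp 1 × Sp n → ℝ} (hW : Std W)
include hW

theorem BB_pos (h1 : ∫ t, dens W t = 1) {s : ℝ} (hs : 0 < s) (τ : ℝ) : 0 < BB W s τ := by
  have := mn_pos (hW.ld h1) τ
  unfold BB
  positivity

/-- The second moment is the sum of those of the two parts. -/
theorem H2_add (θ : Sp n) (c : ℝ) (t : Sp 1) : fib W (fun x => lin θ c x.2 ^ 2) t =
    Hp W θ c 2 t 0 + Hp W (fun i => - θ i) (-c) 2 t 0 := by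
  unfold Hp
  rw [← hW.fib_add (pw_pb θ c 2 0) (pw_cont θ c 2 0) (pw_pb _ _ 2 0) (pw_cont _ _ 2 0)]
  refine fib_congr t fun z => ?_
  unfold pw
  simp only [add_zero, lin_neg]
  rcases le_total (lin θ c z) 0 with h | h
  · rw [max_eq_right h, max_eq_left (by linarith)]
    ring
  · rw [max_eq_left h, max_eq_right (by linarith)]
    ring

/-- The first moment is the difference of those of the two parts. -/
theorem H1_sub (θ : Sp n) (c : ℝ) (t : Sp 1) : fib W (fun x => lin θ c x.2) t =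
    Hp W θ c 1 t 0 - Hp W (fun i => - θ i) (-c) 1 t 0 := by
  unfold Hp
  rw [← hW.fib_sub (pw_pb θ c 1 0) (pw_cont θ c 1 0) (pw_pb _ _ 1 0) (pw_cont _ _ 1 0)]
  refine fib_congr t fun z => ?_
  unfold pw
  simp only [add_zero, lin_neg, pow_one]
  rcases le_total (lin θ c z) 0 with h | h
  · rw [max_eq_right h, max_eq_left (by linarith)]
    ring
  · rw [max_eq_left h, max_eq_right (by linarith)]
    ring

theorem second' (h1 : ∫ t, dens W t = 1) {s : ℝ} (hs : 0 < s) (θ : Sp n) (c : ℝ)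
    (hv : ∫ x, lin θ c x.2 ^ 2 * Real.exp (-W x) ∂(vol 1 n) ≤ s) (τ : ℝ) :
    fib W (fun x => lin θ c x.2 ^ 2) (oo τ) ≤ BB W s τ * dd W τ := by
  have a1 := hW.second h1 hs θ c hv τ
  have hv' : ∫ x, lin (fun i => - θ i) (-c) x.2 ^ 2 * Real.exp (-W x) ∂(vol 1 n) ≤ s := by
    refine le_trans (le_of_eq ?_) hv
    refine integral_congr_ae (Eventually.of_forall fun x => ?_)
    simp only [lin_neg]
    ring
  have a2 := hW.second h1 hs (fun i => - θ i) (-c) hv' τ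
  rw [hW.H2_add]
  unfold BB
  have e : (2 : ℝ) ^ 19 * s * mn W τ ^ (-(1 / 4) : ℝ) * dd W τ =
      2 ^ 18 * s * mn W τ ^ (-(1 / 4) : ℝ) * dd W τ +
      2 ^ 18 * s * mn W τ ^ (-(1 / 4) : ℝ) * dd W τ := by ring
  rw [e]
  exact add_le_add a1 a2

/-- The conditional mean. -/
theorem mt_le (h1 : ∫ t, dens W t = 1) {s : ℝ} (hs : 0 < s) (θ : Sp n) (c : ℝ)
    (hv : ∫ x, lin θ c x.2 ^ 2 * Real.exp (-W x) ∂(vol 1 n) ≤ s) (τ : ℝ) :
    |mt W θ (oo τ) - c| ≤ Real.sqrt (BB W s τ) := by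
  refine Real.abs_le_sqrt ?_
  have h2 := hW.mt_sq θ c (oo τ)
  have h3 := hW.second' h1 hs θ c hv τ
  have hd : 0 < dd W τ := (hW.ld h1).pos τ
  have h4 : (mt W θ (oo τ) - c) ^ 2 * dd W τ ≤ BB W s τ * dd W τ := h2.trans h3
  exact le_of_mul_le_mul_right h4 hd

/-- The second moment about the conditional mean is smaller. -/
theorem fib_center (θ : Sp n) (c : ℝ) (t : Sp 1) :
    fib W (fun x => lin θ (mt W θ t) x.2 ^ 2) t ≤ fib W (fun x => lin θ c x.2 ^ 2) t := by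
  obtain ⟨m, hm⟩ : ∃ m, m = mt W θ t := ⟨_, rfl⟩
  rw [← hm]
  have pl := PB.of_htg (lin_htg 1 θ c)
  have cl := (lin_htg 1 θ c).1.continuous
  have e1 : fib W (fun x => lin θ m x.2 ^ 2) t =
      fib W (fun x => (lin θ c x.2 ^ 2 - 2 * (m - c) * lin θ c x.2) + (m - c) ^ 2 * 1) t := by
    refine fib_congr t fun z => ?_
    unfold lin
    ring
  rw [e1, hW.fib_add ((pl.pow 2).sub ((PB.const _).mul pl))
    ((cl.pow 2).sub (continuous_const.mul cl)) ((PB.const _).mul (PB.const 1))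
    (continuous_const.mul continuous_const),
    hW.fib_sub (pl.pow 2) (cl.pow 2) ((PB.const _).mul pl) (continuous_const.mul cl),
    fib_const, fib_const, ← dens_eq, hW.fib_lin, ← hm]
  have hd := hW.dens_pos t
  nlinarith [mul_nonneg hd.le (sq_nonneg (m - c))]

/-- The part above the conditional mean. -/
theorem F_le (h1 : ∫ t, dens W t = 1) {s : ℝ} (hs : 0 < s) (θ : Sp n) (c : ℝ)
    (hv : ∫ x, lin θ c x.2 ^ 2 * Real.exp (-W x) ∂(vol 1 n) ≤ s) (τ : ℝ) :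
    Hp W θ (mt W θ (oo τ)) 1 (oo τ) 0 ≤ Real.sqrt (BB W s τ) * dd W τ := by
  have hd : 0 < dd W τ := (hW.ld h1).pos τ
  have hB := hW.BB_pos h1 hs τ
  have h2 := hW.H1_sq θ (mt W θ (oo τ)) (oo τ) 0
  have h3 := hW.H2_le θ (mt W θ (oo τ)) (oo τ)
  have h4 := hW.fib_center θ c (oo τ)
  have h5 := hW.second' h1 hs θ c hv τ
  have h6 : Hp W θ (mt W θ (oo τ)) 1 (oo τ) 0 ^ 2 ≤ (Real.sqrt (BB W s τ) * dd W τ) ^ 2 := by
    rw [mul_pow, Real.sq_sqrt hB.le]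
    have h7 : dens W (oo τ) = dd W τ := rfl
    rw [h7] at h2
    have h8 := mul_le_mul_of_nonneg_right ((h3.trans h4).trans h5) hd.le
    calc _ ≤ _ := h2
      _ ≤ _ := h8
      _ = _ := by ring
  exact le_of_sq_le_sq h6 (by positivity)

/-- The bound at a step point. -/
theorem BB_step (h1 : ∫ t, dens W t = 1) {s : ℝ} (hs : 0 < s) {τ τ' : ℝ}
    (hG : LD.G (dd W) τ / 2 ≤ LD.G (dd W) τ') (hK : LD.K (dd W) τ / 2 ≤ LD.K (dd W) τ') :
    BB W s τ' ≤ 2 * BB W s τ := by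
  have hm := mn_pos (hW.ld h1) τ
  have hm' := mn_pos (hW.ld h1) τ'
  have h2 : mn W τ / 2 ≤ mn W τ' := by
    unfold mn
    refine le_min (le_trans ?_ hG) (le_trans ?_ hK)
    · exact div_le_div_of_nonneg_right (min_le_left _ _) (by norm_num)
    · exact div_le_div_of_nonneg_right (min_le_right _ _) (by norm_num)
  have h3 : mn W τ' ^ (-(1 / 4) : ℝ) ≤ (mn W τ / 2) ^ (-(1 / 4) : ℝ) :=
    Real.rpow_le_rpow_of_nonpos (by positivity) h2 (by norm_num)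
  have h4 : (mn W τ / 2) ^ (-(1 / 4) : ℝ) = mn W τ ^ (-(1 / 4) : ℝ) * 2 ^ (1 / 4 : ℝ) := by
    rw [Real.div_rpow hm.le (by norm_num), Real.rpow_neg (by norm_num : (0 : ℝ) ≤ 2),
      div_inv_eq_mul]
  have h5 : (2 : ℝ) ^ (1 / 4 : ℝ) ≤ 2 := by
    calc (2 : ℝ) ^ (1 / 4 : ℝ) ≤ (2 : ℝ) ^ (1 : ℝ) :=
        Real.rpow_le_rpow_of_exponent_le (by norm_num) (by norm_num)
      _ = 2 := Real.rpow_one 2
  have h6 : mn W τ' ^ (-(1 / 4) : ℝ) ≤ mn W τ ^ (-(1 / 4) : ℝ) * 2 := by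
    rw [h4] at h3
    exact h3.trans (mul_le_mul_of_nonneg_left h5 (Real.rpow_nonneg hm.le _))
  unfold BB
  calc 2 ^ 19 * s * mn W τ' ^ (-(1 / 4) : ℝ) ≤ 2 ^ 19 * s * (mn W τ ^ (-(1 / 4) : ℝ) * 2) :=
        mul_le_mul_of_nonneg_left h6 (by positivity)
    _ = _ := by ring

/-- **The one sided bound.** -/
theorem F_step (h1 : ∫ t, dens W t = 1) {s : ℝ} (hs : 0 < s) (θ : Sp n) (c : ℝ)
    (hv : ∫ x, lin θ c x.2 ^ 2 * Real.exp (-W x) ∂(vol 1 n) ≤ s) {τ τ' : ℝ}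
    (hd' : dd W τ / 2 ≤ dd W τ')
    (hG : LD.G (dd W) τ / 2 ≤ LD.G (dd W) τ') (hK : LD.K (dd W) τ / 2 ≤ LD.K (dd W) τ')
    {h : ℝ} (h0 : 0 < h) (hh : h < 1) :
    Hp W θ (mt W θ (oo τ)) 1 (oo τ) 0 - h * (5 * Real.sqrt (BB W s τ)) *
      dd W (τ + h * (τ' - τ)) ≤ Hp W θ (mt W θ (oo τ)) 1 (oo (τ + h * (τ' - τ))) 0 := by
  have hd : 0 < dd W τ := (hW.ld h1).pos τ
  have hB := hW.BB_pos h1 hs τ
  obtain ⟨m, hm⟩ : ∃ m, m = mt W θ (oo τ) := ⟨_, rfl⟩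
  obtain ⟨b, hb⟩ : ∃ b, b = Real.sqrt (BB W s τ) := ⟨_, rfl⟩
  have hb0 : 0 ≤ b := by
    rw [hb]
    exact Real.sqrt_nonneg _
  have f1 := hW.F_le h1 hs θ c hv τ
  have m1 := hW.mt_le h1 hs θ c hv τ
  have m2 := hW.mt_le h1 hs θ c hv τ'
  rw [← hm, ← hb] at f1
  rw [← hm, ← hb] at m1
  rw [← hm, ← hb]
  have m3 : Real.sqrt (BB W s τ') ≤ 3 / 2 * b := by
    rw [Real.sqrt_le_left (by positivity), mul_pow, hb, Real.sq_sqrt hB.le]
    have := hW.BB_step h1 hs hG hK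
    linarith
  -- the value at the step point
  have g1 := hW.H1_ge θ m (oo τ') (5 * b)
  have e1 : dens W (oo τ') = dd W τ' := rfl
  rw [e1] at g1
  have g2 : 5 / 2 * b ≤ mt W θ (oo τ') - m + 5 * b := by
    have q1 := abs_le.1 m1
    have q2 := abs_le.1 (m2.trans m3)
    linarith [q1.1, q1.2, q2.1, q2.2]
  have g3 : b * dd W τ ≤ Hp W θ m 1 (oo τ') (5 * b) := by
    refine le_trans ?_ g1
    have g4 : dd W τ / 2 * (5 / 2 * b) ≤ dd W τ' * (mt W θ (oo τ') - m + 5 * b) :=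
      mul_le_mul hd' g2 (by positivity) ((by linarith : (0 : ℝ) ≤ dd W τ'))
    have : 0 ≤ b * dd W τ := by positivity
    linarith
  have g5 := f1.trans g3
  have hα := Hp_nonneg (W := W) θ m 1 (oo τ) 0
  -- log-concavity
  have l1 := hW.Hp_lc θ m one_ne_zero (oo τ') (oo τ) (5 * b) 0 h0 hh
  rw [oo_comb] at l1
  have e2 : h * τ' + (1 - h) * τ = τ + h * (τ' - τ) := by ring
  have e3 : h * (5 * b) + (1 - h) * 0 = h * (5 * b) := by ring
  rw [e2, e3] at l1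
  have l2 : Hp W θ m 1 (oo τ) 0 ≤ Hp W θ m 1 (oo τ') (5 * b) ^ h *
      Hp W θ m 1 (oo τ) 0 ^ (1 - h) := by
    have l3 : Hp W θ m 1 (oo τ) 0 = Hp W θ m 1 (oo τ) 0 ^ h * Hp W θ m 1 (oo τ) 0 ^ (1 - h) := by
      rcases hα.eq_or_lt with h5 | h5
      · rw [← h5, Real.zero_rpow h0.ne', zero_mul]
      · rw [← Real.rpow_add h5]
        norm_num
    calc Hp W θ m 1 (oo τ) 0 = Hp W θ m 1 (oo τ) 0 ^ h * Hp W θ m 1 (oo τ) 0 ^ (1 - h) := l3
      _ ≤ _ := mul_le_mul_of_nonneg_right (Real.rpow_le_rpow hα g5 h0.le)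
        (Real.rpow_nonneg hα _)
  have l4 := hW.H1_le θ m (oo (τ + h * (τ' - τ))) (r := h * (5 * b)) (by positivity)
  have e4 : dens W (oo (τ + h * (τ' - τ))) = dd W (τ + h * (τ' - τ)) := rfl
  rw [e4] at l4
  linarith

end Std

end Pool.Agent.Q86.FIB
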