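import Pool.Agent.Q86.FIB.Third1
import Pool.Agent.Q86.FIB.BaseC

/-!
# The weighted inequality over a line, for functions of compact support
-/

set_option autoImplicit false
set_option linter.unusedSectionVars false

namespace Pool.Agent.Q86.FIB

open MeasureTheory Set Filter Topology
open scoped ContDiff ENNReal

variable {n : ℕ}

/-- the weight -/
noncomputable def om (W : Sp 1 × Sp n → ℝ) (τ : ℝ) : ℝ := mn W τ ^ (-(1 / 4) : ℝ)

/-- The covariance of the conditional measure at `t` is at most `σ`. -/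
def CovF (W : Sp 1 × Sp n → ℝ) (t : Sp 1) (σ : ℝ) : Prop :=
  ∀ θ : Sp n, dens W t * fib W (fun x => (∑ i, θ i * x.2 i) ^ 2) t -
    (fib W (fun x => ∑ i, θ i * x.2 i) t) ^ 2 ≤ σ * (∑ i, θ i ^ 2) * dens W t ^ 2

/-- The Poincaré inequality for the fibres in terms of their covariances. -/
def FibK (W : Sp 1 × Sp n → ℝ) (p κ : ℝ) : Prop :=
  ∀ (t : Sp 1) (σ : ℝ), 0 ≤ σ → CovF W t σ → ∀ φ : Sp n → ℝ, ContDiff ℝ 1 φ → HasCompactSupport φ →
    dens W t * (∫ z, φ z ^ 2 * Real.exp (-W (t, z))) - (∫ z, φ z * Real.exp (-W (t, z))) ^ 2 ≤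
      (p + κ * σ) * dens W t * ∫ z, (∑ i, (pd (sv i) φ z) ^ 2) * Real.exp (-W (t, z))

namespace Std

variable {W : Sp 1 × Sp n → ℝ} (hW : Std W)
include hW

theorem om_ge (h1 : ∫ t, dens W t = 1) (τ : ℝ) : 1 ≤ om W τ :=
  Real.one_le_rpow_of_pos_of_le_one_of_nonpos (mn_pos (hW.ld h1) τ) (mn_le (hW.ld h1) τ)
    (by norm_num)

theorem om_cont (h1 : ∫ t, dens W t = 1) : Continuous (om W) :=
  (hW.mn_cont h1).rpow_const fun t => Or.inl (mn_pos (hW.ld h1) t).ne'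

omit hW in
theorem BB_om (s τ : ℝ) : BB W s τ = 2 ^ 19 * s * om W τ := rfl

/-- The conditional variance of `⟨θ, z⟩`. -/
theorem cov_eq (θ : Sp n) (t : Sp 1) : dens W t * fib W (fun x => (∑ i, θ i * x.2 i) ^ 2) t -
    (fib W (fun x => ∑ i, θ i * x.2 i) t) ^ 2 =
      dens W t * fib W (fun x => lin θ (mt W θ t) x.2 ^ 2) t := by
  obtain ⟨m, hm⟩ : ∃ m, m = mt W θ t := ⟨_, rfl⟩
  rw [← hm]
  have pl := PB.of_htg (lin_htg 1 θ 0)
  have cl := (lin_htg 1 θ 0).1.continuous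
  have e0 : ∀ z : Sp n, ∑ i, θ i * z i = lin θ 0 z := fun z => by
    unfold lin
    ring
  have e1 : fib W (fun x => lin θ m x.2 ^ 2) t =
      fib W (fun x => (lin θ 0 x.2 ^ 2 - 2 * m * lin θ 0 x.2) + m ^ 2 * 1) t := by
    refine fib_congr t fun z => ?_
    unfold lin
    ring
  simp_rw [e0]
  rw [e1, hW.fib_add ((pl.pow 2).sub ((PB.const _).mul pl))
    ((cl.pow 2).sub (continuous_const.mul cl)) ((PB.const _).mul (PB.const 1))
    (continuous_const.mul continuous_const),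
    hW.fib_sub (pl.pow 2) (cl.pow 2) ((PB.const _).mul pl) (continuous_const.mul cl),
    fib_const, fib_const, ← dens_eq, hW.fib_lin, ← hm]
  ring

/-- The covariances of the conditional measures. -/
theorem covF (h1 : ∫ t, dens W t = 1) {s : ℝ} (hs : 0 < s)
    (hv : ∀ θ : Sp n, ∑ i, θ i ^ 2 = 1 →
      ∃ c, ∫ x, lin θ c x.2 ^ 2 * Real.exp (-W x) ∂(vol 1 n) ≤ s) (t : Sp 1) :
    CovF W t (BB W s (t 0)) := by
  intro θ
  rw [hW.cov_eq]
  have hd := hW.dens_pos t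
  obtain ⟨R, hR⟩ : ∃ R, R = Real.sqrt (∑ i, θ i ^ 2) := ⟨_, rfl⟩
  have hR0 : 0 ≤ R := by
    rw [hR]
    exact Real.sqrt_nonneg _
  have hR2 : R ^ 2 = ∑ i, θ i ^ 2 := by
    rw [hR]
    exact Real.sq_sqrt (Finset.sum_nonneg fun i _ => sq_nonneg _)
  rw [← hR2]
  rcases hR0.eq_or_lt with h0 | h0
  · have hθ : ∀ i, θ i = 0 := by
      intro i
      have h2 : ∑ i, θ i ^ 2 = 0 := by rw [← hR2, ← h0]; norm_num
      have h3 := (Finset.sum_eq_zero_iff_of_nonneg fun i _ => sq_nonneg (θ i)).1 h2 i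
        (Finset.mem_univ i)
      exact pow_eq_zero_iff two_ne_zero |>.1 h3
    have h4 : ∀ z : Sp n, lin θ (mt W θ t) z = 0 := by
      intro z
      unfold lin mt
      simp [hθ]
    have h5 : fib W (fun x => lin θ (mt W θ t) x.2 ^ 2) t = 0 := by
      unfold fib
      simp [h4]
    rw [h5, ← h0]
    simp
  · obtain ⟨c, hc⟩ := hv (fun i => θ i / R) (by
      simp_rw [div_pow]
      rw [← Finset.sum_div, ← hR2, div_self (by positivity)])
    have h2 := hW.second' h1 hs _ c hc (t 0)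
    have h3 := hW.fib_center (fun i => θ i / R) c t
    rw [oo_zero] at h2
    have e1 : dd W (t 0) = dens W t := by
      unfold dd
      rw [oo_zero]
    rw [e1] at h2
    have h4 := h3.trans h2
    have h5 : mt W (fun i => θ i / R) t = mt W θ t / R := by
      unfold mt
      rw [Finset.sum_div]
      exact Finset.sum_congr rfl fun i _ => by ring
    have h6 : ∀ z : Sp n, lin (fun i => θ i / R) (mt W θ t / R) z = lin θ (mt W θ t) z / R := by
      intro z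
      unfold lin
      rw [sub_div, Finset.sum_div]
      congr 1
      exact Finset.sum_congr rfl fun i _ => by ring
    have h7 : fib W (fun x => lin θ (mt W θ t) x.2 ^ 2) t =
        R ^ 2 * fib W (fun x => lin (fun i => θ i / R) (mt W (fun i => θ i / R) t) x.2 ^ 2) t := by
      rw [← fib_const]
      refine fib_congr t fun z => ?_
      rw [h5, h6]
      field_simp
    rw [h7]
    have h8 := mul_le_mul_of_nonneg_left h4 (by positivity : 0 ≤ dens W t * R ^ 2)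
    calc dens W t * (R ^ 2 * fib W (fun x => lin (fun i => θ i / R)
          (mt W (fun i => θ i / R) t) x.2 ^ 2) t) = dens W t * R ^ 2 *
          fib W (fun x => lin (fun i => θ i / R) (mt W (fun i => θ i / R) t) x.2 ^ 2) t := by ring
      _ ≤ _ := h8
      _ = _ := by ring

end Std

/-- **The weighted inequality** for functions of compact support. -/
theorem main_line : ∃ C : ℝ, 0 < C ∧ ∀ (n : ℕ) (W : Sp 1 × Sp n → ℝ), Std W →
    ∫ t, dens W t = 1 → ∀ s p κ : ℝ, 0 < s → 0 ≤ p → 0 ≤ κ →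
    (∃ c : Sp 1, ∀ a, ∫ t, (t a - c a) ^ 2 * dens W t ≤ s) →
    (∀ θ : Sp n, ∑ i, θ i ^ 2 = 1 →
      ∃ c, ∫ x, lin θ c x.2 ^ 2 * Real.exp (-W x) ∂(vol 1 n) ≤ s) →
    FibK W p κ → ∀ f : Sp 1 × Sp n → ℝ, ContDiff ℝ 1 f → HasCompactSupport f →
    (∫ x, f x ^ 2 * Real.exp (-W x) ∂(vol 1 n)) - (∫ x, f x * Real.exp (-W x) ∂(vol 1 n)) ^ 2 ≤
      C * (p + (1 + κ) * s) *
        ∫ x, om W (x.1 0) * (gT f x + gZ f x) * Real.exp (-W x) ∂(vol 1 n) := by
  obtain ⟨C, hC, hcr⟩ := base_crude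
  refine ⟨6 * C + 2 ^ 36, by positivity, ?_⟩
  intro n W hW h1 s p κ hs hp hκ hvt hvz hF f hf hfs
  obtain ⟨c, hc⟩ := hvt
  have hB := hcr 1 n W hW h1 s hs c hc
  obtain ⟨C₀, hC₀⟩ : ∃ C₀, C₀ = C * ((1 : ℕ) + 1) * s := ⟨_, rfl⟩
  rw [← hC₀] at hB
  have hC₀0 : 0 ≤ C₀ := by
    rw [hC₀]
    positivity
  have c0 : Continuous (fun t : Sp 1 => t 0) := continuous_apply 0
  have hB0 : ∀ t : Sp 1, 0 < BB W s (t 0) := fun t => hW.BB_pos h1 hs _
  have cBB : Continuous (fun t : Sp 1 => BB W s (t 0)) := (hW.BB_cont h1 s).comp c0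
  have com : Continuous (fun t : Sp 1 => om W (t 0)) := (hW.om_cont h1).comp c0
  have hom : ∀ t : Sp 1, 1 ≤ om W (t 0) := fun t => hW.om_ge h1 _
  -- the fibre inequality
  have hP : FibreP W (fun t => p + κ * BB W s (t 0)) := fun t φ hφ hφs =>
    hF t _ (hB0 t).le (hW.covF h1 hs hvz t) φ hφ hφs
  have hP0 : ∀ t : Sp 1, 0 ≤ p + κ * BB W s (t 0) := fun t =>
    add_nonneg hp (mul_nonneg hκ (hB0 t).le)
  have hPc : Continuous (fun t : Sp 1 => p + κ * BB W s (t 0)) :=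
    continuous_const.add (continuous_const.mul cBB)
  have hN := hW.third h1 hs hvz hf hfs
  obtain ⟨Z1, hZ1⟩ : ∃ Z1, Z1 = ∫ t : Sp 1, BB W s (t 0) * fib W (gZ f) t := ⟨_, rfl⟩
  rw [← hZ1] at hN
  have hmain := hW.main_cs' hP hP0 hPc hC₀0 hB h1 hf hfs (N := 80 * Real.sqrt Z1)
    (by positivity) hN
  refine hmain.trans ?_
  -- comparison of the integrals
  have cgZ := gZ_cont hf
  have pgZ := gZ_pb hf hfs
  have cgT := gT_cont hf
  have pgT := gT_pb hf hfs
  have sgZ : HasCompactSupport (gZ f) := cs_sum _ fun i _ => by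
    simp_rw [pow_two]
    exact (pd_supp hfs _).mul_right
  have sgT : HasCompactSupport (gT f) := cs_sum _ fun i _ => by
    simp_rw [pow_two]
    exact (pd_supp hfs _).mul_right
  have com' : Continuous (fun x : Sp 1 × Sp n => om W (x.1 0)) := com.comp continuous_fst
  have iT : Integrable (fun x => gT f x * Real.exp (-W x)) (vol 1 n) :=
    cc_int _ (cgT.mul hW.wc) sgT.mul_right
  have iZ : Integrable (fun x => gZ f x * Real.exp (-W x)) (vol 1 n) :=
    cc_int _ (cgZ.mul hW.wc) sgZ.mul_right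
  have iT' : Integrable (fun x => om W (x.1 0) * gT f x * Real.exp (-W x)) (vol 1 n) :=
    cc_int _ ((com'.mul cgT).mul hW.wc) (sgT.mul_left.mul_right)
  have iZ' : Integrable (fun x => om W (x.1 0) * gZ f x * Real.exp (-W x)) (vol 1 n) :=
    cc_int _ ((com'.mul cgZ).mul hW.wc) (sgZ.mul_left.mul_right)
  obtain ⟨T, hT⟩ : ∃ T, T = ∫ x, gT f x * Real.exp (-W x) ∂(vol 1 n) := ⟨_, rfl⟩
  obtain ⟨T', hT'⟩ : ∃ T, T = ∫ x, om W (x.1 0) * gT f x * Real.exp (-W x) ∂(vol 1 n) := ⟨_, rfl⟩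
  obtain ⟨Z', hZ'⟩ : ∃ Z, Z = ∫ x, om W (x.1 0) * gZ f x * Real.exp (-W x) ∂(vol 1 n) := ⟨_, rfl⟩
  have hT0 : 0 ≤ T := by
    rw [hT]
    exact integral_nonneg fun x => mul_nonneg (gT_nonneg _ x) (Real.exp_pos _).le
  have hTT : T ≤ T' := by
    rw [hT, hT']
    refine integral_mono iT iT' fun x => mul_le_mul_of_nonneg_right ?_ (Real.exp_pos _).le
    exact le_mul_of_one_le_left (gT_nonneg _ x) (hom x.1)
  have hZ0 : 0 ≤ Z' := by
    rw [hZ']
    refine integral_nonneg fun x => mul_nonneg (mul_nonneg ?_ (gZ_nonneg _ x)) (Real.exp_pos _).le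
    exact zero_le_one.trans (hom x.1)
  have eZ1 : Z1 = 2 ^ 19 * s * Z' := by
    have pB : PB (fun x : Sp 1 × Sp n => BB W s (x.1 0) * gZ f x) :=
      PB.of_supp ((cBB.comp continuous_fst).mul cgZ) sgZ.mul_left
    have h2 := hW.fib_integral pB ((cBB.comp continuous_fst).mul cgZ)
    have h3 : ∫ t, fib W (fun x : Sp 1 × Sp n => BB W s (x.1 0) * gZ f x) t = Z1 := by
      rw [hZ1]
      exact integral_congr_ae (Eventually.of_forall fun t =>
        Std.fib_base (fun t : Sp 1 => BB W s (t 0)) (gZ f) t)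
    rw [← h3, ← h2, hZ', ← integral_const_mul]
    refine integral_congr_ae (Eventually.of_forall fun x => ?_)
    simp only [Std.BB_om]
    ring
  obtain ⟨PZ, hPZ⟩ : ∃ Z, Z = ∫ x, (p + κ * BB W s (x.1 0)) * gZ f x *
    Real.exp (-W x) ∂(vol 1 n) := ⟨_, rfl⟩
  have hPZ0 : 0 ≤ PZ := by
    rw [hPZ]
    exact integral_nonneg fun x => mul_nonneg (mul_nonneg (hP0 x.1) (gZ_nonneg _ x))
      (Real.exp_pos _).le
  have hPZ1 : PZ ≤ (p + 2 ^ 19 * κ * s) * Z' := by
    rw [hPZ, hZ', ← integral_const_mul]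
    refine integral_mono ?_ (iZ'.const_mul _) fun x => ?_
    · exact cc_int _ (((hPc.comp continuous_fst).mul cgZ).mul hW.wc) (sgZ.mul_left.mul_right)
    · have h2 := hom x.1
      have h3 := mul_nonneg (gZ_nonneg f x) (Real.exp_pos (-W x)).le
      have h4 : p + κ * BB W s (x.1 0) ≤ (p + 2 ^ 19 * κ * s) * om W (x.1 0) := by
        rw [Std.BB_om]
        nlinarith
      have h5 := mul_le_mul_of_nonneg_right h4 h3
      simp only
      linarith
  rw [← hT, ← hPZ]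
  have hint : ∫ x, om W (x.1 0) * (gT f x + gZ f x) * Real.exp (-W x) ∂(vol 1 n) = T' + Z' := by
    rw [hT', hZ', ← integral_add iT' iZ']
    refine integral_congr_ae (Eventually.of_forall fun x => ?_)
    simp only
    ring
  rw [hint]
  have s1 : Real.sqrt C₀ ^ 2 = C₀ := Real.sq_sqrt hC₀0
  have s2 : Real.sqrt T ^ 2 = T := Real.sq_sqrt hT0
  have s3 : Real.sqrt PZ ^ 2 = PZ := Real.sq_sqrt hPZ0
  have hZ10 : 0 ≤ Z1 := by
    rw [eZ1]
    positivity
  have s4 : Real.sqrt Z1 ^ 2 = Z1 := Real.sq_sqrt hZ10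
  have s5 : (Real.sqrt C₀ * Real.sqrt T + Real.sqrt PZ + 80 * Real.sqrt Z1) ^ 2 ≤
      3 * ((Real.sqrt C₀ * Real.sqrt T) ^ 2 + Real.sqrt PZ ^ 2 + (80 * Real.sqrt Z1) ^ 2) := by
    nlinarith [sq_nonneg (Real.sqrt C₀ * Real.sqrt T - Real.sqrt PZ),
      sq_nonneg (Real.sqrt C₀ * Real.sqrt T - 80 * Real.sqrt Z1),
      sq_nonneg (Real.sqrt PZ - 80 * Real.sqrt Z1)]
  rw [mul_pow, mul_pow, s1, s2, s3, s4] at s5
  have hCT : C₀ * T ≤ 2 * C * s * T' := by
    have : C₀ = 2 * C * s := by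
      rw [hC₀]
      push_cast
      ring
    rw [this]
    exact mul_le_mul_of_nonneg_left hTT (by positivity)
  have hT0' : 0 ≤ T' := hT0.trans hTT
  have f1 : (Real.sqrt C₀ * Real.sqrt T + Real.sqrt PZ + 80 * Real.sqrt Z1) ^ 2 + PZ ≤
      6 * C * s * T' + (4 * (p + 2 ^ 19 * κ * s) + 19200 * 2 ^ 19 * s) * Z' := by
    have e : 80 ^ 2 * Z1 * 3 = 19200 * 2 ^ 19 * s * Z' := by
      rw [eZ1]
      ring
    linarith
  refine f1.trans ?_
  have g1 : 6 * C * s * T' ≤ (6 * C + 2 ^ 36) * (p + (1 + κ) * s) * T' := by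
    refine mul_le_mul_of_nonneg_right ?_ hT0'
    have q1 : s ≤ p + (1 + κ) * s := by nlinarith
    calc 6 * C * s ≤ (6 * C + 2 ^ 36) * s := mul_le_mul_of_nonneg_right (by linarith) hs.le
      _ ≤ _ := mul_le_mul_of_nonneg_left q1 (by positivity)
  have g2 : (4 * (p + 2 ^ 19 * κ * s) + 19200 * 2 ^ 19 * s) * Z' ≤
      (6 * C + 2 ^ 36) * (p + (1 + κ) * s) * Z' := by
    refine mul_le_mul_of_nonneg_right ?_ hZ0
    have q1 : 0 ≤ κ * s := mul_nonneg hκ hs.le
    have q2 : 0 ≤ p + (1 + κ) * s := by positivity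
    have q3 : 0 ≤ 6 * C * (p + (1 + κ) * s) := by positivity
    have q4 : 4 * (p + 2 ^ 19 * κ * s) + 19200 * 2 ^ 19 * s ≤ 2 ^ 36 * (p + (1 + κ) * s) := by
      norm_num
      nlinarith
    nlinarith
  linarith

end Pool.Agent.Q86.FIB
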