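import Pool.Agent.Q86.FIB.Fibre

/-!
# The corrector in the fibres
-/

set_option autoImplicit false
set_option linter.unusedSectionVars false

namespace Pool.Agent.Q86.FIB

open MeasureTheory Set Filter Topology
open scoped ContDiff

variable {k n : ℕ}

/-! ### Derivatives in the two factors -/

theorem pd_slice {F : Sp k × Sp n → ℝ} (hF : ContDiff ℝ 1 F) (i : Fin n) (t : Sp k) (z : Sp n) :
    pd (sv i) (fun z => F (t, z)) z = pd (zv k i) F (t, z) := by
  have h1 : HasFDerivAt (fun z : Sp n => ((t, z) : Sp k × Sp n))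
      (ContinuousLinearMap.inr ℝ (Sp k) (Sp n)) z :=
    (hasFDerivAt_const t z).prodMk (hasFDerivAt_id z)
  have h2 := ((diff1 hF (t, z)).hasFDerivAt).comp z h1
  have h3 : (fun z => F (t, z)) = F ∘ (fun z : Sp n => ((t, z) : Sp k × Sp n)) := rfl
  unfold pd
  rw [h3, h2.fderiv]
  rfl

theorem slice_c1 {F : Sp k × Sp n → ℝ} (hF : ContDiff ℝ 1 F) (t : Sp k) :
    ContDiff ℝ 1 (fun z => F (t, z)) := hF.comp (contDiff_const.prodMk contDiff_id)

theorem slice_smooth {F : Sp k × Sp n → ℝ} (hF : ContDiff ℝ ∞ F) (t : Sp k) :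
    ContDiff ℝ ∞ (fun z => F (t, z)) := hF.comp (contDiff_const.prodMk contDiff_id)

theorem slice_supp {F : Sp k × Sp n → ℝ} (hs : HasCompactSupport F) (t : Sp k) :
    HasCompactSupport (fun z => F (t, z)) := by
  refine HasCompactSupport.intro (hs.image continuous_snd) fun z hz => ?_
  by_contra h
  exact hz ⟨(t, z), subset_tsupport _ (Function.mem_support.2 h), rfl⟩

theorem pd_fst_t {Q : Sp k → ℝ} (hQ : ContDiff ℝ 1 Q) (a : Fin k) (x : Sp k × Sp n) :
    pd (tv n a) (fun x => Q x.1) x = pd (sv a) Q x.1 := by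
  have h2 := ((diff1 hQ x.1).hasFDerivAt).comp x (hasFDerivAt_fst (𝕜 := ℝ) (p := x))
  have h3 : (fun x : Sp k × Sp n => Q x.1) = Q ∘ Prod.fst := rfl
  unfold pd
  rw [h3, h2.fderiv]
  rfl

theorem pd_fst_z {Q : Sp k → ℝ} (hQ : ContDiff ℝ 1 Q) (i : Fin n) (x : Sp k × Sp n) :
    pd (zv k i) (fun x => Q x.1) x = 0 := by
  have h2 := ((diff1 hQ x.1).hasFDerivAt).comp x (hasFDerivAt_fst (𝕜 := ℝ) (p := x))
  have h3 : (fun x : Sp k × Sp n => Q x.1) = Q ∘ Prod.fst := rfl
  unfold pd
  rw [h3, h2.fderiv]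
  simp [zv]

theorem fst_smooth {Q : Sp k → ℝ} (hQ : ContDiff ℝ ∞ Q) :
    ContDiff ℝ ∞ (fun x : Sp k × Sp n => Q x.1) := hQ.comp contDiff_fst

/-! ### Integrals -/

namespace Std

variable {W : Sp k × Sp n → ℝ} (hW : Std W)
include hW

theorem fib_cs {H H' : Sp k × Sp n → ℝ} (hH : PB H) (hc : Continuous H) (hH' : PB H')
    (hc' : Continuous H') (t : Sp k) :
    (fib W (fun x => H x * H' x) t) ^ 2 ≤ fib W (fun x => H x ^ 2) t * fib W (fun x => H' x ^ 2) t := by
  set s : Sp n → ℝ := fun z => Real.exp (-(1 / 2 * W (t, z))) with hs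
  have hss : ∀ z, s z * s z = Real.exp (-W (t, z)) := by
    intro z
    rw [hs]
    simp only
    rw [← Real.exp_add]
    congr 1
    ring
  have e1 : ∀ z, (H (t, z) * s z) ^ 2 = H (t, z) ^ 2 * Real.exp (-W (t, z)) := fun z => by
    rw [mul_pow, pow_two (s z), hss]
  have e2 : ∀ z, (H' (t, z) * s z) ^ 2 = H' (t, z) ^ 2 * Real.exp (-W (t, z)) := fun z => by
    rw [mul_pow, pow_two (s z), hss]
  have e3 : ∀ z, (H (t, z) * s z) * (H' (t, z) * s z) =
      H (t, z) * H' (t, z) * Real.exp (-W (t, z)) := fun z => by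
    rw [← hss]
    ring
  have j1 : Integrable (fun z => (H (t, z) * s z) ^ 2) := by
    simp_rw [e1]
    exact hW.slice (hH.pow 2) (hc.pow 2) t
  have j2 : Integrable (fun z => (H' (t, z) * s z) ^ 2) := by
    simp_rw [e2]
    exact hW.slice (hH'.pow 2) (hc'.pow 2) t
  have j3 : Integrable (fun z => (H (t, z) * s z) * (H' (t, z) * s z)) := by
    simp_rw [e3]
    exact hW.slice (hH.mul hH') (hc.mul hc') t
  have h := cs_ineq j1 j2 j3
  simp_rw [e1, e2, e3] at h
  exact h

theorem tot_cs {H H' : Sp k × Sp n → ℝ} (hH : PB H) (hc : Continuous H) (hH' : PB H')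
    (hc' : Continuous H') :
    |∫ x, H x * H' x * Real.exp (-W x) ∂(vol k n)| ≤
      Real.sqrt (∫ x, H x ^ 2 * Real.exp (-W x) ∂(vol k n)) *
      Real.sqrt (∫ x, H' x ^ 2 * Real.exp (-W x) ∂(vol k n)) := by
  set s : Sp k × Sp n → ℝ := fun z => Real.exp (-(1 / 2 * W z)) with hs
  have hss : ∀ z, s z * s z = Real.exp (-W z) := by
    intro z
    rw [hs]
    simp only
    rw [← Real.exp_add]
    congr 1
    ring
  have e1 : ∀ z, (H z * s z) ^ 2 = H z ^ 2 * Real.exp (-W z) := fun z => by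
    rw [mul_pow, pow_two (s z), hss]
  have e2 : ∀ z, (H' z * s z) ^ 2 = H' z ^ 2 * Real.exp (-W z) := fun z => by
    rw [mul_pow, pow_two (s z), hss]
  have e3 : ∀ z, (H z * s z) * (H' z * s z) = H z * H' z * Real.exp (-W z) := fun z => by
    rw [← hss]
    ring
  have j1 : Integrable (fun z => (H z * s z) ^ 2) (vol k n) := by
    simp_rw [e1]
    exact hW.integrable (hH.pow 2) (hc.pow 2)
  have j2 : Integrable (fun z => (H' z * s z) ^ 2) (vol k n) := by
    simp_rw [e2]
    exact hW.integrable (hH'.pow 2) (hc'.pow 2)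
  have j3 : Integrable (fun z => (H z * s z) * (H' z * s z)) (vol k n) := by
    simp_rw [e3]
    exact hW.integrable (hH.mul hH') (hc.mul hc')
  have h := cs_abs j1 j2 j3
  simp_rw [e1, e2, e3] at h
  exact h

/-- The conditional mean of a bounded function is bounded. -/
theorem fib_le {H : Sp k × Sp n → ℝ} {C : ℝ} (hc : Continuous H) (h : ∀ x, |H x| ≤ C)
    (t : Sp k) : |fib W H t| ≤ C * dens W t := by
  have hb : PB H := PB.of_bdd h
  have h1 : Integrable (fun z => Real.exp (-W (t, z))) := by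
    have := hW.slice (PB.const 1) continuous_const t
    simpa using this
  have h2 : ‖∫ z, H (t, z) * Real.exp (-W (t, z))‖ ≤ ∫ z, C * Real.exp (-W (t, z)) := by
    refine norm_integral_le_of_norm_le (h1.const_mul C) (Eventually.of_forall fun z => ?_)
    rw [norm_mul, Real.norm_of_nonneg (Real.exp_pos _).le]
    exact mul_le_mul_of_nonneg_right (h _) (Real.exp_pos _).le
  rw [integral_const_mul, Real.norm_eq_abs] at h2
  exact h2

end Std

/-- The conditional mean. -/
noncomputable def cm (W H : Sp k × Sp n → ℝ) (t : Sp k) : ℝ := fib W H t / dens W t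

namespace Std

variable {W : Sp k × Sp n → ℝ} (hW : Std W)
include hW

theorem cm_mul (H : Sp k × Sp n → ℝ) (t : Sp k) : cm W H t * dens W t = fib W H t :=
  div_mul_cancel₀ _ (hW.dens_pos t).ne'

theorem cm_cont {H : Sp k × Sp n → ℝ} (hH : PB H) (hc : Continuous H) : Continuous (cm W H) :=
  (hW.fib_cont hH hc).div hW.dens_smooth.continuous fun t => (hW.dens_pos t).ne'

theorem cm_bdd {H : Sp k × Sp n → ℝ} {C : ℝ} (hc : Continuous H) (h : ∀ x, |H x| ≤ C)
    (t : Sp k) : |cm W H t| ≤ C := by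
  unfold cm
  rw [abs_div, abs_of_pos (hW.dens_pos t), div_le_iff₀ (hW.dens_pos t)]
  exact hW.fib_le hc h t

theorem cm_pb {H : Sp k × Sp n → ℝ} (hc : Continuous H) (hs : HasCompactSupport H) :
    PB (fun x : Sp k × Sp n => cm W H x.1) := by
  obtain ⟨C, hC⟩ := hs.exists_bound_of_continuous hc
  exact PB.of_bdd (C := C) fun x => hW.cm_bdd hc hC x.1

/-- The conditional variance. -/
theorem fib_var {H : Sp k × Sp n → ℝ} (hc : Continuous H) (hs : HasCompactSupport H) (t : Sp k) :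
    fib W (fun x => (H x - cm W H x.1) ^ 2) t * dens W t =
      dens W t * fib W (fun x => H x ^ 2) t - (fib W H t) ^ 2 := by
  have hb := PB.of_supp hc hs
  have h1 : fib W (fun x => (H x - cm W H x.1) ^ 2) t = fib W (fun x => H x ^ 2) t -
      2 * cm W H t * fib W H t + cm W H t ^ 2 * dens W t := by
    have hcm := hW.cm_pb hc hs
    have hcc : Continuous (fun x : Sp k × Sp n => cm W H x.1) :=
      (hW.cm_cont hb hc).comp continuous_fst
    have i1 := hW.slice (hb.pow 2) (hc.pow 2) t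
    have i2 : Integrable (fun z => (2 * cm W H t) * (H (t, z) * Real.exp (-W (t, z)))) :=
      (hW.slice hb hc t).const_mul _
    have i3 : Integrable (fun z => (cm W H t ^ 2) * Real.exp (-W (t, z))) := by
      have := (hW.slice (PB.const 1) continuous_const t).const_mul (cm W H t ^ 2)
      simpa using this
    have i12 : Integrable (fun z => H (t, z) ^ 2 * Real.exp (-W (t, z)) -
      (2 * cm W H t) * (H (t, z) * Real.exp (-W (t, z)))) := i1.sub i2
    unfold fib dens
    rw [← integral_const_mul, ← integral_const_mul, ← integral_sub i1 i2, ← integral_add i12 i3]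
    refine integral_congr_ae (Eventually.of_forall fun z => ?_)
    simp only
    ring
  rw [h1]
  have h2 := hW.cm_mul H t
  have h3 : fib W H t ^ 2 = (cm W H t * dens W t) ^ 2 := by rw [h2]
  rw [h3, ← h2]
  ring

end Std

/-- Poincaré inequality for the marginal. -/
def BaseP (W : Sp k × Sp n → ℝ) (C : ℝ) : Prop :=
  ∀ φ : Sp k → ℝ, ContDiff ℝ 1 φ → HasCompactSupport φ →
    (∫ t, φ t ^ 2 * dens W t) - (∫ t, φ t * dens W t) ^ 2 ≤
      C * ∫ t, (∑ a, (pd (sv a) φ t) ^ 2) * dens W t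

/-- Poincaré inequality for the fibres, with the constant `P t`. -/
def FibreP (W : Sp k × Sp n → ℝ) (P : Sp k → ℝ) : Prop :=
  ∀ t, ∀ φ : Sp n → ℝ, ContDiff ℝ 1 φ → HasCompactSupport φ →
    dens W t * (∫ z, φ z ^ 2 * Real.exp (-W (t, z))) - (∫ z, φ z * Real.exp (-W (t, z))) ^ 2 ≤
      P t * dens W t * ∫ z, (∑ i, (pd (sv i) φ z) ^ 2) * Real.exp (-W (t, z))

/-- The square of the gradient in the fibres. -/
noncomputable def gZ (f : Sp k × Sp n → ℝ) (x : Sp k × Sp n) : ℝ := ∑ i, (pd (zv k i) f x) ^ 2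

/-- The square of the gradient in the base. -/
noncomputable def gT (f : Sp k × Sp n → ℝ) (x : Sp k × Sp n) : ℝ := ∑ a, (pd (tv n a) f x) ^ 2

theorem gZ_cont {f : Sp k × Sp n → ℝ} (hf : ContDiff ℝ 1 f) : Continuous (gZ f) :=
  continuous_finsetSum _ fun _ _ => (pd_cont hf _).pow 2

theorem gT_cont {f : Sp k × Sp n → ℝ} (hf : ContDiff ℝ 1 f) : Continuous (gT f) :=
  continuous_finsetSum _ fun _ _ => (pd_cont hf _).pow 2

theorem gZ_pb {f : Sp k × Sp n → ℝ} (hf : ContDiff ℝ 1 f) (hs : HasCompactSupport f) :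
    PB (gZ f) := PB.sum _ fun _ _ => (PB.of_supp (pd_cont hf _) (pd_supp hs _)).pow 2

theorem gT_pb {f : Sp k × Sp n → ℝ} (hf : ContDiff ℝ 1 f) (hs : HasCompactSupport f) :
    PB (gT f) := PB.sum _ fun _ _ => (PB.of_supp (pd_cont hf _) (pd_supp hs _)).pow 2

theorem gZ_nonneg (f : Sp k × Sp n → ℝ) (x : Sp k × Sp n) : 0 ≤ gZ f x :=
  Finset.sum_nonneg fun _ _ => sq_nonneg _

theorem gT_nonneg (f : Sp k × Sp n → ℝ) (x : Sp k × Sp n) : 0 ≤ gT f x :=
  Finset.sum_nonneg fun _ _ => sq_nonneg _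

namespace Std

variable {W : Sp k × Sp n → ℝ} (hW : Std W)
include hW

/-- The fibre inequality for functions on the whole space. -/
theorem fib_poincare {P : Sp k → ℝ} (hP : FibreP W P) {φ : Sp k × Sp n → ℝ}
    (hφ : ContDiff ℝ 1 φ) (hs : HasCompactSupport φ) (t : Sp k) :
    fib W (fun x => (φ x - cm W φ x.1) ^ 2) t ≤ P t * fib W (gZ φ) t := by
  have h1 := hP t _ (slice_c1 hφ t) (slice_supp hs t)
  have h2 := hW.fib_var hφ.continuous hs t
  have h3 : ∫ z, (∑ i, (pd (sv i) (fun z => φ (t, z)) z) ^ 2) * Real.exp (-W (t, z)) =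
      fib W (gZ φ) t := by
    unfold fib gZ
    simp_rw [pd_slice hφ]
  rw [h3] at h1
  have h4 := hW.dens_pos t
  have h5 : fib W (fun x => (φ x - cm W φ x.1) ^ 2) t * dens W t ≤
      (P t * fib W (gZ φ) t) * dens W t := by
    rw [h2]
    unfold fib at h1 ⊢
    linarith
  exact le_of_mul_le_mul_right h5 h4

end Std

/-- The fluctuation of the base derivatives of `W`, tested with `∇ Q`. -/
noncomputable def RR (W : Sp k × Sp n → ℝ) (Q : Sp k → ℝ) (x : Sp k × Sp n) : ℝ :=
  ∑ a, (pd (tv n a) W x - bb W a x.1) * pd (sv a) Q x.1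

namespace Std

variable {W : Sp k × Sp n → ℝ} (hW : Std W) {Q : Sp k → ℝ} (hQ : ContDiff ℝ ∞ Q)
  (hQs : HasCompactSupport Q)

theorem fst_pb {h : Sp k → ℝ} (hh : Continuous h) (hs : HasCompactSupport h) :
    PB (fun x : Sp k × Sp n => h x.1) := by
  obtain ⟨C, hC⟩ := hs.exists_bound_of_continuous hh
  exact PB.of_bdd (C := C) fun x => hC x.1

include hW hQ

theorem RR_smooth : ContDiff ℝ ∞ (RR W Q) := by
  unfold RR
  exact ContDiff.sum fun a _ => ((htg_pd hW.htg _).1.sub (fst_smooth (hW.bb_smooth a))).mul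
    (fst_smooth (pd_smooth hQ _))

include hQs

theorem RR_pb : PB (RR W Q) := by
  have h : RR W Q = fun x => ∑ a, (pd (tv n a) W x * pd (sv a) Q x.1 -
      bb W a x.1 * pd (sv a) Q x.1) := by
    funext x
    unfold RR
    exact Finset.sum_congr rfl fun a _ => by ring
  rw [h]
  refine PB.sum _ fun a _ => ?_
  refine PB.sub ((PB.of_htg (htg_pd hW.htg _)).mul ?_) ?_
  · exact fst_pb (pd_smooth hQ _).continuous (pd_supp hQs _)
  · exact fst_pb (h := fun t => bb W a t * pd (sv a) Q t)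
      ((hW.bb_smooth a).continuous.mul (pd_smooth hQ _).continuous) (pd_supp hQs _).mul_left

/-- The fluctuation has conditional mean zero. -/
theorem fib_RR (t : Sp k) : fib W (RR W Q) t = 0 := by
  have hpb : ∀ a, PB (fun x : Sp k × Sp n => pd (sv a) Q x.1) := fun a =>
    fst_pb (pd_smooth hQ _).continuous (pd_supp hQs _)
  have h1 : fib W (RR W Q) t = ∑ a, pd (sv a) Q t *
      (fib W (pd (tv n a) W) t - bb W a t * dens W t) := by
    have i0 : Integrable (fun z => Real.exp (-W (t, z))) := by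
      have := hW.slice (PB.const 1) continuous_const t
      simpa using this
    have i1 : ∀ a, Integrable (fun z => pd (tv n a) W (t, z) * Real.exp (-W (t, z))) := fun a =>
      hW.slice (PB.of_htg (htg_pd hW.htg _)) (htg_pd hW.htg _).1.continuous t
    have i2 : ∀ a, Integrable (fun z => pd (sv a) Q t * (pd (tv n a) W (t, z) *
        Real.exp (-W (t, z)) - bb W a t * Real.exp (-W (t, z)))) := fun a =>
      ((i1 a).sub (i0.const_mul _)).const_mul _
    have h2 : ∀ a, pd (sv a) Q t * (fib W (pd (tv n a) W) t - bb W a t * dens W t) =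
        ∫ z, pd (sv a) Q t * (pd (tv n a) W (t, z) * Real.exp (-W (t, z)) -
          bb W a t * Real.exp (-W (t, z))) := by
      intro a
      unfold fib dens
      rw [integral_const_mul, integral_sub (i1 a) (i0.const_mul _), integral_const_mul]
    simp_rw [h2]
    rw [← integral_finsetSum _ fun a _ => i2 a]
    unfold fib RR
    refine integral_congr_ae (Eventually.of_forall fun z => ?_)
    simp only
    rw [Finset.sum_mul]
    exact Finset.sum_congr rfl fun a _ => by ring
  rw [h1]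
  refine Finset.sum_eq_zero fun a _ => ?_
  rw [hW.bb_mul, sub_self, mul_zero]

/-- **The corrector.** -/
theorem corrector {P : Sp k → ℝ} (hP : FibreP W P) (hPc : Continuous P)
    {ε : ℝ} (hε : 0 < ε) :
    ∃ Φ : Sp k × Sp n → ℝ, ContDiff ℝ ∞ Φ ∧ HasCompactSupport Φ ∧
      ∫ x, (RR W Q x + Lop (zv k) W Φ x) ^ 2 * Real.exp (-W x) ∂(vol k n) < ε := by
  have hRc := (hW.RR_smooth hQ).continuous
  have hRp := hW.RR_pb hQ hQs
  -- a bound for `P` on the support of `Q`
  obtain ⟨Pm, hPm⟩ := (IsCompact.bddAbove_image (α := ℝ) hQs hPc.continuousOn)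
  have hPm' : ∀ t ∈ tsupport Q, P t ≤ |Pm| := fun t ht =>
    (hPm ⟨t, ht, rfl⟩).trans (le_abs_self _)
  set F : Sp k → ℝ := fib W (fun x => RR W Q x ^ 2) with hF
  have hF0 : ∀ t, 0 ≤ F t := Std.fib_nonneg fun x => sq_nonneg _
  have hout : ∀ t, t ∉ tsupport Q → ∀ z, RR W Q (t, z) = 0 := by
    intro t ht z
    unfold RR
    refine Finset.sum_eq_zero fun a _ => ?_
    have h1 : pd (sv a) Q t = 0 := by
      have h2 : tsupport (pd (sv a) Q) ⊆ tsupport Q := tsupport_fderiv_apply_subset ℝ (sv a)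
      exact image_eq_zero_of_notMem_tsupport fun h => ht (h2 h)
    simp only [h1, mul_zero]
  refine density (vol k n) (zv k) hW.smooth hRc (hW.integrable (hRp.pow 2) (hRc.pow 2))
    (A := |Pm| * ∫ t, F t) (mul_nonneg (abs_nonneg _) (integral_nonneg hF0)) ?_ hε
  intro φ hφ hφs
  have hφb := PB.of_supp hφ.continuous hφs
  set J : Sp k → ℝ := fib W (gZ φ) with hJ
  have hJ0 : ∀ t, 0 ≤ J t := Std.fib_nonneg fun x => gZ_nonneg φ x
  have hJp := gZ_pb (sm1 hφ) hφs
  have hJc := gZ_cont (sm1 hφ)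
  set φ₁ : Sp k × Sp n → ℝ := fun x => φ x - cm W φ x.1 with hφ₁
  have hφ₁c : Continuous φ₁ := hφ.continuous.sub
    ((hW.cm_cont hφb hφ.continuous).comp continuous_fst)
  have hφ₁b : PB φ₁ := hφb.sub (hW.cm_pb hφ.continuous hφs)
  -- the fibre estimate
  have h1 : ∀ t, fib W (fun x => φ x * RR W Q x) t = fib W (fun x => φ₁ x * RR W Q x) t := by
    intro t
    have h2 : (fun x => φ₁ x * RR W Q x) = fun x => φ x * RR W Q x -
        cm W φ x.1 * RR W Q x := by
      funext x
      rw [hφ₁]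
      ring
    rw [h2, hW.fib_sub (hφb.mul hRp) (hφ.continuous.mul hRc)
      ((hW.cm_pb hφ.continuous hφs).mul hRp)
      (((hW.cm_cont hφb hφ.continuous).comp continuous_fst).mul hRc), Std.fib_base,
      hW.fib_RR hQ hQs, mul_zero, sub_zero]
  have h3 : ∀ t, |fib W (fun x => φ x * RR W Q x) t| ≤
      Real.sqrt |Pm| * (Real.sqrt (J t) * Real.sqrt (F t)) := by
    intro t
    by_cases ht : t ∈ tsupport Q
    · rw [h1]
      have h4 := hW.fib_cs hφ₁b hφ₁c hRp hRc t
      have h5 := hW.fib_poincare hP (sm1 hφ) hφs t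
      have h6 : fib W (fun x => φ₁ x ^ 2) t ≤ |Pm| * J t :=
        h5.trans (mul_le_mul_of_nonneg_right (hPm' t ht) (hJ0 t))
      have h7 : (fib W (fun x => φ₁ x * RR W Q x) t) ^ 2 ≤ |Pm| * J t * F t :=
        h4.trans (mul_le_mul_of_nonneg_right h6 (hF0 t))
      refine (Real.abs_le_sqrt h7).trans (le_of_eq ?_)
      rw [Real.sqrt_mul (mul_nonneg (abs_nonneg _) (hJ0 t)), Real.sqrt_mul (abs_nonneg _)]
      ring
    · have h4 : fib W (fun x => φ x * RR W Q x) t = 0 := by
        unfold fib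
        simp only [hout t ht, mul_zero, zero_mul, integral_zero]
      rw [h4, abs_zero]
      positivity
  -- integration over the base
  have cJ : Continuous J := hW.fib_cont hJp hJc
  have cF : Continuous F := hW.fib_cont (hRp.pow 2) (hRc.pow 2)
  have iJ : Integrable J := hW.fib_integrable hJp hJc
  have iF : Integrable F := hW.fib_integrable (hRp.pow 2) (hRc.pow 2)
  have sJ : ∀ t, Real.sqrt (J t) ^ 2 = J t := fun t => Real.sq_sqrt (hJ0 t)
  have sF : ∀ t, Real.sqrt (F t) ^ 2 = F t := fun t => Real.sq_sqrt (hF0 t)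
  have iJF : Integrable (fun t => Real.sqrt (J t) * Real.sqrt (F t)) := by
    refine (iJ.add iF).mono' ((cJ.sqrt).mul (cF.sqrt)).aestronglyMeasurable
      (Eventually.of_forall fun t => ?_)
    rw [Real.norm_of_nonneg (by positivity)]
    have h8 := sJ t
    have h9 := sF t
    have h10 : (J + F) t = J t + F t := rfl
    rw [h10]
    nlinarith [sq_nonneg (Real.sqrt (J t) - Real.sqrt (F t)), Real.sqrt_nonneg (J t),
      Real.sqrt_nonneg (F t)]
  have h11 : |∫ x, φ x * RR W Q x * Real.exp (-W x) ∂(vol k n)| ≤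
      Real.sqrt |Pm| * (Real.sqrt (∫ t, J t) * Real.sqrt (∫ t, F t)) := by
    rw [hW.fib_integral (hφb.mul hRp) (hφ.continuous.mul hRc)]
    have h12 : ‖∫ t, fib W (fun x => φ x * RR W Q x) t‖ ≤
        ∫ t, Real.sqrt |Pm| * (Real.sqrt (J t) * Real.sqrt (F t)) :=
      norm_integral_le_of_norm_le (iJF.const_mul _) (Eventually.of_forall h3)
    rw [integral_const_mul, Real.norm_eq_abs] at h12
    refine h12.trans (mul_le_mul_of_nonneg_left ?_ (Real.sqrt_nonneg _))
    have h13 := cs_abs (ν := (volume : Measure (Sp k))) (f := fun t => Real.sqrt (J t))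
      (g := fun t => Real.sqrt (F t)) (by simp_rw [sJ]; exact iJ) (by simp_rw [sF]; exact iF) iJF
    simp_rw [sJ, sF] at h13
    exact (le_abs_self _).trans h13
  have h14 : (∫ x, φ x * RR W Q x * Real.exp (-W x) ∂(vol k n)) ^ 2 ≤
      (Real.sqrt |Pm| * (Real.sqrt (∫ t, J t) * Real.sqrt (∫ t, F t))) ^ 2 := by
    rw [← sq_abs]
    exact pow_le_pow_left₀ (abs_nonneg _) h11 2
  rw [mul_pow, mul_pow, Real.sq_sqrt (abs_nonneg _), Real.sq_sqrt (integral_nonneg hJ0),
    Real.sq_sqrt (integral_nonneg hF0)] at h14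
  have h15 : ∫ x, (∑ i, (pd (zv k i) φ x) ^ 2) * Real.exp (-W x) ∂(vol k n) = ∫ t, J t :=
    hW.fib_integral hJp hJc
  rw [h15]
  linarith

end Std

end Pool.Agent.Q86.FIB
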