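import Pool.Agent.Q86.FIB.MainB1

/-!
# The Hessian bound
-/

set_option autoImplicit false
set_option linter.unusedSectionVars false

namespace Pool.Agent.Q86.FIB

open MeasureTheory Set Filter Topology
open scoped ContDiff

variable {k n : ℕ}

namespace Std

variable {W : Sp k × Sp n → ℝ} (hW : Std W)
include hW

omit hW in
theorem fib_const (c : ℝ) (H : Sp k × Sp n → ℝ) (t : Sp k) :
    fib W (fun x => c * H x) t = c * fib W H t :=
  fib_base (fun _ => c) H t

theorem pbW (v : Sp k × Sp n) : PB (pd v W) := PB.of_htg (htg_pd hW.htg v)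

theorem cW (v : Sp k × Sp n) : Continuous (pd v W) := (htg_pd hW.htg v).1.continuous

theorem pbW2 (u v : Sp k × Sp n) : PB (pd u (pd v W)) := PB.of_htg (htg_pd (htg_pd hW.htg v) u)

theorem cW2 (u v : Sp k × Sp n) : Continuous (pd u (pd v W)) :=
  (htg_pd (htg_pd hW.htg v) u).1.continuous

/-- The fibre integral of the product of two fluctuations. -/
theorem fib_fluct (a b : Fin k) (t : Sp k) :
    fib W (fun x => (pd (tv n a) W x - bb W a t) * (pd (tv n b) W x - bb W b t)) t =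
      fib W (fun x => pd (tv n b) W x * pd (tv n a) W x) t - bb W a t * bb W b t * dens W t := by
  have h1 : (fun x : Sp k × Sp n => (pd (tv n a) W x - bb W a t) * (pd (tv n b) W x - bb W b t)) =
      fun x => ((pd (tv n b) W x * pd (tv n a) W x - bb W b t * pd (tv n a) W x) -
        bb W a t * pd (tv n b) W x) + (bb W a t * bb W b t) * 1 := by
    funext x
    ring
  have p1 := (hW.pbW (tv n b)).mul (hW.pbW (tv n a))
  have c1 := (hW.cW (tv n b)).mul (hW.cW (tv n a))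
  have p2 : PB (fun x => bb W b t * pd (tv n a) W x) := (PB.const _).mul (hW.pbW (tv n a))
  have c2 : Continuous (fun x => bb W b t * pd (tv n a) W x) :=
    continuous_const.mul (hW.cW (tv n a))
  have p3 : PB (fun x => bb W a t * pd (tv n b) W x) := (PB.const _).mul (hW.pbW (tv n b))
  have c3 : Continuous (fun x => bb W a t * pd (tv n b) W x) :=
    continuous_const.mul (hW.cW (tv n b))
  rw [h1, hW.fib_add ((p1.sub p2).sub p3) ((c1.sub c2).sub c3) ((PB.const _).mul (PB.const _))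
    (continuous_const.mul continuous_const),
    hW.fib_sub (p1.sub p2) (c1.sub c2) p3 c3, hW.fib_sub p1 c1 p2 c2, fib_const, fib_const,
    fib_const, ← hW.bb_mul, ← hW.bb_mul, ← dens_eq]
  ring

variable {Q : Sp k → ℝ} (hQ : ContDiff ℝ ∞ Q)
include hQ

theorem pd_RR (i : Fin n) (x : Sp k × Sp n) :
    pd (zv k i) (RR W Q) x = ∑ a, pd (zv k i) (pd (tv n a) W) x * pd (sv a) Q x.1 := by
  have h1 : ∀ a : Fin k, ContDiff ℝ 1 (fun x : Sp k × Sp n => pd (tv n a) W x - bb W a x.1) :=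
    fun a => sm1 ((htg_pd hW.htg _).1.sub (fst_smooth (hW.bb_smooth a)))
  have h2 : ∀ a : Fin k, ContDiff ℝ 1 (fun x : Sp k × Sp n => pd (sv a) Q x.1) := fun a =>
    sm1 (fst_smooth (pd_smooth hQ _))
  unfold RR
  rw [pd_sum _ fun a _ => (h1 a).mul (h2 a)]
  refine Finset.sum_congr rfl fun a _ => ?_
  rw [pd_mul (h1 a) (h2 a), pd_fst_z (sm1 (pd_smooth hQ _)),
    pd_sub (sm1 (htg_pd hW.htg _).1) (sm1 (fst_smooth (hW.bb_smooth a))),
    pd_fst_z (sm1 (hW.bb_smooth a))]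
  ring

/-- The curvature term in a fibre. -/
theorem fib_curv (hQs : HasCompactSupport Q) (t : Sp k) :
    fib W (fun x => ∑ a, ∑ b, pd (tv n a) (pd (tv n b) W) x * pd (sv a) Q x.1 * pd (sv b) Q x.1) t -
      fib W (fun x => RR W Q x ^ 2) t =
      (∑ a, ∑ b, pd (sv a) (bb W b) t * pd (sv a) Q t * pd (sv b) Q t) * dens W t := by
  have e1 : fib W (fun x => ∑ a, ∑ b, pd (tv n a) (pd (tv n b) W) x * pd (sv a) Q x.1 *
      pd (sv b) Q x.1) t = ∑ a, ∑ b, (pd (sv a) Q t * pd (sv b) Q t) *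
        fib W (pd (tv n a) (pd (tv n b) W)) t := by
    rw [fib_congr (H' := fun x => ∑ a, ∑ b, (pd (sv a) Q t * pd (sv b) Q t) *
      pd (tv n a) (pd (tv n b) W) x) t (fun z => Finset.sum_congr rfl fun a _ =>
        Finset.sum_congr rfl fun b _ => by ring)]
    rw [hW.fib_sum _ (fun a _ => PB.sum _ fun b _ => (PB.const _).mul (hW.pbW2 _ _))
      (fun a _ => continuous_finsetSum _ fun b _ => continuous_const.mul (hW.cW2 _ _))]
    refine Finset.sum_congr rfl fun a _ => ?_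
    rw [hW.fib_sum _ (fun b _ => (PB.const _).mul (hW.pbW2 _ _))
      (fun b _ => continuous_const.mul (hW.cW2 _ _))]
    exact Finset.sum_congr rfl fun b _ => fib_const _ _ _
  have e2 : fib W (fun x => RR W Q x ^ 2) t = ∑ a, ∑ b, (pd (sv a) Q t * pd (sv b) Q t) *
      (fib W (fun x => pd (tv n b) W x * pd (tv n a) W x) t - bb W a t * bb W b t * dens W t) := by
    have p : ∀ a b : Fin k, PB (fun x : Sp k × Sp n => (pd (sv a) Q t * pd (sv b) Q t) *
        ((pd (tv n a) W x - bb W a t) * (pd (tv n b) W x - bb W b t))) := fun a b =>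
      (PB.const _).mul (((hW.pbW _).sub (PB.const _)).mul ((hW.pbW _).sub (PB.const _)))
    have c : ∀ a b : Fin k, Continuous (fun x : Sp k × Sp n => (pd (sv a) Q t * pd (sv b) Q t) *
        ((pd (tv n a) W x - bb W a t) * (pd (tv n b) W x - bb W b t))) := fun a b =>
      continuous_const.mul (((hW.cW _).sub continuous_const).mul ((hW.cW _).sub continuous_const))
    rw [fib_congr (H' := fun x => ∑ a, ∑ b, (pd (sv a) Q t * pd (sv b) Q t) *
      ((pd (tv n a) W x - bb W a t) * (pd (tv n b) W x - bb W b t))) t (fun z => by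
        unfold RR
        rw [pow_two, Finset.sum_mul_sum]
        exact Finset.sum_congr rfl fun a _ => Finset.sum_congr rfl fun b _ => by ring)]
    rw [hW.fib_sum _ (fun a _ => PB.sum _ fun b _ => p a b)
      (fun a _ => continuous_finsetSum _ fun b _ => c a b)]
    refine Finset.sum_congr rfl fun a _ => ?_
    rw [hW.fib_sum _ (fun b _ => p a b) (fun b _ => c a b)]
    refine Finset.sum_congr rfl fun b _ => ?_
    rw [fib_const, hW.fib_fluct]
  rw [e1, e2, ← Finset.sum_sub_distrib, Finset.sum_mul]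
  refine Finset.sum_congr rfl fun a _ => ?_
  rw [← Finset.sum_sub_distrib, Finset.sum_mul]
  refine Finset.sum_congr rfl fun b _ => ?_
  have h := hW.pd_bb a b t
  have h2 : pd (sv a) (bb W b) t * pd (sv a) Q t * pd (sv b) Q t * dens W t =
      (pd (sv a) Q t * pd (sv b) Q t) * (pd (sv a) (bb W b) t * dens W t) := by ring
  rw [h2, h]
  ring

omit hW hQ in
theorem baseB {A : Sp k → ℝ} (hA : Continuous A) (hs : HasCompactSupport A)
    {H : Sp k × Sp n → ℝ} (hH : PB H) : PB (fun x : Sp k × Sp n => H x * A x.1) :=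
  hH.mul (fst_pb hA hs)

/-- The curvature term. -/
theorem curv_le (hQs : HasCompactSupport Q) :
    ∫ x, (∑ a, ∑ b, pd (tv n a) (pd (tv n b) W) x * pd (sv a) Q x.1 * pd (sv b) Q x.1) *
      Real.exp (-W x) ∂(vol k n) ≤ (∫ x, RR W Q x ^ 2 * Real.exp (-W x) ∂(vol k n)) +
      ∫ t, (Lop sv (Vp W) Q t) ^ 2 * dens W t := by
  have hRc := (hW.RR_smooth hQ).continuous
  have hRp := hW.RR_pb hQ hQs
  have cQ : ∀ a : Fin k, Continuous (fun x : Sp k × Sp n => pd (sv a) Q x.1) := fun a =>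
    (pd_smooth hQ (sv a)).continuous.comp continuous_fst
  have pQ : ∀ a : Fin k, PB (fun x : Sp k × Sp n => pd (sv a) Q x.1) := fun a =>
    fst_pb (pd_smooth hQ _).continuous (pd_supp hQs _)
  have hp : PB (fun x : Sp k × Sp n => ∑ a, ∑ b, pd (tv n a) (pd (tv n b) W) x *
      pd (sv a) Q x.1 * pd (sv b) Q x.1) := PB.sum _ fun a _ => PB.sum _ fun b _ =>
    ((hW.pbW2 _ _).mul (pQ a)).mul (pQ b)
  have hc : Continuous (fun x : Sp k × Sp n => ∑ a, ∑ b, pd (tv n a) (pd (tv n b) W) x *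
      pd (sv a) Q x.1 * pd (sv b) Q x.1) := continuous_finsetSum _ fun a _ =>
    continuous_finsetSum _ fun b _ => ((hW.cW2 _ _).mul (cQ a)).mul (cQ b)
  rw [hW.fib_integral hp hc, hW.fib_integral (hRp.pow 2) (hRc.pow 2)]
  have i1 := hW.fib_integrable hp hc
  have i2 := hW.fib_integrable (hRp.pow 2) (hRc.pow 2)
  have h1 : (∫ t, fib W (fun x => ∑ a, ∑ b, pd (tv n a) (pd (tv n b) W) x * pd (sv a) Q x.1 *
      pd (sv b) Q x.1) t) - ∫ t, fib W (fun x => RR W Q x ^ 2) t =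
      ∫ t, (∑ a, ∑ b, pd (sv a) (bb W b) t * pd (sv a) Q t * pd (sv b) Q t) * dens W t := by
    rw [← integral_sub i1 i2]
    exact integral_congr_ae (Eventually.of_forall fun t => hW.fib_curv hQ hQs t)
  have h2 := bochner (volume : Measure (Sp k)) sv hW.Vp_smooth hQ hQs
  have h3 : 0 ≤ ∫ x, (∑ i, ∑ j, (pd (sv j) (pd (sv i) Q) x) ^ 2) * Real.exp (-Vp W x) :=
    integral_nonneg fun x => mul_nonneg (Finset.sum_nonneg fun i _ => Finset.sum_nonneg
      fun j _ => sq_nonneg _) (Real.exp_pos _).le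
  simp_rw [hW.exp_Vp, hW.pd_Vp] at h2
  simp_rw [hW.exp_Vp] at h3
  linarith

/-- **The Hessian bound.** -/
theorem hess_le (hQs : HasCompactSupport Q) {Φ : Sp k × Sp n → ℝ} (hΦ : ContDiff ℝ ∞ Φ)
    (hΦs : HasCompactSupport Φ) :
    ∫ x, (∑ i, gZ (pd (zv k i) Φ) x) * Real.exp (-W x) ∂(vol k n) ≤
      (∫ x, (RR W Q x + Lop (zv k) W Φ x) ^ 2 * Real.exp (-W x) ∂(vol k n)) +
      ∫ t, (Lop sv (Vp W) Q t) ^ 2 * dens W t := by
  have hRs := hW.RR_smooth hQ
  have hRc := hRs.continuous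
  have hRp := hW.RR_pb hQ hQs
  have hLs := Lop_smooth (zv k) hW.smooth hΦ
  have hLc := hLs.continuous
  have hLsup : HasCompactSupport (Lop (zv k) W Φ) := Lop_supp (zv k) hΦs
  have hLp : PB (Lop (zv k) W Φ) := PB.of_supp hLc hLsup
  have cQ : ∀ a : Fin k, Continuous (fun x : Sp k × Sp n => pd (sv a) Q x.1) := fun a =>
    (pd_smooth hQ (sv a)).continuous.comp continuous_fst
  have pQ : ∀ a : Fin k, PB (fun x : Sp k × Sp n => pd (sv a) Q x.1) := fun a =>
    fst_pb (pd_smooth hQ _).continuous (pd_supp hQs _)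
  have cΦ : ∀ i : Fin n, Continuous (pd (zv k i) Φ) := fun i => (pd_smooth hΦ _).continuous
  have pΦ : ∀ i : Fin n, PB (pd (zv k i) Φ) := fun i => PB.of_supp (cΦ i) (pd_supp hΦs _)
  -- the terms
  set T1 : Sp k × Sp n → ℝ := fun x => ∑ a, ∑ b, pd (tv n a) (pd (tv n b) W) x *
    pd (sv a) Q x.1 * pd (sv b) Q x.1 with hT1
  set T2 : Sp k × Sp n → ℝ := fun x => ∑ i, ∑ a, pd (zv k i) (pd (tv n a) W) x *
    pd (sv a) Q x.1 * pd (zv k i) Φ x with hT2
  set T3 : Sp k × Sp n → ℝ := fun x => ∑ i, ∑ j, pd (zv k i) (pd (zv k j) W) x *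
    pd (zv k i) Φ x * pd (zv k j) Φ x with hT3
  have p1 : PB T1 := PB.sum _ fun a _ => PB.sum _ fun b _ =>
    ((hW.pbW2 _ _).mul (pQ a)).mul (pQ b)
  have c1 : Continuous T1 := continuous_finsetSum _ fun a _ =>
    continuous_finsetSum _ fun b _ => ((hW.cW2 _ _).mul (cQ a)).mul (cQ b)
  have p2 : PB T2 := PB.sum _ fun i _ => PB.sum _ fun a _ =>
    ((hW.pbW2 _ _).mul (pQ a)).mul (pΦ i)
  have c2 : Continuous T2 := continuous_finsetSum _ fun i _ =>
    continuous_finsetSum _ fun a _ => ((hW.cW2 _ _).mul (cQ a)).mul (cΦ i)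
  have p3 : PB T3 := PB.sum _ fun i _ => PB.sum _ fun j _ =>
    ((hW.pbW2 _ _).mul (pΦ i)).mul (pΦ j)
  have c3 : Continuous T3 := continuous_finsetSum _ fun i _ =>
    continuous_finsetSum _ fun j _ => ((hW.cW2 _ _).mul (cΦ i)).mul (cΦ j)
  have i1 := hW.integrable p1 c1
  have i2 := hW.integrable p2 c2
  have i3 := hW.integrable p3 c3
  -- convexity
  have hconv : 0 ≤ (∫ x, T1 x * Real.exp (-W x) ∂(vol k n)) -
      2 * (∫ x, T2 x * Real.exp (-W x) ∂(vol k n)) +
      ∫ x, T3 x * Real.exp (-W x) ∂(vol k n) := by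
    have i12 : Integrable (fun x => T1 x * Real.exp (-W x) -
      2 * (T2 x * Real.exp (-W x))) (vol k n) := i1.sub (i2.const_mul 2)
    rw [← integral_const_mul, ← integral_sub i1 (i2.const_mul 2), ← integral_add i12 i3]
    refine integral_nonneg fun x => ?_
    have h := hess_form (sm2 hW.smooth) hW.conv (fun a : Fin k => tv n a)
      (fun i : Fin n => zv k i) (fun a => pd (sv a) Q x.1) (fun i => pd (zv k i) Φ x) x
    have h2 := mul_nonneg h (Real.exp_pos (-W x)).le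
    have h3 : T1 x * Real.exp (-W x) - 2 * (T2 x * Real.exp (-W x)) + T3 x * Real.exp (-W x) =
      (T1 x - 2 * T2 x + T3 x) * Real.exp (-W x) := by ring
    simp only [Pi.zero_apply]
    rw [h3]
    exact h2
  -- Bochner
  have hB := bochner (vol k n) (zv k) hW.smooth hΦ hΦs
  have hB2 : ∫ x, (∑ i, ∑ j, (pd (zv k j) (pd (zv k i) Φ) x) ^ 2) * Real.exp (-W x) ∂(vol k n) =
      ∫ x, (∑ i, gZ (pd (zv k i) Φ) x) * Real.exp (-W x) ∂(vol k n) := rfl
  rw [hB2] at hB
  have hB3 : ∫ x, (∑ i, ∑ j, pd (zv k i) (pd (zv k j) W) x * pd (zv k i) Φ x *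
      pd (zv k j) Φ x) * Real.exp (-W x) ∂(vol k n) = ∫ x, T3 x * Real.exp (-W x) ∂(vol k n) := rfl
  rw [hB3] at hB
  -- the mixed term
  have hI := ibpL (vol k n) (zv k) (sm1 hW.smooth) (sm2 hΦ) (sm1 hRs) (Or.inl hΦs)
  have hI2 : ∫ x, (∑ i, pd (zv k i) (RR W Q) x * pd (zv k i) Φ x) * Real.exp (-W x) ∂(vol k n) =
      ∫ x, T2 x * Real.exp (-W x) ∂(vol k n) := by
    refine integral_congr_ae (Eventually.of_forall fun x => ?_)
    simp only [hT2, hW.pd_RR hQ, Finset.sum_mul]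
  rw [hI2] at hI
  -- expansion of the square
  have hsq : ∫ x, (RR W Q x + Lop (zv k) W Φ x) ^ 2 * Real.exp (-W x) ∂(vol k n) =
      (∫ x, RR W Q x ^ 2 * Real.exp (-W x) ∂(vol k n)) +
      2 * (∫ x, RR W Q x * Lop (zv k) W Φ x * Real.exp (-W x) ∂(vol k n)) +
      ∫ x, Lop (zv k) W Φ x ^ 2 * Real.exp (-W x) ∂(vol k n) := by
    have j1 := hW.integrable (hRp.pow 2) (hRc.pow 2)
    have j2 := hW.integrable (hRp.mul hLp) (hRc.mul hLc)
    have j3 := hW.integrable (hLp.pow 2) (hLc.pow 2)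
    have j12 : Integrable (fun x => RR W Q x ^ 2 * Real.exp (-W x) +
      2 * (RR W Q x * Lop (zv k) W Φ x * Real.exp (-W x))) (vol k n) := j1.add (j2.const_mul 2)
    rw [← integral_const_mul, ← integral_add j1 (j2.const_mul 2), ← integral_add j12 j3]
    refine integral_congr_ae (Eventually.of_forall fun x => ?_)
    simp only
    ring
  have hcurv := hW.curv_le hQ hQs
  have hT1' : ∫ x, (∑ a, ∑ b, pd (tv n a) (pd (tv n b) W) x * pd (sv a) Q x.1 *
      pd (sv b) Q x.1) * Real.exp (-W x) ∂(vol k n) = ∫ x, T1 x * Real.exp (-W x) ∂(vol k n) := rfl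
  rw [hT1'] at hcurv
  rw [hsq, hI]
  linarith

end Std

end Pool.Agent.Q86.FIB
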