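import Pool.Agent.Q86.FIB.MainB2

/-!
# The base
-/

set_option autoImplicit false
set_option linter.unusedSectionVars false

namespace Pool.Agent.Q86.FIB

open MeasureTheory Set Filter Topology
open scoped ContDiff

variable {k n : ℕ}

/-- bounded continuous functions -/
def BC (A : Sp k → ℝ) : Prop := Continuous A ∧ ∃ C, ∀ t, |A t| ≤ C

namespace BC

theorem of_supp {A : Sp k → ℝ} (hA : Continuous A) (hs : HasCompactSupport A) : BC A := by
  obtain ⟨C, hC⟩ := hs.exists_bound_of_continuous hA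
  exact ⟨hA, C, hC⟩

theorem const (c : ℝ) : BC (fun _ : Sp k => c) := ⟨continuous_const, |c|, fun _ => le_rfl⟩

theorem sub {A B : Sp k → ℝ} (hA : BC A) (hB : BC B) : BC (fun t => A t - B t) := by
  obtain ⟨h1, C, h2⟩ := hA
  obtain ⟨h3, D, h4⟩ := hB
  refine ⟨h1.sub h3, C + D, fun t => ?_⟩
  exact (abs_sub _ _).trans (add_le_add (h2 t) (h4 t))

theorem add {A B : Sp k → ℝ} (hA : BC A) (hB : BC B) : BC (fun t => A t + B t) := by
  obtain ⟨h1, C, h2⟩ := hA
  obtain ⟨h3, D, h4⟩ := hB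
  refine ⟨h1.add h3, C + D, fun t => ?_⟩
  exact (abs_add_le _ _).trans (add_le_add (h2 t) (h4 t))

theorem mul {A B : Sp k → ℝ} (hA : BC A) (hB : BC B) : BC (fun t => A t * B t) := by
  obtain ⟨h1, C, h2⟩ := hA
  obtain ⟨h3, D, h4⟩ := hB
  refine ⟨h1.mul h3, C * D, fun t => ?_⟩
  rw [abs_mul]
  exact mul_le_mul (h2 t) (h4 t) (abs_nonneg _) ((abs_nonneg _).trans (h2 t))

theorem pow2 {A : Sp k → ℝ} (hA : BC A) : BC (fun t => A t ^ 2) := by
  have h := hA.mul hA
  simp_rw [← pow_two] at h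
  exact h

end BC

namespace Std

variable {W : Sp k × Sp n → ℝ} (hW : Std W)
include hW

theorem dens_int : Integrable (dens W) := by
  have h : dens W = fib W (fun _ => 1) := funext (dens_eq W)
  rw [h]
  exact hW.fib_integrable (PB.const 1) continuous_const

theorem bc_int {A : Sp k → ℝ} (hA : BC A) : Integrable (fun t => A t * dens W t) := by
  obtain ⟨h1, C, h2⟩ := hA
  exact hW.dens_int.bdd_mul h1.aestronglyMeasurable (Eventually.of_forall h2)

theorem base_cs {A B : Sp k → ℝ} (hA : BC A) (hB : BC B) :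
    |∫ t, A t * B t * dens W t| ≤ Real.sqrt (∫ t, A t ^ 2 * dens W t) *
      Real.sqrt (∫ t, B t ^ 2 * dens W t) := by
  set s : Sp k → ℝ := fun t => Real.sqrt (dens W t) with hs
  have hss : ∀ t, s t * s t = dens W t := fun t => Real.mul_self_sqrt (hW.dens_pos t).le
  have e1 : ∀ t, (A t * s t) ^ 2 = A t ^ 2 * dens W t := fun t => by
    rw [mul_pow, pow_two (s t), hss]
  have e2 : ∀ t, (B t * s t) ^ 2 = B t ^ 2 * dens W t := fun t => by
    rw [mul_pow, pow_two (s t), hss]
  have e3 : ∀ t, (A t * s t) * (B t * s t) = A t * B t * dens W t := fun t => by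
    rw [← hss]
    ring
  have j1 : Integrable (fun t => (A t * s t) ^ 2) := by
    simp_rw [e1]
    exact hW.bc_int hA.pow2
  have j2 : Integrable (fun t => (B t * s t) ^ 2) := by
    simp_rw [e2]
    exact hW.bc_int hB.pow2
  have j3 : Integrable (fun t => (A t * s t) * (B t * s t)) := by
    simp_rw [e3]
    exact hW.bc_int (hA.mul hB)
  have h := cs_abs j1 j2 j3
  simp_rw [e1, e2, e3] at h
  exact h

variable {Q : Sp k → ℝ} (hQ : ContDiff ℝ ∞ Q) (hQs : HasCompactSupport Q)
include hQ hQs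

theorem bcL : BC (Lop sv (Vp W) Q) :=
  BC.of_supp (Lop_cont sv (sm1 hW.Vp_smooth) (sm2 hQ)) (Lop_supp sv hQs)

theorem int_L : ∫ t, Lop sv (Vp W) Q t * dens W t = 0 := by
  have h := ibpL (volume : Measure (Sp k)) sv (sm1 hW.Vp_smooth) (sm2 hQ)
    (contDiff_const (c := (1 : ℝ))) (Or.inl hQs)
  simp_rw [hW.exp_Vp, one_mul, pd_const, zero_mul, Finset.sum_const_zero, zero_mul] at h
  rw [h]
  simp

omit hQ hQs in
/-- The variance of a bounded continuous function on the base. -/
theorem base_var (h1 : ∫ t, dens W t = 1) {A : Sp k → ℝ} (hA : BC A) :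
    ∫ t, (A t - ∫ t, A t * dens W t) ^ 2 * dens W t =
      (∫ t, A t ^ 2 * dens W t) - (∫ t, A t * dens W t) ^ 2 := by
  obtain ⟨m, hm⟩ : ∃ m : ℝ, m = ∫ t, A t * dens W t := ⟨_, rfl⟩
  rw [← hm]
  have i1 := hW.bc_int hA.pow2
  have i2 : Integrable (fun t => 2 * m * (A t * dens W t)) := (hW.bc_int hA).const_mul _
  have i3 : Integrable (fun t => m ^ 2 * dens W t) := hW.dens_int.const_mul _
  have i12 : Integrable (fun t => A t ^ 2 * dens W t - 2 * m * (A t * dens W t)) := i1.sub i2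
  have h2 : ∫ t, (A t - m) ^ 2 * dens W t = (∫ t, A t ^ 2 * dens W t) -
      (∫ t, 2 * m * (A t * dens W t)) + ∫ t, m ^ 2 * dens W t := by
    rw [← integral_sub i1 i2, ← integral_add i12 i3]
    refine integral_congr_ae (Eventually.of_forall fun t => ?_)
    simp only
    ring
  rw [h2, integral_const_mul, integral_const_mul, h1, ← hm]
  ring

/-- The gradient bound on the base. -/
theorem base_grad {C₀ : ℝ} (hC : 0 ≤ C₀) (hB : BaseP W C₀) (h1 : ∫ t, dens W t = 1) :
    ∫ t, (∑ a, (pd (sv a) Q t) ^ 2) * dens W t ≤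
      C₀ * ∫ t, (Lop sv (Vp W) Q t) ^ 2 * dens W t := by
  have bQ : BC Q := BC.of_supp hQ.continuous hQs
  have bL := hW.bcL hQ hQs
  set L := Lop sv (Vp W) Q with hL
  set m : ℝ := ∫ t, Q t * dens W t with hm
  set G2 : ℝ := ∫ t, (∑ a, (pd (sv a) Q t) ^ 2) * dens W t with hG2
  set S : ℝ := ∫ t, L t ^ 2 * dens W t with hS
  have hG0 : 0 ≤ G2 := integral_nonneg fun t => mul_nonneg (Finset.sum_nonneg fun a _ =>
    sq_nonneg _) (hW.dens_pos t).le
  have hS0 : 0 ≤ S := integral_nonneg fun t => mul_nonneg (sq_nonneg _) (hW.dens_pos t).le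
  have h := ibpL (volume : Measure (Sp k)) sv (sm1 hW.Vp_smooth) (sm2 hQ) (sm1 hQ) (Or.inl hQs)
  simp_rw [hW.exp_Vp] at h
  have h2 : ∫ t, Q t * L t * dens W t = - G2 := by
    rw [hG2, hL, h]
    congr 1
    refine integral_congr_ae (Eventually.of_forall fun t => ?_)
    simp only [pow_two]
  have h3 : ∫ t, (Q t - m) * L t * dens W t = - G2 := by
    have i1 := hW.bc_int (bQ.mul bL)
    have i2 := (hW.bc_int bL).const_mul m
    have h4 : ∫ t, (Q t - m) * L t * dens W t = (∫ t, Q t * L t * dens W t) -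
        m * ∫ t, L t * dens W t := by
      rw [← integral_const_mul, ← integral_sub i1 i2]
      refine integral_congr_ae (Eventually.of_forall fun t => ?_)
      simp only
      ring
    rw [h4, h2, hL, hW.int_L hQ hQs]
    ring
  have h5 := hW.base_cs (bQ.sub (BC.const m)) bL
  rw [h3, abs_neg, abs_of_nonneg hG0, hW.base_var h1 bQ] at h5
  have h6 := hB Q (sm1 hQ) hQs
  have h7 : Real.sqrt ((∫ t, Q t ^ 2 * dens W t) - (∫ t, Q t * dens W t) ^ 2) ≤
      Real.sqrt (C₀ * G2) := Real.sqrt_le_sqrt h6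
  have h8 : G2 ≤ Real.sqrt (C₀ * G2) * Real.sqrt S :=
    h5.trans (mul_le_mul_of_nonneg_right h7 (Real.sqrt_nonneg _))
  rw [← Real.sqrt_mul (mul_nonneg hC hG0)] at h8
  have h9 : G2 ^ 2 ≤ C₀ * G2 * S := by
    have h10 := pow_le_pow_left₀ hG0 h8 2
    rwa [Real.sq_sqrt (mul_nonneg (mul_nonneg hC hG0) hS0)] at h10
  rcases hG0.eq_or_lt with h10 | h10
  · rw [← h10]
    exact mul_nonneg hC hS0
  · have h11 : G2 * G2 ≤ G2 * (C₀ * S) := by nlinarith
    exact le_of_mul_le_mul_left h11 h10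

omit hQ hQs in
/-- The norm of a centred function on the base from its pairings with the generator. -/
theorem base_norm {C₀ : ℝ} (hC : 0 ≤ C₀) (hB : BaseP W C₀) (h1 : ∫ t, dens W t = 1)
    {G : Sp k → ℝ} (hG : BC G) (hG0 : ∫ t, G t * dens W t = 0) {N : ℝ} (hN : 0 ≤ N)
    (h : ∀ Q : Sp k → ℝ, ContDiff ℝ ∞ Q → HasCompactSupport Q →
      |∫ t, G t * Lop sv (Vp W) Q t * dens W t| ≤
        N * Real.sqrt (∫ t, (Lop sv (Vp W) Q t) ^ 2 * dens W t)) :
    ∫ t, G t ^ 2 * dens W t ≤ N ^ 2 := by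
  set g2 : ℝ := ∫ t, G t ^ 2 * dens W t with hg2
  have hg0 : 0 ≤ g2 := integral_nonneg fun t => mul_nonneg (sq_nonneg _) (hW.dens_pos t).le
  -- the hypothesis of the density lemma
  have hyp : ∀ φ : Sp k → ℝ, ContDiff ℝ ∞ φ → HasCompactSupport φ →
      (∫ t, φ t * G t * Real.exp (-Vp W t)) ^ 2 ≤
        (C₀ * g2) * ∫ t, (∑ a, (pd (sv a) φ t) ^ 2) * Real.exp (-Vp W t) := by
    intro φ hφ hφs
    simp_rw [hW.exp_Vp]
    have bφ : BC φ := BC.of_supp hφ.continuous hφs
    set m : ℝ := ∫ t, φ t * dens W t with hm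
    have h3 : ∫ t, (φ t - m) * G t * dens W t = ∫ t, φ t * G t * dens W t := by
      have i1 := hW.bc_int (bφ.mul hG)
      have i2 := (hW.bc_int hG).const_mul m
      have h4 : ∫ t, (φ t - m) * G t * dens W t = (∫ t, φ t * G t * dens W t) -
          m * ∫ t, G t * dens W t := by
        rw [← integral_const_mul, ← integral_sub i1 i2]
        refine integral_congr_ae (Eventually.of_forall fun t => ?_)
        simp only
        ring
      rw [h4, hG0]
      ring
    have h5 := hW.base_cs (bφ.sub (BC.const m)) hG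
    rw [h3, hW.base_var h1 bφ] at h5
    have h6 := hB φ (sm1 hφ) hφs
    set D : ℝ := ∫ t, (∑ a, (pd (sv a) φ t) ^ 2) * dens W t with hD
    have hD0 : 0 ≤ D := integral_nonneg fun t => mul_nonneg (Finset.sum_nonneg fun a _ =>
      sq_nonneg _) (hW.dens_pos t).le
    have h7 : |∫ t, φ t * G t * dens W t| ≤ Real.sqrt (C₀ * D) * Real.sqrt g2 :=
      h5.trans (mul_le_mul_of_nonneg_right (Real.sqrt_le_sqrt h6) (Real.sqrt_nonneg _))
    have h8 := pow_le_pow_left₀ (abs_nonneg _) h7 2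
    rw [sq_abs, mul_pow, Real.sq_sqrt (mul_nonneg hC hD0), Real.sq_sqrt hg0] at h8
    linarith
  have hGi : Integrable (fun t => G t ^ 2 * Real.exp (-Vp W t)) := by
    simp_rw [hW.exp_Vp]
    exact hW.bc_int hG.pow2
  -- the estimate for each `ε`
  have key : ∀ δ : ℝ, 0 < δ → g2 ≤ Real.sqrt g2 * δ + N * (Real.sqrt g2 + δ) := by
    intro δ hδ
    obtain ⟨Q, hQ, hQs, hε⟩ := density (volume : Measure (Sp k)) sv hW.Vp_smooth hG.1 hGi
      (mul_nonneg hC hg0) hyp (pow_pos hδ 2)
    simp_rw [hW.exp_Vp] at hε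
    have bL := hW.bcL hQ hQs
    have hs := h Q hQ hQs
    set L := Lop sv (Vp W) Q with hL
    have bGL : BC (fun t => G t + L t) := hG.add bL
    have hδ2 : Real.sqrt (∫ t, (G t + L t) ^ 2 * dens W t) ≤ δ := by
      rw [Real.sqrt_le_left hδ.le]
      exact hε.le
    -- the norm of `L`
    have hLn : Real.sqrt (∫ t, L t ^ 2 * dens W t) ≤ Real.sqrt g2 + δ := by
      set a2 : ℝ := ∫ t, L t ^ 2 * dens W t with ha2
      have ha0 : 0 ≤ a2 := integral_nonneg fun t => mul_nonneg (sq_nonneg _) (hW.dens_pos t).le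
      have c1 := hW.base_cs bL bGL
      have c2 := hW.base_cs bL hG
      have e1 : a2 = (∫ t, L t * (G t + L t) * dens W t) - ∫ t, L t * G t * dens W t := by
        rw [← integral_sub (hW.bc_int (bL.mul bGL)) (hW.bc_int (bL.mul hG))]
        refine integral_congr_ae (Eventually.of_forall fun t => ?_)
        simp only
        ring
      have e2 : a2 ≤ Real.sqrt a2 * δ + Real.sqrt a2 * Real.sqrt g2 := by
        have f1 := (le_abs_self _).trans (c1.trans
          (mul_le_mul_of_nonneg_left hδ2 (Real.sqrt_nonneg a2)))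
        have f2 := (neg_le_abs _).trans c2
        linarith
      have e3 : Real.sqrt a2 * Real.sqrt a2 = a2 := Real.mul_self_sqrt ha0
      rcases (Real.sqrt_nonneg a2).eq_or_lt with h0 | h0
      · rw [← h0]
        positivity
      · have e4 : Real.sqrt a2 * Real.sqrt a2 ≤ Real.sqrt a2 * (Real.sqrt g2 + δ) := by
          rw [e3]
          linarith
        exact le_of_mul_le_mul_left e4 h0
    have e5 : g2 = (∫ t, G t * (G t + L t) * dens W t) - ∫ t, G t * L t * dens W t := by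
      rw [← integral_sub (hW.bc_int (hG.mul bGL)) (hW.bc_int (hG.mul bL))]
      refine integral_congr_ae (Eventually.of_forall fun t => ?_)
      simp only
      ring
    have c3 := hW.base_cs hG bGL
    have f3 : ∫ t, G t * (G t + L t) * dens W t ≤ Real.sqrt g2 * δ :=
      (le_abs_self _).trans (c3.trans (mul_le_mul_of_nonneg_left hδ2 (Real.sqrt_nonneg g2)))
    have f4 : -∫ t, G t * L t * dens W t ≤ N * (Real.sqrt g2 + δ) :=
      (neg_le_abs _).trans (hs.trans (mul_le_mul_of_nonneg_left hLn hN))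
    linarith
  -- let `δ` tend to zero
  have hlim : g2 ≤ N * Real.sqrt g2 := by
    refine le_of_forall_pos_le_add fun η hη => ?_
    have hd : 0 < η / (Real.sqrt g2 + N + 1) := div_pos hη (by positivity)
    have h2 := key _ hd
    have h3 : η / (Real.sqrt g2 + N + 1) * (Real.sqrt g2 + N + 1) = η :=
      div_mul_cancel₀ _ (by positivity)
    linarith
  have h5 : Real.sqrt g2 * Real.sqrt g2 = g2 := Real.mul_self_sqrt hg0
  have h6 : Real.sqrt g2 ≤ N := by
    rcases (Real.sqrt_nonneg g2).eq_or_lt with h0 | h0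
    · rw [← h0]
      exact hN
    · have h7 : Real.sqrt g2 * Real.sqrt g2 ≤ Real.sqrt g2 * N := by
        rw [h5]
        linarith
      exact le_of_mul_le_mul_left h7 h0
  have h7 := pow_le_pow_left₀ (Real.sqrt_nonneg _) h6 2
  rwa [Real.sq_sqrt hg0] at h7

end Std

end Pool.Agent.Q86.FIB
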