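import Pool.Agent.Q86.FIB.MainB3

/-!
# The conditional mean
-/

set_option autoImplicit false
set_option linter.unusedSectionVars false

namespace Pool.Agent.Q86.FIB

open MeasureTheory Set Filter Topology
open scoped ContDiff

variable {k n : ℕ}

/-- coordinate of the second factor -/
def zc (k : ℕ) {n : ℕ} (i : Fin n) (x : Sp k × Sp n) : ℝ := x.2 i

theorem zc_htg (i : Fin n) : Function.HasTemperateGrowth (zc k i) :=
  ((ContinuousLinearMap.proj (R := ℝ) (φ := fun _ : Fin n => ℝ) i).comp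
    (ContinuousLinearMap.snd ℝ (Sp k) (Sp n))).hasTemperateGrowth

theorem pd_zc_t (i : Fin n) (a : Fin k) (x : Sp k × Sp n) : pd (tv n a) (zc k i) x = 0 := by
  have h : zc k i = ((ContinuousLinearMap.proj (R := ℝ) (φ := fun _ : Fin n => ℝ) i).comp
    (ContinuousLinearMap.snd ℝ (Sp k) (Sp n))) := rfl
  unfold pd
  rw [h, ContinuousLinearMap.fderiv]
  simp [tv]

theorem pd_coord (i j : Fin n) (z : Sp n) :
    pd (sv j) (fun z : Sp n => z i) z = if i = j then 1 else 0 := by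
  have h : (fun z : Sp n => z i) =
    (ContinuousLinearMap.proj (R := ℝ) (φ := fun _ : Fin n => ℝ) i) := rfl
  unfold pd
  rw [h, ContinuousLinearMap.fderiv]
  simp [sv, Pi.single_apply]

/-- The conditional mean of the `i`-th coordinate. -/
noncomputable def mz (W : Sp k × Sp n → ℝ) (i : Fin n) (t : Sp k) : ℝ := cm W (zc k i) t

/-- The conditional mean is Lipschitz. -/
def MeanLip (W : Sp k × Sp n → ℝ) (L : ℝ) : Prop :=
  ∀ t t' : Sp k, ∑ i, (mz W i t - mz W i t') ^ 2 ≤ L ^ 2 * ∑ a, (t a - t' a) ^ 2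

theorem Lop_slice {W Φ : Sp k × Sp n → ℝ} (hW : ContDiff ℝ 1 W) (hΦ : ContDiff ℝ 2 Φ) (t : Sp k)
    (z : Sp n) : Lop sv (fun z => W (t, z)) (fun z => Φ (t, z)) z = Lop (zv k) W Φ (t, z) := by
  unfold Lop
  refine Finset.sum_congr rfl fun i _ => ?_
  have h1 : pd (sv i) (fun z => Φ (t, z)) = fun z => pd (zv k i) Φ (t, z) := funext fun z =>
    pd_slice (hΦ.of_le (by norm_num)) i t z
  rw [pd_slice hW, h1, pd_slice (pd_one hΦ _)]

namespace Std

variable {W : Sp k × Sp n → ℝ} (hW : Std W)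
include hW

theorem mz_smooth (i : Fin n) : ContDiff ℝ ∞ (mz W i) :=
  (hW.fib_smooth (zc_htg i)).div hW.dens_smooth fun t => (hW.dens_pos t).ne'

theorem mz_mul (i : Fin n) (t : Sp k) : mz W i t * dens W t = fib W (zc k i) t :=
  hW.cm_mul _ _

theorem pd_mz (i : Fin n) (a : Fin k) (t : Sp k) : pd (sv a) (mz W i) t * dens W t =
    mz W i t * fib W (pd (tv n a) W) t - fib W (fun x => zc k i x * pd (tv n a) W x) t := by
  have h2 : (fun t => mz W i t * dens W t) = fib W (zc k i) := funext (hW.mz_mul i)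
  have h3 : pd (sv a) (fun t => mz W i t * dens W t) t =
      pd (sv a) (mz W i) t * dens W t + mz W i t * pd (sv a) (dens W) t :=
    pd_mul (sm1 (hW.mz_smooth i)) (sm1 hW.dens_smooth) _ _
  rw [h2, hW.pd_fib (zc_htg i), hW.pd_dens] at h3
  have h4 : fib W (fun x => pd (tv n a) (zc k i) x - zc k i x * pd (tv n a) W x) t =
      -fib W (fun x => zc k i x * pd (tv n a) W x) t := by
    rw [fib_congr (H' := fun x => (-1) * (zc k i x * pd (tv n a) W x)) t fun z => by
      rw [pd_zc_t]; ring, fib_const]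
    ring
  rw [h4] at h3
  linarith

/-- Integration by parts in the fibre. -/
theorem fib_ibp {Φ : Sp k × Sp n → ℝ} (hΦ : ContDiff ℝ ∞ Φ) (hΦs : HasCompactSupport Φ)
    (i : Fin n) (t : Sp k) :
    fib W (pd (zv k i) Φ) t = - fib W (fun x => zc k i x * Lop (zv k) W Φ x) t := by
  have hc : ContDiff ℝ 1 (fun z : Sp n => z i) := by fun_prop
  have h := ibpL (volume : Measure (Sp n)) sv (slice_c1 (sm1 hW.smooth) t)
    (sm2 (slice_smooth hΦ t)) hc (Or.inl (slice_supp hΦs t))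
  simp_rw [Lop_slice (sm1 hW.smooth) (sm2 hΦ), pd_slice (sm1 hΦ), pd_coord] at h
  have h2 : ∀ z : Sp n, (∑ j, (if i = j then (1 : ℝ) else 0) * pd (zv k j) Φ (t, z)) =
      pd (zv k i) Φ (t, z) := by
    intro z
    simp
  simp_rw [h2] at h
  have h3 : fib W (pd (zv k i) Φ) t = ∫ z, pd (zv k i) Φ (t, z) * Real.exp (-W (t, z)) := rfl
  have h4 : fib W (fun x => zc k i x * Lop (zv k) W Φ x) t =
    ∫ z : Sp n, z i * Lop (zv k) W Φ (t, z) * Real.exp (-W (t, z)) := rfl
  rw [h3, h4, h, neg_neg]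

variable {Q : Sp k → ℝ} (hQ : ContDiff ℝ ∞ Q) (hQs : HasCompactSupport Q)
include hQ hQs

/-- The pairing of the fluctuation with the coordinates. -/
theorem fib_zR (i : Fin n) (t : Sp k) : fib W (fun x => zc k i x * RR W Q x) t =
    -((∑ a, pd (sv a) Q t * pd (sv a) (mz W i) t) * dens W t) := by
  have pz : PB (zc k i) := PB.of_htg (zc_htg i)
  have cz : Continuous (zc k i) := (zc_htg (k := k) i).1.continuous
  have p : ∀ a : Fin k, PB (fun x : Sp k × Sp n => pd (sv a) Q t *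
      (zc k i x * pd (tv n a) W x - bb W a t * zc k i x)) := fun a =>
    (PB.const _).mul ((pz.mul (hW.pbW _)).sub ((PB.const _).mul pz))
  have c : ∀ a : Fin k, Continuous (fun x : Sp k × Sp n => pd (sv a) Q t *
      (zc k i x * pd (tv n a) W x - bb W a t * zc k i x)) := fun a =>
    continuous_const.mul ((cz.mul (hW.cW _)).sub (continuous_const.mul cz))
  rw [fib_congr (H' := fun x => ∑ a, pd (sv a) Q t *
    (zc k i x * pd (tv n a) W x - bb W a t * zc k i x)) t fun z => by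
      unfold RR
      rw [Finset.mul_sum]
      exact Finset.sum_congr rfl fun a _ => by ring,
    hW.fib_sum _ (fun a _ => p a) (fun a _ => c a), Finset.sum_mul, ← Finset.sum_neg_distrib]
  refine Finset.sum_congr rfl fun a _ => ?_
  rw [fib_const, hW.fib_sub (pz.mul (hW.pbW _)) (cz.mul (hW.cW _)) ((PB.const _).mul pz)
    (continuous_const.mul cz), fib_const, ← hW.mz_mul]
  have h1 := hW.pd_mz i a t
  rw [← hW.bb_mul] at h1
  have h2 : -(pd (sv a) Q t * pd (sv a) (mz W i) t * dens W t) =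
      -(pd (sv a) Q t * (pd (sv a) (mz W i) t * dens W t)) := by ring
  rw [h2, h1]
  ring

/-- The conditional mean of the fibre derivatives of the corrector. -/
theorem fib_pdPhi {Φ : Sp k × Sp n → ℝ} (hΦ : ContDiff ℝ ∞ Φ) (hΦs : HasCompactSupport Φ)
    (i : Fin n) (t : Sp k) : fib W (pd (zv k i) Φ) t =
      - fib W (fun x => zc k i x * (RR W Q x + Lop (zv k) W Φ x)) t -
        (∑ a, pd (sv a) Q t * pd (sv a) (mz W i) t) * dens W t := by
  have pz : PB (zc k i) := PB.of_htg (zc_htg i)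
  have cz : Continuous (zc k i) := (zc_htg (k := k) i).1.continuous
  have hRc := (hW.RR_smooth hQ).continuous
  have hRp := hW.RR_pb hQ hQs
  have hLc := (Lop_smooth (zv k) hW.smooth hΦ).continuous
  have hLp : PB (Lop (zv k) W Φ) := PB.of_supp hLc (Lop_supp (zv k) hΦs)
  rw [hW.fib_ibp hΦ hΦs]
  have h1 : fib W (fun x => zc k i x * (RR W Q x + Lop (zv k) W Φ x)) t =
      fib W (fun x => zc k i x * RR W Q x) t + fib W (fun x => zc k i x * Lop (zv k) W Φ x) t := by
    rw [← hW.fib_add (pz.mul hRp) (cz.mul hRc) (pz.mul hLp) (cz.mul hLc)]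
    exact fib_congr t fun z => by ring
  rw [h1, hW.fib_zR hQ hQs]
  ring

omit hQ hQs in
/-- The derivative of the conditional mean. -/
theorem mean_lip {L : ℝ} (hL : MeanLip W L) (c : Fin k → ℝ) (t : Sp k) :
    ∑ i, (∑ a, c a * pd (sv a) (mz W i) t) ^ 2 ≤ L ^ 2 * ∑ a, c a ^ 2 := by
  set v : Sp k := c with hv
  have hlin : ∀ i, pd v (mz W i) t = ∑ a, c a * pd (sv a) (mz W i) t := by
    intro i
    have h : v = ∑ a, c a • (sv a : Sp k) := by
      rw [hv]
      unfold sv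
      funext b
      simp [Finset.sum_apply, Pi.single_apply]
    unfold pd
    rw [h]
    simp only [map_sum, map_smul, smul_eq_mul]
  have hder : ∀ i, Tendsto (fun s : ℝ => s⁻¹ * (mz W i (t + s • v) - mz W i t)) (𝓝[≠] 0)
      (𝓝 (pd v (mz W i) t)) := by
    intro i
    have hl : HasDerivAt (fun s : ℝ => t + s • v) v 0 := by
      have := ((hasDerivAt_id (0 : ℝ)).smul_const v).const_add t
      simpa using this
    have h1 : HasFDerivAt (mz W i) (fderiv ℝ (mz W i) (t + (0 : ℝ) • v)) (t + (0 : ℝ) • v) :=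
      (diff1 (sm1 (hW.mz_smooth i)) _).hasFDerivAt
    have h2 := (h1.comp_hasDerivAt (0 : ℝ) hl)
    have h3 := hasDerivAt_iff_tendsto_slope_zero.1 h2
    simp only [Function.comp, zero_add, zero_smul, add_zero, smul_eq_mul] at h3
    exact h3
  have hlim : Tendsto (fun s : ℝ => ∑ i, (s⁻¹ * (mz W i (t + s • v) - mz W i t)) ^ 2) (𝓝[≠] 0)
      (𝓝 (∑ i, (pd v (mz W i) t) ^ 2)) := tendsto_finsetSum _ fun i _ => (hder i).pow 2
  have hle : ∀ᶠ s : ℝ in 𝓝[≠] 0,
      ∑ i, (s⁻¹ * (mz W i (t + s • v) - mz W i t)) ^ 2 ≤ L ^ 2 * ∑ a, c a ^ 2 := by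
    filter_upwards [self_mem_nhdsWithin] with s hs
    have hs0 : s ≠ 0 := hs
    have h := hL (t + s • v) t
    have h2 : ∀ a, ((t + s • v) a - t a) ^ 2 = s ^ 2 * c a ^ 2 := by
      intro a
      simp only [Pi.add_apply, Pi.smul_apply, smul_eq_mul, hv]
      ring
    simp_rw [h2, ← Finset.mul_sum] at h
    have h3 : ∀ i, (s⁻¹ * (mz W i (t + s • v) - mz W i t)) ^ 2 =
        (s⁻¹) ^ 2 * (mz W i (t + s • v) - mz W i t) ^ 2 := fun i => by ring
    simp_rw [h3, ← Finset.mul_sum]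
    calc (s⁻¹) ^ 2 * ∑ i, (mz W i (t + s • v) - mz W i t) ^ 2 ≤
        (s⁻¹) ^ 2 * (L ^ 2 * (s ^ 2 * ∑ a, c a ^ 2)) :=
          mul_le_mul_of_nonneg_left h (sq_nonneg _)
      _ = L ^ 2 * ∑ a, c a ^ 2 := by
          field_simp
  have h := le_of_tendsto hlim hle
  simp_rw [hlin] at h
  exact h

end Std

end Pool.Agent.Q86.FIB
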