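import Pool.Agent.Q86.FIB.MainB4

/-!
# The key estimate
-/

set_option autoImplicit false
set_option linter.unusedSectionVars false

namespace Pool.Agent.Q86.FIB

open MeasureTheory Set Filter Topology
open scoped ContDiff

variable {k n : ℕ}

theorem sum_cs {ι : Type} [Fintype ι] (a b : ι → ℝ) :
    |∑ i, a i * b i| ≤ Real.sqrt (∑ i, a i ^ 2) * Real.sqrt (∑ i, b i ^ 2) := by
  rw [← Real.sqrt_mul (Finset.sum_nonneg fun i _ => sq_nonneg _)]
  exact Real.abs_le_sqrt (Finset.sum_mul_sq_le_sq_mul_sq _ _ _)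

/-- Cauchy-Schwarz for a function which is bounded by a product of square roots. -/
theorem int_sqrt_le {A B g : Sp k → ℝ} (cA : Continuous A) (cB : Continuous B)
    (iA : Integrable A) (iB : Integrable B) (hA : ∀ t, 0 ≤ A t) (hB : ∀ t, 0 ≤ B t)
    (h : ∀ t, |g t| ≤ Real.sqrt (A t) * Real.sqrt (B t)) :
    |∫ t, g t| ≤ Real.sqrt (∫ t, A t) * Real.sqrt (∫ t, B t) := by
  have sA : ∀ t, Real.sqrt (A t) ^ 2 = A t := fun t => Real.sq_sqrt (hA t)
  have sB : ∀ t, Real.sqrt (B t) ^ 2 = B t := fun t => Real.sq_sqrt (hB t)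
  have iAB : Integrable (fun t => Real.sqrt (A t) * Real.sqrt (B t)) := by
    refine (iA.add iB).mono' ((cA.sqrt).mul (cB.sqrt)).aestronglyMeasurable
      (Eventually.of_forall fun t => ?_)
    rw [Real.norm_of_nonneg (by positivity)]
    have h8 := sA t
    have h9 := sB t
    have h10 : (A + B) t = A t + B t := rfl
    rw [h10]
    nlinarith [sq_nonneg (Real.sqrt (A t) - Real.sqrt (B t)), Real.sqrt_nonneg (A t),
      Real.sqrt_nonneg (B t)]
  have h12 : ‖∫ t, g t‖ ≤ ∫ t, Real.sqrt (A t) * Real.sqrt (B t) :=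
    norm_integral_le_of_norm_le iAB (Eventually.of_forall h)
  rw [Real.norm_eq_abs] at h12
  refine h12.trans ?_
  have h13 := cs_abs (ν := (volume : Measure (Sp k))) (f := fun t => Real.sqrt (A t))
    (g := fun t => Real.sqrt (B t)) (by simp_rw [sA]; exact iA) (by simp_rw [sB]; exact iB) iAB
  simp_rw [sA, sB] at h13
  exact (le_abs_self _).trans h13

namespace Std

variable {W : Sp k × Sp n → ℝ} (hW : Std W) {Q : Sp k → ℝ} (hQ : ContDiff ℝ ∞ Q)
  (hQs : HasCompactSupport Q) {f : Sp k × Sp n → ℝ} (hf : ContDiff ℝ 1 f)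
  (hfs : HasCompactSupport f)

section one

include hW hQ hf hfs

/-- The pairing with the generator of the base. -/
theorem pair_base : ∫ x, f x * Lop sv (Vp W) Q x.1 * Real.exp (-W x) ∂(vol k n) =
    - (∫ x, (∑ a, pd (tv n a) f x * pd (sv a) Q x.1) * Real.exp (-W x) ∂(vol k n)) +
      ∫ x, f x * RR W Q x * Real.exp (-W x) ∂(vol k n) := by
  have cw := hW.wc
  have cQ : ∀ a : Fin k, Continuous (fun x : Sp k × Sp n => pd (sv a) Q x.1) := fun a =>
    (pd_smooth hQ (sv a)).continuous.comp continuous_fst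
  have cQ2 : ∀ a : Fin k, Continuous (fun x : Sp k × Sp n => pd (sv a) (pd (sv a) Q) x.1) :=
    fun a => (pd_smooth (pd_smooth hQ (sv a)) (sv a)).continuous.comp continuous_fst
  have cb : ∀ a : Fin k, Continuous (fun x : Sp k × Sp n => bb W a x.1) := fun a =>
    (hW.bb_smooth a).continuous.comp continuous_fst
  -- the terms
  have i1 : ∀ a : Fin k, Integrable (fun x => pd (tv n a) f x * pd (sv a) Q x.1 *
      Real.exp (-W x)) (vol k n) := fun a =>
    cc_int _ (((pd_cont hf _).mul (cQ a)).mul cw) ((pd_supp hfs _).mul_right.mul_right)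
  have i2 : ∀ a : Fin k, Integrable (fun x => f x * pd (sv a) (pd (sv a) Q) x.1 *
      Real.exp (-W x)) (vol k n) := fun a =>
    cc_int _ ((hf.continuous.mul (cQ2 a)).mul cw) (hfs.mul_right.mul_right)
  have i3 : ∀ a : Fin k, Integrable (fun x => f x * pd (sv a) Q x.1 * pd (tv n a) W x *
      Real.exp (-W x)) (vol k n) := fun a =>
    cc_int _ (((hf.continuous.mul (cQ a)).mul (hW.cW _)).mul cw)
      (hfs.mul_right.mul_right.mul_right)
  have i4 : ∀ a : Fin k, Integrable (fun x => f x * pd (sv a) Q x.1 * bb W a x.1 *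
      Real.exp (-W x)) (vol k n) := fun a =>
    cc_int _ (((hf.continuous.mul (cQ a)).mul (cb a)).mul cw)
      (hfs.mul_right.mul_right.mul_right)
  have e1 : ∀ a : Fin k, (∫ x, pd (tv n a) f x * pd (sv a) Q x.1 * Real.exp (-W x) ∂(vol k n)) +
      ∫ x, f x * pd (sv a) (pd (sv a) Q) x.1 * Real.exp (-W x) ∂(vol k n) =
      ∫ x, f x * pd (sv a) Q x.1 * pd (tv n a) W x * Real.exp (-W x) ∂(vol k n) := by
    intro a
    have hF : ContDiff ℝ 1 (fun x : Sp k × Sp n => f x * pd (sv a) Q x.1) :=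
      hf.mul (sm1 (fst_smooth (pd_smooth hQ _)))
    have h := int_pd_w (vol k n) hF (sm1 hW.smooth) hfs.mul_right (tv n a)
    rw [← h, ← integral_add (i1 a) (i2 a)]
    refine integral_congr_ae (Eventually.of_forall fun x => ?_)
    simp only
    rw [pd_mul hf (sm1 (fst_smooth (pd_smooth hQ _))), pd_fst_t (sm1 (pd_smooth hQ _))]
    ring
  -- the left side
  have e2 : ∫ x, f x * Lop sv (Vp W) Q x.1 * Real.exp (-W x) ∂(vol k n) =
      ∑ a, ((∫ x, f x * pd (sv a) (pd (sv a) Q) x.1 * Real.exp (-W x) ∂(vol k n)) -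
        ∫ x, f x * pd (sv a) Q x.1 * bb W a x.1 * Real.exp (-W x) ∂(vol k n)) := by
    have i24 : ∀ a : Fin k, Integrable (fun x => f x * pd (sv a) (pd (sv a) Q) x.1 *
        Real.exp (-W x) - f x * pd (sv a) Q x.1 * bb W a x.1 * Real.exp (-W x)) (vol k n) :=
      fun a => (i2 a).sub (i4 a)
    simp_rw [← integral_sub (i2 _) (i4 _)]
    rw [← integral_finsetSum _ fun a _ => i24 a]
    refine integral_congr_ae (Eventually.of_forall fun x => ?_)
    simp only
    unfold Lop
    rw [Finset.mul_sum, Finset.sum_mul]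
    refine Finset.sum_congr rfl fun a _ => ?_
    rw [hW.pd_Vp]
    ring
  have e3 : ∫ x, (∑ a, pd (tv n a) f x * pd (sv a) Q x.1) * Real.exp (-W x) ∂(vol k n) =
      ∑ a, ∫ x, pd (tv n a) f x * pd (sv a) Q x.1 * Real.exp (-W x) ∂(vol k n) := by
    rw [← integral_finsetSum _ fun a _ => i1 a]
    refine integral_congr_ae (Eventually.of_forall fun x => ?_)
    simp only
    rw [Finset.sum_mul]
  have e4 : ∫ x, f x * RR W Q x * Real.exp (-W x) ∂(vol k n) =
      ∑ a, ((∫ x, f x * pd (sv a) Q x.1 * pd (tv n a) W x * Real.exp (-W x) ∂(vol k n)) -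
        ∫ x, f x * pd (sv a) Q x.1 * bb W a x.1 * Real.exp (-W x) ∂(vol k n)) := by
    have i34 : ∀ a : Fin k, Integrable (fun x => f x * pd (sv a) Q x.1 * pd (tv n a) W x *
        Real.exp (-W x) - f x * pd (sv a) Q x.1 * bb W a x.1 * Real.exp (-W x)) (vol k n) :=
      fun a => (i3 a).sub (i4 a)
    simp_rw [← integral_sub (i3 _) (i4 _)]
    rw [← integral_finsetSum _ fun a _ => i34 a]
    refine integral_congr_ae (Eventually.of_forall fun x => ?_)
    simp only
    unfold RR
    rw [Finset.mul_sum, Finset.sum_mul]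
    exact Finset.sum_congr rfl fun a _ => by ring
  rw [e2, e3, e4, ← Finset.sum_neg_distrib, ← Finset.sum_add_distrib]
  refine Finset.sum_congr rfl fun a _ => ?_
  have h := e1 a
  linarith

end one

section two

include hW hf hfs

/-- Jensen's inequality. -/
theorem cm_sq_le (i : Fin n) (t : Sp k) :
    cm W (pd (zv k i) f) t ^ 2 * dens W t ≤ fib W (fun x => pd (zv k i) f x ^ 2) t := by
  have hc := pd_cont hf (zv k i)
  have hp : PB (pd (zv k i) f) := PB.of_supp hc (pd_supp hfs _)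
  have h := hW.fib_cs hp hc (PB.const 1) continuous_const t
  simp_rw [mul_one, one_pow] at h
  rw [← dens_eq, ← hW.cm_mul] at h
  have hd := hW.dens_pos t
  have h2 : (cm W (pd (zv k i) f) t ^ 2 * dens W t) * dens W t ≤
      fib W (fun x => pd (zv k i) f x ^ 2) t * dens W t := by
    linarith
  exact le_of_mul_le_mul_right h2 hd

theorem fib_gZ (t : Sp k) : fib W (gZ f) t = ∑ i, fib W (fun x => pd (zv k i) f x ^ 2) t := by
  unfold gZ
  rw [hW.fib_sum _ (fun i _ => (PB.of_supp (pd_cont hf _) (pd_supp hfs _)).pow 2)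
    (fun i _ => (pd_cont hf _).pow 2)]

theorem cm_gZ_le (t : Sp k) :
    (∑ i, cm W (pd (zv k i) f) t ^ 2) * dens W t ≤ fib W (gZ f) t := by
  rw [hW.fib_gZ hf hfs, Finset.sum_mul]
  exact Finset.sum_le_sum fun i _ => hW.cm_sq_le hf hfs i t

theorem fib_gZ_supp : HasCompactSupport (fib W (gZ f)) := by
  refine HasCompactSupport.intro (hfs.image continuous_fst) fun t ht => ?_
  unfold fib
  have h : ∀ z, gZ f (t, z) = 0 := by
    intro z
    unfold gZ
    refine Finset.sum_eq_zero fun i _ => ?_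
    have h2 : tsupport (pd (zv k i) f) ⊆ tsupport f := tsupport_fderiv_apply_subset ℝ (zv k i)
    rw [image_eq_zero_of_notMem_tsupport fun h => ht ⟨(t, z), h2 h, rfl⟩]
    norm_num
  simp_rw [h, zero_mul, integral_zero]

end two

end Std

end Pool.Agent.Q86.FIB
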