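import Pool.Agent.Q86.FIB.MainB5

/-!
# The pairing with the corrector
-/

set_option autoImplicit false
set_option linter.unusedSectionVars false

namespace Pool.Agent.Q86.FIB

open MeasureTheory Set Filter Topology
open scoped ContDiff

variable {k n : ℕ}

namespace Std

variable {W : Sp k × Sp n → ℝ} (hW : Std W) {Q : Sp k → ℝ} (hQ : ContDiff ℝ ∞ Q)
  (hQs : HasCompactSupport Q) {f : Sp k × Sp n → ℝ} (hf : ContDiff ℝ 1 f)
  (hfs : HasCompactSupport f) {Φ : Sp k × Sp n → ℝ} (hΦ : ContDiff ℝ ∞ Φ)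
  (hΦs : HasCompactSupport Φ)

include hW hf hfs hΦ hΦs

/-- The centred part. -/
theorem part_one {P : Sp k → ℝ} (hP : FibreP W P) (hP0 : ∀ t, 0 ≤ P t) (t : Sp k) :
    |∑ i, fib W (fun x => pd (zv k i) f x * (pd (zv k i) Φ x - cm W (pd (zv k i) Φ) x.1)) t| ≤
      Real.sqrt (P t * fib W (gZ f) t) *
        Real.sqrt (fib W (fun x => ∑ i, gZ (pd (zv k i) Φ) x) t) := by
  have cf : ∀ i : Fin n, Continuous (pd (zv k i) f) := fun i => pd_cont hf _
  have pf : ∀ i : Fin n, PB (pd (zv k i) f) := fun i => PB.of_supp (cf i) (pd_supp hfs _)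
  have sΦ : ∀ i : Fin n, ContDiff ℝ ∞ (pd (zv k i) Φ) := fun i => pd_smooth hΦ _
  have uΦ : ∀ i : Fin n, HasCompactSupport (pd (zv k i) Φ) := fun i => pd_supp hΦs _
  have pΦ : ∀ i : Fin n, PB (pd (zv k i) Φ) := fun i => PB.of_supp (sΦ i).continuous (uΦ i)
  have cg : ∀ i : Fin n, Continuous (fun x : Sp k × Sp n => pd (zv k i) Φ x -
      cm W (pd (zv k i) Φ) x.1) := fun i => (sΦ i).continuous.sub
    ((hW.cm_cont (pΦ i) (sΦ i).continuous).comp continuous_fst)
  have pg : ∀ i : Fin n, PB (fun x : Sp k × Sp n => pd (zv k i) Φ x -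
      cm W (pd (zv k i) Φ) x.1) := fun i => (pΦ i).sub (hW.cm_pb (sΦ i).continuous (uΦ i))
  set α : Fin n → ℝ := fun i => Real.sqrt (fib W (fun x => pd (zv k i) f x ^ 2) t) with hα
  set β : Fin n → ℝ := fun i => Real.sqrt (P t * fib W (gZ (pd (zv k i) Φ)) t) with hβ
  have hα0 : ∀ i, 0 ≤ fib W (fun x => pd (zv k i) f x ^ 2) t := fun i =>
    fib_nonneg (fun x => sq_nonneg _) t
  have hβ0 : ∀ i, 0 ≤ P t * fib W (gZ (pd (zv k i) Φ)) t := fun i =>
    mul_nonneg (hP0 t) (fib_nonneg (fun x => gZ_nonneg _ x) t)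
  have h1 : ∀ i, |fib W (fun x => pd (zv k i) f x * (pd (zv k i) Φ x -
      cm W (pd (zv k i) Φ) x.1)) t| ≤ α i * β i := by
    intro i
    have h2 := hW.fib_cs (pf i) (cf i) (pg i) (cg i) t
    have h3 := hW.fib_poincare hP (sm1 (sΦ i)) (uΦ i) t
    have h4 : (fib W (fun x => pd (zv k i) f x * (pd (zv k i) Φ x -
        cm W (pd (zv k i) Φ) x.1)) t) ^ 2 ≤ fib W (fun x => pd (zv k i) f x ^ 2) t *
        (P t * fib W (gZ (pd (zv k i) Φ)) t) :=
      h2.trans (mul_le_mul_of_nonneg_left h3 (hα0 i))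
    refine (Real.abs_le_sqrt h4).trans (le_of_eq ?_)
    rw [Real.sqrt_mul (hα0 i)]
  have h5 : |∑ i, fib W (fun x => pd (zv k i) f x * (pd (zv k i) Φ x -
      cm W (pd (zv k i) Φ) x.1)) t| ≤ ∑ i, α i * β i :=
    (Finset.abs_sum_le_sum_abs _ _).trans (Finset.sum_le_sum fun i _ => h1 i)
  have h6 := (le_abs_self _).trans (sum_cs α β)
  have h7 : ∑ i, α i ^ 2 = fib W (gZ f) t := by
    rw [hW.fib_gZ hf hfs]
    exact Finset.sum_congr rfl fun i _ => Real.sq_sqrt (hα0 i)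
  have h8 : ∑ i, β i ^ 2 = P t * fib W (fun x => ∑ i, gZ (pd (zv k i) Φ) x) t := by
    rw [hW.fib_sum _ (fun i _ => gZ_pb (sm1 (sΦ i)) (uΦ i)) (fun i _ => gZ_cont (sm1 (sΦ i))),
      Finset.mul_sum]
    exact Finset.sum_congr rfl fun i _ => Real.sq_sqrt (hβ0 i)
  rw [h7, h8] at h6
  refine (h5.trans h6).trans (le_of_eq ?_)
  rw [Real.sqrt_mul (hP0 t), Real.sqrt_mul (hP0 t)]
  ring

include hQ hQs

/-- **The pairing with the corrector.** -/
theorem pair_Phi {P : Sp k → ℝ} (hP : FibreP W P) (hP0 : ∀ t, 0 ≤ P t) (hPc : Continuous P)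
    {L : ℝ} (hL0 : 0 ≤ L) (hL : MeanLip W L) :
    |∫ x, (∑ i, pd (zv k i) f x * pd (zv k i) Φ x) * Real.exp (-W x) ∂(vol k n)| ≤
      Real.sqrt (∫ t, P t * fib W (gZ f) t) *
        Real.sqrt (∫ x, (∑ i, gZ (pd (zv k i) Φ) x) * Real.exp (-W x) ∂(vol k n)) +
      Real.sqrt (∫ x, (∑ i, cm W (pd (zv k i) f) x.1 * zc k i x) ^ 2 *
        Real.exp (-W x) ∂(vol k n)) *
        Real.sqrt (∫ x, (RR W Q x + Lop (zv k) W Φ x) ^ 2 * Real.exp (-W x) ∂(vol k n)) +
      L * Real.sqrt (∫ x, gZ f x * Real.exp (-W x) ∂(vol k n)) *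
        Real.sqrt (∫ t, (∑ a, pd (sv a) Q t ^ 2) * dens W t) := by
  have cf : ∀ i : Fin n, Continuous (pd (zv k i) f) := fun i => pd_cont hf _
  have pf : ∀ i : Fin n, PB (pd (zv k i) f) := fun i => PB.of_supp (cf i) (pd_supp hfs _)
  have ccf : ∀ i : Fin n, Continuous (cm W (pd (zv k i) f)) := fun i => hW.cm_cont (pf i) (cf i)
  have pcf : ∀ i : Fin n, PB (fun x : Sp k × Sp n => cm W (pd (zv k i) f) x.1) := fun i =>
    hW.cm_pb (cf i) (pd_supp hfs _)
  have sΦ : ∀ i : Fin n, ContDiff ℝ ∞ (pd (zv k i) Φ) := fun i => pd_smooth hΦ _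
  have uΦ : ∀ i : Fin n, HasCompactSupport (pd (zv k i) Φ) := fun i => pd_supp hΦs _
  have pΦ : ∀ i : Fin n, PB (pd (zv k i) Φ) := fun i => PB.of_supp (sΦ i).continuous (uΦ i)
  have cg : ∀ i : Fin n, Continuous (fun x : Sp k × Sp n => pd (zv k i) Φ x -
      cm W (pd (zv k i) Φ) x.1) := fun i => (sΦ i).continuous.sub
    ((hW.cm_cont (pΦ i) (sΦ i).continuous).comp continuous_fst)
  have pg : ∀ i : Fin n, PB (fun x : Sp k × Sp n => pd (zv k i) Φ x -
      cm W (pd (zv k i) Φ) x.1) := fun i => (pΦ i).sub (hW.cm_pb (sΦ i).continuous (uΦ i))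
  have pz : ∀ i : Fin n, PB (zc k i) := fun i => PB.of_htg (zc_htg i)
  have cz : ∀ i : Fin n, Continuous (zc k i) := fun i => (zc_htg (k := k) i).1.continuous
  have hRc := (hW.RR_smooth hQ).continuous
  have hRp := hW.RR_pb hQ hQs
  have hLc := (Lop_smooth (zv k) hW.smooth hΦ).continuous
  have hLp : PB (Lop (zv k) W Φ) := PB.of_supp hLc (Lop_supp (zv k) hΦs)
  set ρ : Sp k × Sp n → ℝ := fun x => RR W Q x + Lop (zv k) W Φ x with hρ
  have cρ : Continuous ρ := hRc.add hLc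
  have pρ : PB ρ := hRp.add hLp
  set H1 : Sp k × Sp n → ℝ := fun x => ∑ i, pd (zv k i) f x * (pd (zv k i) Φ x -
    cm W (pd (zv k i) Φ) x.1) with hH1
  have pH1 : PB H1 := PB.sum _ fun i _ => (pf i).mul (pg i)
  have cH1 : Continuous H1 := continuous_finsetSum _ fun i _ => (cf i).mul (cg i)
  set H2 : Sp k × Sp n → ℝ := fun x => (∑ i, cm W (pd (zv k i) f) x.1 * zc k i x) with hH2
  have pH2 : PB H2 := PB.sum _ fun i _ => (pcf i).mul (pz i)
  have cH2 : Continuous H2 := continuous_finsetSum _ fun i _ =>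
    ((ccf i).comp continuous_fst).mul (cz i)
  set g3 : Sp k → ℝ := fun t => (∑ i, cm W (pd (zv k i) f) t *
    (∑ a, pd (sv a) Q t * pd (sv a) (mz W i) t)) with hg3
  have bcm : ∀ i : Fin n, BC (cm W (pd (zv k i) f)) := fun i => by
    obtain ⟨C, hC⟩ := (pd_supp hfs (zv k i)).exists_bound_of_continuous (cf i)
    exact ⟨ccf i, C, fun t => hW.cm_bdd (cf i) hC t⟩
  have bQm : ∀ i : Fin n, BC (fun t => ∑ a, pd (sv a) Q t * pd (sv a) (mz W i) t) := fun i =>
    BC.of_supp (continuous_finsetSum _ fun a _ => (pd_smooth hQ _).continuous.mul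
      (pd_smooth (hW.mz_smooth i) _).continuous) (cs_sum _ fun a _ => (pd_supp hQs _).mul_right)
  have bg3 : BC g3 := by
    rw [hg3]
    refine ⟨continuous_finsetSum _ fun i _ => ((bcm i).mul (bQm i)).1, ?_⟩
    have h := fun i => ((bcm i).mul (bQm i)).2
    choose C hC using h
    refine ⟨∑ i, C i, fun t => (Finset.abs_sum_le_sum_abs _ _).trans
      (Finset.sum_le_sum fun i _ => hC i t)⟩
  -- the fibre identity
  have hid : ∀ t, fib W (fun x => ∑ i, pd (zv k i) f x * pd (zv k i) Φ x) t =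
      fib W H1 t - fib W (fun x => H2 x * ρ x) t - g3 t * dens W t := by
    intro t
    have e1 : fib W (fun x => ∑ i, pd (zv k i) f x * pd (zv k i) Φ x) t =
        ∑ i, fib W (fun x => pd (zv k i) f x * pd (zv k i) Φ x) t :=
      hW.fib_sum _ (fun i _ => (pf i).mul (pΦ i)) (fun i _ => (cf i).mul (sΦ i).continuous) t
    have e2 : fib W H1 t = ∑ i, fib W (fun x => pd (zv k i) f x * (pd (zv k i) Φ x -
        cm W (pd (zv k i) Φ) x.1)) t :=
      hW.fib_sum _ (fun i _ => (pf i).mul (pg i)) (fun i _ => (cf i).mul (cg i)) t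
    have e3 : fib W (fun x => H2 x * ρ x) t = ∑ i, cm W (pd (zv k i) f) t *
        fib W (fun x => zc k i x * ρ x) t := by
      have e4 : fib W (fun x => H2 x * ρ x) t = fib W (fun x => ∑ i, cm W (pd (zv k i) f) x.1 *
          (zc k i x * ρ x)) t := by
        refine fib_congr t fun z => ?_
        rw [hH2]
        simp only
        rw [Finset.sum_mul]
        exact Finset.sum_congr rfl fun i _ => by ring
      rw [e4, hW.fib_sum _ (fun i _ => (pcf i).mul ((pz i).mul pρ))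
        (fun i _ => ((ccf i).comp continuous_fst).mul ((cz i).mul cρ))]
      exact Finset.sum_congr rfl fun i _ => fib_base _ _ _
    rw [e1, e2, e3, hg3]
    simp only
    rw [Finset.sum_mul, ← Finset.sum_sub_distrib, ← Finset.sum_sub_distrib]
    refine Finset.sum_congr rfl fun i _ => ?_
    have e5 : fib W (fun x => pd (zv k i) f x * (pd (zv k i) Φ x -
        cm W (pd (zv k i) Φ) x.1)) t = fib W (fun x => pd (zv k i) f x * pd (zv k i) Φ x) t -
        cm W (pd (zv k i) Φ) t * fib W (pd (zv k i) f) t := by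
      rw [← fib_base (fun t => cm W (pd (zv k i) Φ) t) (pd (zv k i) f) t,
        ← hW.fib_sub ((pf i).mul (pΦ i)) ((cf i).mul (sΦ i).continuous)
          ((hW.cm_pb (sΦ i).continuous (uΦ i)).mul (pf i))
          (((hW.cm_cont (pΦ i) (sΦ i).continuous).comp continuous_fst).mul (cf i))]
      exact fib_congr t fun z => by ring
    have e6 := hW.fib_pdPhi hQ hQs hΦ hΦs i t
    have e7 := hW.cm_mul (pd (zv k i) Φ) t
    have e8 := hW.cm_mul (pd (zv k i) f) t
    rw [e5, ← e8]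
    have e9 : cm W (pd (zv k i) Φ) t * (cm W (pd (zv k i) f) t * dens W t) =
        cm W (pd (zv k i) f) t * (cm W (pd (zv k i) Φ) t * dens W t) := by ring
    rw [e9, e7, e6]
    ring
  have i1 := hW.fib_integrable pH1 cH1
  have i2 := hW.fib_integrable (pH2.mul pρ) (cH2.mul cρ)
  have i3 := hW.bc_int bg3
  have i12 : Integrable (fun t => fib W H1 t - fib W (fun x => H2 x * ρ x) t) := i1.sub i2
  have htot : ∫ x, (∑ i, pd (zv k i) f x * pd (zv k i) Φ x) * Real.exp (-W x) ∂(vol k n) =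
      (∫ t, fib W H1 t) - (∫ x, H2 x * ρ x * Real.exp (-W x) ∂(vol k n)) -
        ∫ t, g3 t * dens W t := by
    rw [hW.fib_integral (H := fun x => ∑ i, pd (zv k i) f x * pd (zv k i) Φ x)
      (PB.sum _ fun i _ => (pf i).mul (pΦ i))
      (continuous_finsetSum _ fun i _ => (cf i).mul (sΦ i).continuous),
      hW.fib_integral (pH2.mul pρ) (cH2.mul cρ), ← integral_sub i1 i2, ← integral_sub i12 i3]
    exact integral_congr_ae (Eventually.of_forall hid)
  -- the bounds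
  have cgZ := gZ_cont hf
  have pgZ := gZ_pb hf hfs
  have cD : Continuous (fun x : Sp k × Sp n => ∑ i, gZ (pd (zv k i) Φ) x) :=
    continuous_finsetSum _ fun i _ => gZ_cont (sm1 (sΦ i))
  have pD : PB (fun x : Sp k × Sp n => ∑ i, gZ (pd (zv k i) Φ) x) :=
    PB.sum _ fun i _ => gZ_pb (sm1 (sΦ i)) (uΦ i)
  have cfib := hW.fib_cont pgZ cgZ
  have b1 : |∫ t, fib W H1 t| ≤ Real.sqrt (∫ t, P t * fib W (gZ f) t) *
      Real.sqrt (∫ x, (∑ i, gZ (pd (zv k i) Φ) x) * Real.exp (-W x) ∂(vol k n)) := by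
    rw [hW.fib_integral pD cD]
    refine int_sqrt_le (hPc.mul cfib) (hW.fib_cont pD cD) ?_ (hW.fib_integrable pD cD) ?_ ?_ ?_
    · exact cc_int _ (hPc.mul cfib) (hW.fib_gZ_supp hf hfs).mul_left
    · exact fun t => mul_nonneg (hP0 t) (fib_nonneg (fun x => gZ_nonneg _ x) t)
    · exact fib_nonneg (fun x => Finset.sum_nonneg fun i _ => gZ_nonneg _ x)
    · intro t
      have e2 : fib W H1 t = ∑ i, fib W (fun x => pd (zv k i) f x * (pd (zv k i) Φ x -
          cm W (pd (zv k i) Φ) x.1)) t :=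
        hW.fib_sum _ (fun i _ => (pf i).mul (pg i)) (fun i _ => (cf i).mul (cg i)) t
      rw [e2]
      exact hW.part_one hf hfs hΦ hΦs hP hP0 t
  have b2 := hW.tot_cs pH2 cH2 pρ cρ
  have b3 : |∫ t, g3 t * dens W t| ≤ Real.sqrt (∫ t, fib W (gZ f) t) *
      Real.sqrt (∫ t, L ^ 2 * ((∑ a, pd (sv a) Q t ^ 2) * dens W t)) := by
    have bS : BC (fun t : Sp k => ∑ a, pd (sv a) Q t ^ 2) :=
      BC.of_supp (continuous_finsetSum _ fun a _ => (pd_smooth hQ _).continuous.pow 2)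
        (cs_sum _ fun a _ => by
          simp_rw [pow_two]
          exact (pd_supp hQs _).mul_right)
    refine int_sqrt_le cfib (continuous_const.mul (bS.1.mul hW.dens_smooth.continuous))
      (hW.fib_integrable pgZ cgZ) ((hW.bc_int bS).const_mul _)
      (fib_nonneg (fun x => gZ_nonneg _ x)) (fun t => ?_) (fun t => ?_)
    · exact mul_nonneg (sq_nonneg _) (mul_nonneg (Finset.sum_nonneg fun a _ => sq_nonneg _)
        (hW.dens_pos t).le)
    · have hd := hW.dens_pos t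
      have h1 := sum_cs (fun i => cm W (pd (zv k i) f) t)
        (fun i => ∑ a, pd (sv a) Q t * pd (sv a) (mz W i) t)
      have h2 := hW.mean_lip hL (fun a => pd (sv a) Q t) t
      have h3 : |g3 t| ≤ Real.sqrt (∑ i, cm W (pd (zv k i) f) t ^ 2) *
          Real.sqrt (L ^ 2 * ∑ a, pd (sv a) Q t ^ 2) :=
        h1.trans (mul_le_mul_of_nonneg_left (Real.sqrt_le_sqrt h2) (Real.sqrt_nonneg _))
      have h4 : |g3 t * dens W t| = |g3 t| * (Real.sqrt (dens W t) * Real.sqrt (dens W t)) := by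
        rw [abs_mul, abs_of_pos hd, Real.mul_self_sqrt hd.le]
      rw [h4]
      have h5 : Real.sqrt (∑ i, cm W (pd (zv k i) f) t ^ 2) * Real.sqrt (dens W t) ≤
          Real.sqrt (fib W (gZ f) t) := by
        rw [← Real.sqrt_mul (Finset.sum_nonneg fun i _ => sq_nonneg _)]
        exact Real.sqrt_le_sqrt (hW.cm_gZ_le hf hfs t)
      have h6 : Real.sqrt (L ^ 2 * ∑ a, pd (sv a) Q t ^ 2) * Real.sqrt (dens W t) =
          Real.sqrt (L ^ 2 * ((∑ a, pd (sv a) Q t ^ 2) * dens W t)) := by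
        rw [← Real.sqrt_mul (mul_nonneg (sq_nonneg _) (Finset.sum_nonneg fun i _ =>
          sq_nonneg _)), mul_assoc]
      calc |g3 t| * (Real.sqrt (dens W t) * Real.sqrt (dens W t)) ≤
          (Real.sqrt (∑ i, cm W (pd (zv k i) f) t ^ 2) *
          Real.sqrt (L ^ 2 * ∑ a, pd (sv a) Q t ^ 2)) *
            (Real.sqrt (dens W t) * Real.sqrt (dens W t)) :=
            mul_le_mul_of_nonneg_right h3 (mul_nonneg (Real.sqrt_nonneg _) (Real.sqrt_nonneg _))
        _ = (Real.sqrt (∑ i, cm W (pd (zv k i) f) t ^ 2) * Real.sqrt (dens W t)) *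
          (Real.sqrt (L ^ 2 * ∑ a, pd (sv a) Q t ^ 2) * Real.sqrt (dens W t)) := by ring
        _ ≤ _ := by
          rw [h6]
          exact mul_le_mul_of_nonneg_right h5 (Real.sqrt_nonneg _)
  rw [integral_const_mul, Real.sqrt_mul (sq_nonneg L), Real.sqrt_sq hL0,
    ← hW.fib_integral pgZ cgZ] at b3
  rw [htot]
  have t1 := abs_sub ((∫ t, fib W H1 t) - (∫ x, H2 x * ρ x * Real.exp (-W x) ∂(vol k n)))
    (∫ t, g3 t * dens W t)
  have t2 := abs_sub (∫ t, fib W H1 t) (∫ x, H2 x * ρ x * Real.exp (-W x) ∂(vol k n))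
  have b4 : Real.sqrt (∫ x, gZ f x * Real.exp (-W x) ∂(vol k n)) *
      (L * Real.sqrt (∫ t, (∑ a, pd (sv a) Q t ^ 2) * dens W t)) =
      L * Real.sqrt (∫ x, gZ f x * Real.exp (-W x) ∂(vol k n)) *
        Real.sqrt (∫ t, (∑ a, pd (sv a) Q t ^ 2) * dens W t) := by ring
  rw [b4] at b3
  linarith

end Std

end Pool.Agent.Q86.FIB
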