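import Pool.Agent.Q86.FIB.MainB6

/-!
# The inequality for functions of compact support
-/

set_option autoImplicit false
set_option linter.unusedSectionVars false

namespace Pool.Agent.Q86.FIB

open MeasureTheory Set Filter Topology
open scoped ContDiff

variable {k n : ℕ}

/-- Cauchy-Schwarz for a function which is bounded by a product of square roots. -/
theorem tot_sqrt_le {A B g : Sp k × Sp n → ℝ} (cA : Continuous A) (cB : Continuous B)
    (iA : Integrable A (vol k n)) (iB : Integrable B (vol k n)) (hA : ∀ t, 0 ≤ A t)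
    (hB : ∀ t, 0 ≤ B t) (h : ∀ t, |g t| ≤ Real.sqrt (A t) * Real.sqrt (B t)) :
    |∫ t, g t ∂(vol k n)| ≤ Real.sqrt (∫ t, A t ∂(vol k n)) * Real.sqrt (∫ t, B t ∂(vol k n)) := by
  have sA : ∀ t, Real.sqrt (A t) ^ 2 = A t := fun t => Real.sq_sqrt (hA t)
  have sB : ∀ t, Real.sqrt (B t) ^ 2 = B t := fun t => Real.sq_sqrt (hB t)
  have iAB : Integrable (fun t => Real.sqrt (A t) * Real.sqrt (B t)) (vol k n) := by
    refine (iA.add iB).mono' ((cA.sqrt).mul (cB.sqrt)).aestronglyMeasurable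
      (Eventually.of_forall fun t => ?_)
    rw [Real.norm_of_nonneg (by positivity)]
    have h8 := sA t
    have h9 := sB t
    have h10 : (A + B) t = A t + B t := rfl
    rw [h10]
    nlinarith [sq_nonneg (Real.sqrt (A t) - Real.sqrt (B t)), Real.sqrt_nonneg (A t),
      Real.sqrt_nonneg (B t)]
  have h12 : ‖∫ t, g t ∂(vol k n)‖ ≤ ∫ t, Real.sqrt (A t) * Real.sqrt (B t) ∂(vol k n) :=
    norm_integral_le_of_norm_le iAB (Eventually.of_forall h)
  rw [Real.norm_eq_abs] at h12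
  refine h12.trans ?_
  have h13 := cs_abs (ν := vol k n) (f := fun t => Real.sqrt (A t))
    (g := fun t => Real.sqrt (B t)) (by simp_rw [sA]; exact iA) (by simp_rw [sB]; exact iB) iAB
  simp_rw [sA, sB] at h13
  exact (le_abs_self _).trans h13

namespace Std

variable {W : Sp k × Sp n → ℝ} (hW : Std W)
include hW

section

variable {Q : Sp k → ℝ} (hQ : ContDiff ℝ ∞ Q)
  (hQs : HasCompactSupport Q) {f : Sp k × Sp n → ℝ} (hf : ContDiff ℝ 1 f)
  (hfs : HasCompactSupport f)

include hQ hQs hf hfs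

/-- The pairing of the gradients in the base. -/
theorem pair_T : |∫ x, (∑ a, pd (tv n a) f x * pd (sv a) Q x.1) * Real.exp (-W x) ∂(vol k n)| ≤
    Real.sqrt (∫ x, gT f x * Real.exp (-W x) ∂(vol k n)) *
      Real.sqrt (∫ t, (∑ a, pd (sv a) Q t ^ 2) * dens W t) := by
  have cS : Continuous (fun x : Sp k × Sp n => ∑ a, pd (sv a) Q x.1 ^ 2) :=
    continuous_finsetSum _ fun a _ => ((pd_smooth hQ (sv a)).continuous.comp continuous_fst).pow 2
  have pS : PB (fun x : Sp k × Sp n => ∑ a, pd (sv a) Q x.1 ^ 2) :=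
    PB.sum _ fun a _ => (fst_pb (pd_smooth hQ _).continuous (pd_supp hQs _)).pow 2
  have e1 : ∫ t, (∑ a, pd (sv a) Q t ^ 2) * dens W t =
      ∫ x, (∑ a, pd (sv a) Q x.1 ^ 2) * Real.exp (-W x) ∂(vol k n) := by
    rw [hW.fib_integral pS cS]
    refine integral_congr_ae (Eventually.of_forall fun t => ?_)
    simp only
    rw [dens_eq, ← fib_base (fun t => ∑ a, pd (sv a) Q t ^ 2) (fun _ => 1) t]
    exact fib_congr t fun z => by ring
  rw [e1]
  refine tot_sqrt_le ((gT_cont hf).mul hW.wc) (cS.mul hW.wc)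
    (hW.integrable (gT_pb hf hfs) (gT_cont hf)) (hW.integrable pS cS)
    (fun x => mul_nonneg (gT_nonneg _ _) (Real.exp_pos _).le)
    (fun x => mul_nonneg (Finset.sum_nonneg fun a _ => sq_nonneg _) (Real.exp_pos _).le)
    (fun x => ?_)
  have h := sum_cs (fun a => pd (tv n a) f x) (fun a => pd (sv a) Q x.1)
  have hw := Real.exp_pos (-W x)
  rw [abs_mul, abs_of_pos hw, Real.sqrt_mul (gT_nonneg _ _),
    Real.sqrt_mul (Finset.sum_nonneg fun a _ => sq_nonneg _)]
  have h2 : Real.sqrt (gT f x) * Real.sqrt (Real.exp (-W x)) *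
      (Real.sqrt (∑ a, pd (sv a) Q x.1 ^ 2) * Real.sqrt (Real.exp (-W x))) =
      (Real.sqrt (gT f x) * Real.sqrt (∑ a, pd (sv a) Q x.1 ^ 2)) *
        (Real.sqrt (Real.exp (-W x)) * Real.sqrt (Real.exp (-W x))) := by ring
  rw [h2, Real.mul_self_sqrt hw.le]
  exact mul_le_mul_of_nonneg_right h hw.le

/-- **The key estimate.** -/
theorem key {P : Sp k → ℝ} (hP : FibreP W P) (hP0 : ∀ t, 0 ≤ P t) (hPc : Continuous P)
    {L : ℝ} (hL0 : 0 ≤ L) (hL : MeanLip W L) {C₀ : ℝ} (hC : 0 ≤ C₀) (hB : BaseP W C₀)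
    (h1 : ∫ t, dens W t = 1) :
    |∫ x, f x * Lop sv (Vp W) Q x.1 * Real.exp (-W x) ∂(vol k n)| ≤
      (Real.sqrt C₀ * (Real.sqrt (∫ x, gT f x * Real.exp (-W x) ∂(vol k n)) +
        L * Real.sqrt (∫ x, gZ f x * Real.exp (-W x) ∂(vol k n))) +
        Real.sqrt (∫ t, P t * fib W (gZ f) t)) *
      Real.sqrt (∫ t, (Lop sv (Vp W) Q t) ^ 2 * dens W t) := by
  set Tf : ℝ := ∫ x, gT f x * Real.exp (-W x) ∂(vol k n) with hTf
  set Zf : ℝ := ∫ x, gZ f x * Real.exp (-W x) ∂(vol k n) with hZf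
  set PZ : ℝ := ∫ t, P t * fib W (gZ f) t with hPZ
  set S : ℝ := ∫ t, (Lop sv (Vp W) Q t) ^ 2 * dens W t with hS
  have hS0 : 0 ≤ S := integral_nonneg fun t => mul_nonneg (sq_nonneg _) (hW.dens_pos t).le
  set G2 : ℝ := ∫ t, (∑ a, pd (sv a) Q t ^ 2) * dens W t with hG2
  have hG : Real.sqrt G2 ≤ Real.sqrt C₀ * Real.sqrt S := by
    rw [← Real.sqrt_mul hC]
    exact Real.sqrt_le_sqrt (hW.base_grad hQ hQs hC hB h1)
  set K1 : ℝ := Real.sqrt (∫ x, (∑ i, cm W (pd (zv k i) f) x.1 * zc k i x) ^ 2 *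
    Real.exp (-W x) ∂(vol k n)) with hK1
  set K2 : ℝ := Real.sqrt (∫ x, f x ^ 2 * Real.exp (-W x) ∂(vol k n)) with hK2
  have hf0 : PB f := PB.of_supp hf.continuous hfs
  refine le_of_forall_pos_le_add fun η hη => ?_
  set d : ℝ := η / (Real.sqrt PZ + K1 + K2 + 1) with hd
  have hden : 0 < Real.sqrt PZ + K1 + K2 + 1 := by positivity
  have hd0 : 0 < d := div_pos hη hden
  have hd1 : d * (Real.sqrt PZ + K1 + K2 + 1) = η := div_mul_cancel₀ _ hden.ne'
  obtain ⟨Φ, hΦ, hΦs, hε⟩ := hW.corrector hQ hQs hP hPc (pow_pos hd0 2)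
  have hRc := (hW.RR_smooth hQ).continuous
  have hRp := hW.RR_pb hQ hQs
  have hLc := (Lop_smooth (zv k) hW.smooth hΦ).continuous
  have hLp : PB (Lop (zv k) W Φ) := PB.of_supp hLc (Lop_supp (zv k) hΦs)
  -- the decomposition
  have e1 := hW.pair_base hQ hf hfs
  have e2 : ∫ x, f x * RR W Q x * Real.exp (-W x) ∂(vol k n) =
      (∫ x, f x * (RR W Q x + Lop (zv k) W Φ x) * Real.exp (-W x) ∂(vol k n)) -
        ∫ x, f x * Lop (zv k) W Φ x * Real.exp (-W x) ∂(vol k n) := by
    have j1 := hW.integrable (hf0.mul (hRp.add hLp)) (hf.continuous.mul (hRc.add hLc))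
    have j2 := hW.integrable (hf0.mul hLp) (hf.continuous.mul hLc)
    rw [← integral_sub j1 j2]
    refine integral_congr_ae (Eventually.of_forall fun x => ?_)
    simp only
    ring
  have e3 := ibpL (vol k n) (zv k) (sm1 hW.smooth) (sm2 hΦ) hf (Or.inl hΦs)
  -- the bounds
  set ρ2 : ℝ := ∫ x, (RR W Q x + Lop (zv k) W Φ x) ^ 2 * Real.exp (-W x) ∂(vol k n) with hρ2
  have hρd : Real.sqrt ρ2 ≤ d := by
    rw [Real.sqrt_le_left hd0.le]
    exact hε.le
  have b1 := hW.pair_T hQ hQs hf hfs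
  have b2 := hW.tot_cs hf0 hf.continuous (hRp.add hLp) (hRc.add hLc)
  have b3 := hW.pair_Phi hQ hQs hf hfs hΦ hΦs hP hP0 hPc hL0 hL
  have b4 := hW.hess_le hQ hQs hΦ hΦs
  rw [← hρ2, ← hS] at b4
  have b5 : Real.sqrt (∫ x, (∑ i, gZ (pd (zv k i) Φ) x) * Real.exp (-W x) ∂(vol k n)) ≤
      d + Real.sqrt S := by
    refine (Real.sqrt_le_sqrt b4).trans ?_
    rw [Real.sqrt_le_left (by positivity)]
    have h3 : Real.sqrt S ^ 2 = S := Real.sq_sqrt hS0
    nlinarith [hε.le, Real.sqrt_nonneg S]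
  rw [e1, e2, e3]
  rw [← hTf] at b1
  rw [← hK2] at b2
  rw [← hPZ, ← hK1, ← hZf, ← hG2] at b3
  have c1 : |-∫ x, (∑ a, pd (tv n a) f x * pd (sv a) Q x.1) * Real.exp (-W x) ∂(vol k n)| ≤
      Real.sqrt Tf * (Real.sqrt C₀ * Real.sqrt S) := by
    rw [abs_neg]
    exact b1.trans (mul_le_mul_of_nonneg_left hG (Real.sqrt_nonneg _))
  have c2 : |∫ x, f x * (RR W Q x + Lop (zv k) W Φ x) * Real.exp (-W x) ∂(vol k n)| ≤ K2 * d :=
    b2.trans (mul_le_mul_of_nonneg_left hρd (Real.sqrt_nonneg _))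
  have c3 : |∫ x, (∑ i, pd (zv k i) f x * pd (zv k i) Φ x) * Real.exp (-W x) ∂(vol k n)| ≤
      Real.sqrt PZ * (d + Real.sqrt S) + K1 * d + L * Real.sqrt Zf * (Real.sqrt C₀ * Real.sqrt S) := by
    refine b3.trans ?_
    have f1 := mul_le_mul_of_nonneg_left b5 (Real.sqrt_nonneg PZ)
    have f2 := mul_le_mul_of_nonneg_left hρd (Real.sqrt_nonneg (∫ x, (∑ i,
      cm W (pd (zv k i) f) x.1 * zc k i x) ^ 2 * Real.exp (-W x) ∂(vol k n)))
    have f3 := mul_le_mul_of_nonneg_left hG (mul_nonneg hL0 (Real.sqrt_nonneg Zf))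
    linarith
  set J1 := ∫ x, (∑ a, pd (tv n a) f x * pd (sv a) Q x.1) * Real.exp (-W x) ∂(vol k n) with hJ1
  set J2 := ∫ x, f x * (RR W Q x + Lop (zv k) W Φ x) * Real.exp (-W x) ∂(vol k n) with hJ2
  set J3 := ∫ x, (∑ i, pd (zv k i) f x * pd (zv k i) Φ x) * Real.exp (-W x) ∂(vol k n) with hJ3
  have t1 : |-J1 + (J2 - -J3)| ≤ |-J1| + |J2| + |J3| := by
    have h5 : -J1 + (J2 - -J3) = (-J1 + J2) + J3 := by ring
    rw [h5]
    exact (abs_add_le _ _).trans (add_le_add (abs_add_le _ _) le_rfl)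
  have hfin : (Real.sqrt C₀ * (Real.sqrt Tf + L * Real.sqrt Zf) + Real.sqrt PZ) * Real.sqrt S + η =
      Real.sqrt Tf * (Real.sqrt C₀ * Real.sqrt S) + K2 * d +
      (Real.sqrt PZ * (d + Real.sqrt S) + K1 * d + L * Real.sqrt Zf * (Real.sqrt C₀ * Real.sqrt S))
      + d := by
    rw [← hd1]
    ring
  rw [hfin]
  linarith

end

/-- **The two-scale inequality** for functions of compact support. -/
theorem main_cs {P : Sp k → ℝ} (hP : FibreP W P) (hP0 : ∀ t, 0 ≤ P t) (hPc : Continuous P)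
    {L : ℝ} (hL0 : 0 ≤ L) (hL : MeanLip W L) {C₀ : ℝ} (hC : 0 ≤ C₀) (hB : BaseP W C₀)
    (h1 : ∫ t, dens W t = 1) {f : Sp k × Sp n → ℝ} (hf : ContDiff ℝ 1 f)
    (hfs : HasCompactSupport f) :
    (∫ x, f x ^ 2 * Real.exp (-W x) ∂(vol k n)) - (∫ x, f x * Real.exp (-W x) ∂(vol k n)) ^ 2 ≤
      (Real.sqrt C₀ * (Real.sqrt (∫ x, gT f x * Real.exp (-W x) ∂(vol k n)) +
        L * Real.sqrt (∫ x, gZ f x * Real.exp (-W x) ∂(vol k n))) +
        Real.sqrt (∫ x, P x.1 * gZ f x * Real.exp (-W x) ∂(vol k n))) ^ 2 +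
        ∫ x, P x.1 * gZ f x * Real.exp (-W x) ∂(vol k n) := by
  have hf0 : PB f := PB.of_supp hf.continuous hfs
  have hcm : PB (fun x : Sp k × Sp n => cm W f x.1) := hW.cm_pb hf.continuous hfs
  have ccm : Continuous (cm W f) := hW.cm_cont hf0 hf.continuous
  have bcm : BC (cm W f) := by
    obtain ⟨C, hC⟩ := hfs.exists_bound_of_continuous hf.continuous
    exact ⟨ccm, C, fun t => hW.cm_bdd hf.continuous hC t⟩
  have cgZ := gZ_cont hf
  have pgZ := gZ_pb hf hfs
  have cfib := hW.fib_cont pgZ cgZ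
  -- the term with `P`
  have hPZ : ∫ x, P x.1 * gZ f x * Real.exp (-W x) ∂(vol k n) = ∫ t, P t * fib W (gZ f) t := by
    have cP : Continuous (fun x : Sp k × Sp n => P x.1) := hPc.comp continuous_fst
    have sg : HasCompactSupport (gZ f) := cs_sum _ fun i _ => by
      simp_rw [pow_two]
      exact (pd_supp hfs _).mul_right
    have pP : PB (fun x : Sp k × Sp n => P x.1 * gZ f x) :=
      PB.of_supp (cP.mul cgZ) sg.mul_left
    rw [hW.fib_integral pP (cP.mul cgZ)]
    exact integral_congr_ae (Eventually.of_forall fun t => fib_base _ _ _)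
  rw [hPZ]
  set PZ : ℝ := ∫ t, P t * fib W (gZ f) t with hPZd
  set m : ℝ := ∫ x, f x * Real.exp (-W x) ∂(vol k n) with hm
  have hm2 : m = ∫ t, cm W f t * dens W t := by
    rw [hm, hW.fib_integral hf0 hf.continuous]
    exact integral_congr_ae (Eventually.of_forall fun t => (hW.cm_mul f t).symm)
  -- the decomposition of the variance
  have hdec : (∫ x, f x ^ 2 * Real.exp (-W x) ∂(vol k n)) =
      (∫ t, fib W (fun x => (f x - cm W f x.1) ^ 2) t) + ∫ t, cm W f t ^ 2 * dens W t := by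
    rw [hW.fib_integral (hf0.pow 2) (hf.continuous.pow 2)]
    have i1 := hW.fib_integrable ((hf0.sub hcm).pow 2)
      ((hf.continuous.sub (ccm.comp continuous_fst)).pow 2)
    rw [← integral_add i1 (hW.bc_int bcm.pow2)]
    refine integral_congr_ae (Eventually.of_forall fun t => ?_)
    simp only
    have h2 := hW.fib_var hf.continuous hfs t
    have hd := hW.dens_pos t
    have h3 : fib W (fun x => f x ^ 2) t * dens W t =
        (fib W (fun x => (f x - cm W f x.1) ^ 2) t + cm W f t ^ 2 * dens W t) * dens W t := by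
      have h4 := hW.cm_mul f t
      have h5 : fib W f t ^ 2 = (cm W f t * dens W t) ^ 2 := by rw [h4]
      rw [h5] at h2
      linarith
    exact mul_right_cancel₀ hd.ne' h3
  have hV1 : ∫ t, fib W (fun x => (f x - cm W f x.1) ^ 2) t ≤ PZ := by
    refine integral_mono (hW.fib_integrable ((hf0.sub hcm).pow 2)
      ((hf.continuous.sub (ccm.comp continuous_fst)).pow 2)) ?_ fun t => ?_
    · exact cc_int _ (hPc.mul cfib) (hW.fib_gZ_supp hf hfs).mul_left
    · exact hW.fib_poincare hP hf hfs t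
  -- the base part
  have hV2 : (∫ t, cm W f t ^ 2 * dens W t) - m ^ 2 ≤
      (Real.sqrt C₀ * (Real.sqrt (∫ x, gT f x * Real.exp (-W x) ∂(vol k n)) +
        L * Real.sqrt (∫ x, gZ f x * Real.exp (-W x) ∂(vol k n))) + Real.sqrt PZ) ^ 2 := by
    have bG : BC (fun t => cm W f t - m) := bcm.sub (BC.const m)
    have h2 := hW.base_var h1 bcm
    rw [← hm2] at h2
    rw [← h2]
    refine hW.base_norm hC hB h1 bG ?_ (by positivity) ?_
    · have i2 : Integrable (fun t => m * dens W t) := hW.dens_int.const_mul m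
      have e1 : ∫ t, (cm W f t - m) * dens W t = (∫ t, cm W f t * dens W t) -
          m * ∫ t, dens W t := by
        rw [← integral_const_mul, ← integral_sub (hW.bc_int bcm) i2]
        refine integral_congr_ae (Eventually.of_forall fun t => ?_)
        simp only
        ring
      rw [e1, h1, ← hm2]
      ring
    · intro Q hQ hQs
      have h3 := hW.key hQ hQs hf hfs hP hP0 hPc hL0 hL hC hB h1
      have bL := hW.bcL hQ hQs
      have cL : Continuous (fun x : Sp k × Sp n => Lop sv (Vp W) Q x.1) :=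
        bL.1.comp continuous_fst
      have pL : PB (fun x : Sp k × Sp n => Lop sv (Vp W) Q x.1) :=
        fst_pb bL.1 (Lop_supp sv hQs)
      have e2 : ∫ t, (cm W f t - m) * Lop sv (Vp W) Q t * dens W t =
          ∫ x, f x * Lop sv (Vp W) Q x.1 * Real.exp (-W x) ∂(vol k n) := by
        rw [hW.fib_integral (hf0.mul pL) (hf.continuous.mul cL)]
        have i1 := hW.bc_int (bcm.mul bL)
        have i2 := (hW.bc_int bL).const_mul m
        have e3 : ∫ t, (cm W f t - m) * Lop sv (Vp W) Q t * dens W t =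
            (∫ t, cm W f t * Lop sv (Vp W) Q t * dens W t) -
              m * ∫ t, Lop sv (Vp W) Q t * dens W t := by
          rw [← integral_const_mul, ← integral_sub i1 i2]
          refine integral_congr_ae (Eventually.of_forall fun t => ?_)
          simp only
          ring
        rw [e3, hW.int_L hQ hQs, mul_zero, sub_zero]
        refine integral_congr_ae (Eventually.of_forall fun t => ?_)
        simp only
        have e4 : fib W (fun x => f x * Lop sv (Vp W) Q x.1) t = Lop sv (Vp W) Q t * fib W f t := by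
          rw [← fib_base (fun t => Lop sv (Vp W) Q t) f t]
          exact fib_congr t fun z => by ring
        rw [e4, ← hW.cm_mul]
        ring
      rw [e2]
      exact h3
  rw [hdec]
  linarith

end Std

end Pool.Agent.Q86.FIB
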