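import Pool.Agent.Q86.FIB.Tran
import Pool.Agent.H212R2.KLS.R4

/-!
# Strongly convex and even fibres
-/

set_option autoImplicit false
set_option linter.unusedSectionVars false

namespace Pool.Agent.Q86.FIB

open MeasureTheory Set Filter Topology
open scoped ContDiff

variable {k n : ℕ}

/-- All functions `W (t, ·)` are strongly convex with the constant `κ`. -/
def StrongFib (W : Sp k × Sp n → ℝ) (κ : ℝ) : Prop :=
  ∀ t, ConvexOn ℝ univ (fun z : Sp n => W (t, z) - κ / 2 * ∑ i, z i ^ 2)

theorem strong_mid {W : Sp k × Sp n → ℝ} {κ : ℝ} (h : StrongFib W κ) (t : Sp k) (z z' : Sp n) :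
    2 * W (t, (1 / 2 : ℝ) • (z + z')) ≤ W (t, z) + W (t, z') - κ / 4 * ∑ i, (z i - z' i) ^ 2 := by
  have h1 := (h t).2 (mem_univ z) (mem_univ z') (by norm_num : (0 : ℝ) ≤ 1 / 2)
    (by norm_num : (0 : ℝ) ≤ 1 / 2) (by norm_num)
  have h2 : (1 / 2 : ℝ) • z + (1 / 2 : ℝ) • z' = (1 / 2 : ℝ) • (z + z') := (smul_add _ _ _).symm
  rw [h2] at h1
  simp only [smul_eq_mul, Pi.smul_apply, Pi.add_apply] at h1
  have h3 : ∑ i, (z i - z' i) ^ 2 = 2 * (∑ i, z i ^ 2) + 2 * (∑ i, z' i ^ 2) -
      4 * ∑ i, (1 / 2 * (z i + z' i)) ^ 2 := by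
    rw [Finset.mul_sum, Finset.mul_sum, Finset.mul_sum, ← Finset.sum_add_distrib,
      ← Finset.sum_sub_distrib]
    exact Finset.sum_congr rfl fun i _ => by ring
  rw [h3]
  linarith

/-- The fibres of a potential which is strongly convex in the fibres. -/
theorem Std.strong_fibre {W : Sp k × Sp n → ℝ} (hW : Std W) {κ : ℝ} (hκ : 0 < κ)
    (h : StrongFib W κ) : FibreP W (fun _ => κ⁻¹) := by
  intro t φ hφ hφs
  set v : EuclideanSpace ℝ (Fin n) → ℝ := fun x => Real.exp (-W (t, lp n x)) with hv
  have hvc : Continuous v := by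
    have h1 : Continuous (fun x : EuclideanSpace ℝ (Fin n) => (t, lp n x)) :=
      continuous_const.prodMk (lp n).continuous
    exact hW.wc.comp h1
  set w : ℕ → EuclideanSpace ℝ (Fin n) → ℝ := fun j =>
    (Metric.closedBall (0 : EuclideanSpace ℝ (Fin n)) j).indicator v with hw
  set f : EuclideanSpace ℝ (Fin n) → ℝ := fun x => φ (lp n x + 0) with hf
  have hf1 : ContDiff ℝ 1 f := comp_smooth hφ 0
  have hmeas : ∀ j : ℕ, MeasurableSet (Metric.closedBall (0 : EuclideanSpace ℝ (Fin n)) j) :=
    fun j => Metric.isClosed_closedBall.measurableSet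
  have hP : ∀ j : ℕ, ∃ c : ℝ, ∫ x, (f x - c) ^ 2 * w j x ≤ κ⁻¹ * ∫ x, ‖fderiv ℝ f x‖ ^ 2 * w j x := by
    intro j
    refine Pool.Agent.H212R2.KLS.poincare_of_strong volume (w j) (fun x => ?_) ?_ ?_ ?_ κ hκ ?_ f hf1
    · exact indicator_nonneg (fun x _ => (Real.exp_pos _).le) x
    · exact hvc.measurable.indicator (hmeas j)
    · obtain ⟨B, hB⟩ := (isCompact_closedBall (0 : EuclideanSpace ℝ (Fin n))
        (j : ℝ)).exists_bound_of_continuousOn hvc.continuousOn
      refine ⟨|B|, fun x => ?_⟩
      by_cases hx : x ∈ Metric.closedBall (0 : EuclideanSpace ℝ (Fin n)) j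
      · rw [hw]
        simp only
        rw [indicator_of_mem hx]
        exact (le_abs_self _).trans ((hB x hx).trans (le_abs_self _))
      · rw [hw]
        simp only
        rw [indicator_of_notMem hx]
        exact abs_nonneg _
    · refine ⟨j, fun x hx => indicator_of_notMem ?_ _⟩
      rw [mem_closedBall_zero_iff]
      exact not_le.2 hx
    · intro x y
      have hr : 0 ≤ (w j ((1 / 2 : ℝ) • (x + y))) ^ 2 * Real.exp (-(κ / 4 * ‖x - y‖ ^ 2)) :=
        mul_nonneg (sq_nonneg _) (Real.exp_pos _).le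
      by_cases hx : x ∈ Metric.closedBall (0 : EuclideanSpace ℝ (Fin n)) j
      · by_cases hy : y ∈ Metric.closedBall (0 : EuclideanSpace ℝ (Fin n)) j
        · have hm : (1 / 2 : ℝ) • (x + y) ∈ Metric.closedBall (0 : EuclideanSpace ℝ (Fin n)) j := by
            rw [mem_closedBall_zero_iff] at hx hy ⊢
            rw [norm_smul, Real.norm_of_nonneg (by norm_num)]
            have := norm_add_le x y
            linarith
          rw [hw]
          simp only
          rw [indicator_of_mem hx, indicator_of_mem hy, indicator_of_mem hm, hv]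
          simp only
          rw [← Real.exp_add, ← Real.exp_nat_mul, ← Real.exp_add]
          refine Real.exp_le_exp.2 ?_
          have h5 := strong_mid h t (lp n x) (lp n y)
          have h6 : lp n ((1 / 2 : ℝ) • (x + y)) = (1 / 2 : ℝ) • (lp n x + lp n y) := by
            rw [map_smul, map_add]
          have h7 : ‖x - y‖ ^ 2 = ∑ i, (lp n x i - lp n y i) ^ 2 := by
            rw [lp_norm_sq, map_sub]
            rfl
          rw [h6, h7]
          push_cast
          linarith
        · have : w j y = 0 := indicator_of_notMem hy _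
          rw [this, mul_zero]
          exact hr
      · have : w j x = 0 := indicator_of_notMem hx _
        rw [this, zero_mul]
        exact hr
  -- the limits
  have hlim : ∀ g : Sp n → ℝ, Integrable (fun z => g z * Real.exp (-W (t, z))) →
      Tendsto (fun j : ℕ => ∫ x, g (lp n x) * w j x) atTop
        (𝓝 (∫ z, g z * Real.exp (-W (t, z)))) := by
    intro g hg
    have h1 : ∀ j : ℕ, ∫ x, g (lp n x) * w j x =
        ∫ x in Metric.closedBall (0 : EuclideanSpace ℝ (Fin n)) j, g (lp n x) * v x := by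
      intro j
      rw [← integral_indicator (hmeas j)]
      refine integral_congr_ae (Eventually.of_forall fun x => ?_)
      simp only [hw]
      rw [indicator_mul_right]
    simp_rw [h1]
    have h2 : ∫ z, g z * Real.exp (-W (t, z)) = ∫ x, g (lp n x) * v x :=
      (lp_int (fun z => g z * Real.exp (-W (t, z)))).symm
    rw [h2]
    have h3 := aecover_closedBall (μ := (volume : Measure (EuclideanSpace ℝ (Fin n))))
      (x := (0 : EuclideanSpace ℝ (Fin n))) (tendsto_natCast_atTop_atTop (R := ℝ))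
    exact h3.integral_tendsto_of_countably_generated (lp_integrable hg)
  have bb0 : ∀ g : Sp n → ℝ, Continuous g → HasCompactSupport g →
      Integrable (fun z => g z * Real.exp (-W (t, z))) := fun g hg hs =>
    cc_int _ (hg.mul (hW.wc.comp (Continuous.prodMk_right t))) hs.mul_right
  have l1 := hlim (fun z => φ z ^ 2) (bb0 _ (hφ.continuous.pow 2) (by
    simp_rw [pow_two]; exact hφs.mul_right))
  have l2 := hlim φ (bb0 _ hφ.continuous hφs)
  have l3 := hlim (fun z => ∑ i, (pd (sv i) φ z) ^ 2) (bb0 _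
    (continuous_finsetSum _ fun i _ => (pd_cont hφ _).pow 2) (cs_sum _ fun i _ => by
      simp_rw [pow_two]
      exact (pd_supp hφs _).mul_right))
  have l0 := hlim (fun _ => 1) (by
    have := hW.slice (PB.const 1) continuous_const t
    simpa using this)
  have hd : ∫ z, (1 : ℝ) * Real.exp (-W (t, z)) = dens W t := by
    simp_rw [one_mul]
    rfl
  rw [hd] at l0
  have key : ∀ j : ℕ, (∫ x, (1 : ℝ) * w j x) * (∫ x, (φ (lp n x)) ^ 2 * w j x) -
      (∫ x, φ (lp n x) * w j x) ^ 2 ≤
      κ⁻¹ * (∫ x, (1 : ℝ) * w j x) * ∫ x, (∑ i, (pd (sv i) φ (lp n x)) ^ 2) * w j x := by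
    intro j
    obtain ⟨c, hc⟩ := hP j
    have hint : ∀ g : EuclideanSpace ℝ (Fin n) → ℝ, Continuous g →
        Integrable (fun x => g x * w j x) := by
      intro g hg
      have h1 : (fun x => g x * w j x) = (Metric.closedBall (0 : EuclideanSpace ℝ (Fin n))
          j).indicator (fun x => g x * v x) := by
        funext x
        simp only [hw]
        rw [indicator_mul_right]
      rw [h1, integrable_indicator_iff (hmeas j)]
      exact ((hg.mul hvc).continuousOn).integrableOn_compact (isCompact_closedBall _ _)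
    have hfe : ∀ x, f x = φ (lp n x) := fun x => by
      rw [hf]
      simp
    have hge : ∀ x, ‖fderiv ℝ f x‖ ^ 2 = ∑ i, (pd (sv i) φ (lp n x)) ^ 2 := fun x => by
      rw [hf, norm_fderiv_sq hφ]
      simp
    simp_rw [hge, hfe] at hc
    have cφ : Continuous (fun x : EuclideanSpace ℝ (Fin n) => φ (lp n x)) :=
      hφ.continuous.comp (lp n).continuous
    have i1 : Integrable (fun x => φ (lp n x) ^ 2 * w j x) := hint _ (cφ.pow 2)
    have i2 : Integrable (fun x => 2 * c * (φ (lp n x) * w j x)) := (hint _ cφ).const_mul _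
    have i3 : Integrable (fun x => c ^ 2 * ((1 : ℝ) * w j x)) :=
      (hint _ continuous_const).const_mul _
    have i12 : Integrable (fun x => φ (lp n x) ^ 2 * w j x - 2 * c * (φ (lp n x) * w j x)) :=
      i1.sub i2
    have h2 : ∫ x, (φ (lp n x) - c) ^ 2 * w j x = (∫ x, φ (lp n x) ^ 2 * w j x) -
        (∫ x, 2 * c * (φ (lp n x) * w j x)) + ∫ x, c ^ 2 * ((1 : ℝ) * w j x) := by
      rw [← integral_sub i1 i2, ← integral_add i12 i3]
      refine integral_congr_ae (Eventually.of_forall fun x => ?_)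
      simp only
      ring
    rw [h2, integral_const_mul, integral_const_mul] at hc
    have hD0 : 0 ≤ ∫ x, (1 : ℝ) * w j x := integral_nonneg fun x => mul_nonneg zero_le_one
      (indicator_nonneg (fun x _ => (Real.exp_pos _).le) x)
    set D : ℝ := ∫ x, (1 : ℝ) * w j x with hD
    set A : ℝ := ∫ x, φ (lp n x) ^ 2 * w j x with hA
    set B : ℝ := ∫ x, φ (lp n x) * w j x with hB
    set G : ℝ := ∫ x, (∑ i, (pd (sv i) φ (lp n x)) ^ 2) * w j x with hG
    have h3 := mul_le_mul_of_nonneg_left hc hD0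
    nlinarith [sq_nonneg (D * c - B)]
  have hL : Tendsto (fun j : ℕ => (∫ x, (1 : ℝ) * w j x) * (∫ x, (φ (lp n x)) ^ 2 * w j x) -
      (∫ x, φ (lp n x) * w j x) ^ 2) atTop
      (𝓝 (dens W t * (∫ z, φ z ^ 2 * Real.exp (-W (t, z))) -
        (∫ z, φ z * Real.exp (-W (t, z))) ^ 2)) := (l0.mul l1).sub (l2.pow 2)
  have hR : Tendsto (fun j : ℕ => κ⁻¹ * (∫ x, (1 : ℝ) * w j x) *
      ∫ x, (∑ i, (pd (sv i) φ (lp n x)) ^ 2) * w j x) atTop
      (𝓝 (κ⁻¹ * dens W t * ∫ z, (∑ i, (pd (sv i) φ z) ^ 2) * Real.exp (-W (t, z)))) :=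
    (l0.const_mul κ⁻¹).mul l3
  exact le_of_tendsto_of_tendsto' hL hR key

/-- Even fibres have the mean zero. -/
theorem Std.even_mean {W : Sp k × Sp n → ℝ} (h : ∀ t z, W (t, -z) = W (t, z)) :
    MeanLip W 0 := by
  have h0 : ∀ i : Fin n, ∀ t, mz W i t = 0 := by
    intro i t
    unfold mz cm
    have h1 : fib W (zc k i) t = 0 := by
      unfold fib
      have h2 := integral_neg_eq_self (fun z : Sp n => zc k i (t, z) * Real.exp (-W (t, z)))
        (volume : Measure (Sp n))
      have h3 : ∀ z : Sp n, zc k i (t, -z) * Real.exp (-W (t, -z)) =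
          -(zc k i (t, z) * Real.exp (-W (t, z))) := by
        intro z
        rw [h]
        unfold zc
        simp
      simp_rw [h3] at h2
      rw [integral_neg] at h2
      linarith
    rw [h1, zero_div]
  intro t t'
  simp_rw [h0]
  simp

end Pool.Agent.Q86.FIB
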