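import Pool.Agent.Q86.FIB.Der
import Pool.Agent.Q86.FIB.Hardy1
import Pool.Agent.Q86.FIB.Key2

/-!
# The term with the conditional mean over a line
-/

set_option autoImplicit false
set_option linter.unusedSectionVars false

namespace Pool.Agent.Q86.FIB

open MeasureTheory Set Filter Topology
open scoped ContDiff ENNReal

variable {n : ℕ}

namespace Std

variable {W : Sp 1 × Sp n → ℝ} (hW : Std W)
include hW

theorem mn_cont (h1 : ∫ t, dens W t = 1) : Continuous (mn W) :=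
  (hW.ld h1).G_cont.min (hW.ld h1).K_cont

theorem BB_cont (h1 : ∫ t, dens W t = 1) (s : ℝ) : Continuous (BB W s) := by
  unfold BB
  exact continuous_const.mul ((hW.mn_cont h1).rpow_const fun t =>
    Or.inl (mn_pos (hW.ld h1) t).ne')

/-- The Hardy inequality for the derivative of `Q`. -/
theorem hardyQ (h1 : ∫ t, dens W t = 1) {Q : Sp 1 → ℝ} (hQ : ContDiff ℝ ∞ Q)
    (hQs : HasCompactSupport Q) :
    ∫ t, (pd (sv 0) Q t * dens W t) ^ 2 * dens W t /
      (LD.G (dd W) (t 0) * LD.K (dd W) (t 0)) ^ 2 ≤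
      16 * ∫ t, (Lop sv (Vp W) Q t) ^ 2 * dens W t := by
  have hl := hW.ld h1
  have hder : ∀ τ, HasDerivAt (fun τ => pd (sv 0) Q (oo τ) * dd W τ)
      (Lop sv (Vp W) Q (oo τ) * dd W τ) τ := by
    intro τ
    have a1 := deriv_base (sm1 (pd_smooth hQ (sv 0))) τ
    have a2 : HasDerivAt (dd W) (pd (sv 0) (dens W) (oo τ)) τ :=
      deriv_base (sm1 hW.dens_smooth) τ
    refine (a1.mul a2).congr_deriv ?_
    have e1 : pd (sv 0) (dens W) (oo τ) = -(pd (sv 0) (Vp W) (oo τ) * dd W τ) := by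
      rw [hW.pd_dens, hW.pd_Vp, ← hW.bb_mul]
      rfl
    rw [e1]
    unfold Lop
    rw [Fin.sum_univ_one]
    ring
  have cL := (hW.bcL hQ hQs).1
  have sup1 : HasCompactSupport (fun τ => pd (sv 0) Q (oo τ) * dd W τ) := by
    have h2 : HasCompactSupport (pd (sv 0) Q) := pd_supp hQs _
    refine HasCompactSupport.mul_right ?_
    refine HasCompactSupport.intro (h2.image (continuous_apply (0 : Fin 1))) fun τ hτ => ?_
    by_contra h3
    exact hτ ⟨oo τ, subset_tsupport _ (Function.mem_support.2 h3), rfl⟩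
  have sup2 : HasCompactSupport (fun τ => Lop sv (Vp W) Q (oo τ) * dd W τ) := by
    have h2 : HasCompactSupport (Lop sv (Vp W) Q) := Lop_supp sv hQs
    refine HasCompactSupport.mul_right ?_
    refine HasCompactSupport.intro (h2.image (continuous_apply (0 : Fin 1))) fun τ hτ => ?_
    by_contra h3
    exact hτ ⟨oo τ, subset_tsupport _ (Function.mem_support.2 h3), rfl⟩
  have h2 := hl.hardy hder ((cL.comp oo_cont).mul hl.cont) sup1 sup2
  rw [oo_int, oo_int]
  refine h2.trans (le_of_eq ?_)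
  congr 1
  refine integral_congr_ae (Eventually.of_forall fun τ => ?_)
  have hd := hl.pos τ
  have e : dens W (oo τ) = dd W τ := rfl
  simp only [e]
  field_simp

/-- **The term with the conditional mean.** -/
theorem third (h1 : ∫ t, dens W t = 1) {s : ℝ} (hs : 0 < s)
    (hv : ∀ θ : Sp n, ∑ i, θ i ^ 2 = 1 →
      ∃ c, ∫ x, lin θ c x.2 ^ 2 * Real.exp (-W x) ∂(vol 1 n) ≤ s)
    {f : Sp 1 × Sp n → ℝ} (hf : ContDiff ℝ 1 f) (hfs : HasCompactSupport f) :
    Third W f (80 * Real.sqrt (∫ t : Sp 1, BB W s (t 0) * fib W (gZ f) t)) := by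
  intro Q hQ hQs
  have hl := hW.ld h1
  have cgZ := gZ_cont hf
  have pgZ := gZ_pb hf hfs
  have cfib := hW.fib_cont pgZ cgZ
  have c0 : Continuous (fun t : Sp 1 => t 0) := continuous_apply 0
  have cB : Continuous (fun t : Sp 1 => BB W s (t 0)) := (hW.BB_cont h1 s).comp c0
  have cq : Continuous (pd (sv 0) Q) := (pd_smooth hQ _).continuous
  have cd : Continuous (dens W) := hW.dens_smooth.continuous
  have cG : Continuous (fun t : Sp 1 => LD.G (dd W) (t 0)) := hl.G_cont.comp c0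
  have cK : Continuous (fun t : Sp 1 => LD.K (dd W) (t 0)) := hl.K_cont.comp c0
  have hGK : ∀ t : Sp 1, 0 < LD.G (dd W) (t 0) * LD.K (dd W) (t 0) := fun t =>
    mul_pos (hl.G_pos _) (hl.K_pos _)
  have hB0 : ∀ t : Sp 1, 0 ≤ BB W s (t 0) := fun t => (hW.BB_pos h1 hs _).le
  have hg0 : ∀ t : Sp 1, 0 ≤ fib W (gZ f) t := fib_nonneg (fun x => gZ_nonneg _ x)
  have sq : HasCompactSupport (fun t : Sp 1 => (pd (sv 0) Q t * dens W t) ^ 2) := by
    simp_rw [pow_two]
    exact (pd_supp hQs _).mul_right.mul_right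
  have cR : Continuous (fun t : Sp 1 => 400 * ((pd (sv 0) Q t * dens W t) ^ 2 * dens W t /
      (LD.G (dd W) (t 0) * LD.K (dd W) (t 0)) ^ 2)) :=
    continuous_const.mul ((((cq.mul cd).pow 2).mul cd).div ((cG.mul cK).pow 2)
      fun t => pow_ne_zero 2 (hGK t).ne')
  have hmain := int_sqrt_le (A := fun t : Sp 1 => BB W s (t 0) * fib W (gZ f) t)
    (B := fun t : Sp 1 => 400 * ((pd (sv 0) Q t * dens W t) ^ 2 * dens W t /
      (LD.G (dd W) (t 0) * LD.K (dd W) (t 0)) ^ 2))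
    (g := fun t => (∑ i, cm W (pd (zv 1 i) f) t *
      (∑ a, pd (sv a) Q t * pd (sv a) (mz W i) t)) * dens W t)
    (cB.mul cfib) cR (cc_int _ (cB.mul cfib) (hW.fib_gZ_supp hf hfs).mul_left)
    (cc_int _ cR (by
      simp_rw [mul_div_assoc]
      exact (sq.mul_right (f' := fun t : Sp 1 => dens W t /
        (LD.G (dd W) (t 0) * LD.K (dd W) (t 0)) ^ 2)).mul_left))
    (fun t => mul_nonneg (hB0 t) (hg0 t)) (fun t => ?_) (fun t => ?_)
  · refine hmain.trans ?_
    rw [integral_const_mul]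
    have h2 := hW.hardyQ h1 hQ hQs
    have h3 : Real.sqrt (400 * ∫ t, (pd (sv 0) Q t * dens W t) ^ 2 * dens W t /
        (LD.G (dd W) (t 0) * LD.K (dd W) (t 0)) ^ 2) ≤
        80 * Real.sqrt (∫ t, (Lop sv (Vp W) Q t) ^ 2 * dens W t) := by
      rw [Real.sqrt_le_left (by positivity), mul_pow, Real.sq_sqrt (integral_nonneg fun t =>
        mul_nonneg (sq_nonneg _) (hW.dens_pos t).le)]
      linarith
    calc _ ≤ Real.sqrt (∫ t : Sp 1, BB W s (t 0) * fib W (gZ f) t) *
        (80 * Real.sqrt (∫ t, (Lop sv (Vp W) Q t) ^ 2 * dens W t)) :=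
          mul_le_mul_of_nonneg_left h3 (Real.sqrt_nonneg _)
      _ = _ := by ring
  · have := hW.dens_pos t
    have := hGK t
    positivity
  · have hd := hW.dens_pos t
    have hg := hGK t
    -- the derivative of the mean
    have h2 := hW.mz_deriv h1 hs hv (t 0)
    rw [oo_zero] at h2
    obtain ⟨g, hgd⟩ : ∃ g, g = LD.G (dd W) (t 0) * LD.K (dd W) (t 0) := ⟨_, rfl⟩
    rw [← hgd] at hg h2 ⊢
    have e1 : dd W (t 0) = dens W t := by
      unfold dd
      rw [oo_zero]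
    rw [e1] at h2
    have h3 : ∑ i, cm W (pd (zv 1 i) f) t * (∑ a, pd (sv a) Q t * pd (sv a) (mz W i) t) =
        pd (sv 0) Q t * ∑ i, cm W (pd (zv 1 i) f) t * pd (sv 0) (mz W i) t := by
      rw [Finset.mul_sum]
      refine Finset.sum_congr rfl fun i _ => ?_
      rw [Fin.sum_univ_one]
      ring
    have h4 := sum_cs (fun i => cm W (pd (zv 1 i) f) t) (fun i => pd (sv 0) (mz W i) t)
    have h5 := hW.cm_gZ_le hf hfs t
    rw [h3, abs_mul, abs_mul, abs_of_pos hd]
    obtain ⟨q, hq⟩ : ∃ q, q = pd (sv 0) Q t := ⟨_, rfl⟩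
    obtain ⟨D, hD⟩ : ∃ D, D = dens W t := ⟨_, rfl⟩
    obtain ⟨b, hb⟩ : ∃ b, b = Real.sqrt (BB W s (t 0)) := ⟨_, rfl⟩
    obtain ⟨S1, hS1⟩ : ∃ S, S = ∑ i, cm W (pd (zv 1 i) f) t ^ 2 := ⟨_, rfl⟩
    obtain ⟨m, hm⟩ : ∃ m, m = |∑ i, cm W (pd (zv 1 i) f) t * pd (sv 0) (mz W i) t| := ⟨_, rfl⟩
    rw [← hS1, ← hm] at h4
    rw [← hS1, ← hD] at h5
    rw [← hb, ← hD] at h2
    rw [← hD] at hd
    rw [← hq, ← hD, ← hm]
    have hb0 : 0 ≤ b := by
      rw [hb]
      exact Real.sqrt_nonneg _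
    have hm1 : m ≤ Real.sqrt S1 * (20 * b * D / g) :=
      h4.trans (mul_le_mul_of_nonneg_left h2 (Real.sqrt_nonneg _))
    have hS0 : 0 ≤ S1 := by
      rw [hS1]
      exact Finset.sum_nonneg fun i _ => sq_nonneg _
    have r1 : Real.sqrt (BB W s (t 0) * fib W (gZ f) t) = b * Real.sqrt (fib W (gZ f) t) := by
      rw [hb, Real.sqrt_mul (hB0 t)]
    have r2 : Real.sqrt (400 * ((q * D) ^ 2 * D / g ^ 2)) = 20 * |q| * D / g * Real.sqrt D := by
      have e2 : 400 * ((q * D) ^ 2 * D / g ^ 2) = (20 * |q| * D / g) ^ 2 * D := by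
        rw [div_pow, mul_pow (20 * |q|), mul_pow (20 : ℝ), sq_abs]
        ring
      rw [e2, Real.sqrt_mul (sq_nonneg _), Real.sqrt_sq (by positivity)]
    have r3 : Real.sqrt S1 * Real.sqrt D ≤ Real.sqrt (fib W (gZ f) t) := by
      rw [← Real.sqrt_mul hS0]
      exact Real.sqrt_le_sqrt h5
    rw [r1, r2]
    have r4 : Real.sqrt D * Real.sqrt D = D := Real.mul_self_sqrt hd.le
    calc |q| * m * D ≤ |q| * (Real.sqrt S1 * (20 * b * D / g)) * D := by
          refine mul_le_mul_of_nonneg_right (mul_le_mul_of_nonneg_left hm1 (abs_nonneg _)) hd.le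
      _ = (b * (Real.sqrt S1 * Real.sqrt D)) * (20 * |q| * D / g * Real.sqrt D) := by
          have : |q| * (Real.sqrt S1 * (20 * b * D / g)) * D =
            (20 * |q| * D / g) * (b * Real.sqrt S1) * D := by ring
          rw [this]
          nth_rw 2 [← r4]
          ring
      _ ≤ _ := by
          refine mul_le_mul_of_nonneg_right (mul_le_mul_of_nonneg_left r3 hb0) (by positivity)

end Std

end Pool.Agent.Q86.FIB
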