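import Pool.Agent.Q86.FIB.Ext

/-!
# Transfer to Euclidean space
-/

set_option autoImplicit false
set_option linter.unusedSectionVars false

namespace Pool.Agent.Q86.FIB

open MeasureTheory Set Filter Topology
open scoped ContDiff InnerProductSpace

/-- The linear equivalence. -/
noncomputable abbrev lp (m : ℕ) : EuclideanSpace ℝ (Fin m) ≃L[ℝ] (Fin m → ℝ) :=
  EuclideanSpace.equiv (Fin m) ℝ

theorem dual_norm_sq {m : ℕ} (ℓ : EuclideanSpace ℝ (Fin m) →L[ℝ] ℝ) :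
    ‖ℓ‖ ^ 2 = ∑ i, (ℓ (EuclideanSpace.single i 1)) ^ 2 := by
  set v := (InnerProductSpace.toDual ℝ (EuclideanSpace ℝ (Fin m))).symm ℓ with hv
  have h1 : ‖ℓ‖ = ‖v‖ := by rw [hv, LinearIsometryEquiv.norm_map]
  have h2 : ∀ i, ℓ (EuclideanSpace.single i 1) = v i := by
    intro i
    have h3 : ⟪v, EuclideanSpace.single i (1 : ℝ)⟫_ℝ = ℓ (EuclideanSpace.single i 1) := by
      rw [hv, InnerProductSpace.toDual_symm_apply]
    rw [← h3, EuclideanSpace.inner_single_right]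
    simp
  rw [h1, EuclideanSpace.norm_sq_eq]
  exact Finset.sum_congr rfl fun i _ => by rw [h2, Real.norm_eq_abs, sq_abs]

theorem comp_smooth {m : ℕ} {φ : (Fin m → ℝ) → ℝ} (hφ : ContDiff ℝ 1 φ) (c : Fin m → ℝ) :
    ContDiff ℝ 1 (fun x : EuclideanSpace ℝ (Fin m) => φ (lp m x + c)) :=
  hφ.comp ((lp m).contDiff.add contDiff_const)

theorem norm_fderiv_sq {m : ℕ} {φ : (Fin m → ℝ) → ℝ} (hφ : ContDiff ℝ 1 φ) (c : Fin m → ℝ)
    (x : EuclideanSpace ℝ (Fin m)) :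
    ‖fderiv ℝ (fun x : EuclideanSpace ℝ (Fin m) => φ (lp m x + c)) x‖ ^ 2 =
      ∑ i, (pd (sv i) φ (lp m x + c)) ^ 2 := by
  have h1 : HasFDerivAt (fun x : EuclideanSpace ℝ (Fin m) => lp m x + c)
      (lp m : EuclideanSpace ℝ (Fin m) →L[ℝ] (Fin m → ℝ)) x :=
    (lp m).hasFDerivAt.add_const c
  have h2 := ((diff1 hφ (lp m x + c)).hasFDerivAt).comp x h1
  have h3 : fderiv ℝ (fun x : EuclideanSpace ℝ (Fin m) => φ (lp m x + c)) x =
      (fderiv ℝ φ (lp m x + c)).comp (lp m : EuclideanSpace ℝ (Fin m) →L[ℝ] (Fin m → ℝ)) :=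
    h2.fderiv
  rw [h3, dual_norm_sq]
  refine Finset.sum_congr rfl fun i _ => ?_
  have h4 : (lp m) (EuclideanSpace.single i 1) = sv i := by
    funext j
    simp [sv, EuclideanSpace.equiv, Pi.single_apply]
  have h5 : ((fderiv ℝ φ (lp m x + c)).comp
      (lp m : EuclideanSpace ℝ (Fin m) →L[ℝ] (Fin m → ℝ))) (EuclideanSpace.single i 1) =
      fderiv ℝ φ (lp m x + c) (lp m (EuclideanSpace.single i 1)) := rfl
  rw [h5, h4]
  rfl

theorem lp_int {m : ℕ} (g : (Fin m → ℝ) → ℝ) :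
    ∫ x : EuclideanSpace ℝ (Fin m), g (lp m x) = ∫ y : Fin m → ℝ, g y := by
  have h := (EuclideanSpace.volume_preserving_symm_measurableEquiv_toLp (Fin m)).integral_comp'
    (g := g)
  exact h

theorem lp_integrable {m : ℕ} {g : (Fin m → ℝ) → ℝ} (hg : Integrable g) :
    Integrable (fun x : EuclideanSpace ℝ (Fin m) => g (lp m x)) := by
  have h := (EuclideanSpace.volume_preserving_symm_measurableEquiv_toLp
    (Fin m)).integrable_comp_emb
    (MeasurableEquiv.toLp 2 (Fin m → ℝ)).symm.measurableEmbedding (g := g)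
  exact h.2 hg

theorem lp_int_c {m : ℕ} (g : (Fin m → ℝ) → ℝ) (c : Fin m → ℝ) :
    ∫ x : EuclideanSpace ℝ (Fin m), g (lp m x + c) = ∫ y : Fin m → ℝ, g y := by
  rw [lp_int (fun y => g (y + c))]
  exact integral_add_right_eq_self g c

theorem lp_integrable_c {m : ℕ} {g : (Fin m → ℝ) → ℝ} (hg : Integrable g) (c : Fin m → ℝ) :
    Integrable (fun x : EuclideanSpace ℝ (Fin m) => g (lp m x + c)) :=
  lp_integrable (g := fun y => g (y + c)) (hg.comp_add_right c)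

theorem lp_norm_sq {m : ℕ} (x : EuclideanSpace ℝ (Fin m)) : ‖x‖ ^ 2 = ∑ i, (lp m x i) ^ 2 := by
  rw [EuclideanSpace.norm_sq_eq]
  exact Finset.sum_congr rfl fun i _ => by rw [Real.norm_eq_abs, sq_abs]; rfl

end Pool.Agent.Q86.FIB
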